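import Pool.Agent.H9.K2.Stmts2
import Pool.Agent.H68.K2.AP2

/-!
# Rounded lines
-/

set_option autoImplicit false

namespace Pool.KA

open Finset Real
open Pool.Agent.H49.Ent Pool.Agent.H32.Dense Pool.STK

namespace MRN

variable {m J : ℕ}

lemma round_le (J : ℕ) (y : ℝ) :
    (⌊(2 : ℝ) ^ J * y⌋ : ℝ) ≤ 2 ^ J * y ∧ 2 ^ J * y - 1 ≤ (⌊(2 : ℝ) ^ J * y⌋ : ℝ) :=
  ⟨Int.floor_le _, by linarith [Int.lt_floor_add_one ((2 : ℝ) ^ J * y)]⟩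

/-- The position of the rounded line. -/
lemma x_close (F : Fam m J) (ω : F.Ω) (i : Fin m) :
    2 ^ J * F.x ω i - 2 ≤ 2 ^ J * F.rnd.x ω i ∧ 2 ^ J * F.rnd.x ω i ≤ 2 ^ J * F.x ω i := by
  have p2 : (0 : ℝ) < 2 ^ J := by positivity
  have ht0 : 0 ≤ F.t ω := by unfold Fam.t; positivity
  have ht1 : F.t ω ≤ 1 := by
    unfold Fam.t
    rw [div_le_one p2]
    exact_mod_cast (F.tim ω).le
  have e1 : 2 ^ J * F.x ω i = 2 ^ J * F.u ω i + F.t ω * (2 ^ J * F.d ω i) := by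
    unfold Fam.x
    ring
  have e2 : 2 ^ J * F.rnd.x ω i =
      (⌊(2 : ℝ) ^ J * F.u ω i⌋ : ℝ) + F.t ω * (⌊(2 : ℝ) ^ J * F.d ω i⌋ : ℝ) := by
    change 2 ^ J * ((⌊(2 : ℝ) ^ J * F.u ω i⌋ : ℝ) / 2 ^ J +
      F.t ω * ((⌊(2 : ℝ) ^ J * F.d ω i⌋ : ℝ) / 2 ^ J)) = _
    field_simp
  have h1 := round_le J (F.u ω i)
  have h2 := round_le J (F.d ω i)
  rw [e1, e2]
  constructor
  · have : F.t ω * (2 ^ J * F.d ω i - 1) ≤ F.t ω * (⌊(2 : ℝ) ^ J * F.d ω i⌋ : ℝ) :=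
      mul_le_mul_of_nonneg_left h2.2 ht0
    nlinarith [h1.2]
  · have : F.t ω * (⌊(2 : ℝ) ^ J * F.d ω i⌋ : ℝ) ≤ F.t ω * (2 ^ J * F.d ω i) :=
      mul_le_mul_of_nonneg_left h2.1 ht0
    linarith [h1.1]

lemma floor_of_close {x y x' y' : ℝ} (h : ⌊x⌋ = ⌊y⌋) (h1 : |x' - x| ≤ 2) (h2 : |y' - y| ≤ 2) :
    |((⌊x'⌋ - ⌊y'⌋ : ℤ) : ℝ)| ≤ 49 := by
  have a1 := Int.floor_le x
  have a2 := Int.lt_floor_add_one x
  have b1 := Int.floor_le y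
  have b2 := Int.lt_floor_add_one y
  have a1' := Int.floor_le x'
  have a2' := Int.lt_floor_add_one x'
  have b1' := Int.floor_le y'
  have b2' := Int.lt_floor_add_one y'
  rw [abs_le] at h1 h2
  rw [h] at a1 a2
  rw [abs_le]
  push_cast
  constructor <;> linarith [h1.1, h1.2, h2.1, h2.2]

lemma D_rnd (F : Fam m J) : F.rnd.D J = F.D J := by
  funext ω i
  change ⌊(2 : ℝ) ^ J * ((⌊(2 : ℝ) ^ J * F.d ω i⌋ : ℝ) / 2 ^ J)⌋ = ⌊(2 : ℝ) ^ J * F.d ω i⌋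
  rw [mul_div_cancel₀ _ (by positivity : ((2 : ℝ) ^ J) ≠ 0), Int.floor_intCast]

end MRN

open MRN in
/-- (1.3.3) **Rounded lines.** -/
theorem mrn_thm : MRNStmt := by
  intro m
  have hcc : 0 ≤ cc m := by
    unfold cc
    exact mul_nonneg (by positivity) (Real.log_nonneg (by norm_num))
  refine ⟨cc m, hcc, ?_⟩
  intro J F a e ha he
  have hp := F.isLaw.nonneg
  have hl : Det F.p F.l F.rnd.l := by
    intro ω ω' _ _ h
    have h1 := Prod.ext_iff.1 h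
    have hu : F.u ω = F.u ω' := h1.1
    have hd : F.d ω = F.d ω' := h1.2
    change ((fun i => (⌊(2 : ℝ) ^ J * F.u ω i⌋ : ℝ) / 2 ^ J),
        (fun i => (⌊(2 : ℝ) ^ J * F.d ω i⌋ : ℝ) / 2 ^ J)) =
      ((fun i => (⌊(2 : ℝ) ^ J * F.u ω' i⌋ : ℝ) / 2 ^ J),
        (fun i => (⌊(2 : ℝ) ^ J * F.d ω' i⌋ : ℝ) / 2 ^ J))
    rw [hu, hd]
  refine ⟨?_, ?_, ?_⟩
  · unfold Fam.Tm at he ⊢
    refine he.trans ?_
    refine CH_mono_cond (p := F.p) hp (X := F.T) (W' := fun ω => (F.l ω, F.Z ω))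
      (W := fun ω => (F.rnd.l ω, F.Z ω)) ?_
    intro ω ω' h1 h2 h
    exact Prod.ext (hl ω ω' h1 h2 (Prod.ext_iff.1 h).1) (Prod.ext_iff.1 h).2
  · have e1 : F.rnd.Ga a - F.Ga a = -(a * (CH F.p (F.rnd.X J) F.W - CH F.p (F.X J) F.W)) := by
      unfold Fam.Ga
      rw [D_rnd]
      change CH F.p (F.D J) F.Z - a * CH F.p (F.rnd.X J) F.W -
        (CH F.p (F.D J) F.Z - a * CH F.p (F.X J) F.W) = _
      ring
    have hc : ∀ ω (i : Fin m), |2 ^ J * F.rnd.x ω i - 2 ^ J * F.x ω i| ≤ 2 := by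
      intro ω i
      have := x_close F ω i
      rw [abs_le]
      constructor <;> linarith [this.1, this.2]
    have c1 : CH F.p (F.rnd.X J) F.W ≤ CH F.p (F.X J) F.W + cc m := by
      refine TRC.CH_le_round F.isLaw _ _ _ fun ω ω' _ _ _ h k => ?_
      have hk : ⌊(2 : ℝ) ^ J * F.x ω k⌋ = ⌊(2 : ℝ) ^ J * F.x ω' k⌋ := congrFun h k
      exact floor_of_close hk (hc ω k) (hc ω' k)
    have c2 : CH F.p (F.X J) F.W ≤ CH F.p (F.rnd.X J) F.W + cc m := by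
      refine TRC.CH_le_round F.isLaw _ _ _ fun ω ω' _ _ _ h k => ?_
      have hk : ⌊(2 : ℝ) ^ J * F.rnd.x ω k⌋ = ⌊(2 : ℝ) ^ J * F.rnd.x ω' k⌋ := congrFun h k
      refine floor_of_close hk ?_ ?_
      · rw [abs_sub_comm]; exact hc ω k
      · rw [abs_sub_comm]; exact hc ω' k
    rw [e1, abs_neg, abs_mul, abs_of_nonneg ha]
    refine mul_le_mul_of_nonneg_left ?_ ha
    rw [abs_le]
    constructor <;> linarith
  · have d1 := CH_le_add hp F.rnd.l (F.X J) F.W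
    have d2 : CH F.p F.rnd.l (fun ω => (F.X J ω, F.W ω)) ≤
        CH F.p (F.L J) (fun ω => (F.X J ω, F.W ω)) := by
      refine CH_mono_left hp ?_
      intro ω ω' _ _ h
      have h1 := Prod.ext_iff.1 (Prod.ext_iff.1 h).1
      have hu : fl J (F.u ω) = fl J (F.u ω') := h1.1
      have hd : fl J (F.d ω) = fl J (F.d ω') := h1.2
      change ((fun i => (⌊(2 : ℝ) ^ J * F.u ω i⌋ : ℝ) / 2 ^ J),
          (fun i => (⌊(2 : ℝ) ^ J * F.d ω i⌋ : ℝ) / 2 ^ J)) =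
        ((fun i => (⌊(2 : ℝ) ^ J * F.u ω' i⌋ : ℝ) / 2 ^ J),
          (fun i => (⌊(2 : ℝ) ^ J * F.d ω' i⌋ : ℝ) / 2 ^ J))
      refine Prod.ext (funext fun i => ?_) (funext fun i => ?_)
      · have := congrFun hu i
        change ⌊(2 : ℝ) ^ J * F.u ω i⌋ = ⌊(2 : ℝ) ^ J * F.u ω' i⌋ at this
        change (⌊(2 : ℝ) ^ J * F.u ω i⌋ : ℝ) / 2 ^ J = (⌊(2 : ℝ) ^ J * F.u ω' i⌋ : ℝ) / 2 ^ J
        rw [this]
      · have := congrFun hd i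
        change ⌊(2 : ℝ) ^ J * F.d ω i⌋ = ⌊(2 : ℝ) ^ J * F.d ω' i⌋ at this
        change (⌊(2 : ℝ) ^ J * F.d ω i⌋ : ℝ) / 2 ^ J = (⌊(2 : ℝ) ^ J * F.d ω' i⌋ : ℝ) / 2 ^ J
        rw [this]
    have d3 := AP2.line_le F J le_rfl
    have d4 : CH F.p (F.D J) (fun ω => (F.X J ω, F.W ω)) ≤ CH F.p (F.D J) F.Z := by
      refine CH_mono_cond hp ?_
      intro ω ω' _ _ h
      exact (Prod.ext_iff.1 (Prod.ext_iff.1 h).2).2
    linarith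

end Pool.KA
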