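import Pool.Agent.H70.KAL.TI
import Pool.Agent.H73.KAF.RST

/-!
# Clusters: chain rule for nested contexts, members, translations

`B i` are nested contexts, `C i` is a cluster (the times of several conditionally independent
copies of the root inside the window number `i`), `nx i` is the point of the root in the next
window. The context `B (i + 1)` determines `nx i`, `C i` and `B i`. So `o` is nearly independent of
`(nx i, C i)` given `B i` for all but few `i`. If the members of the cluster are exchangeable, the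
same is true with the point `m i s` of any member `s` in place of `nx i`. Hence, given
`V = (C i, B i)`, the position `X s` of a member has a law which is nearly invariant under the
translations `g t s V (a) - g t s V (a')`, for all members `t` at once.
-/

set_option autoImplicit false

namespace Pool.CLU

open Finset Real
open Pool.Agent.H49.Ent Pool.Agent.H32.Dense Pool.STK Pool.KAF Pool.KAL

/-- CLU1. Chain rule. (`C i` is the cluster together with the next point of the root.) -/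
def CLU1Stmt : Prop :=
  ∀ (Ω S : Type) [Fintype Ω] (β γ : ℕ → Type) (p : Ω → ℝ) (o : Ω → S) (B : ∀ i, Ω → β i)
    (C : ∀ i, Ω → γ i) (N : ℕ), IsLaw p →
    (∀ i < N, Det p (B (i + 1)) (fun ω => (C i ω, B i ω))) →
    (∀ i, 0 ≤ Pool.KVA.MI p o (C i) (B i)) ∧
      ∑ i ∈ range N, Pool.KVA.MI p o (C i) (B i) ≤ CH p o (B 0) ∧ CH p o (B 0) ≤ H p o

/-- CLU2. Members: all but few indices are good for all members. -/
def CLU2Stmt : Prop :=
  ∀ (Ω S : Type) [Fintype Ω] (β γ ν ι : ℕ → Type) (p : Ω → ℝ) (o : Ω → S) (B : ∀ i, Ω → β i)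
    (C : ∀ i, Ω → γ i) (nx : ∀ i, Ω → ν i) (m : ∀ i, ι i → Ω → ν i)
    (σ : ∀ i, ι i → γ i → γ i) (N : ℕ) (e : ℝ), IsLaw p → 0 < e →
    (∀ i < N, Det p (B (i + 1)) (fun ω => ((nx i ω, C i ω), B i ω))) →
    (∀ i < N, ∀ s, Function.Injective (σ i s)) →
    (∀ i < N, ∀ s z, law p (fun ω => (o ω, (m i s ω, C i ω), B i ω)) z =
      law p (fun ω => (o ω, (nx i ω, σ i s (C i ω)), B i ω)) z) →
    ∃ Bad : Finset ℕ, (Bad.card : ℝ) * e ≤ CH p o (B 0) ∧ ∀ i < N, i ∉ Bad → ∀ s,
      Pool.KVA.MI p o (fun ω => (m i s ω, C i ω)) (B i) ≤ e ∧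
      Pool.KVA.MI p o (m i s) (fun ω => (C i ω, B i ω)) ≤ e

/-- CLU3. Translations: given a typical value `v` of the context `V` the law of the position of
every member `s` is nearly invariant under the differences of the displacements from every member
`t`. -/
def CLU3Stmt : Prop :=
  ∀ (d N : ℕ) (Ω S β ι : Type) [Fintype Ω] [Fintype ι] (p : Ω → ℝ) (o : Ω → S) (V : Ω → β)
    (X : ι → Ω → Fin d → ℤ) (g : ι → ι → β → S → Fin d → ℤ) (Bd : ι → ι → Set Ω) (R e ε ε' : ℝ),
    IsLaw p → 0 < N → 0 ≤ R → 0 < ε → 0 < ε' →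
    (∀ s, Pool.KVA.MI p o (X s) V ≤ e) →
    (∀ t s ω, ω ∉ Bd t s → ∀ i, |((X s ω i - X t ω i - g t s (V ω) (o ω) i : ℤ) : ℝ)| ≤ R) →
    ∃ G : Set β, (∀ v ∈ G, 0 < law p V v) ∧
      Pr p {ω | V ω ∉ G} ≤ Fintype.card ι * e / ε + (∑ t, ∑ s, Pr p (Bd t s)) / ε' ∧
      ∀ v ∈ G, ∀ t s a a', 0 < law (cond p V v) o a → 0 < law (cond p V v) o a' →
        TIV (smp d N (cond p V v)) (smX (N := N) (X s)) (fun _ => ())
          (g t s v a - g t s v a')
          ((2 * Real.sqrt ε + ε') / law (cond p V v) o a +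
            (2 * Real.sqrt ε + ε') / law (cond p V v) o a' + 2 * (d * R / N))

/-! ### Chain rule -/

section

variable {Ω S T U W : Type} [Fintype Ω]

lemma MI_eq {p : Ω → ℝ} (hp : ∀ ω, 0 ≤ p ω) (X : Ω → S) (Y : Ω → T) (b : Ω → U) :
    Pool.KVA.MI p X Y b = CH p X b - CH p X (fun ω => (Y ω, b ω)) := by
  unfold Pool.KVA.MI
  rw [CH_chain hp]
  ring

lemma MI_nonneg {p : Ω → ℝ} (hp : ∀ ω, 0 ≤ p ω) (X : Ω → S) (Y : Ω → T) (b : Ω → U) :
    0 ≤ Pool.KVA.MI p X Y b := by
  rw [MI_eq hp]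
  have := CH_mono_cond hp (X := X) (W' := fun ω => (Y ω, b ω)) (W := b)
    (fun ω ω' _ _ h => (Prod.ext_iff.mp h).2)
  linarith

lemma H_of_law {Ω' : Type} [Fintype Ω'] {p : Ω → ℝ} {q : Ω' → ℝ}
    (X : Ω → S) (Y : Ω' → S) (h : ∀ z, law p X z = law q Y z) : H p X = H q Y := by
  classical
  rw [H_eq_sum_of_subset p X (F := univ.image X ∪ univ.image Y) Finset.subset_union_left,
    H_eq_sum_of_subset q Y (F := univ.image X ∪ univ.image Y) Finset.subset_union_right]
  exact Finset.sum_congr rfl fun z _ => by rw [h]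

open Classical in
lemma law_comp (p : Ω → ℝ) (X : Ω → S) (f : S → T) (F : Finset S) (hF : ∀ ω, X ω ∈ F) (t : T) :
    law p (fun ω => f (X ω)) t = ∑ s ∈ F, if f s = t then law p X s else 0 := by
  unfold law
  have h1 : ∀ s ∈ F, (if f s = t then ∑ ω, (if X ω = s then p ω else 0) else 0) =
      ∑ ω, (if X ω = s then (if f s = t then p ω else 0) else 0) := by
    intro s _
    by_cases h : f s = t <;> simp [h]
  rw [Finset.sum_congr rfl h1, Finset.sum_comm]
  refine Finset.sum_congr rfl fun ω _ => ?_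
  rw [Finset.sum_ite_eq, if_pos (hF ω)]

/-- Equality of laws passes to functions. -/
lemma law_comp_congr {Ω' : Type} [Fintype Ω'] {p : Ω → ℝ} {q : Ω' → ℝ}
    {X : Ω → S} {Y : Ω' → S} (h : ∀ z, law p X z = law q Y z) (f : S → T) (t : T) :
    law p (fun ω => f (X ω)) t = law q (fun ω => f (Y ω)) t := by
  classical
  rw [law_comp p X f (univ.image X ∪ univ.image Y) (fun ω =>
      Finset.mem_union_left _ (Finset.mem_image_of_mem X (mem_univ ω))),
    law_comp q Y f (univ.image X ∪ univ.image Y) (fun ω =>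
      Finset.mem_union_right _ (Finset.mem_image_of_mem Y (mem_univ ω)))]
  exact Finset.sum_congr rfl fun z _ => by rw [h]

lemma CH_of_law {Ω' : Type} [Fintype Ω'] {p : Ω → ℝ} {q : Ω' → ℝ}
    (X : Ω → S) (W : Ω → T) (X' : Ω' → S) (W' : Ω' → T)
    (h : ∀ z, law p (fun ω => (X ω, W ω)) z = law q (fun ω => (X' ω, W' ω)) z) :
    CH p X W = CH q X' W' := by
  unfold CH
  rw [H_of_law _ _ h, H_of_law W W' (law_comp_congr h Prod.snd)]

lemma MI_of_law {Ω' : Type} [Fintype Ω'] {p : Ω → ℝ} {q : Ω' → ℝ} (hp : ∀ ω, 0 ≤ p ω)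
    (hq : ∀ ω, 0 ≤ q ω)
    (X : Ω → S) (Y : Ω → T) (b : Ω → U) (X' : Ω' → S) (Y' : Ω' → T) (b' : Ω' → U)
    (h : ∀ z, law p (fun ω => (X ω, Y ω, b ω)) z = law q (fun ω => (X' ω, Y' ω, b' ω)) z) :
    Pool.KVA.MI p X Y b = Pool.KVA.MI q X' Y' b' := by
  rw [MI_eq hp, MI_eq hq, CH_of_law X (fun ω => (Y ω, b ω)) X' (fun ω => (Y' ω, b' ω)) h,
    CH_of_law X b X' b' (law_comp_congr h (fun z => (z.1, z.2.2)))]

/-- A function of the second variable has less dependence. -/
lemma MI_mono {p : Ω → ℝ} (hp : ∀ ω, 0 ≤ p ω) (X : Ω → S) (Y : Ω → T) (Y' : Ω → W) (b : Ω → U)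
    (h : Det p (fun ω => (Y ω, b ω)) Y') :
    Pool.KVA.MI p X Y' b ≤ Pool.KVA.MI p X Y b := by
  rw [MI_eq hp, MI_eq hp]
  have := CH_mono_cond hp (X := X) (W' := fun ω => (Y ω, b ω)) (W := fun ω => (Y' ω, b ω))
    (fun ω ω' a c hh => Prod.ext (h ω ω' a c hh) (Prod.ext_iff.mp hh).2)
  linarith

/-- Moving a part of the second variable into the context. -/
lemma MI_pair_ge {p : Ω → ℝ} (hp : ∀ ω, 0 ≤ p ω) (X : Ω → S) (Y : Ω → T) (C : Ω → W) (b : Ω → U) :
    Pool.KVA.MI p X Y (fun ω => (C ω, b ω)) ≤ Pool.KVA.MI p X (fun ω => (Y ω, C ω)) b := by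
  rw [MI_eq hp, MI_eq hp]
  have h1 := CH_mono_cond hp (X := X) (W' := fun ω => (C ω, b ω)) (W := b)
    (fun ω ω' _ _ h => (Prod.ext_iff.mp h).2)
  have h2 : CH p X (fun ω => (Y ω, C ω, b ω)) = CH p X (fun ω => ((Y ω, C ω), b ω)) := by
    refine CH_congr hp ?_ ?_ ?_ ?_ <;> intro ω ω' _ _ h <;> simp only [Prod.mk.injEq] at h ⊢ <;>
      tauto
  rw [h2]
  linarith

end

theorem clu1_thm : CLU1Stmt := by
  intro Ω S _ β γ p o B C N hp hB
  refine ⟨fun i => MI_nonneg hp.nonneg _ _ _, ?_, ?_⟩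
  · have h : ∀ n ≤ N, ∑ i ∈ range n, Pool.KVA.MI p o (C i) (B i) ≤ CH p o (B 0) - CH p o (B n) := by
      intro n
      induction n with
      | zero => intro _; simp
      | succ n ih =>
        intro hn
        rw [Finset.sum_range_succ, MI_eq hp.nonneg]
        have h1 := ih (by omega)
        have h2 := CH_mono_cond hp.nonneg (X := o) (hB n (by omega))
        linarith
    have h1 := h N le_rfl
    have h2 := CH_nonneg hp.nonneg o (B N)
    linarith
  · have h1 := subadd hp.nonneg hp.sum_one (X := o) (Y := B 0)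
      (W := fun ω => (o ω, B 0 ω)) (fun _ _ _ _ h => h)
    unfold CH
    linarith

theorem clu2_thm : CLU2Stmt := by
  classical
  intro Ω S _ β γ ν ι p o B C nx m σ N e hp he hB hσ hlaw
  have h1 := clu1_thm Ω S β (fun i => ν i × γ i) p o B (fun i ω => (nx i ω, C i ω)) N hp hB
  refine ⟨(range N).filter (fun i => e < Pool.KVA.MI p o (fun ω => (nx i ω, C i ω)) (B i)), ?_, ?_⟩
  · have h2 : ((range N).filter
        (fun i => e < Pool.KVA.MI p o (fun ω => (nx i ω, C i ω)) (B i))).card * e ≤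
        ∑ i ∈ (range N).filter (fun i => e < Pool.KVA.MI p o (fun ω => (nx i ω, C i ω)) (B i)),
          Pool.KVA.MI p o (fun ω => (nx i ω, C i ω)) (B i) := by
      rw [← nsmul_eq_mul]
      exact Finset.card_nsmul_le_sum _ _ _ fun i hi => (Finset.mem_filter.mp hi).2.le
    have h3 : ∑ i ∈ (range N).filter
        (fun i => e < Pool.KVA.MI p o (fun ω => (nx i ω, C i ω)) (B i)),
          Pool.KVA.MI p o (fun ω => (nx i ω, C i ω)) (B i) ≤
        ∑ i ∈ range N, Pool.KVA.MI p o (fun ω => (nx i ω, C i ω)) (B i) :=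
      Finset.sum_le_sum_of_subset_of_nonneg (Finset.filter_subset _ _) fun i _ _ => h1.1 i
    exact h2.trans (h3.trans h1.2.1)
  · intro i hi hbad s
    have h2 : Pool.KVA.MI p o (fun ω => (nx i ω, C i ω)) (B i) ≤ e := by
      by_contra hlt
      push Not at hlt
      exact hbad (Finset.mem_filter.mpr ⟨Finset.mem_range.mpr hi, hlt⟩)
    have h3 : Pool.KVA.MI p o (fun ω => (m i s ω, C i ω)) (B i) ≤ e := by
      have e1 := MI_of_law hp.nonneg hp.nonneg o (fun ω => (m i s ω, C i ω)) (B i) o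
        (fun ω => (nx i ω, σ i s (C i ω))) (B i) (hlaw i hi s)
      rw [e1]
      refine (MI_mono hp.nonneg o (fun ω => (nx i ω, C i ω)) _ (B i) ?_).trans h2
      intro ω ω' _ _ h
      simp only [Prod.mk.injEq] at h ⊢
      exact ⟨h.1.1, by rw [h.1.2]⟩
    exact ⟨h3, (MI_pair_ge hp.nonneg o (m i s) (C i) (B i)).trans h3⟩

/-! ### Translations -/

section

variable {Ω S T U : Type} [Fintype Ω]

/-- The dependence in the law conditioned on a value of the context. -/
noncomputable def DD (p : Ω → ℝ) (o : Ω → S) (X : Ω → T) : ℝ :=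
  H p o + H p X - H p (fun ω => (o ω, X ω))

lemma DD_nonneg {p : Ω → ℝ} (hp : IsLaw p) (o : Ω → S) (X : Ω → T) : 0 ≤ DD p o X := by
  have h1 := subadd hp.nonneg hp.sum_one (X := o) (Y := X)
    (W := fun ω => (o ω, X ω)) (fun _ _ _ _ h => h)
  unfold DD
  linarith

lemma cond_law {p : Ω → ℝ} (hp : IsLaw p) (V : Ω → U) {v : U} (hv : 0 < law p V v) :
    IsLaw (cond p V v) := ⟨fun ω => cond_nonneg hp.nonneg V v ω, sum_cond p V hv.ne'⟩

open Classical in
lemma MI_eq_sum {p : Ω → ℝ} (hp : ∀ ω, 0 ≤ p ω) (o : Ω → S) (X : Ω → T) (V : Ω → U) :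
    Pool.KVA.MI p o X V = ∑ v ∈ univ.image V, law p V v * DD (cond p V v) o X := by
  unfold Pool.KVA.MI DD
  rw [CH_eq_sum hp, CH_eq_sum hp, CH_eq_sum hp, ← Finset.sum_add_distrib,
    ← Finset.sum_sub_distrib]
  exact Finset.sum_congr rfl fun v _ => by ring

open Classical in
lemma Pr_eq_sum_cond {p : Ω → ℝ} (hp : ∀ ω, 0 ≤ p ω) (V : Ω → U) (E : Set Ω) :
    Pr p E = ∑ v ∈ univ.image V, law p V v * Pr (cond p V v) E := by
  unfold Pr
  have h1 : ∀ v ∈ univ.image V, law p V v * law (cond p V v) (fun ω => ω ∈ E) True =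
      ∑ ω, (if V ω = v then (if ω ∈ E then p ω else 0) else 0) := by
    intro v _
    rw [law_cond]
    rcases (law_nonneg hp V v).eq_or_lt with h0 | h0
    · rw [← h0, zero_mul]
      symm
      refine Finset.sum_eq_zero fun ω _ => ?_
      by_cases h : V ω = v
      · have h2 : p ω = 0 := by
          have h3 := le_law hp V ω
          rw [h, ← h0] at h3
          exact le_antisymm h3 (hp ω)
        simp [h2]
      · simp [h]
    · rw [mul_div_cancel₀ _ h0.ne']
      unfold law
      refine Finset.sum_congr rfl fun ω _ => ?_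
      by_cases h : V ω = v <;> by_cases h' : ω ∈ E <;> simp [h, h']
  rw [Finset.sum_congr rfl h1, Finset.sum_comm]
  unfold law
  refine Finset.sum_congr rfl fun ω _ => ?_
  rw [Finset.sum_ite_eq, if_pos (Finset.mem_image_of_mem V (mem_univ ω))]
  by_cases h' : ω ∈ E <;> simp [h']

end

theorem clu3_thm : CLU3Stmt := by
  classical
  intro d N Ω S β ι _ _ p o V X g Bd R e ε ε' hp hN hR hε hε' hMI hX
  obtain ⟨G, hG⟩ : ∃ G : Set β, ∀ v, v ∈ G ↔ 0 < law p V v ∧
      (∀ s, DD (cond p V v) o (X s) ≤ ε) ∧ ∀ t s, Pr (cond p V v) (Bd t s) ≤ ε' :=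
    ⟨{v | 0 < law p V v ∧ (∀ s, DD (cond p V v) o (X s) ≤ ε) ∧
      ∀ t s, Pr (cond p V v) (Bd t s) ≤ ε'}, fun v => Iff.rfl⟩
  refine ⟨G, fun v hv => ((hG v).mp hv).1, ?_, ?_⟩
  · have h1 : Pr p {ω | V ω ∉ G} = ∑ v ∈ univ.image V, law p V v * (if v ∈ G then 0 else 1) := by
      rw [← sum_mul_eq_sum_image p V (fun v => if v ∈ G then 0 else 1), Pool.KAF.Pr_eq]
      refine Finset.sum_congr rfl fun ω _ => ?_
      by_cases h : V ω ∈ G <;> simp [h]
    have h2 : ∀ v ∈ univ.image V, law p V v * (if v ∈ G then 0 else 1) ≤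
        (∑ s, law p V v * DD (cond p V v) o (X s)) / ε +
          (∑ t, ∑ s, law p V v * Pr (cond p V v) (Bd t s)) / ε' := by
      intro v _
      rcases (law_nonneg hp.nonneg V v).eq_or_lt with h0 | h0
      · rw [← h0]; simp
      have hl := cond_law hp V h0
      have hD : ∀ s, 0 ≤ DD (cond p V v) o (X s) := fun s => DD_nonneg hl _ _
      have hP : ∀ t s, 0 ≤ Pr (cond p V v) (Bd t s) := fun t s =>
        Pool.KAF.Pr_nonneg hl.nonneg _
      simp_rw [← Finset.mul_sum]
      rw [mul_div_assoc, mul_div_assoc, ← mul_add]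
      refine mul_le_mul_of_nonneg_left ?_ h0.le
      have s1 : 0 ≤ (∑ s, DD (cond p V v) o (X s)) / ε :=
        div_nonneg (Finset.sum_nonneg fun s _ => hD s) hε.le
      have s2 : 0 ≤ (∑ t, ∑ s, Pr (cond p V v) (Bd t s)) / ε' :=
        div_nonneg (Finset.sum_nonneg fun t _ => Finset.sum_nonneg fun s _ => hP t s) hε'.le
      by_cases hv : v ∈ G
      · rw [if_pos hv]; linarith
      · rw [if_neg hv]
        have hv' : ¬ (0 < law p V v ∧ (∀ s, DD (cond p V v) o (X s) ≤ ε) ∧
          ∀ t s, Pr (cond p V v) (Bd t s) ≤ ε') := fun h => hv ((hG v).mpr h)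
        by_cases hD' : ∀ s, DD (cond p V v) o (X s) ≤ ε
        · have hP' : ¬ ∀ t s, Pr (cond p V v) (Bd t s) ≤ ε' := fun h => hv' ⟨h0, hD', h⟩
          push Not at hP'
          obtain ⟨t, s, hts⟩ := hP'
          have h3 : Pr (cond p V v) (Bd t s) ≤ ∑ t, ∑ s, Pr (cond p V v) (Bd t s) :=
            (Finset.single_le_sum (fun s _ => hP t s) (mem_univ s)).trans
              (Finset.single_le_sum (f := fun t => ∑ s, Pr (cond p V v) (Bd t s))
                (fun t _ => Finset.sum_nonneg fun s _ => hP t s) (mem_univ t))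
          have h4 : 1 ≤ (∑ t, ∑ s, Pr (cond p V v) (Bd t s)) / ε' := by
            rw [le_div_iff₀ hε']
            linarith
          linarith
        · push Not at hD'
          obtain ⟨s, hs⟩ := hD'
          have h3 : DD (cond p V v) o (X s) ≤ ∑ s, DD (cond p V v) o (X s) :=
            Finset.single_le_sum (f := fun s => DD (cond p V v) o (X s))
              (fun s _ => hD s) (mem_univ s)
          have h4 : 1 ≤ (∑ s, DD (cond p V v) o (X s)) / ε := by
            rw [le_div_iff₀ hε]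
            linarith
          linarith
    rw [h1]
    refine (Finset.sum_le_sum h2).trans ?_
    rw [Finset.sum_add_distrib, ← Finset.sum_div, ← Finset.sum_div]
    have e1 : ∑ v ∈ univ.image V, ∑ s, law p V v * DD (cond p V v) o (X s) =
        ∑ s, Pool.KVA.MI p o (X s) V := by
      rw [Finset.sum_comm]
      exact Finset.sum_congr rfl fun s _ => (MI_eq_sum hp.nonneg o (X s) V).symm
    have e2 : ∑ v ∈ univ.image V, ∑ t, ∑ s, law p V v * Pr (cond p V v) (Bd t s) =
        ∑ t, ∑ s, Pr p (Bd t s) := by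
      rw [Finset.sum_comm]
      refine Finset.sum_congr rfl fun t _ => ?_
      rw [Finset.sum_comm]
      exact Finset.sum_congr rfl fun s _ => (Pr_eq_sum_cond hp.nonneg V (Bd t s)).symm
    rw [e1, e2]
    have e3 : ∑ s, Pool.KVA.MI p o (X s) V ≤ Fintype.card ι * e := by
      refine (Finset.sum_le_card_nsmul _ _ e fun s _ => hMI s).trans ?_
      rw [nsmul_eq_mul, Finset.card_univ]
    gcongr
  · intro v hv t s a a' ha ha'
    obtain ⟨h0, hD, hP⟩ := (hG v).mp hv
    have hl := cond_law hp V h0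
    have hc : ∀ s, H (cond p V v) (fun ω => (X s ω, ())) + H (cond p V v) o -
        H (cond p V v) (fun ω => ((X s ω, ()), o ω)) ≤ ε := by
      intro s
      have h1 : H (cond p V v) (fun ω => (X s ω, ())) = H (cond p V v) (X s) := by
        refine H_congr hl.nonneg ?_ ?_
        · intro ω ω' _ _ h
          exact Prod.ext h rfl
        · intro ω ω' _ _ h
          exact congrArg Prod.fst h
      have h2 : H (cond p V v) (fun ω => ((X s ω, ()), o ω)) =
          H (cond p V v) (fun ω => (o ω, X s ω)) := by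
        refine H_congr hl.nonneg ?_ ?_
        · intro ω ω' _ _ h
          simp only [Prod.mk.injEq] at h ⊢
          tauto
        · intro ω ω' _ _ h
          simp only [Prod.mk.injEq] at h ⊢
          tauto
      rw [h1, h2]
      have := hD s
      unfold DD at this
      linarith
    have hV : ∀ ω, 0 < cond p V v ω → V ω = v := fun ω h => ((cond_pos_iff hp.nonneg V v ω).mp h).2
    -- the displacement only matters on the support
    have h1 := ti1_thm d N Ω S Unit (cond p V v) (X s) (X t) (fun _ => ()) o (g t s v)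
      (Bd t s ∪ {ω | V ω ≠ v}) R ε ε a a' hl hN hR (by
        intro ω hω i
        simp only [Set.mem_union, Set.mem_ofPred_eq, not_or, not_not] at hω
        have h2 := hX t s ω hω.1 i
        rw [hω.2] at h2
        exact h2) (hc s) (hc t) ha ha'
    have h2 : Pr (cond p V v) (Bd t s ∪ {ω | V ω ≠ v}) ≤ ε' := by
      refine (Pool.KAF.Pr_mono hl.nonneg ?_).trans (hP t s)
      intro ω hω hE
      rcases hE with hE | hE
      · exact hE
      · exact absurd (hV ω hω) hE
    intro E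
    refine (h1 E).trans ?_
    have h3 : Real.sqrt ε + Real.sqrt ε + Pr (cond p V v) (Bd t s ∪ {ω | V ω ≠ v}) ≤
        2 * Real.sqrt ε + ε' := by linarith
    gcongr

end Pool.CLU
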