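import Pool.Agent.H5.K2.CLU0

/-!
# One level clusters: their law, and separation of typical clusters

`lv n D j i` is the path which is `i` at the level `j` and zero elsewhere. The leaves `c (lv j i)`,
`i ≤ n`, of the tree are `n + 1` copies which are conditionally independent given the label
`g (k + j)`. A typical cluster of copies has at most `m` members in every cell.
-/

set_option autoImplicit false

namespace Pool.CLU

open Finset Real
open Pool.Agent.H49.Ent Pool.Agent.H32.Dense Pool.STK Pool.KAF Pool.KAL

section

variable {Ω Ω' S T κ γ : Type} [Fintype Ω] [Fintype Ω']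

open Pool.K2S (cpn)

/-- Images of copies. -/
lemma marg_cpn {q : Ω' → ℝ} {p : Ω → ℝ} {pr : Ω' → Ω} (h : Marg q p pr) (z : Ω → T) (n : ℕ) :
    Marg (cpn q (fun w => z (pr w)) n) (cpn p z n) (fun w => fun i => pr (w i)) := by
  classical
  intro v
  have h1 : ∀ w : Fin (n + 1) → Ω', (if (fun i => pr (w i)) = v then
      cpn q (fun w => z (pr w)) n w else 0) =
      if ∀ i, z (v i) = z (v 0) then
        (∏ i, if pr (w i) = v i then q (w i) else 0) / law p z (z (v 0)) ^ n else 0 := by
    intro w
    by_cases hw : ∀ i, pr (w i) = v i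
    · rw [if_pos (funext hw)]
      unfold cpn
      simp only [hw, h.law z]
      by_cases hz : ∀ i, z (v i) = z (v 0)
      · rw [if_pos hz, if_pos hz]
        simp
      · rw [if_neg hz, if_neg hz]
    · rw [if_neg fun hh => hw fun i => congrFun hh i]
      push Not at hw
      obtain ⟨i, hi⟩ := hw
      rw [Finset.prod_eq_zero (Finset.mem_univ i) (if_neg hi), zero_div, ite_self]
  have h1' : ∑ w : Fin (n + 1) → Ω', (@ite ℝ ((fun i => pr (w i)) = v) (Classical.propDecidable _)
      (cpn q (fun w => z (pr w)) n w) 0) = ∑ w : Fin (n + 1) → Ω',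
      if ∀ i, z (v i) = z (v 0) then
        (∏ i, if pr (w i) = v i then q (w i) else 0) / law p z (z (v 0)) ^ n else 0 := by
    refine Finset.sum_congr rfl fun w _ => ?_
    rw [← h1 w]
    congr
  refine h1'.trans ?_
  unfold cpn
  by_cases hz : ∀ i, z (v i) = z (v 0)
  · simp only [hz, implies_true, if_true]
    rw [← Finset.sum_div]
    congr 1
    have h2 := Finset.prod_univ_sum (fun _ : Fin (n + 1) => (univ : Finset Ω'))
      (fun j x => if pr x = v j then q x else 0)
    rw [Fintype.piFinset_univ] at h2
    rw [← h2]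
    exact Finset.prod_congr rfl fun i _ => h (v i)
  · simp only [if_neg hz, Finset.sum_const_zero]

open Classical in
/-- Products over the copies. -/
lemma sum_cpn_prod {p : Ω → ℝ} (z : Ω → T) (n : ℕ) (f : Ω → ℝ) :
    ∑ w, cpn p z n w * ∏ i, f (w i) =
      ∑ t ∈ univ.image z, (∑ ω, if z ω = t then p ω * f ω else 0) ^ (n + 1) / law p z t ^ n := by
  have h1 : ∀ t ∈ univ.image z, (∑ ω, if z ω = t then p ω * f ω else 0) ^ (n + 1) /
      law p z t ^ n = ∑ w : Fin (n + 1) → Ω, if z (w 0) = t then
        cpn p z n w * ∏ i, f (w i) else 0 := by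
    intro t _
    have h2 := Finset.prod_univ_sum (fun _ : Fin (n + 1) => (univ : Finset Ω))
      (fun _ x => if z x = t then p x * f x else 0)
    rw [Fintype.piFinset_univ, Finset.prod_const, Finset.card_univ, Fintype.card_fin] at h2
    rw [h2, Finset.sum_div]
    refine Finset.sum_congr rfl fun w _ => ?_
    by_cases hw : ∀ i, z (w i) = t
    · rw [if_pos (hw 0)]
      have h3 : (∏ i, if z (w i) = t then p (w i) * f (w i) else 0) =
          (∏ i, p (w i)) * ∏ i, f (w i) := by
        rw [← Finset.prod_mul_distrib]
        exact Finset.prod_congr rfl fun i _ => if_pos (hw i)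
      unfold cpn
      rw [h3, if_pos fun i => (hw i).trans (hw 0).symm, hw 0]
      ring
    · have hw' := hw
      push Not at hw'
      obtain ⟨i, hi⟩ := hw'
      rw [Finset.prod_eq_zero (Finset.mem_univ i) (if_neg hi), zero_div]
      by_cases h0 : z (w 0) = t
      · rw [if_pos h0]
        unfold cpn
        rw [if_neg fun hh => hi ((hh i).trans h0), zero_mul]
      · rw [if_neg h0]
  rw [Finset.sum_congr rfl h1, Finset.sum_comm]
  refine Finset.sum_congr rfl fun w _ => ?_
  rw [Finset.sum_ite_eq, if_pos (Finset.mem_image_of_mem z (mem_univ _))]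

open Classical in
/-- **SEP**. If every cell has conditional probability at most `q` given `z`, outside a set of
probability `η`, then outside probability `#κ (1 + q) ^ (n + 1) / 2 ^ (m + 1) + η` no cell contains
more than `m` of the `n + 1` copies. -/
theorem sep_thm [Fintype κ] {p : Ω → ℝ} (hp : IsLaw p) (z : Ω → T) (cell : Ω → κ) (n m : ℕ)
    (q η : ℝ) (hq : 0 ≤ q)
    (h : Pr p {ω | ∃ a, q * law p z (z ω) < law p (fun v => (cell v, z v)) (a, z ω)} ≤ η) :
    Pr (cpn p z n) {w | ∃ a, m < (univ.filter fun i => cell (w i) = a).card} ≤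
      Fintype.card κ * ((1 + q) ^ (n + 1) / 2 ^ (m + 1)) + η := by
  obtain ⟨I, hI⟩ : ∃ I : Set (Fin (n + 1) → Ω) → (Fin (n + 1) → Ω) → ℝ, ∀ E,
      Pr (cpn p z n) E = ∑ w, I E w ∧ (∀ w ∈ E, I E w = cpn p z n w) ∧ ∀ w ∉ E, I E w = 0 :=
    ⟨fun E w => if w ∈ E then cpn p z n w else 0, fun E => ⟨Pool.KAF.Pr_eq _ E,
      fun w hw => if_pos hw, fun w hw => if_neg hw⟩⟩
  have hP : ∀ E, Pr (cpn p z n) E = ∑ w, I E w := fun E => (hI E).1
  have hI1 : ∀ E, ∀ w ∈ E, I E w = cpn p z n w := fun E => (hI E).2.1
  have hI2 : ∀ E, ∀ w ∉ E, I E w = 0 := fun E => (hI E).2.2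
  have hI0 : ∀ E w, 0 ≤ I E w := by
    intro E w
    by_cases hw : w ∈ E
    · rw [hI1 E w hw]; exact cpn_nonneg hp.nonneg z n w
    · rw [hI2 E w hw]
  set Bd : Set Ω := {ω | ∃ a, q * law p z (z ω) < law p (fun v => (cell v, z v)) (a, z ω)} with hBd
  -- the bad labels
  have hb : Pr (cpn p z n) {w | w 0 ∈ Bd} ≤ η := by
    have h1 := (cpn_marg hp.nonneg z n 0).law (fun ω => ω ∈ Bd) True
    unfold Pr at h ⊢
    exact h1.le.trans h
  -- one cell
  have hcell : ∀ a : κ, Pr (cpn p z n) {w | w 0 ∉ Bd ∧
      m < (univ.filter fun i => cell (w i) = a).card} ≤ (1 + q) ^ (n + 1) / 2 ^ (m + 1) := by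
    intro a
    -- law restricted to the good labels
    set f : Ω → ℝ := fun ω => if ω ∈ Bd then 0 else if cell ω = a then 2 else 1 with hf
    have hf0 : ∀ ω, 0 ≤ f ω := by
      intro ω
      simp only [hf]
      split_ifs <;> norm_num
    have h1 : Pr (cpn p z n) {w | w 0 ∉ Bd ∧
        m < (univ.filter fun i => cell (w i) = a).card} * 2 ^ (m + 1) ≤
        ∑ w, cpn p z n w * ∏ i, f (w i) := by
      rw [hP, Finset.sum_mul]
      refine Finset.sum_le_sum fun w _ => ?_
      have hcw := cpn_nonneg hp.nonneg z n w
      by_cases hw : w ∈ {w : Fin (n + 1) → Ω | w 0 ∉ Bd ∧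
        m < (univ.filter fun i => cell (w i) = a).card}
      · rw [hI1 _ w hw]
        rcases hcw.eq_or_lt with h0 | h0
        · rw [← h0, zero_mul, zero_mul]
        refine mul_le_mul_of_nonneg_left ?_ hcw
        obtain ⟨hw1, hw2⟩ := hw
        have hzz := (cpn_pos hp.nonneg z n w h0).2
        have hgood : ∀ i, w i ∉ Bd := by
          intro i hi
          refine hw1 ?_
          simp only [hBd, Set.mem_ofPred_eq] at hi ⊢
          rwa [hzz i] at hi
        have h2 : ∏ i, f (w i) = 2 ^ (univ.filter fun i => cell (w i) = a).card := by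
          have h3 : ∀ i, f (w i) = if cell (w i) = a then 2 else 1 := by
            intro i
            simp only [hf]
            rw [if_neg (hgood i)]
          rw [Finset.prod_congr rfl fun i _ => h3 i, Finset.prod_ite, Finset.prod_const,
            Finset.prod_const_one, mul_one]
        rw [h2]
        exact pow_le_pow_right₀ (by norm_num) hw2
      · rw [hI2 _ w hw, zero_mul]
        exact mul_nonneg hcw (Finset.prod_nonneg fun i _ => hf0 _)
    have h2 : ∑ w, cpn p z n w * ∏ i, f (w i) ≤ (1 + q) ^ (n + 1) := by
      rw [sum_cpn_prod]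
      have h3 : ∀ t ∈ univ.image z, (∑ ω, if z ω = t then p ω * f ω else 0) ^ (n + 1) /
          law p z t ^ n ≤ law p z t * (1 + q) ^ (n + 1) := by
        intro t ht
        obtain ⟨ω₀, _, hω₀⟩ := Finset.mem_image.mp ht
        have hs0 : 0 ≤ ∑ ω, (if z ω = t then p ω * f ω else 0) :=
          Finset.sum_nonneg fun ω _ => by
            split_ifs
            · exact mul_nonneg (hp.nonneg ω) (hf0 ω)
            · exact le_rfl
        have hs : ∑ ω, (if z ω = t then p ω * f ω else 0) ≤ law p z t * (1 + q) := by
          by_cases hg : ω₀ ∈ Bd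
          · have h5 : ∑ ω, (if z ω = t then p ω * f ω else 0) = 0 := by
              refine Finset.sum_eq_zero fun ω _ => ?_
              split_ifs with hz
              · have : ω ∈ Bd := by
                  simp only [hBd, Set.mem_ofPred_eq] at hg ⊢
                  rwa [hz, ← hω₀]
                simp only [hf, if_pos this, mul_zero]
              · rfl
            rw [h5]
            exact mul_nonneg (law_nonneg hp.nonneg _ _) (by linarith)
          · have h5 : ∑ ω, (if z ω = t then p ω * f ω else 0) ≤
                law p z t + law p (fun v => (cell v, z v)) (a, t) := by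
              unfold law
              rw [← Finset.sum_add_distrib]
              refine Finset.sum_le_sum fun ω _ => ?_
              have hpω := hp.nonneg ω
              by_cases hz : z ω = t
              · by_cases hca : cell ω = a
                · simp only [hf, hz, hca, if_true]
                  split_ifs <;> linarith
                · simp only [hf, hz, hca, if_true, if_false, Prod.mk.injEq, false_and]
                  split_ifs <;> linarith
              · simp [hz]
            have h6 : law p (fun v => (cell v, z v)) (a, t) ≤ q * law p z t := by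
              by_contra hcon
              push Not at hcon
              exact hg ⟨a, by rw [hω₀]; exact hcon⟩
            linarith
        rcases (law_nonneg hp.nonneg z t).eq_or_lt with h0 | h0
        · rw [← h0, zero_mul] at hs ⊢
          have : ∑ ω, (if z ω = t then p ω * f ω else 0) = 0 := le_antisymm hs hs0
          rw [this]
          simp
        · rw [div_le_iff₀ (by positivity)]
          calc (∑ ω, if z ω = t then p ω * f ω else 0) ^ (n + 1)
              ≤ (law p z t * (1 + q)) ^ (n + 1) := pow_le_pow_left₀ hs0 hs _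
            _ = law p z t * (1 + q) ^ (n + 1) * law p z t ^ n := by rw [mul_pow]; ring
      refine (Finset.sum_le_sum h3).trans ?_
      rw [← Finset.sum_mul, sum_law, hp.sum_one, one_mul]
    rw [le_div_iff₀ (by positivity)]
    exact h1.trans h2
  -- union
  have hun : Pr (cpn p z n) {w | ∃ a, m < (univ.filter fun i => cell (w i) = a).card} ≤
      (∑ a : κ, Pr (cpn p z n) {w | w 0 ∉ Bd ∧
        m < (univ.filter fun i => cell (w i) = a).card}) + Pr (cpn p z n) {w | w 0 ∈ Bd} := by
    simp only [hP]
    rw [Finset.sum_comm, ← Finset.sum_add_distrib]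
    refine Finset.sum_le_sum fun w _ => ?_
    have hnn := Finset.sum_nonneg fun (a : κ) (_ : a ∈ univ) => hI0 {w | w 0 ∉ Bd ∧
      m < (univ.filter fun i => cell (w i) = a).card} w
    have hn2 := hI0 {w | w 0 ∈ Bd} w
    by_cases hw : w ∈ {w : Fin (n + 1) → Ω |
        ∃ a, m < (univ.filter fun i => cell (w i) = a).card}
    · rw [hI1 _ w hw]
      by_cases hB : w 0 ∈ Bd
      · rw [hI1 {w | w 0 ∈ Bd} w hB]
        linarith
      · obtain ⟨a, ha⟩ := hw
        have h1 := Finset.single_le_sum (fun (a : κ) _ => hI0 {w | w 0 ∉ Bd ∧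
          m < (univ.filter fun i => cell (w i) = a).card} w) (Finset.mem_univ a)
        rw [hI1 {w | w 0 ∉ Bd ∧ m < (univ.filter fun i => cell (w i) = a).card} w
          ⟨hB, ha⟩] at h1
        linarith
    · rw [hI2 _ w hw]
      linarith
  refine hun.trans (add_le_add ?_ hb)
  refine (Finset.sum_le_card_nsmul _ _ _ fun a _ => hcell a).trans ?_
  rw [nsmul_eq_mul, Finset.card_univ]

/-- The path which is `i` at the level `j` and zero elsewhere. -/
def lv {n D : ℕ} (j : Fin D) (i : Fin (n + 1)) : Pa n D := fun j' => if j' = j then i else 0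

/-- The members of a one level cluster are conditionally independent copies. -/
theorem lv_marg {p : Ω → ℝ} (hp : ∀ ω, 0 ≤ p ω) (g : ℕ → Ω → γ) (n : ℕ) :
    ∀ (D k : ℕ) (j : Fin D), Marg (tl p g n D k) (cpn p (g (k + j)) n)
      (fun c => fun i => c (lv j i)) := by
  intro D
  induction D with
  | zero => intro k j; exact j.elim0
  | succ D ih =>
    intro k j
    have m1 := marg_of_equiv (q := tl p g n (D + 1) k)
      (r := cpn (tl p g n D (k + 1)) (fun x => g k (x 0)) n) (spl Ω n D) (fun c => rfl)
    refine Fin.cases ?_ (fun j' => ?_) j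
    · have m2 := marg_cpn (tl_marg hp g n D (k + 1) 0) (g k) n
      have m3 := m1.comp m2
      have e : (fun c : Pa n (D + 1) → Ω => fun i : Fin (n + 1) => c (lv 0 i)) =
          fun c => fun i => (spl Ω n D c i) 0 := by
        funext c i
        simp only [spl, Equiv.coe_fn_mk, sb]
        congr 1
        funext j'
        unfold lv
        refine Fin.cases ?_ (fun j'' => ?_) j'
        · simp
        · rw [if_neg (Fin.succ_ne_zero j''), Fin.cons_succ]
          rfl
      rw [e]
      simpa using m3
    · have m2 := cpn_marg (tl_nonneg hp g n D (k + 1)) (fun x => g k (x 0)) n 0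
      have m3 := (m1.comp m2).comp (ih (k + 1) j')
      have e : (fun c : Pa n (D + 1) → Ω => fun i : Fin (n + 1) => c (lv j'.succ i)) =
          fun c => fun i => (spl Ω n D c 0) (lv j' i) := by
        funext c i
        simp only [spl, Equiv.coe_fn_mk, sb]
        congr 1
        funext j''
        unfold lv
        refine Fin.cases ?_ (fun j3 => ?_) j''
        · rw [if_neg (Fin.succ_ne_zero j').symm, Fin.cons_zero]
        · rw [Fin.cons_succ]
          by_cases h : j3 = j'
          · rw [if_pos h, if_pos (by rw [h])]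
          · rw [if_neg h, if_neg fun hh => h (Fin.succ_injective _ hh)]
      rw [e, show k + ((j'.succ : Fin (D + 1)) : ℕ) = k + 1 + (j' : ℕ) by
        rw [Fin.val_succ]; omega]
      exact m3

open Classical in
/-- Separation of the members of a one level cluster of the tree. -/
theorem sep_tree_thm [Fintype κ] {p : Ω → ℝ} (hp : IsLaw p) (g : ℕ → Ω → γ) (cell : Ω → κ)
    (n D k m : ℕ) (j : Fin D) (q η : ℝ) (hq : 0 ≤ q)
    (h : Pr p {ω | ∃ a, q * law p (g (k + j)) (g (k + j) ω) <
      law p (fun v => (cell v, g (k + j) v)) (a, g (k + j) ω)} ≤ η) :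
    Pr (tl p g n D k) {c | ∃ a, m < (univ.filter fun i => cell (c (lv j i)) = a).card} ≤
      Fintype.card κ * ((1 + q) ^ (n + 1) / 2 ^ (m + 1)) + η := by
  have h1 := sep_thm hp (g (k + j)) cell n m q η hq h
  have h2 := (lv_marg hp.nonneg g n D k j).law
    (fun w => w ∈ {w : Fin (n + 1) → Ω | ∃ a, m < (univ.filter fun i => cell (w i) = a).card}) True
  unfold Pr at h1 ⊢
  exact h2.le.trans h1

end

end Pool.CLU
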