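import Pool.Agent.H33.KSAT.RES2
import Pool.Agent.H35.K2S.Dich

/-!
# Exhaustion

If every large part of an event contains a part of positive probability on which a conditional
entropy is at least `h`, then it is almost at least `h` on the whole event.
-/

set_option autoImplicit false

namespace Pool.K2S

open Finset Real
open Pool.Agent.H49.Ent Pool.Agent.H32.Dense Pool.STK

variable {Ω S T : Type} [Fintype Ω]

theorem Pe_split (p : Ω → ℝ) {A B : Ω → Prop} (h : Sub B A) :
    Pe p A = Pe p B + Pe p (fun ω => A ω ∧ ¬ B ω) := by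
  classical
  simp_rw [Pe_eq]
  rw [← Finset.sum_add_distrib]
  refine Finset.sum_congr rfl fun ω _ => ?_
  by_cases h1 : B ω
  · simp [h1, h ω h1]
  · by_cases h2 : A ω <;> simp [h1, h2]

/-- Conditional laws of a part. -/
theorem cond_part {p : Ω → ℝ} {A B : Ω → Prop} (hA : 0 < Pe p A) (h : Sub B A) (I : Ω → Bool)
    (b : Bool) (hI : ∀ ω, A ω → (I ω = b ↔ B ω)) :
    law (cond p A True) I b = Pe p B / Pe p A ∧
      cond (cond p A True) I b = cond p B True := by
  classical
  have e1 : law (cond p A True) I b = Pe p B / Pe p A := by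
    rw [Pe_eq p B, Finset.sum_div]
    unfold law
    refine Finset.sum_congr rfl fun ω _ => ?_
    unfold Pool.Agent.H49.Ent.cond
    by_cases h1 : A ω
    · have h2 := hI ω h1
      by_cases h3 : B ω
      · have h4 : I ω = b := h2.2 h3
        simp only [h1, h3, h4, if_true]
      · have h4 : ¬ I ω = b := fun h => h3 (h2.1 h)
        simp [h3, h4]
    · have h3 : ¬ B ω := fun h' => h1 (h ω h')
      simp [h1, h3]
  refine ⟨e1, ?_⟩
  funext ω
  have e2 : cond (cond p A True) I b ω =
      if I ω = b then cond p A True ω / (Pe p B / Pe p A) else 0 := by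
    rw [← e1]
    unfold Pool.Agent.H49.Ent.cond
    by_cases h1 : I ω = b
    · rw [if_pos h1, if_pos h1]
    · rw [if_neg h1, if_neg h1]
  have e3 : cond p B True ω = if B ω then p ω / Pe p B else 0 := by
    unfold Pool.Agent.H49.Ent.cond Pe
    by_cases h3 : B ω <;> simp [h3]
  have e4 : cond p A True ω = if A ω then p ω / Pe p A else 0 := by
    unfold Pool.Agent.H49.Ent.cond Pe
    by_cases h3 : A ω <;> simp [h3]
  rw [e2, e3, e4]
  by_cases h1 : A ω
  · have h2 := hI ω h1
    by_cases h3 : B ω
    · have h4 : I ω = b := h2.2 h3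
      rw [if_pos h4, if_pos h1, if_pos h3, div_div_div_cancel_right₀ hA.ne']
    · have h4 : ¬ I ω = b := fun h => h3 (h2.1 h)
      rw [if_neg h4, if_neg h3]
  · have h3 : ¬ B ω := fun h' => h1 (h ω h')
    rw [if_neg h1, if_neg h3]
    split_ifs <;> simp

/-- **Superadditivity.** -/
theorem CH_super {p : Ω → ℝ} (hp : IsLaw p) {A B : Ω → Prop} (hA : 0 < Pe p A) (h : Sub B A)
    (X : Ω → S) (Y : Ω → T) :
    Pe p B * CH (cond p B True) X Y +
      Pe p (fun ω => A ω ∧ ¬ B ω) * CH (cond p (fun ω => A ω ∧ ¬ B ω) True) X Y ≤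
      Pe p A * CH (cond p A True) X Y := by
  classical
  have hq := isLaw_cond hp hA
  obtain ⟨I, hI⟩ : ∃ I : Ω → Bool, I = fun ω => decide (B ω) := ⟨_, rfl⟩
  have h1 : CH (cond p A True) X (fun ω => (I ω, Y ω)) ≤ CH (cond p A True) X Y :=
    CH_mono_cond hq.nonneg fun ω ω' _ _ e => (Prod.ext_iff.mp e).2
  have h2 := Pool.KSAT.RES2.CH_sum hq.nonneg X Y I
  have h3 : ∑ a ∈ univ.image I, law (cond p A True) I a * CH (cond (cond p A True) I a) X Y =
      ∑ a : Bool, law (cond p A True) I a * CH (cond (cond p A True) I a) X Y := by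
    refine Finset.sum_subset (Finset.subset_univ _) fun a _ ha => ?_
    have : law (cond p A True) I a = 0 := by
      unfold law
      refine Finset.sum_eq_zero fun ω _ => ?_
      rw [if_neg]
      intro h'
      exact ha (Finset.mem_image.2 ⟨ω, Finset.mem_univ _, h'⟩)
    rw [this, zero_mul]
  obtain ⟨a1, a2⟩ := cond_part hA h I true (fun ω _ => by rw [hI]; simp)
  obtain ⟨b1, b2⟩ := cond_part (B := fun ω => A ω ∧ ¬ B ω) hA (fun ω h => h.1) I false
    (fun ω hω => by rw [hI]; simp [hω])
  have h4 : ∑ a : Bool, law (cond p A True) I a * CH (cond (cond p A True) I a) X Y =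
      Pe p B / Pe p A * CH (cond p B True) X Y + Pe p (fun ω => A ω ∧ ¬ B ω) / Pe p A *
        CH (cond p (fun ω => A ω ∧ ¬ B ω) True) X Y := by
    rw [Fintype.sum_bool, a1, a2, b1, b2]
  rw [h3, h4] at h2
  rw [h2] at h1
  have h5 := mul_le_mul_of_nonneg_left h1 hA.le
  have h6 : Pe p A * (Pe p B / Pe p A * CH (cond p B True) X Y +
      Pe p (fun ω => A ω ∧ ¬ B ω) / Pe p A * CH (cond p (fun ω => A ω ∧ ¬ B ω) True) X Y) =
      Pe p B * CH (cond p B True) X Y + Pe p (fun ω => A ω ∧ ¬ B ω) *
        CH (cond p (fun ω => A ω ∧ ¬ B ω) True) X Y := by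
    have := hA.ne'
    field_simp
  rw [h6] at h5
  exact h5

/-- **Exhaustion.** -/
theorem exhaust {p : Ω → ℝ} (hp : IsLaw p) {A : Ω → Prop} (hA : 0 < Pe p A) (X : Ω → S)
    (Y : Ω → T) {ε h : ℝ} (hε : 0 < ε) (hh : 0 ≤ h)
    (H : ∀ A' : Ω → Prop, Sub A' A → ε * Pe p A ≤ Pe p A' → ∃ B : Ω → Prop, Sub B A' ∧
      0 < Pe p B ∧ h ≤ CH (cond p B True) X Y) :
    (1 - ε) * h ≤ CH (cond p A True) X Y := by
  classical
  have key : ∀ n : ℕ, ∀ A' : Ω → Prop, Sub A' A → (Finset.univ.filter A').card = n →
      (Pe p A' - ε * Pe p A) * h ≤ Pe p A' * CH (cond p A' True) X Y := by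
    intro n
    induction n using Nat.strong_induction_on with
    | _ n ih =>
      intro A' hA' hcard
      have hnn : 0 ≤ Pe p A' * CH (cond p A' True) X Y :=
        mul_nonneg (Pe_nonneg hp A') (CH_nonneg (cond_nonneg hp.nonneg A' True) X Y)
      rcases lt_or_ge (Pe p A') (ε * Pe p A) with hlt | hge
      · refine le_trans ?_ hnn
        exact mul_nonpos_of_nonpos_of_nonneg (by linarith) hh
      · obtain ⟨B, hB, hB0, hBh⟩ := H A' hA' hge
        have hA'0 : 0 < Pe p A' := lt_of_lt_of_le (mul_pos hε hA) hge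
        have h1 := CH_super hp hA'0 hB X Y
        have h2 := Pe_split p hB
        have hlt : (Finset.univ.filter (fun ω => A' ω ∧ ¬ B ω)).card < n := by
          rw [← hcard]
          refine Finset.card_lt_card ?_
          rw [Finset.ssubset_iff_of_subset]
          · have : ∃ ω, B ω := by
              by_contra hno
              push Not at hno
              have : Pe p B = 0 := by
                rw [Pe_eq]
                exact Finset.sum_eq_zero fun ω _ => by simp [hno ω]
              linarith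
            obtain ⟨ω, hω⟩ := this
            refine ⟨ω, ?_, ?_⟩
            · simp [hB ω hω]
            · simp [hω]
          · intro ω hω
            simp only [Finset.mem_filter, Finset.mem_univ, true_and] at hω ⊢
            exact hω.1
        have h3 := ih _ hlt (fun ω => A' ω ∧ ¬ B ω) (fun ω hω => hA' ω hω.1)
          (by congr!)
        have h4 : Pe p B * h ≤ Pe p B * CH (cond p B True) X Y :=
          mul_le_mul_of_nonneg_left hBh hB0.le
        rw [h2]
        nlinarith
  have h1 := key _ A (fun _ h => h) rfl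
  have h2 : Pe p A * ((1 - ε) * h) ≤ Pe p A * CH (cond p A True) X Y := by
    calc Pe p A * ((1 - ε) * h) = (Pe p A - ε * Pe p A) * h := by ring
      _ ≤ _ := h1
  exact le_of_mul_le_mul_left h2 hA

end Pool.K2S
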