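import Mathlib

/-!
# Numbers for the flatness of the cells
-/

set_option autoImplicit false

namespace Pool.K2S

open Finset Real

namespace Cell

theorem log_two_half : (1 : ℝ) / 2 ≤ Real.log 2 := by
  have := Real.log_two_gt_d9
  linarith only [this]

theorem log_two_one : Real.log 2 ≤ 1 := by
  have := Real.log_two_lt_d9
  linarith only [this]

/-- The exponential error is small. -/
theorem exp_small {κ θ : ℝ} (hκ : 0 < κ) (hθ : 0 < θ) : ∃ J₁ : ℕ, ∀ J ≥ J₁,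
    Real.exp (-((κ * (J : ℝ) / 2 - Real.log 2) / 4)) ≤ θ := by
  obtain ⟨J₁, hJ₁⟩ := exists_nat_gt ((8 * |Real.log θ| + 2) / κ)
  refine ⟨J₁, fun J hJ => ?_⟩
  have h1 : (8 * |Real.log θ| + 2) / κ < J := hJ₁.trans_le (by exact_mod_cast hJ)
  rw [div_lt_iff₀ hκ] at h1
  have h2 := neg_abs_le (Real.log θ)
  have h3 := log_two_one
  rw [← Real.log_le_log_iff (Real.exp_pos _) hθ, Real.log_exp]
  linarith only [h1, h2, h3]

/-- The choice of the numbers. -/
theorem flc_num {c C₀ : ℝ} (hc : 0 < c) (hC₀ : 0 ≤ C₀) {N s : ℕ} (hN : 1 ≤ N)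
    (hs : 1 ≤ s) : ∃ n₁ M n₂ : ℕ, 1 ≤ n₁ ∧ 1 ≤ n₂ ∧ ∃ ε > 0, ∀ κ > 0, ∃ J₁ : ℕ, ∀ J ≥ J₁,
      1 ≤ J / n₂ ∧ (0 : ℝ) < (s * (J / N) : ℕ) ∧
      (∀ l ≤ J, l / (s * (J / N) / n₁) ≤ M) ∧
      (2 - c / 4) * (((s * (J / N) : ℕ) : ℝ) * Real.log 2) ≤
      2 * (((s * (J / N) : ℕ) : ℝ) * Real.log 2) -
        (C₀ * (((n₁ : ℝ) + M + 1) * (((5 * (J / n₂) + 6 : ℕ) : ℝ) + ε * J + 1)) +
        9 * ((s * (J / N) / n₁ : ℕ) : ℝ) +
        13 * (J * Real.exp (-((κ * J / 2 - Real.log 2) / 4)))) := by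
  obtain ⟨n₁, hn₁⟩ := exists_nat_gt (288 / c)
  have hNr : (1 : ℝ) ≤ N := by exact_mod_cast hN
  have hsr : (1 : ℝ) ≤ s := by exact_mod_cast hs
  have hn₁0 : (0 : ℝ) < n₁ := lt_trans (by positivity) hn₁
  have hn₁1 : 1 ≤ n₁ := by
    have : 0 < n₁ := by exact_mod_cast hn₁0
    omega
  obtain ⟨M, hM⟩ : ∃ M : ℕ, M = 4 * N * n₁ := ⟨_, rfl⟩
  obtain ⟨D, hD⟩ : ∃ D : ℝ, D = C₀ * ((n₁ : ℝ) + M + 1) := ⟨_, rfl⟩
  have hD0 : 0 ≤ D := by rw [hD]; positivity
  obtain ⟨n₂, hn₂⟩ := exists_nat_gt (640 * N * D / c)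
  have hn₂0 : (0 : ℝ) < n₂ := lt_of_le_of_lt (by positivity) hn₂
  have hn₂1 : 1 ≤ n₂ := by
    have : 0 < n₂ := by exact_mod_cast hn₂0
    omega
  obtain ⟨θ, hθ⟩ : ∃ θ : ℝ, θ = c / (128 * N) := ⟨_, rfl⟩
  have hθ0 : 0 < θ := by rw [hθ]; positivity
  refine ⟨n₁, M, n₂, hn₁1, hn₂1, θ / (D + 1), by positivity, fun κ hκ => ?_⟩
  obtain ⟨J₂, hJ₂⟩ := exp_small hκ (show (0 : ℝ) < θ / 13 by positivity)
  obtain ⟨J₃, hJ₃⟩ := exists_nat_gt (7 * D / θ)
  refine ⟨max (max J₂ J₃) (max (4 * N * n₁ + 2 * N) (2 * n₂)), fun J hJ => ?_⟩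
  have j1 : J₂ ≤ J := ((le_max_left _ _).trans (le_max_left _ _)).trans hJ
  have j2 : J₃ ≤ J := ((le_max_right _ _).trans (le_max_left _ _)).trans hJ
  have j3 : 4 * N * n₁ + 2 * N ≤ J := ((le_max_left _ _).trans (le_max_right _ _)).trans hJ
  have j4 : 2 * n₂ ≤ J := ((le_max_right _ _).trans (le_max_right _ _)).trans hJ
  have hJ0 : (0 : ℝ) ≤ J := Nat.cast_nonneg J
  have j2r : 7 * D ≤ θ * J := by
    have h1 : 7 * D / θ < J := hJ₃.trans_le (by exact_mod_cast j2)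
    rw [div_lt_iff₀ hθ0] at h1
    linarith only [h1]
  obtain ⟨x, hx⟩ : ∃ x, x = s * (J / N) := ⟨_, rfl⟩
  -- `x` is large
  have hxJ : (J : ℝ) ≤ 2 * N * x := by
    have h1 : J < N * (J / N + 1) := Nat.lt_mul_div_succ J (by omega)
    have h2 : (J : ℝ) < N * ((J / N : ℕ) + 1) := by exact_mod_cast h1
    have h3 : ((J / N : ℕ) : ℝ) ≤ x := by
      rw [hx]
      push_cast
      have : (0 : ℝ) ≤ (J / N : ℕ) := Nat.cast_nonneg _
      nlinarith only [hsr]
    have h4 : 2 * N ≤ J := by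
      have : 0 ≤ 4 * N * n₁ := Nat.zero_le _
      omega
    have h5 : 2 * (N : ℝ) ≤ J := by exact_mod_cast h4
    nlinarith only [h2, h5, h3]
  have hxpos : (0 : ℝ) < x := by
    have h4 : 0 < J := by
      have : 0 < 2 * N := by omega
      omega
    have h5 : (0 : ℝ) < J := by exact_mod_cast h4
    have h6 : (0 : ℝ) < 2 * N * x := lt_of_lt_of_le h5 hxJ
    by_contra hneg
    push Not at hneg
    have : 2 * (N : ℝ) * x ≤ 0 := mul_nonpos_of_nonneg_of_nonpos (by positivity) hneg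
    linarith only [hxJ, h5, this]
  rw [← hx]
  obtain ⟨K, hK⟩ : ∃ K, K = x / n₁ := ⟨_, rfl⟩
  rw [← hK]
  have hK1 : (x : ℝ) < n₁ * ((K : ℝ) + 1) := by
    have := Nat.lt_mul_div_succ x (show 0 < n₁ by omega)
    rw [← hK] at this
    exact_mod_cast this
  have hK2 : (n₁ : ℝ) * K ≤ x := by
    have := Nat.mul_div_le x n₁
    rw [← hK] at this
    exact_mod_cast this
  have hKJ : (J : ℝ) ≤ 4 * N * n₁ * K := by
    have h1 : (J : ℝ) ≤ 2 * N * (n₁ * ((K : ℝ) + 1)) :=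
      hxJ.trans (mul_le_mul_of_nonneg_left hK1.le (by positivity))
    have h2 : 4 * (N : ℝ) * n₁ ≤ J := by
      have : 4 * N * n₁ ≤ J := by omega
      exact_mod_cast this
    linarith only [h1, h2]
  refine ⟨?_, hxpos, ?_, ?_⟩
  · rw [Nat.le_div_iff_mul_le (by omega)]
    omega
  · intro l hl
    have hK0 : 0 < K := by
      by_contra hneg
      have : K = 0 := by omega
      rw [this] at hKJ
      have h4 : (0 : ℝ) < J := by
        have : 0 < 2 * N := by omega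
        have : 0 < J := by omega
        exact_mod_cast this
      simp at hKJ
      linarith only [hN, hM, j3, hKJ]
    rw [← Nat.lt_succ_iff, Nat.div_lt_iff_lt_mul hK0]
    have h1 : J ≤ 4 * N * n₁ * K := by exact_mod_cast hKJ
    rw [Nat.succ_eq_add_one, Nat.add_mul, hM]
    omega
  · have hL := log_two_half
    have e1 : ((J / n₂ : ℕ) : ℝ) ≤ J / n₂ := Nat.cast_div_le
    have e2 : D * (5 * ((J : ℝ) / n₂)) ≤ θ * J := by
      have h1 : 640 * N * D / c ≤ n₂ := hn₂.le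
      rw [div_le_iff₀ hc] at h1
      have h2 : D * (5 * ((J : ℝ) / n₂)) = (5 * D / n₂) * J := by ring
      rw [h2]
      refine mul_le_mul_of_nonneg_right ?_ hJ0
      rw [hθ, div_le_div_iff₀ hn₂0 (by positivity)]
      linarith only [h1]
    have e3 : D * (θ / (D + 1) * J) ≤ θ * J := by
      have h1 : D * (θ / (D + 1) * J) = (D / (D + 1)) * (θ * J) := by ring
      rw [h1]
      have h2 : D / (D + 1) ≤ 1 := by
        rw [div_le_one (by positivity)]
        linarith only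
      have h3 : 0 ≤ θ * J := by positivity
      nlinarith only [hD0, h2, j2r]
    have e4 : 13 * ((J : ℝ) * Real.exp (-((κ * J / 2 - Real.log 2) / 4))) ≤ θ * J := by
      have := hJ₂ J j1
      calc 13 * ((J : ℝ) * Real.exp (-((κ * J / 2 - Real.log 2) / 4))) ≤
          13 * ((J : ℝ) * (θ / 13)) :=
            mul_le_mul_of_nonneg_left (mul_le_mul_of_nonneg_left this hJ0) (by norm_num)
        _ = θ * J := by ring
    have e5 : C₀ * (((n₁ : ℝ) + M + 1) * (((5 * (J / n₂) + 6 : ℕ) : ℝ) +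
        θ / (D + 1) * J + 1)) ≤ 3 * (θ * J) := by
      push_cast
      have h1 : C₀ * (((n₁ : ℝ) + M + 1) * ((5 * ((J / n₂ : ℕ) : ℝ) + 6) +
        θ / (D + 1) * J + 1)) = D * (5 * ((J / n₂ : ℕ) : ℝ)) + 7 * D +
          D * (θ / (D + 1) * J) := by
        rw [hD]
        ring
      rw [h1]
      have h2 : D * (5 * ((J / n₂ : ℕ) : ℝ)) ≤ D * (5 * ((J : ℝ) / n₂)) :=
        mul_le_mul_of_nonneg_left (by linarith only [e1]) hD0
      linarith only [j2r, e2, e3, h2]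
    have e6 : 9 * (K : ℝ) ≤ c / 32 * x := by
      have h1 : 288 / c ≤ n₁ := hn₁.le
      rw [div_le_iff₀ hc] at h1
      have h2 : 9 * (K : ℝ) * 32 ≤ n₁ * c * K := by
        have : (0 : ℝ) ≤ K := Nat.cast_nonneg K
        nlinarith only [h1]
      have h3 : (n₁ : ℝ) * c * K ≤ c * x := by
        have := mul_le_mul_of_nonneg_left hK2 hc.le
        linarith only [this]
      linarith only [h2, h3]
    have e7 : 4 * (θ * J) ≤ c / 16 * x := by
      have h1 : θ * J ≤ θ * (2 * N * x) := mul_le_mul_of_nonneg_left hxJ hθ0.le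
      have h2 : θ * (2 * N * x) = c / 64 * x := by
        rw [hθ]
        field_simp
        norm_num
      rw [h2] at h1
      linarith only [h1]
    have e8 : c / 32 * x + c / 16 * x ≤ c / 4 * (x * Real.log 2) := by
      have h1 : 0 ≤ c * x := by positivity
      nlinarith only [hL, hc, hxpos, e6]
    linarith only [e4, e5, e6, e7, e8]

end Cell

end Pool.K2S
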