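import Pool.Agent.H5.K2.CellS
import Pool.Agent.H5.K2.FLN
import Pool.Agent.H35.K2S.FFAll

/-!
# Flat fans for the cells of the positions

If the frames are conserved to precision `l` on windows `v` and the rows `(v + l, v + l + s]` are
not full, then the directions in the cells `(F.X (v + l + s), F.W)` lie near lines to precision
`l + h`, with `h` macroscopic: the frame and the offset are functions of the cell.
-/

set_option autoImplicit false

namespace Pool.K2S

open Finset Real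
open Pool.Agent.H49.Ent Pool.Agent.H32.Dense Pool.STK Pool.KA Pool.KSAT Pool.KA.Win Pool.KA.TRC
open Rows FF

/-- **(FLC)** -/
def FLCStmt : Prop :=
  ∀ a R : ℝ, 1 ≤ a → 0 < R → UBa 2 a R → ∀ c h₁ : ℝ, 0 < c → 0 < h₁ → ∀ N s : ℕ, 1 ≤ N → 1 ≤ s →
    ∃ h₂ : ℝ, 0 < h₂ ∧ ∀ (i₀ : Fin 2) (l v : ℕ), l + v + s ≤ N →
    Claim (m := 2) a R (fun J F A => Lb F i₀ ⌊h₁ * J⌋₊ A →
      Cn F i₀ (l * (J / N)) (v * (J / N)) A →
      CH (Pool.Agent.H49.Ent.cond F.p A True) (F.X ((l + v + s) * (J / N)))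
        (fun ω => (F.X ((l + v) * (J / N)) ω, F.W ω)) ≤
          (2 - c) * ((s : ℝ) * ((J / N : ℕ) * Real.log 2)) →
      ∀ h : ℕ, (h : ℝ) ≤ h₂ * J →
        LineU i₀ (1 / 2 ^ (l * (J / N) + h)) (cel F ((l + v + s) * (J / N))) F.d A)

theorem flc_thm : FLCStmt := by
  classical
  intro a R ha hR hU c₁ h₁ hc₁ hh₁ N s hN hs
  have hl2 : 0 < Real.log 2 := Real.log_pos (by norm_num)
  obtain ⟨c, hc⟩ : ∃ c, c = min c₁ 1 := ⟨_, rfl⟩
  have hc0 : 0 < c := by rw [hc]; exact lt_min hc₁ one_pos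
  have hc1 : c ≤ 1 := by rw [hc]; exact min_le_right _ _
  have hcc : c ≤ c₁ := by rw [hc]; exact min_le_left _ _
  obtain ⟨C₀, hC₀, hstep⟩ := Cell.cell_step
  obtain ⟨n₁, M, n₃, hn₁, hn₃, ε', hε', hnum⟩ := Cell.flc_num (c := c) (C₀ := C₀) hc0 hC₀ hN hs
  obtain ⟨n₂, hn₂⟩ : ∃ n₂ : ℕ, n₂ = max n₃ (⌈2 / h₁⌉₊ + 1) := ⟨_, rfl⟩
  have hn₂1 : n₃ ≤ n₂ := by rw [hn₂]; exact le_max_left _ _
  have hn₂2 : 2 / h₁ ≤ n₂ := by
    have h1 : ⌈2 / h₁⌉₊ ≤ n₂ := by
      rw [hn₂]
      exact (Nat.le_succ _).trans (le_max_right _ _)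
    exact (Nat.le_ceil _).trans (by exact_mod_cast h1)
  have hn₂0 : 0 < n₂ := by omega
  have hn₂r : (0 : ℝ) < n₂ := by exact_mod_cast hn₂0
  obtain ⟨τ₂, hτ₂, J₅, hball⟩ := not_ball ap6r_all (m := 2) ha hR hU
    (x := 1 / (4 * (n₂ : ℝ))) (by positivity)
  obtain ⟨τ', hτ'⟩ : ∃ τ', τ' = min τ₂ ε' := ⟨_, rfl⟩
  have hτ'0 : 0 < τ' := by rw [hτ']; exact lt_min hτ₂ hε'
  have hτ'2 : τ' ≤ τ₂ := by rw [hτ']; exact min_le_left _ _
  have hτ'3 : τ' ≤ ε' := by rw [hτ']; exact min_le_right _ _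
  obtain ⟨τ, hτ⟩ : ∃ τ, τ = τ' / (7 * (1 + a)) := ⟨_, rfl⟩
  have hτ0 : 0 < τ := by rw [hτ]; positivity
  have hτe : (1 + a) * (5 * τ + 2 * τ) = τ' := by
    rw [hτ]
    field_simp
    ring
  refine ⟨1 / (2 * (n₂ : ℝ)), by positivity, fun i₀ l v hlv => ?_⟩
  refine Claim.one ⟨2 * n₂ + 6, fun J F i => if (i : ℕ) = 0 then
      Ball (1 / 2 ^ (J / n₂ - 1)) (K2S.Fam.pt F) F.d
      else LineU i₀ (1 / 2 ^ ((i : ℕ) * (J / n₂))) (cel F ((l + v + s) * (J / N))) F.d, ?_⟩
    fun κ hκ => ?_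
  · intro J F i
    by_cases hi : (i : ℕ) = 0
    · simp only [hi, if_true]
      exact Ball.hered _ _ _
    · simp only [hi, if_false]
      exact LineU.hered _ _ _ _
  obtain ⟨J₂, hJ₂⟩ := hnum κ hκ
  obtain ⟨J₁, hJ₁⟩ := exists_nat_gt ((2 * (4 * plcδ 3 4 n₁ M + 7 * Real.log 2) +
    2 * |Real.log (c / 8)|) / κ + |Real.log (c / 64)| / τ + J₂ + J₅ + 4 * n₂ + 10 / h₁)
  refine ⟨τ, hτ0, J₁, ?_⟩
  intro J hJ F A hS hstab hLb hCn hrow
  have hJr : (J₁ : ℝ) ≤ J := by exact_mod_cast hJ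
  have hδ0 : 0 ≤ plcδ 3 4 n₁ M := by
    have g1 : 0 ≤ Real.log (4 * ((3 : ℕ) : ℝ) + 1) := Real.log_nonneg (by norm_num)
    have g2 : 0 ≤ Real.log (4 * ((3 : ℕ) : ℝ) + 7) := Real.log_nonneg (by norm_num)
    have g3 : 0 ≤ Real.log (4 * ((3 : ℕ) : ℝ) + 2 * 4 + 9) := Real.log_nonneg (by norm_num)
    have g4 : 0 ≤ Real.log (2 * (4 : ℝ) + 5) := Real.log_nonneg (by norm_num)
    have g5 : 0 ≤ Real.log (3 : ℝ) := Real.log_nonneg (by norm_num)
    have g6 := K2S.cc_nonneg 2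
    have g7 := K2S.cc_nonneg 1
    unfold plcδ
    positivity
  have t1 : 0 ≤ (2 * (4 * plcδ 3 4 n₁ M + 7 * Real.log 2) + 2 * |Real.log (c / 8)|) / κ := by
    positivity
  have t2 : 0 ≤ |Real.log (c / 64)| / τ := by positivity
  have t3 : (0 : ℝ) ≤ J₂ := by positivity
  have t4 : (0 : ℝ) ≤ J₅ := by positivity
  have t5 : (0 : ℝ) ≤ 4 * n₂ := by positivity
  have t6 : (0 : ℝ) ≤ 10 / h₁ := by positivity
  have j1 : (2 * (4 * plcδ 3 4 n₁ M + 7 * Real.log 2) + 2 * |Real.log (c / 8)|) / κ < J := by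
    linarith only [hn₂r, hJ₁, hJr, t2, t6]
  have j2 : |Real.log (c / 64)| / τ < J := by linarith only [hn₂r, hJ₁, hJr, t1, t6]
  have j3 : (J₂ : ℝ) ≤ J := by linarith only [hn₂r, hJ₁, hJr, t1, t2, t6]
  have j4 : (J₅ : ℝ) ≤ J := by linarith only [hn₂r, hJ₁, hJr, t1, t2, t6]
  have j5 : 4 * (n₂ : ℝ) ≤ J := by linarith only [hJ₁, hJr, t1, t2, t6]
  have j6 : 10 / h₁ ≤ J := by linarith only [hn₂r, hJ₁, hJr, t1, t2]
  rw [div_lt_iff₀ hκ] at j1
  rw [div_lt_iff₀ hτ0] at j2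
  have j3' : J ≥ J₂ := by exact_mod_cast j3
  have j4' : J ≥ J₅ := by exact_mod_cast j4
  have j5' : 4 * n₂ ≤ J := by exact_mod_cast j5
  obtain ⟨-, hx0, hMl, herr⟩ := hJ₂ J j3'
  obtain ⟨hTr, hMx, hRb, hPA⟩ := hS
  have hp := F.isLaw
  have hA0 : 0 < Pe F.p A := lt_of_lt_of_le (Real.exp_pos _) hPA
  have hJ0 : (0 : ℝ) ≤ J := Nat.cast_nonneg J
  have habs : 0 ≤ |Real.log (c / 8)| := abs_nonneg _
  have habs2 : 0 ≤ |Real.log (c / 64)| := abs_nonneg _
  -- the numbers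
  obtain ⟨g, hg⟩ : ∃ g, g = J / n₂ := ⟨_, rfl⟩
  obtain ⟨u, hu⟩ : ∃ u, u = J / N := ⟨_, rfl⟩
  obtain ⟨x, hx⟩ : ∃ x, x = s * u := ⟨_, rfl⟩
  have hg4 : 4 ≤ g := by
    rw [hg, Nat.le_div_iff_mul_le hn₂0]
    exact j5'
  have hgJ1 : n₂ * g ≤ J := by rw [hg]; exact Nat.mul_div_le J n₂
  have hgJ2 : J < n₂ * (g + 1) := by rw [hg]; exact Nat.lt_mul_div_succ J hn₂0
  have hgJ1r : (n₂ : ℝ) * g ≤ J := by exact_mod_cast hgJ1
  have hgJ2r : (J : ℝ) < n₂ * ((g : ℝ) + 1) := by exact_mod_cast hgJ2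
  have hg4r : (4 : ℝ) ≤ g := by exact_mod_cast hg4
  have huJ : N * u ≤ J := by rw [hu]; exact Nat.mul_div_le J N
  have hRJ : v * u + l * u + x ≤ J := by
    have h1 : v * u + l * u + x = (l + v + s) * u := by rw [hx]; ring
    rw [h1]
    exact (Nat.mul_le_mul_right u hlv).trans huJ
  have eR : (l + v + s) * (J / N) = v * u + l * u + x := by rw [hx, ← hu]; ring
  have eP : (l + v) * (J / N) = v * u + l * u := by rw [← hu]; ring
  rw [← hu, ← hx] at hx0 hMl herr
  rw [← hu] at hCn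
  rw [eR, eP] at hrow
  rw [eR]
  rw [← hu] at hrow ⊢
  have hgb : g + 3 ≤ ⌊h₁ * (J : ℝ)⌋₊ := by
    refine Nat.le_floor ?_
    push_cast
    have h1 : 2 ≤ h₁ * n₂ := by
      rw [div_le_iff₀ hh₁] at hn₂2
      linarith only [hn₂2]
    have h2 : 10 ≤ h₁ * J := by
      rw [div_le_iff₀ hh₁] at j6
      linarith only [j6]
    have h3 : 2 * (g : ℝ) ≤ h₁ * n₂ * g := mul_le_mul_of_nonneg_right h1 (Nat.cast_nonneg g)
    have h4 : h₁ * n₂ * g ≤ h₁ * J := by
      have := mul_le_mul_of_nonneg_left hgJ1r hh₁.le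
      linarith only [this]
    linarith only [h2, h3, h4]
  have s1 : Stb F.p (κ * J) A (Ball (1 / 2 ^ (g - 1)) (K2S.Fam.pt F) F.d) := by
    have := hstab (⟨0, by omega⟩ : Fin (2 * n₂ + 6))
    simpa [hg] using this
  have s2 : ∀ k : ℕ, 1 ≤ k → k < 2 * n₂ + 6 →
      Stb F.p (κ * J) A (LineU i₀ (1 / 2 ^ (k * g)) (cel F (v * u + l * u + x)) F.d) := by
    intro k hk1 hk2
    have := hstab (⟨k, hk2⟩ : Fin (2 * n₂ + 6))
    have hk0 : k ≠ 0 := by omega
    simp only [hk0, if_false] at this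
    rwa [← hg, eR] at this
  -- the parts of `A`
  have hMxB : ∀ B : F.Ω → Prop, Real.exp (-((2 * τ) * J)) ≤ Pe F.p B →
      ∃ h : IsLaw (Pool.Agent.H49.Ent.cond F.p B True), (F.res B True h).Mx a R τ' := by
    intro B hB
    obtain ⟨h, -, h2, -⟩ := max_res F ha hτ0.le (by linarith only [hτ0] : (0 : ℝ) ≤ 2 * τ) hTr hMx hRb B hB
    rw [hτe] at h2
    exact ⟨h, h2⟩
  have hbig : ∀ B : F.Ω → Prop, c / 64 * Pe F.p A ≤ Pe F.p B →
      Real.exp (-((2 * τ) * J)) ≤ Pe F.p B := by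
    intro B hB
    refine le_trans ?_ hB
    have h1 : Real.exp (-(τ * J)) ≤ c / 64 := by
      have h2 := neg_abs_le (Real.log (c / 64))
      rw [← Real.log_le_log_iff (Real.exp_pos _) (by positivity), Real.log_exp]
      linarith only [j2, h2]
    have h3 : Real.exp (-((2 * τ) * J)) = Real.exp (-(τ * J)) * Real.exp (-(τ * J)) := by
      rw [← Real.exp_add]
      congr 1
      ring
    rw [h3]
    exact mul_le_mul h1 hPA (Real.exp_pos _).le (by positivity)
  have hTmB : ∀ B : F.Ω → Prop, c / 64 * Pe F.p A ≤ Pe F.p B →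
      ∀ hl : IsLaw (Pool.Agent.H49.Ent.cond F.p B True), (F.res B True hl).Tm (ε' * J) := by
    intro B hB hl
    obtain ⟨h, h2⟩ := hMxB B (hbig B hB)
    exact (Mx_mono hτ'3 h2).1
  have hnB : ¬ Ball (1 / 2 ^ (g - 1)) (K2S.Fam.pt F) F.d A := by
    rintro ⟨w, hw⟩
    obtain ⟨h, hMxh⟩ := hMxB A (hbig A (by nlinarith only [hA0, hc1]))
    refine hball J j4' (F.res A True h) (Mx_mono hτ'2 hMxh) (g - 1) (by
      have : g ≤ J := le_trans (Nat.le_mul_of_pos_left g hn₂0) hgJ1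
      omega) ?_ ⟨w, ?_⟩
    · have e1 : ((g - 1 : ℕ) : ℝ) = g - 1 := by
        rw [Nat.cast_sub (by omega)]
        push_cast
        ring
      rw [e1, div_mul_eq_mul_div, one_mul, div_le_iff₀ (by positivity)]
      nlinarith only [hn₂r, hJ₁, hJr, t1, t2, t6, hgJ2r]
    · intro ω hω j
      exact hw ω (FF.Pe_res h hω) j
  -- the induction
  have hind : ∀ k : ℕ, k * g ≤ l * u + 3 * g →
      LineU i₀ (1 / 2 ^ (k * g)) (cel F (v * u + l * u + x)) F.d A := by
    intro k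
    induction k with
    | zero =>
      intro _
      refine ⟨fun _ _ => 0, fun _ _ => 0, fun ω _ j => ?_⟩
      rw [Nat.zero_mul, pow_zero, zero_mul, sub_zero, sub_zero, div_one]
      exact F.dir ω j
    | succ k ih =>
      intro hk
      have hkg : k * g + g ≤ l * u + 3 * g := by
        have : (k + 1) * g = k * g + g := by ring
        omega
      have h0 := ih (by omega)
      by_contra hnot
      have hk2 : k + 1 < 2 * n₂ + 6 := by
        by_contra hcon
        push Not at hcon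
        have h1 : (2 * n₂ + 6) * g ≤ (k + 1) * g := Nat.mul_le_mul_right g hcon
        have h2 : l * u ≤ J := by omega
        have h3 : n₂ * (g + 1) ≤ 2 * (n₂ * g) := by
          have : n₂ ≤ n₂ * g := Nat.le_mul_of_pos_right n₂ (by omega)
          rw [Nat.mul_add]
          omega
        have h4 : (2 * n₂ + 6) * g = 2 * (n₂ * g) + 6 * g := by ring
        omega
      have s3 := s2 (k + 1) (by omega) hk2
      have e1 : (k + 1) * g = k * g + g := by ring
      rw [e1] at s3 hnot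
      -- the rows are full
      have hfull : (1 - c / 8) * ((2 - c / 4) * ((x : ℝ) * Real.log 2)) ≤
          CH (Pool.Agent.H49.Ent.cond F.p A True) (F.X (v * u + l * u + x))
            (fun ω => (F.X (v * u + l * u) ω, F.W ω)) := by
        refine exhaust hp hA0 _ _ (by positivity) ?_ ?_
        · have : 0 ≤ (x : ℝ) * Real.log 2 := by positivity
          nlinarith only [hl2, hx0, hc1, this]
        · intro A' hA' hPA'
          have hexp : Real.exp (-(κ * J / 2)) * Pe F.p A ≤ Pe F.p A' := by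
            refine le_trans (mul_le_mul_of_nonneg_right ?_ hA0.le) hPA'
            have h2 := neg_abs_le (Real.log (c / 8))
            rw [← Real.log_le_log_iff (Real.exp_pos _) (by positivity), Real.log_exp]
            linarith only [hl2, hδ0, j1, h2]
          have hexp2 : Real.exp (-(κ * J)) * Pe F.p A ≤ Pe F.p A' := by
            refine le_trans (mul_le_mul_of_nonneg_right ?_ hA0.le) hexp
            refine Real.exp_le_exp.2 ?_
            have : 0 ≤ κ * J := by positivity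
            linarith only [hl2, hδ0, j1, habs]
          have hA'0 : 0 < Pe F.p A' := lt_of_lt_of_le (mul_pos (Real.exp_pos _) hA0) hexp
          have eκ : κ * J - κ * J / 2 = κ * J / 2 := by ring
          have r1 := s1.sub (Ball.hered _ _ _) hA' hexp
          have r2 := s3.sub (LineU.hered _ _ _ _) hA' hexp
          rw [eκ] at r1 r2
          obtain ⟨B, hB, hB0, hBrow⟩ := hstep J F A' i₀ (v * u) (l * u) x (k * g) g n₁ M
            ⌊h₁ * (J : ℝ)⌋₊ (κ * J / 2) (ε' * J) hRJ (by omega) (by omega) hgb hn₁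
            (hMl (l * u) (by omega)) (by positivity) hA'0
            (fun B hB hPB hl => hTmB B (by linarith only [hPA', hPB]) hl) r1
            (fun h => hnB (s1.of_sub hA' hexp2 h)) r2
            (fun h => hnot (s3.of_sub hA' hexp2 h)) (LineU.hered _ _ _ _ _ _ hA' h0)
            (by
              obtain ⟨e₀, n₀, hfr⟩ := hLb
              exact ⟨e₀, n₀, hfr.sub hA'⟩)
            (RotU.hered _ _ _ _ _ _ _ _ hA' hCn)
            (by linarith only [j1, habs])
          refine ⟨B, hB, hB0, le_trans ?_ hBrow⟩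
          refine herr.trans ?_
          have h5 : ((5 * g + 6 : ℕ) : ℝ) ≤ ((5 * (J / n₃) + 6 : ℕ) : ℝ) := by
            have : g ≤ J / n₃ := by
              rw [hg]
              exact Nat.div_le_div_left hn₂1 (by omega)
            exact_mod_cast (by omega : 5 * g + 6 ≤ 5 * (J / n₃) + 6)
          have h6 : C₀ * (((n₁ : ℝ) + M + 1) * (((5 * g + 6 : ℕ) : ℝ) + ε' * J + 1)) ≤
              C₀ * (((n₁ : ℝ) + M + 1) * (((5 * (J / n₃) + 6 : ℕ) : ℝ) + ε' * J + 1)) :=
            mul_le_mul_of_nonneg_left (mul_le_mul_of_nonneg_left (by linarith only [h5])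
              (by positivity)) hC₀
          linarith only [h6]
      have hxr : ((s : ℝ) * ((u : ℕ) * Real.log 2)) = (x : ℝ) * Real.log 2 := by
        rw [hx]
        push_cast
        ring
      rw [hxr] at hrow
      have hxL : 0 < (x : ℝ) * Real.log 2 := by positivity
      have f1 : (2 - c₁) * ((x : ℝ) * Real.log 2) ≤ (2 - c) * ((x : ℝ) * Real.log 2) :=
        mul_le_mul_of_nonneg_right (by linarith only [hcc]) hxL.le
      have f2 : (1 - c / 8) * ((2 - c / 4) * ((x : ℝ) * Real.log 2)) =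
          (2 - c) * ((x : ℝ) * Real.log 2) + (c / 2 + c * c / 32) * ((x : ℝ) * Real.log 2) := by
        ring
      have f3 : 0 < (c / 2 + c * c / 32) * ((x : ℝ) * Real.log 2) := by positivity
      linarith only [hrow, hfull, f1, f3]
  -- the conclusion
  intro h hh
  have hh' : h ≤ g := by
    have h1 : (h : ℝ) ≤ g := by
      refine hh.trans ?_
      rw [div_mul_eq_mul_div, one_mul, div_le_iff₀ (by positivity)]
      nlinarith only [hn₂r, hJ₁, hJr, t1, t2, t6, hgJ2r]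
    exact_mod_cast h1
  have hg0 : 0 < g := by omega
  have hk1 : l * u < (l * u / g + 1) * g := by
    have := Nat.lt_div_mul_add (a := l * u) hg0
    rw [Nat.add_mul, one_mul]
    exact this
  have hk2 : l * u / g * g ≤ l * u := Nat.div_mul_le_self _ _
  have h1 := hind (l * u / g + 2) (by
    have : (l * u / g + 2) * g = l * u / g * g + 2 * g := by ring
    omega)
  refine h1.mono ?_
  refine one_div_le_one_div_of_le (by positivity) (pow_le_pow_right₀ (by norm_num) ?_)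
  have : (l * u / g + 2) * g = (l * u / g + 1) * g + g := by ring
  omega

end Pool.K2S
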