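import Pool.Agent.H13.K2S.Claim

/-!
# Claims hold for large parts of the event
-/

set_option autoImplicit false

namespace Pool.K2S

open Finset Real
open Pool.Agent.H49.Ent Pool.Agent.H32.Dense Pool.STK Pool.KA

variable {m : ℕ}

theorem half_exp {J : ℕ} {τ : ℝ} (hJ : 2 * Real.log 2 ≤ τ * J) {P P' : ℝ}
    (hP : Real.exp (-(τ / 2 * J)) ≤ P) (hP' : P / 2 ≤ P') : Real.exp (-(τ * J)) ≤ P' := by
  refine le_trans ?_ hP'
  have h1 : Real.exp (-(τ * J)) ≤ Real.exp (-(τ / 2 * J)) / 2 := by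
    have h2 : Real.exp (-(τ / 2 * J)) / 2 = Real.exp (-(τ / 2 * J) - Real.log 2) := by
      rw [Real.exp_sub, Real.exp_log (by norm_num)]
    rw [h2]
    exact Real.exp_le_exp.2 (by linarith)
  linarith

/-- A claim for the event is a claim for all its parts of proportion at least `1 / 2`. -/
theorem Cl.half {a R : ℝ} : ∀ {r : ℕ} {Φ : Stat m}, Cl a R r Φ →
    Cl a R r (fun _ F A => ∀ A₁ : F.Ω → Prop, Sub A₁ A → Pe F.p A / 2 ≤ Pe F.p A₁ → Φ _ F A₁)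
  | 0, Φ, ⟨τ, hτ, J₁, hc⟩ => by
    obtain ⟨J₂, hJ₂⟩ := exists_nat_gt (2 * Real.log 2 / τ)
    refine ⟨τ / 2, by positivity, max J₁ J₂, fun J hJ F A hA A₁ _ hP => ?_⟩
    have h1 : J₁ ≤ J := (le_max_left _ _).trans hJ
    have h2 : (J₂ : ℝ) ≤ J := by exact_mod_cast (le_max_right J₁ J₂).trans hJ
    have h3 : 2 * Real.log 2 / τ < J := lt_of_lt_of_le hJ₂ h2
    rw [div_lt_iff₀ hτ] at h3
    have h4 := Fam.Stt.mono (by linarith : τ / 2 ≤ τ) hA
    obtain ⟨k1, k2, k3, -⟩ := h4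
    obtain ⟨-, -, -, k4⟩ := hA
    exact hc J h1 F A₁ ⟨k1, k2, k3, half_exp (by linarith) k4 hP⟩
  | r + 1, Φ, ⟨L, hc⟩ => by
    refine ⟨L, fun κ hκ => ?_⟩
    obtain ⟨J₂, hJ₂⟩ := exists_nat_gt (2 * Real.log 2 / κ)
    refine Cl.mono (J₂ := J₂) ?_ (Cl.half (hc (κ / 2) (by positivity)))
    intro J hJ F A h1 h2 A₁ hsub hP
    refine h1 A₁ hsub hP fun i => ?_
    have h3 := h2 i
    have h4 : (J₂ : ℝ) ≤ J := by exact_mod_cast hJ
    have h5 : 2 * Real.log 2 / κ < J := lt_of_lt_of_le hJ₂ h4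
    rw [div_lt_iff₀ hκ] at h5
    have h6 : Real.exp (-Real.log 2) * Pe F.p A ≤ Pe F.p A₁ := by
      rw [Real.exp_neg, Real.exp_log (by norm_num)]
      linarith
    have h7 := h3.sub (L.her J F i) hsub h6
    exact h7.mono F.isLaw (by linarith)

theorem Claim.half {a R : ℝ} {Φ : Stat m} (h : Claim a R Φ) :
    Claim a R (fun _ F A => ∀ A₁ : F.Ω → Prop, Sub A₁ A → Pe F.p A / 2 ≤ Pe F.p A₁ →
      Φ _ F A₁) := h.imp fun _ hr => Cl.half hr

end Pool.K2S
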