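import Pool.Agent.H5.K2.FullC
import Pool.Agent.H5.K2.Half
import Pool.Agent.H5.K2.FLC
import Pool.Agent.H13.K2S.Mnj

/-!
# No jumps over one row

If over one row of the mesh which is not full the frames are known, the cells `(F.X r, F.W)` have
flat fans, and the position is full in the box of the cell up to one row: the saturation lemma gives
that the frames lose a bounded number of rows when the window moves by one unit.
-/

set_option autoImplicit false

namespace Pool.K2S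

open Finset Real
open Pool.Agent.H49.Ent Pool.Agent.H32.Dense Pool.STK Pool.KA Pool.KSAT Pool.KA.Win Pool.KA.TRC
open Rows FF Cell

/-- **(MNJ), one row.** -/
theorem mnj1_thm : MNJ1Stmt := by
  classical
  intro a R ha hR hU c μ h₁ ω₀ hc hμ hh₁ hω₀
  have hl2 : 0 < Real.log 2 := Real.log_pos (by norm_num)
  have hl21 : Real.log 2 < 1 := by
    have := Real.log_two_lt_d9
    linarith only [hl2, this]
  obtain ⟨b', hb'⟩ : ∃ b' : ℕ, b' = ⌈8 * a / R⌉₊ + 1 := ⟨_, rfl⟩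
  have hRb : 8 ≤ R / a * b' := by
    have h1 : 8 * a / R ≤ b' := by
      rw [hb']
      push_cast
      have := Nat.le_ceil (8 * a / R)
      linarith only [hl2, hl21, this]
    rw [div_le_iff₀ hR] at h1
    rw [div_mul_eq_mul_div, le_div_iff₀ (by linarith only [ha, hl2, hl21])]
    linarith only [h1]
  refine ⟨b' + 1, b' + 2, fun N hN i₀ l v hbl hv hvN => ?_⟩
  have hN0 : 0 < N := by omega
  have hNr : (0 : ℝ) < N := by exact_mod_cast hN0
  have hlvN : l + v + 2 ≤ N := by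
    have h1 : 0 < ω₀ * N := by positivity
    have h2 : ((l + v + 2 : ℕ) : ℝ) < N := by
      push_cast
      linarith only [hvN, h1]
    exact_mod_cast h2.le
  obtain ⟨h₂, hh₂, hflc⟩ := flc_thm a R ha.le hR hU c h₁ hc hh₁ N 1 hN0 le_rfl
  have C1 := hflc i₀ l (v + 1) (by omega)
  have C2 := Claim.half (Pool.K3.lab_thm 2 a R ha.le hR hU h₁ (1 / N) 7 hh₁ (by positivity)
    (by norm_num) N i₀ (sig i₀) (sig_surj i₀) (l - 1) b' (v + 1) 1 (by omega) (by omega)
    (by omega) (by omega))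
  -- the numbers
  obtain ⟨C₀, hC₀, hfull⟩ := Cell.full_cell
  have hbxc : 0 ≤ bxc 3 4 := by
    unfold bxc
    have g1 : 0 ≤ Real.log (2 * (2 * ((3 : ℕ) : ℝ) + 1) + 1) := Real.log_nonneg (by norm_num)
    have g2 : 0 ≤ Real.log (2 * (2 * ((3 : ℕ) : ℝ) + 4) + 1) := Real.log_nonneg (by norm_num)
    have g3 : 0 ≤ Real.log (2 * (5 * ((3 : ℕ) : ℝ) + 2 * 4 + 10) + 1) :=
      Real.log_nonneg (by norm_num)
    positivity
  obtain ⟨n₂, hn₂⟩ : ∃ n₂ : ℕ, n₂ = max (128 * N * (48 * N)) (⌈2 / h₁⌉₊ + 1) := ⟨_, rfl⟩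
  have hn₂1 : 128 * N * (48 * N) ≤ n₂ := by rw [hn₂]; exact le_max_left _ _
  have hn₂2 : 2 / h₁ ≤ n₂ := by
    have h1 : ⌈2 / h₁⌉₊ ≤ n₂ := by
      rw [hn₂]
      exact (Nat.le_succ _).trans (le_max_right _ _)
    exact (Nat.le_ceil _).trans (by exact_mod_cast h1)
  have hn₂0 : 0 < n₂ := by
    rw [hn₂]
    exact lt_max_of_lt_right (Nat.succ_pos _)
  have hn₂r : (0 : ℝ) < n₂ := by exact_mod_cast hn₂0
  obtain ⟨J₂, hnum⟩ := mnj_num N hN0 C₀ (bxc 3 4) hC₀ hbxc n₂ hn₂1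
  obtain ⟨ε', hε'⟩ : ∃ ε' : ℝ, ε' = Real.log 2 / (192 * N * (48 * N)) := ⟨_, rfl⟩
  have hε'0 : 0 < ε' := by rw [hε']; positivity
  rw [← hε'] at hnum
  obtain ⟨τ₂, hτ₂, J₅, hball⟩ := not_ball ap6r_all (m := 2) ha.le hR hU
    (x := 1 / (4 * (n₂ : ℝ))) (by positivity)
  obtain ⟨τ', hτ'⟩ : ∃ τ', τ' = min τ₂ ε' := ⟨_, rfl⟩
  have hτ'0 : 0 < τ' := by rw [hτ']; exact lt_min hτ₂ hε'0
  have hτ'2 : τ' ≤ τ₂ := by rw [hτ']; exact min_le_left _ _
  have hτ'3 : τ' ≤ ε' := by rw [hτ']; exact min_le_right _ _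
  obtain ⟨τ, hτ⟩ : ∃ τ, τ = τ' / (7 * (1 + a)) := ⟨_, rfl⟩
  have hτ0 : 0 < τ := by rw [hτ]; positivity
  have hτe : (1 + a) * (5 * τ + 2 * τ) = τ' := by
    rw [hτ]
    field_simp
    ring
  -- the relative size of the parts
  obtain ⟨ε, hε⟩ : ∃ ε : ℝ, ε = 1 / (16 * N) := ⟨_, rfl⟩
  have hε0 : 0 < ε := by rw [hε]; positivity
  have hε1 : ε ≤ 1 := by
    rw [hε, div_le_one (by positivity)]
    have : (1 : ℝ) ≤ N := by exact_mod_cast hN0
    linarith only [hNr, this]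
  have C3 : Claim (m := 2) a R (fun J F A =>
      LineU i₀ (1 / 2 ^ (l * (J / N))) (cel F ((l + v + 2) * (J / N))) F.d A →
      (∀ A₁ : F.Ω → Prop, Sub A₁ A → Pe F.p A / 2 ≤ Pe F.p A₁ → Lb F i₀ ⌊h₁ * J⌋₊ A₁ →
      ∀ (S : Type) (z : F.Ω → S) (k : Fin 2 → ℕ) (P : ℕ), P ≤ J → (∀ i, k i ≤ P) →
      (∃ φ : (Fin 2 → ℤ) × (ℕ × F.ζ) → S, ∀ ω, A₁ ω → z ω = φ (Fam.pt F ω)) →
      Pool.K3.BoxL F.x F.d A₁ z (sig i₀) k ((v + 1) * (J / N)) 7 →
      LineU i₀ (1 / 2 ^ ((l - 1) * (J / N))) z F.d A₁ →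
      Pool.K3.full P k - CH (Pool.Agent.H49.Ent.cond F.p A₁ True) (F.X P)
          (fun ω => (z ω, F.W ω)) +
        CH (Pool.Agent.H49.Ent.cond F.p A₁ True) z (fun ω => (F.X P ω, F.W ω)) +
        ((2 : ℕ) : ℝ) * (((1 * (J / N) : ℕ) : ℝ) * Real.log 2) ≤
          R / a * ((b' * (J / N) : ℕ) : ℝ) - 1 / N * J →
      Cn F i₀ ((l - 1 - b') * (J / N)) ((v + 1 - 1) * (J / N)) A₁) →
      Lb F i₀ ⌊h₁ * J⌋₊ A → Cn F i₀ (l * (J / N)) ((v + 1) * (J / N)) A →
      Cn F i₀ ((l - 1 - b') * (J / N)) ((v + 1 - 1) * (J / N)) A) := by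
    refine Claim.one ⟨2, fun J F i => if (i : ℕ) = 0 then
        Ball (1 / 2 ^ (J / n₂ - 1)) (K2S.Fam.pt F) F.d
        else RotU i₀ (1 / 2 ^ ((l - 1 - b') * (J / N))) (1 / 2 ^ ((l - 1 - b') * (J / N)))
          (Fam.pt F) (slam F ((v + 1 - 1) * (J / N))) F.d, ?_⟩
      fun κ hκ => ?_
    · intro J F i
      by_cases hi : (i : ℕ) = 0
      · simp only [hi, if_true]
        exact Ball.hered _ _ _
      · simp only [hi, if_false]
        exact RotU.hered _ _ _ _ _ _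
    obtain ⟨J₁, hJ₁⟩ := exists_nat_gt ((4 * (4 * plcδ 3 4 0 (2 * (48 * N)) + 8 * Real.log 2) +
      8 * |Real.log ε| + 16 * |Real.log (1 / (256 * N))| + 8 * Real.log 2) / κ +
      |Real.log (ε / 4)| / τ + J₂ + J₅ + 4 * n₂ + 10 / h₁ + N)
    refine ⟨τ, hτ0, J₁, ?_⟩
    intro J hJ F A hS hstab hline hlab hLb hCn
    have hJr : (J₁ : ℝ) ≤ J := by exact_mod_cast hJ
    have hδ0 : 0 ≤ plcδ 3 4 0 (2 * (48 * N)) := by
      have g1 : 0 ≤ Real.log (4 * ((3 : ℕ) : ℝ) + 1) := Real.log_nonneg (by norm_num)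
      have g2 : 0 ≤ Real.log (4 * ((3 : ℕ) : ℝ) + 7) := Real.log_nonneg (by norm_num)
      have g3 : 0 ≤ Real.log (4 * ((3 : ℕ) : ℝ) + 2 * 4 + 9) := Real.log_nonneg (by norm_num)
      have g4 : 0 ≤ Real.log (2 * (4 : ℝ) + 5) := Real.log_nonneg (by norm_num)
      have g5 : 0 ≤ Real.log (3 : ℝ) := Real.log_nonneg (by norm_num)
      have g6 := K2S.cc_nonneg 2
      have g7 := K2S.cc_nonneg 1
      unfold plcδ
      positivity
    have t1 : 0 ≤ (4 * (4 * plcδ 3 4 0 (2 * (48 * N)) + 8 * Real.log 2) +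
      8 * |Real.log ε| + 16 * |Real.log (1 / (256 * N))| + 8 * Real.log 2) / κ := by positivity
    have t2 : 0 ≤ |Real.log (ε / 4)| / τ := by positivity
    have t3 : (0 : ℝ) ≤ J₂ := by positivity
    have t4 : (0 : ℝ) ≤ J₅ := by positivity
    have t5 : (0 : ℝ) ≤ 4 * n₂ := by positivity
    have t6 : (0 : ℝ) ≤ 10 / h₁ := by positivity
    have j1 : (4 * (4 * plcδ 3 4 0 (2 * (48 * N)) + 8 * Real.log 2) +
      8 * |Real.log ε| + 16 * |Real.log (1 / (256 * N))| + 8 * Real.log 2) / κ < J := by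
      linarith only [hn₂r, hJ₁, hJr, t2, t6]
    have j2 : |Real.log (ε / 4)| / τ < J := by linarith only [hn₂r, hJ₁, hJr, t1, t6]
    have j3 : (J₂ : ℝ) ≤ J := by linarith only [hn₂r, hJ₁, hJr, t1, t2, t6]
    have j4 : (J₅ : ℝ) ≤ J := by linarith only [hn₂r, hJ₁, hJr, t1, t2, t6]
    have j5 : 4 * (n₂ : ℝ) ≤ J := by linarith only [hJ₁, hJr, t1, t2, t6]
    have j6 : 10 / h₁ ≤ J := by linarith only [hn₂r, hJ₁, hJr, t1, t2]
    rw [div_lt_iff₀ hκ] at j1
    rw [div_lt_iff₀ hτ0] at j2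
    have j3' : J ≥ J₂ := by exact_mod_cast j3
    have j4' : J ≥ J₅ := by exact_mod_cast j4
    have j5' : 4 * n₂ ≤ J := by exact_mod_cast j5
    obtain ⟨hTr, hMx, hRbd, hPA⟩ := hS
    have hp := F.isLaw
    have hA0 : 0 < Pe F.p A := lt_of_lt_of_le (Real.exp_pos _) hPA
    have hJ0 : (0 : ℝ) ≤ J := Nat.cast_nonneg J
    -- the scales
    obtain ⟨g, hg⟩ : ∃ g, g = J / n₂ := ⟨_, rfl⟩
    obtain ⟨u, hu⟩ : ∃ u, u = J / N := ⟨_, rfl⟩
    obtain ⟨K, hK⟩ : ∃ K, K = J / (48 * N) := ⟨_, rfl⟩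
    obtain ⟨N₂, hN₂⟩ : ∃ N₂, N₂ = (l + 1) * u / K := ⟨_, rfl⟩
    have hg4 : 4 ≤ g := by
      rw [hg, Nat.le_div_iff_mul_le hn₂0]
      exact j5'
    have hgJ1 : n₂ * g ≤ J := by rw [hg]; exact Nat.mul_div_le J n₂
    have hgJ2 : J < n₂ * (g + 1) := by rw [hg]; exact Nat.lt_mul_div_succ J hn₂0
    have hgJ1r : (n₂ : ℝ) * g ≤ J := by exact_mod_cast hgJ1
    have hgJ2r : (J : ℝ) < n₂ * ((g : ℝ) + 1) := by exact_mod_cast hgJ2
    have hg4r : (4 : ℝ) ≤ g := by exact_mod_cast hg4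
    have huJ : N * u ≤ J := by rw [hu]; exact Nat.mul_div_le J N
    have hrJ : (l + v + 2) * u ≤ J := (Nat.mul_le_mul_right u hlvN).trans huJ
    have hgb : g + 3 ≤ ⌊h₁ * (J : ℝ)⌋₊ := by
      refine Nat.le_floor ?_
      push_cast
      have h1 : 2 ≤ h₁ * n₂ := by
        rw [div_le_iff₀ hh₁] at hn₂2
        linarith only [hn₂2]
      have h2 : 10 ≤ h₁ * J := by
        rw [div_le_iff₀ hh₁] at j6
        linarith only [j6]
      have h3 : 2 * (g : ℝ) ≤ h₁ * n₂ * g := mul_le_mul_of_nonneg_right h1 (Nat.cast_nonneg g)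
      have h4 : h₁ * n₂ * g ≤ h₁ * J := by
        have := mul_le_mul_of_nonneg_left hgJ1r hh₁.le
        linarith only [this]
      linarith only [hl2, hl21, h2, h3, h4]
    have s1 : Stb F.p (κ * J) A (Ball (1 / 2 ^ (g - 1)) (K2S.Fam.pt F) F.d) := by
      have := hstab (⟨0, by omega⟩ : Fin 2)
      simpa [hg] using this
    have s2 : Stb F.p (κ * J) A (RotU i₀ (1 / 2 ^ ((l - 1 - b') * u))
        (1 / 2 ^ ((l - 1 - b') * u)) (Fam.pt F) (slam F ((v + 1 - 1) * u)) F.d) := by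
      have := hstab (⟨1, by omega⟩ : Fin 2)
      simpa [hu] using this
    rw [← hu] at hline hlab hCn ⊢
    -- the parts of `A`
    have hMxB : ∀ B : F.Ω → Prop, Real.exp (-((2 * τ) * J)) ≤ Pe F.p B →
        ∃ h : IsLaw (Pool.Agent.H49.Ent.cond F.p B True), (F.res B True h).Mx a R τ' := by
      intro B hB
      obtain ⟨h, -, h2, -⟩ := max_res F ha.le hτ0.le (by linarith only [hτ0] : (0 : ℝ) ≤ 2 * τ) hTr hMx
        hRbd B hB
      rw [hτe] at h2
      exact ⟨h, h2⟩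
    have hbig : ∀ B : F.Ω → Prop, ε / 4 * Pe F.p A ≤ Pe F.p B →
        Real.exp (-((2 * τ) * J)) ≤ Pe F.p B := by
      intro B hB
      refine le_trans ?_ hB
      have h1 : Real.exp (-(τ * J)) ≤ ε / 4 := by
        have h2 := neg_abs_le (Real.log (ε / 4))
        rw [← Real.log_le_log_iff (Real.exp_pos _) (by positivity), Real.log_exp]
        linarith only [j2, h2]
      have h3 : Real.exp (-((2 * τ) * J)) = Real.exp (-(τ * J)) * Real.exp (-(τ * J)) := by
        rw [← Real.exp_add]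
        congr 1
        ring
      rw [h3]
      exact mul_le_mul h1 hPA (Real.exp_pos _).le (by positivity)
    have hTmB : ∀ B : F.Ω → Prop, ε / 4 * Pe F.p A ≤ Pe F.p B →
        ∀ hl : IsLaw (Pool.Agent.H49.Ent.cond F.p B True), (F.res B True hl).Tm (ε' * J) := by
      intro B hB hl
      obtain ⟨h, h2⟩ := hMxB B (hbig B hB)
      exact (Mx_mono hτ'3 h2).1
    have hnB : ¬ Ball (1 / 2 ^ (g - 1)) (K2S.Fam.pt F) F.d A := by
      rintro ⟨w, hw⟩
      obtain ⟨h, hMxh⟩ := hMxB A (hbig A (by nlinarith only [hl2, hA0, hl21, hε1]))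
      refine hball J j4' (F.res A True h) (Mx_mono hτ'2 hMxh) (g - 1) (by
        have : g ≤ J := le_trans (Nat.le_mul_of_pos_left g hn₂0) hgJ1
        omega) ?_ ⟨w, ?_⟩
      · have e1 : ((g - 1 : ℕ) : ℝ) = g - 1 := by
          rw [Nat.cast_sub (by omega)]
          push_cast
          ring
        rw [e1, div_mul_eq_mul_div, one_mul, div_le_iff₀ (by positivity)]
        nlinarith only [hNr, hn₂r, hJ₁, hJr, t1, t2, t6, hgJ2r]
      · intro ω hω j
        exact hw ω (FF.Pe_res h hω) j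
    -- the spread part
    have habs1 := abs_nonneg (Real.log ε)
    have habs2 := abs_nonneg (Real.log (1 / (256 * (N : ℝ))))
    have hκJ : Real.log 2 ≤ κ * J := by linarith only [hl2, hδ0, j1, habs1, habs2]
    have hLb' := hLb
    obtain ⟨e₀, n₀, hfr⟩ := hLb
    obtain ⟨A₁, hA₁, hPA₁, hspr⟩ := spread_part (g := g) (hb := ⌊h₁ * (J : ℝ)⌋₊) (by omega)
      (by omega) hA0 hκJ s1 hnB hfr
    have hhalf : Real.exp (-Real.log 2) = 1 / 2 := by
      rw [Real.exp_neg, Real.exp_log (by norm_num)]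
      norm_num
    have hPA₁' : Pe F.p A / 2 ≤ Pe F.p A₁ := by
      rw [hhalf] at hPA₁
      linarith only [hPA₁]
    have hA₁0 : 0 < Pe F.p A₁ := by linarith only [hA0, hPA₁']
    have hexp2 : Real.exp (-(κ * J)) * Pe F.p A ≤ Pe F.p A₁ := by
      refine le_trans (mul_le_mul_of_nonneg_right ?_ hA0.le) hPA₁
      exact Real.exp_le_exp.2 (by linarith only [hl2, hδ0, j1, habs1, habs2])
    refine s2.of_sub hA₁ hexp2 ?_
    change Cn F i₀ ((l - 1 - b') * u) ((v + 1 - 1) * u) A₁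
    -- the frames
    obtain ⟨e₁, n₁, ζ, hon, hcn⟩ := hCn
    obtain ⟨e, n, hn0, hS'⟩ := norm_line (by positivity) hline
    obtain ⟨m1, m2, m3, m4, mY⟩ := hnum J j3' l (by omega)
      (Real.exp (-(κ * J / 2 / 8))) (ε' * J) (Real.exp_pos _).le
      (by
        have h2 := neg_abs_le (Real.log (1 / (256 * (N : ℝ))))
        rw [← Real.log_le_log_iff (Real.exp_pos _) (by positivity), Real.log_exp]
        linarith only [hl2, hδ0, j1, habs1, h2]) (by positivity) le_rfl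
    rw [← hg, ← hK] at m1
    rw [← hg, ← hu] at m2
    rw [← hu] at m3
    rw [← hu, ← hK, ← hN₂] at m4
    rw [← hg, ← hu, ← hK, ← hN₂] at mY
    obtain ⟨mY0, mY1⟩ := mY
    have hlu : u ≤ l * u := Nat.le_mul_of_pos_left u (by omega)
    obtain ⟨lam, hlam⟩ : ∃ lam, lam = l * u - (g + 2) := ⟨_, rfl⟩
    have hlam2 : lam + (g + 2) = l * u := by omega
    obtain ⟨he3, ζ', hζ1, hζ2, hζ3⟩ := win_frame F (A := A₁) (w := (v + 1) * u) (l := l * u)
      (lam := lam) (g := g) (r := (l + v + 2) * u) (hb := ⌊h₁ * (J : ℝ)⌋₊) hrJ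
      (by omega) hgb (hfr.sub hA₁) hspr (hon.sub hA₁) (fun ω hω => hcn ω (hA₁ ω hω))
      (hS'.sub hA₁)
    have hlr : (v + 1) * u + lam ≤ (l + v + 2) * u := by
      have e1 : (l + v + 2) * u = (v + 1) * u + l * u + u := by ring
      omega
    have hon2 : OnL i₀ (1 / 2 ^ lam) (cel F ((l + v + 2) * u)) F.d A₁ e n := by
      intro ω hω j
      refine (hS' ω (hA₁ ω hω) j).trans ?_
      exact one_div_le_one_div_of_le (by positivity)
        (pow_le_pow_right₀ (by norm_num) (by omega))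
    -- the label
    have hbox := bxf_box F i₀ (w := (v + 1) * u) hlr (A := A₁) (b := 3) (by norm_num) hon2 he3
    have hbl := bxf_line F i₀ (w := (v + 1) * u) (lam := lam) (r := (l + v + 2) * u)
      (p := (l - 1) * u) (by
        have e1 : l * u = (l - 1) * u + u := by
          obtain ⟨l', rfl⟩ : ∃ l', l = l' + 1 := ⟨l - 1, by omega⟩
          rw [Nat.add_sub_cancel]
          ring
        omega) (A := A₁) hon2
    obtain ⟨φ, hφ⟩ := exists_cel F hrJ
    have hkey := hfull J F A₁ i₀ ((v + 1) * u) lam ((l + v + 2) * u) K N₂ g (κ * J / 2) ε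
      (ε' * J) (1 / 2 ^ (g - 1)) (1 / 2 ^ ⌊h₁ * (J : ℝ)⌋₊) e₀ n₀ e n ζ' hrJ
      (by
        have e1 : (l + v + 2) * u = (v + 1) * u + (l + 1) * u := by ring
        have e2 : N₂ * K ≤ (l + 1) * u := by rw [hN₂]; exact Nat.div_mul_le_self _ _
        omega)
      hlr m1 hA₁0 hε0
      (by
        have h2 := neg_abs_le (Real.log ε)
        rw [← Real.log_le_log_iff (Real.exp_pos _) (by positivity), Real.log_exp]
        linarith only [hl2, hδ0, j1, habs1, habs2, h2])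
      (by positivity)
      (fun B hB hPB hl => hTmB B (by nlinarith only [hPB, hl2, hl21, hε0, hPA₁']) hl)
      (by
        have h := s1.sub (a := Real.log 2) (Ball.hered _ _ _) hA₁ hPA₁
        exact h.mono hp (by linarith only [hl2, hδ0, j1, habs1, habs2]))
      (fun h => hnB (s1.of_sub hA₁ hexp2 h)) (hfr.sub hA₁)
      (by
        obtain ⟨g', rfl⟩ : ∃ g', g = g' + 1 := ⟨g - 1, by omega⟩
        have e2 : (1 : ℝ) / 2 ^ (g' + 1 - 1) = 2 * ((2 : ℝ) ^ (g' + 1))⁻¹ := by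
          rw [Nat.add_sub_cancel, pow_succ]
          field_simp
        have e3 : (1 : ℝ) / 2 ^ ⌊h₁ * (J : ℝ)⌋₊ ≤ ((2 : ℝ) ^ (g' + 1))⁻¹ := by
          rw [← one_div]
          exact one_div_le_one_div_of_le (by positivity)
            (pow_le_pow_right₀ (by norm_num) (by omega))
        rw [e2]
        linarith only [e3])
      hn0 hon2 hζ1 hζ2 hζ3
      (by
        have := plcδ_mono (q := 3) (b := 4) (N := 0) m4
        linarith only [hl2, j1, habs1, habs2, this])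
      mY0
    exact by
     have hzW : CH (Pool.Agent.H49.Ent.cond F.p A₁ True)
         (fun ω => bxf i₀ ((v + 1) * u) lam ((l + v + 2) * u) e n (cel F ((l + v + 2) * u) ω))
         (fun ω => (F.X ((l + v + 2) * u) ω, F.W ω)) = 0 := by
       refine CH_eq_zero (isLaw_cond hp hA₁0).nonneg ?_
       intro ω ω' _ _ h
       have h' : cel F ((l + v + 2) * u) ω = cel F ((l + v + 2) * u) ω' := h
       simp only
       rw [h']
     refine hlab A₁ hA₁ hPA₁' ⟨e₀, n₀, hfr.sub hA₁⟩ _ _ ![(v + 1) * u, (v + 1) * u + lam]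
       ((l + v + 2) * u) hrJ ?_ ⟨fun p => bxf i₀ ((v + 1) * u) lam ((l + v + 2) * u) e n (φ p),
         fun ω _ => by simp only [hφ]⟩ ?_ hbl ?_
     · intro i
       fin_cases i
       · simp only [Fin.zero_eta, Fin.isValue, Matrix.cons_val_zero]
         omega
       · simp only [Fin.mk_one, Fin.isValue, Matrix.cons_val_one, Matrix.cons_val_zero]
         exact hlr
     · have : (3 : ℝ) + 4 = 7 := by norm_num
       rw [this] at hbox
       exact hbox
     · rw [hzW]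
       have hful : Pool.K3.full ((l + v + 2) * u) ![(v + 1) * u, (v + 1) * u + lam] =
           ((l + 2 : ℝ) * u + g + 2) * Real.log 2 := by
         unfold Pool.K3.full
         rw [Fin.sum_univ_two]
         simp only [Matrix.cons_val_zero, Matrix.cons_val_one]
         have e1 : (lam : ℝ) = l * u - (g + 2) := by
           have : ((lam + (g + 2) : ℕ) : ℝ) = ((l * u : ℕ) : ℝ) := by exact_mod_cast hlam2
           push_cast at this
           linarith only [this]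
         push_cast
         rw [e1]
         ring
       rw [hful]
       rw [hε] at hkey
       have f1 : (1 : ℝ) / N * J ≤ 2 * u := by
         rw [div_mul_eq_mul_div, one_mul, div_le_iff₀ hNr]
         linarith only [m3]
       have f2 : (u : ℝ) * Real.log 2 ≤ u := by
         have := mul_le_mul_of_nonneg_left hl21.le (Nat.cast_nonneg u : (0 : ℝ) ≤ u)
         linarith only [this]
       have f3 : 8 * (u : ℝ) ≤ R / a * b' * u :=
         mul_le_mul_of_nonneg_right hRb (Nat.cast_nonneg u)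
       push_cast
       have f4 : R / a * ((b' : ℝ) * u) = R / a * b' * u := by ring
       rw [f4]
       linarith only [mY1, hkey, f1, f2, f3]
  exact by
   refine Claim.mono 0 ?_ ((C1.and C2).and C3)
   rintro J - F A ⟨⟨h1, h2⟩, h3⟩ hLb hLn hCn hrow
   have e1 : l + (v + 1) + 1 = l + v + 2 := by ring
   have e2 : l + (v + 1) = l + v + 1 := by ring
   have h4 := h1 hLb hCn (by
     rw [e1, e2]
     push_cast
     exact by
      rw [one_mul]
      exact hrow) 0 (by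
        push_cast
        positivity)
   rw [e1, Nat.add_zero] at h4
   have h5 := h3 h4 h2 hLb hCn
   have e3 : l - (b' + 1) = l - 1 - b' := by omega
   rw [e3]
   rw [Nat.add_sub_cancel] at h5
   exact h5

end Pool.K2S
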