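import Pool.Agent.H45.K2.PLR

/-!
# Visibility of the labels of planks from the cells of the positions

The labels of the planks at the row `w + lam` are visible from `(F.X r, F.W)`, `w + lam ≤ r`, if
the frame is.
-/

set_option autoImplicit false

namespace Pool.K2S

open Finset Real
open Pool.Agent.H49.Ent Pool.Agent.H32.Dense Pool.STK Pool.KA Pool.KA.Win Pool.KA.TRC Rows FF

variable {m J : ℕ}

/-- The cell of the position at the row `r`, with the time and the side information. -/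
noncomputable def cel (F : Fam m J) (r : ℕ) (ω : F.Ω) : (Fin m → ℤ) × (ℕ × F.ζ) := (F.X r ω, F.W ω)

namespace Cell

/-- **Visibility of the plank from a cell.** -/
theorem plab_cel {U : Type} (F : Fam m J) {w lam r : ℕ} (hw : w + lam ≤ r) (hr : r ≤ J)
    {i0 : Fin m}
    {z : F.Ω → Fin m → ℝ} {b : ℝ} (hb : 0 ≤ b) (hz : ∀ ω, 0 < F.p ω → ∀ i, |z ω i| ≤ b)
    {pt : F.Ω → U} (hpt : Det F.p pt (fun ω => (F.X r ω, F.W ω))) {e n : U → Fin m → ℝ}
    (hl : ∀ ω, 0 < F.p ω → ∀ j, |F.d ω j - e (pt ω) j * F.d ω i0 - n (pt ω) j| ≤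
      ((2 : ℝ) ^ lam)⁻¹) {q : ℕ}
    (he : ∀ ω, 0 < F.p ω → ∀ j, |e (pt ω) j - z ω j| ≤ q * ((2 : ℝ) ^ lam)⁻¹)
    (hg : ∀ ω j, ∃ k : ℤ, z ω j = k / 2 ^ lam) :
    CH F.p (F.plab w lam i0 z) pt ≤ m * Real.log (4 * q + 1) +
      m * Real.log (4 * q + 7) + m * Real.log (4 * q + 2 * b + 9) := by
  have h0 := F.isLaw.nonneg
  have hp2 : (0 : ℝ) < 2 ^ lam := by positivity
  have hwJ : w ≤ J := by omega
  -- differences in plank coordinates
  have hpco : ∀ ω ω', 0 < F.p ω → 0 < F.p ω' → pt ω = pt ω' → z ω = z ω' → ∀ i,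
      |pco lam i0 (z ω) (F.d ω) i - pco lam i0 (z ω) (F.d ω') i| ≤ 2 + q * 2 := by
    intro ω ω' hω hω' hp hzz i
    have h1 := hl ω hω
    have h2 := hl ω' hω'
    rw [← hp] at h2
    have h3 := he ω hω
    have h4 : |F.d ω i0 - F.d ω' i0| ≤ 2 := by
      have a1 := abs_le.1 (F.dir ω i0)
      have a2 := abs_le.1 (F.dir ω' i0)
      rw [abs_le]
      constructor <;> linarith [a1.1, a1.2, a2.1, a2.2]
    have e1 : (2 : ℝ) ^ lam * (2 * ((2 : ℝ) ^ lam)⁻¹ + q * ((2 : ℝ) ^ lam)⁻¹ * 2) =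
        2 + q * 2 := by
      field_simp
    have h5 := Plk.pco_near (lam := lam) (i0 := i0) (z := z ω) h1 h2 h3 h4
      (by rw [e1]; have : (0 : ℝ) ≤ q := by positivity
          linarith) i
    rwa [e1] at h5
  have a1 := Plk.CH_z_pt F (lam := lam) he hg
  -- velocities
  have a2 : CH F.p (F.pvl lam i0 z) (fun ω => (z ω, pt ω)) ≤ m * Real.log (4 * q + 7) := by
    have key := Plk.CH_vec_const F.isLaw (F.pvl lam i0 z) (fun ω => (z ω, pt ω))
      (c := 2 + q * 2 + 1) ?_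
    · have e1 : 2 * (2 + (q : ℝ) * 2 + 1) + 1 = 4 * q + 7 := by ring
      rwa [e1] at key
    · intro ω ω' hω hω' h j
      have h1 := Prod.ext_iff.mp h
      simp only at h1
      have h2 := hpco ω ω' hω hω' h1.2 h1.1 j
      have e1 : F.pvl lam i0 z ω j = ⌊2 ^ 0 * pco lam i0 (z ω) (F.d ω) j⌋ := rfl
      have e3 : F.pvl lam i0 z ω' j = ⌊2 ^ 0 * pco lam i0 (z ω') (F.d ω') j⌋ := rfl
      rw [e1, e3]
      refine Plk.floor_sub_lt ?_
      rw [pow_zero, one_mul, one_mul, ← h1.1]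
      exact h2
  -- positions
  have a3 : CH F.p (F.pcl w lam i0 z) (fun ω => (z ω, pt ω)) ≤
      m * Real.log (4 * q + 2 * b + 9) := by
    have key := Plk.CH_vec_const F.isLaw (F.pcl w lam i0 z) (fun ω => (z ω, pt ω))
      (c := (1 + b) + (2 + q * 2) + 1) ?_
    · have e1 : 2 * ((1 + b) + (2 + (q : ℝ) * 2) + 1) + 1 = 4 * q + 2 * b + 9 := by ring
      rwa [e1] at key
    · intro ω ω' hω hω' h j
      have h1 := Prod.ext_iff.mp h
      simp only at h1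
      have h2 := hpco ω ω' hω hω' h1.2 h1.1 j
      have h3 := Prod.ext_iff.mp (hpt ω ω' hω hω' h1.2)
      have hX : F.X r ω = F.X r ω' := h3.1
      have hT : F.T ω = F.T ω' := (Prod.ext_iff.mp h3.2).1
      have e2 : (F.plk w lam i0 z).t ω = (F.plk w lam i0 z).t ω' := by
        change ((F.T ω % 2 ^ (J - w) : ℕ) : ℝ) / 2 ^ (J - w) =
          ((F.T ω' % 2 ^ (J - w) : ℕ) : ℝ) / 2 ^ (J - w)
        rw [hT]
      have key : ∀ ω'', 2 ^ w * pco lam i0 (z ω'') (F.x1 w ω'') j =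
          2 ^ w * pco lam i0 (z ω'') (F.x ω'') j -
            (F.plk w lam i0 z).t ω'' * pco lam i0 (z ω'') (F.d ω'') j := by
        intro ω''
        have f1 := Plk.plk_x F hwJ lam i0 z ω'' j
        have f2 := Plk.pcl_eq F w lam i0 z ω'' j
        have f3 := Plk.pvl_eq F w lam i0 z ω'' j
        have f4 : (F.plk w lam i0 z).x ω'' j = (F.plk w lam i0 z).u ω'' j +
          (F.plk w lam i0 z).t ω'' * (F.plk w lam i0 z).d ω'' j := rfl
        rw [f1, f2, f3, f4]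
        ring
      have ht := Plk.t_mem F w lam i0 z ω'
      have hx : |2 ^ w * pco lam i0 (z ω) (F.x ω) j - 2 ^ w * pco lam i0 (z ω) (F.x ω') j| ≤
          1 + b := by
        have g0 : ∀ i, |2 ^ r * F.x ω i - 2 ^ r * F.x ω' i| ≤ 1 := fun i =>
          (Int.abs_sub_lt_one_of_floor_eq_floor (congrFun hX i)).le
        have g1 : ∀ i, |2 ^ (w + lam) * F.x ω i - 2 ^ (w + lam) * F.x ω' i| ≤ 1 := by
          intro i
          have e4 : (2 : ℝ) ^ r = 2 ^ (r - (w + lam)) * 2 ^ (w + lam) := by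
            rw [← pow_add]; congr 1; omega
          have g2 := g0 i
          rw [e4] at g2
          have e5 : (2 : ℝ) ^ (r - (w + lam)) * 2 ^ (w + lam) * F.x ω i -
              2 ^ (r - (w + lam)) * 2 ^ (w + lam) * F.x ω' i =
              2 ^ (r - (w + lam)) * (2 ^ (w + lam) * F.x ω i - 2 ^ (w + lam) * F.x ω' i) := by
            ring
          rw [e5, abs_mul, abs_of_nonneg (by positivity)] at g2
          have g3 : (1 : ℝ) ≤ 2 ^ (r - (w + lam)) := one_le_pow₀ (by norm_num)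
          have g4 := abs_nonneg (2 ^ (w + lam) * F.x ω i - 2 ^ (w + lam) * F.x ω' i)
          nlinarith
        unfold pco
        have hbz := hz ω hω j
        by_cases hi : j = i0
        · rw [if_pos hi, if_pos hi]
          have k1 := g1 i0
          rw [pow_add] at k1
          have e4 : (2 : ℝ) ^ w * 2 ^ lam * F.x ω i0 - 2 ^ w * 2 ^ lam * F.x ω' i0 =
            2 ^ lam * (2 ^ w * F.x ω i0 - 2 ^ w * F.x ω' i0) := by ring
          rw [e4, abs_mul, abs_of_nonneg (by positivity)] at k1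
          have k2 := abs_nonneg (2 ^ w * F.x ω i0 - 2 ^ w * F.x ω' i0)
          have k3 : (1 : ℝ) ≤ 2 ^ lam := one_le_pow₀ (by norm_num)
          nlinarith
        · rw [if_neg hi, if_neg hi]
          have e4 : (2 : ℝ) ^ w * (2 ^ lam * (F.x ω j - z ω j * F.x ω i0)) -
              2 ^ w * (2 ^ lam * (F.x ω' j - z ω j * F.x ω' i0)) =
              (2 ^ (w + lam) * F.x ω j - 2 ^ (w + lam) * F.x ω' j) -
              z ω j * (2 ^ (w + lam) * F.x ω i0 - 2 ^ (w + lam) * F.x ω' i0) := by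
            rw [pow_add]; ring
          rw [e4]
          have k4 : |z ω j * (2 ^ (w + lam) * F.x ω i0 - 2 ^ (w + lam) * F.x ω' i0)| ≤
              b * 1 := by
            rw [abs_mul]
            exact mul_le_mul hbz (g1 i0) (abs_nonneg _) hb
          have k5 := abs_sub (2 ^ (w + lam) * F.x ω j - 2 ^ (w + lam) * F.x ω' j)
            (z ω j * (2 ^ (w + lam) * F.x ω i0 - 2 ^ (w + lam) * F.x ω' i0))
          linarith [g1 j]
      have e1 : F.pcl w lam i0 z ω j = ⌊2 ^ w * pco lam i0 (z ω) (F.x1 w ω) j⌋ := rfl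
      have e3 : F.pcl w lam i0 z ω' j = ⌊2 ^ w * pco lam i0 (z ω') (F.x1 w ω') j⌋ := rfl
      rw [e1, e3]
      refine Plk.floor_sub_lt ?_
      rw [key ω, key ω', ← h1.1, e2]
      have e4 : 2 ^ w * pco lam i0 (z ω) (F.x ω) j -
          (F.plk w lam i0 z).t ω' * pco lam i0 (z ω) (F.d ω) j -
          (2 ^ w * pco lam i0 (z ω) (F.x ω') j -
          (F.plk w lam i0 z).t ω' * pco lam i0 (z ω) (F.d ω') j) =
          (2 ^ w * pco lam i0 (z ω) (F.x ω) j - 2 ^ w * pco lam i0 (z ω) (F.x ω') j) -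
          (F.plk w lam i0 z).t ω' * (pco lam i0 (z ω) (F.d ω) j -
            pco lam i0 (z ω) (F.d ω') j) := by ring
      rw [e4]
      have k1 := abs_sub (2 ^ w * pco lam i0 (z ω) (F.x ω) j -
        2 ^ w * pco lam i0 (z ω) (F.x ω') j)
        ((F.plk w lam i0 z).t ω' * (pco lam i0 (z ω) (F.d ω) j -
            pco lam i0 (z ω) (F.d ω') j))
      rw [abs_mul, abs_of_nonneg ht.1] at k1
      have k2 := abs_nonneg (pco lam i0 (z ω) (F.d ω) j - pco lam i0 (z ω) (F.d ω') j)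
      nlinarith [ht.1, ht.2]
  -- assembly
  have b1 := CH_le_add h0 (F.plab w lam i0 z) z pt
  have b2 : CH F.p (F.plab w lam i0 z) (fun ω => (z ω, pt ω)) ≤
      CH F.p (fun ω => (F.pvl lam i0 z ω, F.pcl w lam i0 z ω)) (fun ω => (z ω, pt ω)) := by
    refine CH_mono_left h0 ?_
    intro ω ω' hω hω' h
    have h1 := Prod.ext_iff.mp h
    have h2 := Prod.ext_iff.mp h1.1
    have h3 := Prod.ext_iff.mp h1.2
    simp only at h2 h3
    have h4 := Prod.ext_iff.mp (hpt ω ω' hω hω' h3.2)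
    have h5 : F.T ω = F.T ω' := (Prod.ext_iff.mp h4.2).1
    have h6 : F.Z ω = F.Z ω' := (Prod.ext_iff.mp h4.2).2
    unfold Fam.plab Fam.T1
    rw [h5, h3.1, h2.1, h2.2, h6]
  have b3 := CH_subadd h0 (F.pvl lam i0 z) (F.pcl w lam i0 z) (fun ω => (z ω, pt ω))
  linarith

/-- The cell of the beginning of the window, given the row. -/
theorem CH_c_row (F : Fam m J) {w : ℕ} (h : w ≤ J) :
    CH F.p (F.c w) (cel F w) ≤ cc m := by
  have hp := F.isLaw.nonneg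
  have h1 : CH F.p (F.c w) (cel F w) ≤ CH F.p (fun ω => fl w (F.x1 w ω)) (cel F w) := by
    refine CH_mono_left hp fun ω ω' _ _ e => ?_
    have b := Prod.ext_iff.mp e
    have b1 : F.X w ω = F.X w ω' ∧ F.W ω = F.W ω' := Prod.ext_iff.mp b.2
    have b2 := Prod.ext_iff.mp b1.2
    have b3 : F.T ω = F.T ω' := b2.1
    exact Prod.ext (Prod.ext (det_T F w b3).1 b.1) b2.2
  have h2 := CH_x1_X F h (cel F w)
  have h3 : CH F.p (F.X w) (cel F w) = 0 := by
    refine CH_eq_zero hp fun ω ω' _ _ e => ?_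
    exact (Prod.ext_iff.mp e).1
  linarith

section General

variable {U : Type}

/-- The label of the plank family has bounded entropy given the cell. -/
theorem plC_cel (F : Fam m J) {w lam K N r : ℕ} (hJ : w + N * K + lam ≤ r) (hr : r ≤ J)
    {i₀ : Fin m} {z : F.Ω → Fin m → ℝ} {b : ℝ} (hb : 0 ≤ b)
    (hz : ∀ ω, 0 < F.p ω → ∀ i, |z ω i| ≤ b)
    {pt : F.Ω → U} (hpt : Det F.p pt (fun ω => (F.X r ω, F.W ω)))
    {e n : U → Fin m → ℝ}
    (hl : ∀ ω, 0 < F.p ω → ∀ j, |F.d ω j - e (pt ω) j * F.d ω i₀ - n (pt ω) j| ≤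
      ((2 : ℝ) ^ lam)⁻¹) {q : ℕ}
    (he : ∀ ω, 0 < F.p ω → ∀ j, |e (pt ω) j - z ω j| ≤ q * ((2 : ℝ) ^ lam)⁻¹)
    (hg : ∀ ω j, ∃ k : ℤ, z ω j = k / 2 ^ lam) :
    CH F.p (plC (F.plk w lam i₀ z) K N) pt ≤
      (2 * N + 3) * (m * Real.log (4 * q + 1) + m * Real.log (4 * q + 7) +
        m * Real.log (4 * q + 2 * b + 9)) + (m * Real.log (2 * b + 5) + m * Real.log 3) := by
  have hp := F.isLaw.nonneg
  set Cv : ℝ := m * Real.log (4 * q + 1) + m * Real.log (4 * q + 7) +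
        m * Real.log (4 * q + 2 * b + 9) with hCv
  have hv : ∀ v, v + lam ≤ r → CH F.p (F.plab v lam i₀ z) pt ≤ Cv := by
    intro v hv
    exact plab_cel F hv hr hb hz hpt hl he hg
  have hc : ∀ i : Fin (N + 1), CH F.p ((F.plk w lam i₀ z).c ((i : ℕ) * K)) pt ≤
      2 * Cv := by
    intro i
    have hik : (i : ℕ) * K ≤ N * K := Nat.mul_le_mul_right K (by omega)
    have h1 : CH F.p ((F.plk w lam i₀ z).c ((i : ℕ) * K)) pt ≤
        CH F.p (fun ω => (F.plab (w + i * K) lam i₀ z ω, F.plab w lam i₀ z ω)) pt := by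
      refine CH_mono_left hp fun ω ω' _ _ h => ?_
      have e1 := Prod.ext_iff.mp (Prod.ext_iff.mp h).1
      exact (Plk.c_iff F (by omega)).2 ⟨e1.1, e1.2⟩
    have h2 := CH_subadd hp (F.plab (w + i * K) lam i₀ z) (F.plab w lam i₀ z) pt
    have h3 := hv (w + i * K) (by omega)
    have h4 := hv w (by omega)
    linarith
  have h1 : CH F.p (plC (F.plk w lam i₀ z) K N) pt ≤
      CH F.p (fun ω (i : Fin (N + 1)) => (F.plk w lam i₀ z).c ((i : ℕ) * K) ω) pt +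
      CH F.p ((F.plk w lam i₀ z).X (N * K)) pt :=
    CH_subadd hp _ _ _
  have h2 := CH_pi_le hp pt (N + 1)
    (fun i => (F.plk w lam i₀ z).c ((i : ℕ) * K)) hc
  have h3 : CH F.p ((F.plk w lam i₀ z).X (N * K)) pt ≤
      CH F.p ((F.plk w lam i₀ z).X (N * K))
        (fun ω => (F.X r ω, (F.T ω, F.plab w lam i₀ z ω))) + Cv := by
    have a1 := CH_le_add hp ((F.plk w lam i₀ z).X (N * K)) (F.plab w lam i₀ z) pt
    have a2 := hv w (by omega)
    have a3 : CH F.p ((F.plk w lam i₀ z).X (N * K))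
        (fun ω => (F.plab w lam i₀ z ω, pt ω)) ≤ CH F.p ((F.plk w lam i₀ z).X (N * K))
        (fun ω => (F.X r ω, (F.T ω, F.plab w lam i₀ z ω))) := by
      refine CH_mono_cond hp fun ω ω' a b h => ?_
      have e1 := Prod.ext_iff.mp h
      have e2 : F.X r ω = F.X r ω' ∧ F.W ω = F.W ω' :=
        Prod.ext_iff.mp (hpt ω ω' a b e1.2)
      exact Prod.ext e2.1 (Prod.ext (Prod.ext_iff.mp e2.2).1 e1.1)
    linarith
  have h4 := Plk.CH_X_pt F (w := w) (K := N * K) (lam := lam) (r := r) (by omega) (by omega)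
    (i0 := i₀) hb hz
  push_cast at h2
  have h5 : ((2 : ℝ) * N + 3) * Cv = (N + 1) * (2 * Cv) + Cv := by ring
  rw [h5]
  linarith

/-- The label of the projected family has bounded entropy given the cell. -/
theorem pjC_cel (F : Fam m J) {w₂ lam K N r : ℕ} (hJ : w₂ + N * K ≤ r) (hJ' : w₂ + lam ≤ r)
    (hr : r ≤ J) {i₀ : Fin m}
    {z : F.Ω → Fin m → ℝ} {b : ℝ} (hb : 0 ≤ b) (hz : ∀ ω, 0 < F.p ω → ∀ i, |z ω i| ≤ b)
    {pt : F.Ω → U} (hpt : Det F.p pt (fun ω => (F.X r ω, F.W ω)))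
    {e n : U → Fin m → ℝ}
    (hl : ∀ ω, 0 < F.p ω → ∀ j, |F.d ω j - e (pt ω) j * F.d ω i₀ - n (pt ω) j| ≤
      ((2 : ℝ) ^ lam)⁻¹) {q : ℕ}
    (he : ∀ ω, 0 < F.p ω → ∀ j, |e (pt ω) j - z ω j| ≤ q * ((2 : ℝ) ^ lam)⁻¹)
    (hg : ∀ ω j, ∃ k : ℤ, z ω j = k / 2 ^ lam) :
    CH F.p (plC (F.pj i₀ w₂ (F.plab w₂ lam i₀ z)) K N) pt ≤
      (m * Real.log (4 * q + 1) + m * Real.log (4 * q + 7) +
        m * Real.log (4 * q + 2 * b + 9)) + cc m + (N + 1) * cc 1 := by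
  have hp := F.isLaw.nonneg
  have hw₂ : w₂ ≤ J := by omega
  set S := F.plab w₂ lam i₀ z with hS
  set G := F.pj i₀ w₂ S with hG
  have hv : CH F.p S pt ≤ m * Real.log (4 * q + 1) + m * Real.log (4 * q + 7) +
        m * Real.log (4 * q + 2 * b + 9) :=
    plab_cel F hJ' hr hb hz hpt hl he hg
  have hx : CH F.p (F.c w₂) pt ≤ cc m := by
    refine le_trans (CH_mono_cond hp ?_) (CH_c_row F hw₂)
    intro ω ω' a b h
    have h1 : F.X r ω = F.X r ω' ∧ F.W ω = F.W ω' := Prod.ext_iff.mp (hpt ω ω' a b h)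
    exact Prod.ext (Pool.STK.B58.fl_fine (by omega) h1.1) h1.2
  -- positions of the projected family
  have hXdet : ∀ j, j + w₂ ≤ r → ∀ ω ω', F.X r ω = F.X r ω' → F.c w₂ ω = F.c w₂ ω' →
      G.X j ω = G.X j ω' := by
    intro j hj ω ω' h1 h2
    funext i
    change (F.pj i₀ w₂ S).X j ω i = (F.pj i₀ w₂ S).X j ω' i
    rw [Pj.pj_X F i₀ hw₂, Pj.pj_X F i₀ hw₂]
    have e1 : ⌊(2 : ℝ) ^ (j + w₂) * F.x ω i₀⌋ = ⌊(2 : ℝ) ^ (j + w₂) * F.x ω' i₀⌋ := by
      have e2 : fl (j + w₂) (F.x ω) = fl (j + w₂) (F.x ω') := Pool.STK.B58.fl_fine hj h1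
      exact congrFun e2 i₀
    have e3 : ⌊(2 : ℝ) ^ w₂ * F.x1 w₂ ω i₀⌋ = ⌊(2 : ℝ) ^ w₂ * F.x1 w₂ ω' i₀⌋ :=
      congrFun (Prod.ext_iff.mp (Prod.ext_iff.mp h2).1).2 i₀
    rw [e1, e3]
  have hcpt : ∀ i : Fin (N + 1), CH F.p (G.c ((i : ℕ) * K))
      (fun ω => ((F.c w₂ ω, S ω), pt ω)) ≤ cc 1 := by
    intro i
    have hik : (i : ℕ) * K ≤ N * K := Nat.mul_le_mul_right K (by omega)
    have h1 := CH_c_row G (w := (i : ℕ) * K) (by omega)
    refine le_trans ?_ h1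
    refine CH_mono_cond (p := F.p) hp fun ω ω' a b h => ?_
    have a1 := Prod.ext_iff.mp h
    have a2 := Prod.ext_iff.mp a1.1
    have a3 : F.X r ω = F.X r ω' ∧ F.W ω = F.W ω' := Prod.ext_iff.mp (hpt ω ω' a b a1.2)
    have a4 := Prod.ext_iff.mp a3.2
    have a5 := Prod.ext_iff.mp (Prod.ext_iff.mp a2.1).1
    have a6 : F.T ω = F.T ω' := a4.1
    refine Prod.ext (hXdet ((i : ℕ) * K) (by omega) ω ω' a3.1 a2.1) (Prod.ext ?_ ?_)
    · change F.T ω % 2 ^ (J - w₂) = F.T ω' % 2 ^ (J - w₂)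
      rw [a6]
    · change (((F.T1 w₂ ω, ⌊(2 : ℝ) ^ w₂ * F.x1 w₂ ω i₀⌋), S ω), F.Z ω) =
        (((F.T1 w₂ ω', ⌊(2 : ℝ) ^ w₂ * F.x1 w₂ ω' i₀⌋), S ω'), F.Z ω')
      have a7 : ⌊(2 : ℝ) ^ w₂ * F.x1 w₂ ω i₀⌋ = ⌊(2 : ℝ) ^ w₂ * F.x1 w₂ ω' i₀⌋ :=
        congrFun a5.2 i₀
      have a8 : F.T1 w₂ ω = F.T1 w₂ ω' := a5.1
      have a9 : S ω = S ω' := a2.2
      have a10 : F.Z ω = F.Z ω' := a4.2
      rw [a7, a8, a9, a10]
  have h1 := CH_le_add hp (plC G K N) (fun ω => (F.c w₂ ω, S ω)) pt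
  have h2 := CH_subadd hp (F.c w₂) S pt
  have h3 : CH F.p (plC G K N) (fun ω => ((F.c w₂ ω, S ω), pt ω)) ≤
      CH F.p (fun ω (i : Fin (N + 1)) => G.c ((i : ℕ) * K) ω)
        (fun ω => ((F.c w₂ ω, S ω), pt ω)) +
      CH F.p (G.X (N * K)) (fun ω => ((F.c w₂ ω, S ω), pt ω)) :=
    CH_subadd hp _ _ _
  have h4 := CH_pi_le hp (fun ω => ((F.c w₂ ω, S ω), pt ω)) (N + 1)
    (fun i => G.c ((i : ℕ) * K)) hcpt
  have h5 : CH F.p (G.X (N * K)) (fun ω => ((F.c w₂ ω, S ω), pt ω)) = 0 := by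
    refine CH_eq_zero hp fun ω ω' a b h => ?_
    have a1 := Prod.ext_iff.mp h
    have a2 := Prod.ext_iff.mp a1.1
    have a3 : F.X r ω = F.X r ω' ∧ F.W ω = F.W ω' := Prod.ext_iff.mp (hpt ω ω' a b a1.2)
    exact hXdet (N * K) (by omega) ω ω' a3.1 a2.1
  push_cast at h4
  linarith

end General

end Cell

end Pool.K2S
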