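import Pool.Agent.H9.K2.Stmts2

/-!
# Two exchangeable samples with a common label
-/

set_option autoImplicit false

namespace Pool.KA

open Finset Real
open Pool.Agent.H49.Ent Pool.Agent.H32.Dense Pool.STK

namespace CT3

variable {Ω S : Type} [Fintype Ω]

lemma cpy_nonneg {p : Ω → ℝ} (hp : ∀ ω, 0 ≤ p ω) (c : Ω → S) (w : Ω × Ω) : 0 ≤ cpy p c w := by
  unfold cpy
  split_ifs
  · exact div_nonneg (mul_nonneg (hp _) (hp _)) (law_nonneg hp _ _)
  · exact le_rfl

lemma cpy_swap (p : Ω → ℝ) (c : Ω → S) (w : Ω × Ω) : cpy p c w.swap = cpy p c w := by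
  unfold cpy
  simp only [Prod.fst_swap, Prod.snd_swap]
  by_cases h : c w.1 = c w.2
  · rw [if_pos h, if_pos h.symm, h, mul_comm]
  · rw [if_neg h, if_neg (Ne.symm h)]

/-- The law of the two samples is symmetric. -/
lemma marg_swap (p : Ω → ℝ) (c : Ω → S) : Marg (cpy p c) (cpy p c) Prod.swap := by
  classical
  intro w
  rw [Finset.sum_eq_single w.swap]
  · rw [if_pos (Prod.swap_swap w), cpy_swap]
  · intro v _ hv
    rw [if_neg]
    intro h
    exact hv (by rw [← h, Prod.swap_swap])
  · intro h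
    exact absurd (Finset.mem_univ _) h

end CT3

open CT3 in
/-- (1.5.1) **Exchangeable samples.** -/
theorem ct3_thm : CT3Stmt := by
  intro Ω S S' U V _ p hp c b x s A hs hA
  set Q : Ω × Ω → ℝ := cpy p c with hQ
  have hQ0 : ∀ w, 0 ≤ Q w := cpy_nonneg hp.nonneg c
  have h1 := CH_le_add hQ0 (fun w => x w.2) (fun w => b w.2) (fun w => (b w.1, s w))
  have h2 : CH Q (fun w => x w.2) (fun w => (b w.2, (b w.1, s w))) ≤
      CH Q (fun w => x w.2) (fun w => (b w.2, s w)) :=
    CH_mono_cond hQ0 fun w w' _ _ h => by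
      simp only [Prod.mk.injEq] at h ⊢
      exact ⟨h.1, h.2.2⟩
  have h3 : CH Q (fun w => x w.2) (fun w => (b w.2, s w)) =
      CH Q (fun w => x w.1) (fun w => (b w.1, s w.swap)) := by
    have := (marg_swap p c).CH (fun w => x w.1) (fun w => (b w.1, s w.swap))
    simp only [Prod.fst_swap, Prod.swap_swap] at this
    exact this
  have h4 : CH Q (fun w => x w.1) (fun w => (b w.1, s w.swap)) ≤
      CH Q (fun w => x w.1) (fun w => (b w.1, s w)) := by
    refine CH_mono_cond hQ0 fun w w' hw hw' h => ?_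
    simp only [Prod.mk.injEq] at h ⊢
    refine ⟨h.1, ?_⟩
    have e1 : 0 < Q w.swap := by rw [hQ, cpy_swap]; exact hw
    have e2 : 0 < Q w'.swap := by rw [hQ, cpy_swap]; exact hw'
    have := hs w.swap w'.swap e1 e2 h.2
    simpa only [Prod.swap_swap] using this
  linarith

end Pool.KA
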