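import Pool.Agent.H5.K2.CLU
import Pool.Agent.H56.K2S.Defs
import Pool.Agent.H32.Dense.Conf

/-!
# Trees of conditionally independent copies

`tl p g n k D` is the law of a tree of depth `D`, in which every node has `n + 1` children, and the
children of a node at the level `v` are conditionally independent given the label `g (k + v)`. Its
leaves have the law `p`; the law of the tree is invariant under the automorphisms of the tree.
-/

set_option autoImplicit false

namespace Pool.CLU

open Finset Real
open Pool.Agent.H49.Ent Pool.Agent.H32.Dense Pool.STK Pool.KAF Pool.KAL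

section Cpn

variable {Ω S T U : Type} [Fintype Ω]

open Pool.K2S (cpn)

lemma cpn_nonneg {q : Ω → ℝ} (hq : ∀ ω, 0 ≤ q ω) (z : Ω → T) (n : ℕ) (w : Fin (n + 1) → Ω) :
    0 ≤ cpn q z n w := by
  unfold cpn
  split_ifs
  · exact div_nonneg (Finset.prod_nonneg fun i _ => hq _) (pow_nonneg (law_nonneg hq _ _) _)
  · exact le_rfl

lemma cpn_pos {q : Ω → ℝ} (hq : ∀ ω, 0 ≤ q ω) (z : Ω → T) (n : ℕ) (w : Fin (n + 1) → Ω)
    (h : 0 < cpn q z n w) : (∀ i, 0 < q (w i)) ∧ ∀ i, z (w i) = z (w 0) := by
  unfold cpn at h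
  split_ifs at h with h1
  · refine ⟨fun i => ?_, h1⟩
    by_contra h2
    have h3 : q (w i) = 0 := le_antisymm (not_lt.mp h2) (hq _)
    rw [Finset.prod_eq_zero (Finset.mem_univ i) h3, zero_div] at h
    exact lt_irrefl _ h
  · exact absurd h (lt_irrefl _)

/-- Marginals. -/
lemma cpn_marg {q : Ω → ℝ} (hq : ∀ ω, 0 ≤ q ω) (z : Ω → T) (n : ℕ) (i : Fin (n + 1)) :
    Marg (cpn q z n) q (fun w => w i) := by
  classical
  intro ω
  have h1 : ∀ w : Fin (n + 1) → Ω, (if w i = ω then cpn q z n w else 0) =
      (∏ j, if j = i then (if w j = ω then q (w j) else 0) else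
        (if z (w j) = z ω then q (w j) else 0)) / law q z (z ω) ^ n := by
    intro w
    by_cases hi : w i = ω
    · rw [if_pos hi]
      unfold cpn
      by_cases hz : ∀ j, z (w j) = z (w 0)
      · have hz' : ∀ j, z (w j) = z ω := fun j => by rw [hz j, ← hz i, hi]
        rw [if_pos hz, ← hz i, hi]
        congr 1
        refine Finset.prod_congr rfl fun j _ => ?_
        by_cases hj : j = i
        · subst hj; rw [if_pos rfl, if_pos hi]
        · rw [if_neg hj, if_pos (hz' j)]
      · rw [if_neg hz]
        have : ∃ j, z (w j) ≠ z ω := by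
          by_contra hc
          push Not at hc
          exact hz fun j => by rw [hc j, hc 0]
        obtain ⟨j, hj⟩ := this
        have hji : j ≠ i := by
          rintro rfl
          exact hj (by rw [hi])
        rw [Finset.prod_eq_zero (Finset.mem_univ j), zero_div]
        rw [if_neg hji, if_neg hj]
    · rw [if_neg hi, Finset.prod_eq_zero (Finset.mem_univ i), zero_div]
      rw [if_pos rfl, if_neg hi]
  rw [Finset.sum_congr rfl fun w _ => h1 w, ← Finset.sum_div]
  have h2 := Finset.prod_univ_sum (fun _ : Fin (n + 1) => (univ : Finset Ω))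
    (fun j x => if j = i then (if x = ω then q x else 0) else (if z x = z ω then q x else 0))
  rw [Fintype.piFinset_univ] at h2
  rw [← h2]
  have h3 : ∀ j : Fin (n + 1), (∑ x, if j = i then (if x = ω then q x else 0) else
      (if z x = z ω then q x else 0)) = if j = i then q ω else law q z (z ω) := by
    intro j
    by_cases hj : j = i
    · simp [hj]
    · simp only [hj, if_false]
      rfl
  rw [Finset.prod_congr rfl fun j _ => h3 j, Finset.prod_ite, Finset.prod_const, Finset.prod_const]
  have h4 : (univ.filter fun j : Fin (n + 1) => j = i).card = 1 := by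
    rw [Finset.filter_eq' univ i, if_pos (Finset.mem_univ i), Finset.card_singleton]
  have h5 : (univ.filter fun j : Fin (n + 1) => ¬ j = i).card = n := by
    have := Finset.card_filter_add_card_filter_not (s := (univ : Finset (Fin (n + 1))))
      (fun j => j = i)
    rw [h4, Finset.card_univ, Fintype.card_fin] at this
    omega
  rw [h4, h5, pow_one]
  rcases (hq ω).eq_or_lt with h0 | h0
  · rw [← h0]; simp
  · rw [mul_div_assoc, div_self (pow_ne_zero _ (law_pos hq z h0).ne'), mul_one]

lemma cpn_law {q : Ω → ℝ} (hq : IsLaw q) (z : Ω → T) (n : ℕ) : IsLaw (cpn q z n) :=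
  ⟨cpn_nonneg hq.nonneg z n, by rw [(cpn_marg hq.nonneg z n 0).sum, hq.sum_one]⟩

/-- Symmetry under maps of the copies. -/
lemma cpn_map {q : Ω → ℝ} (hq : ∀ ω, 0 ≤ q ω) (z : Ω → T) (n : ℕ) (φ : Fin (n + 1) → Ω → Ω)
    (h1 : ∀ i ω, q (φ i ω) = q ω) (h2 : ∀ i ω, 0 < q ω → z (φ i ω) = z ω)
    (w : Fin (n + 1) → Ω) : cpn q z n (fun i => φ i (w i)) = cpn q z n w := by
  classical
  by_cases h0 : ∀ i, 0 < q (w i)
  · unfold cpn
    have h3 : ∀ i, z (φ i (w i)) = z (w i) := fun i => h2 i _ (h0 i)
    simp only [h3, h1]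
  · push Not at h0
    obtain ⟨i, hi⟩ := h0
    have hi' : q (w i) = 0 := le_antisymm hi (hq _)
    have e1 : ∏ i, q (w i) = 0 := Finset.prod_eq_zero (Finset.mem_univ i) hi'
    have e2 : ∏ i, q (φ i (w i)) = 0 :=
      Finset.prod_eq_zero (Finset.mem_univ i) ((h1 i (w i)).trans hi')
    unfold cpn
    rw [e1, e2]
    simp

/-- Symmetry under permutations of the copies. -/
lemma cpn_perm {q : Ω → ℝ} (z : Ω → T) (n : ℕ) (σ : Equiv.Perm (Fin (n + 1)))
    (w : Fin (n + 1) → Ω) : cpn q z n (fun i => w (σ i)) = cpn q z n w := by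
  classical
  unfold cpn
  have h1 : (∀ i, z (w (σ i)) = z (w (σ 0))) ↔ ∀ i, z (w i) = z (w 0) := by
    constructor
    · intro h i
      have a := h (σ.symm i)
      have b := h (σ.symm 0)
      rw [Equiv.apply_symm_apply] at a b
      rw [a, b]
    · intro h i
      rw [h (σ i), h (σ 0)]
  have h2 : ∏ i, q (w (σ i)) = ∏ i, q (w i) := Equiv.prod_comp σ fun i => q (w i)
  rw [h2]
  by_cases h : ∀ i, z (w i) = z (w 0)
  · rw [if_pos (h1.mpr h), if_pos h, h (σ 0)]
  · rw [if_neg fun hh => h (h1.mp hh), if_neg h]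

/-- Entropy of the copies. -/
lemma H_cpn {q : Ω → ℝ} (hq : ∀ ω, 0 ≤ q ω) (z : Ω → T) (n : ℕ) (X : Ω → S) (hX : Det q X z) :
    H (cpn q z n) (fun w => fun i => X (w i)) = (n + 1) * H q X - n * H q z := by
  classical
  have hlaw : ∀ w, 0 < cpn q z n w → law (cpn q z n) (fun w => fun i => X (w i))
      (fun i => X (w i)) = (∏ i, law q X (X (w i))) / law q z (z (w 0)) ^ n := by
    intro w hw
    obtain ⟨hw1, hw2⟩ := cpn_pos hq z n w hw
    unfold law
    have h2 := Finset.prod_univ_sum (fun _ : Fin (n + 1) => (univ : Finset Ω))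
      (fun j x => if X x = X (w j) then q x else 0)
    rw [Fintype.piFinset_univ] at h2
    rw [h2, Finset.sum_div]
    refine Finset.sum_congr rfl fun v _ => ?_
    by_cases h : ∀ i, X (v i) = X (w i)
    · rw [if_pos (funext h)]
      have h3 : (∏ j, if X (v j) = X (w j) then q (v j) else 0) = ∏ j, q (v j) :=
        Finset.prod_congr rfl fun j _ => if_pos (h j)
      rw [h3]
      by_cases h0 : ∀ i, 0 < q (v i)
      · have hz : ∀ i, z (v i) = z (w 0) := fun i =>
          (hX _ _ (h0 i) (hw1 i) (h i)).trans (hw2 i)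
        unfold cpn
        rw [if_pos fun i => (hz i).trans (hz 0).symm, hz 0]
        rfl
      · push Not at h0
        obtain ⟨i, hi⟩ := h0
        have hi' : q (v i) = 0 := le_antisymm hi (hq _)
        have h4 : ∏ j, q (v j) = 0 := Finset.prod_eq_zero (Finset.mem_univ i) hi'
        unfold cpn
        rw [h4]
        simp
    · rw [if_neg fun hh => h fun i => congrFun hh i]
      push Not at h
      obtain ⟨i, hi⟩ := h
      rw [Finset.prod_eq_zero (Finset.mem_univ i) (if_neg hi), zero_div]
  have hterm : ∀ w, cpn q z n w * Real.log (law (cpn q z n) (fun w => fun i => X (w i))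
      (fun i => X (w i))) = (∑ i, cpn q z n w * Real.log (law q X (X (w i)))) -
        n * (cpn q z n w * Real.log (law q z (z (w 0)))) := by
    intro w
    by_cases h0 : cpn q z n w = 0
    · simp [h0]
    have hw : 0 < cpn q z n w := lt_of_le_of_ne (cpn_nonneg hq z n w) (Ne.symm h0)
    obtain ⟨hw1, hw2⟩ := cpn_pos hq z n w hw
    rw [hlaw w hw, Real.log_div (Finset.prod_ne_zero_iff.mpr fun i _ =>
      (law_pos hq X (hw1 i)).ne') (pow_ne_zero _ (law_pos hq z (hw1 0)).ne'),
      Real.log_prod (fun i _ => (law_pos hq X (hw1 i)).ne'), Real.log_pow, ← Finset.mul_sum]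
    ring
  unfold H
  rw [Finset.sum_congr rfl fun w _ => hterm w, Finset.sum_sub_distrib, Finset.sum_comm,
    ← Finset.mul_sum]
  have e1 : ∀ i : Fin (n + 1), ∑ w, cpn q z n w * Real.log (law q X (X (w i))) =
      ∑ ω, q ω * Real.log (law q X (X ω)) := fun i =>
    (cpn_marg hq z n i).ex (fun ω => Real.log (law q X (X ω)))
  have e2 : ∑ w, cpn q z n w * Real.log (law q z (z (w 0))) =
      ∑ ω, q ω * Real.log (law q z (z ω)) :=
    (cpn_marg hq z n 0).ex (fun ω => Real.log (law q z (z ω)))
  rw [Finset.sum_congr rfl fun i _ => e1 i, e2, Finset.sum_const, Finset.card_univ,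
    Fintype.card_fin, nsmul_eq_mul]
  push_cast
  ring

end Cpn

section Tree

variable {Ω γ S T U : Type} [Fintype Ω]

/-- Paths in the tree. -/
abbrev Pa (n D : ℕ) : Type := Fin D → Fin (n + 1)

/-- The trees hanging at the children of the first node. -/
def sb {n D : ℕ} (c : Pa n (D + 1) → Ω) (i : Fin (n + 1)) : Pa n D → Ω :=
  fun x => c (Fin.cons i x)

/-- The law of the tree. -/
noncomputable def tl (p : Ω → ℝ) (g : ℕ → Ω → γ) (n : ℕ) : (D k : ℕ) → (Pa n D → Ω) → ℝ
  | 0, _, c => p (c 0)
  | D + 1, k, c => Pool.K2S.cpn (tl p g n D (k + 1)) (fun x => g k (x 0)) n (fun i => sb c i)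

/-- A tree is the family of the trees at the children of the first node. -/
def spl (Ω : Type) (n D : ℕ) : (Pa n (D + 1) → Ω) ≃ (Fin (n + 1) → Pa n D → Ω) where
  toFun c := fun i => sb c i
  invFun w := fun x => w (x 0) (Fin.tail x)
  left_inv c := by
    funext x
    simp only [sb, Fin.cons_self_tail]
  right_inv w := by
    funext i x
    simp only [sb, Fin.cons_zero, Fin.tail_cons]

/-- A tree of depth zero. -/
def spl0 (Ω : Type) (n : ℕ) : (Pa n 0 → Ω) ≃ Ω where
  toFun c := c 0
  invFun ω := fun _ => ω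
  left_inv c := by
    funext x
    rw [Subsingleton.elim x 0]
  right_inv ω := rfl

lemma tl_nonneg {p : Ω → ℝ} (hp : ∀ ω, 0 ≤ p ω) (g : ℕ → Ω → γ) (n : ℕ) :
    ∀ (D k : ℕ) (c : Pa n D → Ω), 0 ≤ tl p g n D k c := by
  intro D
  induction D with
  | zero => intro k c; exact hp _
  | succ D ih => intro k c; exact cpn_nonneg (ih (k + 1)) _ _ _

/-- Every leaf has the law `p`. -/
lemma tl_marg {p : Ω → ℝ} (hp : ∀ ω, 0 ≤ p ω) (g : ℕ → Ω → γ) (n : ℕ) :
    ∀ (D k : ℕ) (x : Pa n D), Marg (tl p g n D k) p (fun c => c x) := by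
  intro D
  induction D with
  | zero =>
    intro k x
    have h := marg_of_equiv (q := tl p g n 0 k) (r := p) (spl0 Ω n) (fun c => rfl)
    have h2 : (fun c : Pa n 0 → Ω => c x) = fun c => spl0 Ω n c := by
      funext c
      rw [Subsingleton.elim x 0]
      rfl
    rw [h2]
    exact h
  | succ D ih =>
    intro k x
    have h1 := marg_of_equiv (q := tl p g n (D + 1) k)
      (r := Pool.K2S.cpn (tl p g n D (k + 1)) (fun x => g k (x 0)) n) (spl Ω n D) (fun c => rfl)
    have h2 := cpn_marg (tl_nonneg hp g n D (k + 1)) (fun x => g k (x 0)) n (x 0)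
    have h3 := (h1.comp h2).comp (ih (k + 1) (Fin.tail x))
    have h4 : (fun c : Pa n (D + 1) → Ω => c x) = fun c => (spl Ω n D c) (x 0) (Fin.tail x) := by
      funext c
      simp only [spl, Equiv.coe_fn_mk, sb, Fin.cons_self_tail]
    rw [h4]
    exact h3

lemma tl_law {p : Ω → ℝ} (hp : IsLaw p) (g : ℕ → Ω → γ) (n D k : ℕ) : IsLaw (tl p g n D k) :=
  ⟨tl_nonneg hp.nonneg g n D k, by rw [(tl_marg hp.nonneg g n D k 0).sum, hp.sum_one]⟩

/-- Leaves whose paths agree up to the level `v` have the same label `g (k + v)`. -/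
lemma tl_label {p : Ω → ℝ} (hp : ∀ ω, 0 ≤ p ω) (g : ℕ → Ω → γ)
    (hg : ∀ v, Det p (g (v + 1)) (g v)) (n : ℕ) :
    ∀ (D k : ℕ) (c : Pa n D → Ω), 0 < tl p g n D k c → ∀ (x y : Pa n D) (v : ℕ), v < D →
      (∀ j : Fin D, (j : ℕ) < v → x j = y j) → g (k + v) (c x) = g (k + v) (c y) := by
  intro D
  induction D with
  | zero => intro k c _ x y v hv; exact absurd hv (Nat.not_lt_zero _)
  | succ D ih =>
    intro k c hc x y v hv hxy
    obtain ⟨h1, h2⟩ := cpn_pos (tl_nonneg hp g n D (k + 1)) _ n _ hc
    have hcx : ∀ x : Pa n (D + 1), c x = sb c (x 0) (Fin.tail x) := fun x => by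
      simp only [sb, Fin.cons_self_tail]
    -- inside a subtree the label `g k` is the same
    have h3 : ∀ (i : Fin (n + 1)) (x' : Pa n D), g k (sb c i x') = g k (sb c i 0) := by
      intro i x'
      rcases Nat.eq_zero_or_pos D with h0 | h0
      · subst h0
        rw [Subsingleton.elim x' 0]
      · have h4 := ih (k + 1) (sb c i) (h1 i) x' 0 0 h0 (fun j hj => absurd hj (Nat.not_lt_zero _))
        exact hg k _ _ ((tl_marg hp g n D (k + 1) x').pos (tl_nonneg hp g n D (k + 1)) (h1 i))
          ((tl_marg hp g n D (k + 1) 0).pos (tl_nonneg hp g n D (k + 1)) (h1 i)) h4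
    rw [hcx x, hcx y]
    cases v with
    | zero =>
      exact (h3 (x 0) _).trans (((h2 (x 0)).trans (h2 (y 0)).symm).trans (h3 (y 0) _).symm)
    | succ v =>
      have h4 : x 0 = y 0 := hxy 0 (by simp)
      rw [h4, show k + (v + 1) = k + 1 + v by omega]
      refine ih (k + 1) (sb c (y 0)) (h1 _) _ _ v (by omega) fun j hj => ?_
      exact hxy j.succ (by rw [Fin.val_succ]; omega)

/-- Version with a function of the label, all levels. -/
lemma tl_fun {p : Ω → ℝ} (hp : ∀ ω, 0 ≤ p ω) (g : ℕ → Ω → γ)
    (hg : ∀ v, Det p (g (v + 1)) (g v)) (n D k : ℕ) (c : Pa n D → Ω) (hc : 0 < tl p g n D k c)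
    (x y : Pa n D) (v : ℕ) (hxy : ∀ j : Fin D, (j : ℕ) < v → x j = y j) (f : Ω → S)
    (hf : Det p (g (k + v)) f) : f (c x) = f (c y) := by
  by_cases hv : v < D
  · exact hf _ _ ((tl_marg hp g n D k x).pos (tl_nonneg hp g n D k) hc)
      ((tl_marg hp g n D k y).pos (tl_nonneg hp g n D k) hc)
      (tl_label hp g hg n D k c hc x y v hv hxy)
  · have : x = y := funext fun j => hxy j (by omega)
    rw [this]

/-- The automorphism of the tree which adds `s` in the tree hanging at the node `0` of the level
`a`. -/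
def sh {n D : ℕ} (a : ℕ) (s : Pa n D) (x : Pa n D) : Pa n D :=
  if ∀ j : Fin D, (j : ℕ) < a → x j = 0 then x + s else x

lemma sh_zero {n D : ℕ} (a : ℕ) (s : Pa n D) : sh a s 0 = s := by
  have h : ∀ j : Fin D, (j : ℕ) < a → (0 : Pa n D) j = 0 := fun _ _ => rfl
  unfold sh
  rw [if_pos h, zero_add]

lemma sh_add {n D : ℕ} (s x : Pa n D) : sh 0 s x = x + s := by
  have h : ∀ j : Fin D, (j : ℕ) < 0 → x j = 0 := fun j hj => absurd hj (Nat.not_lt_zero _)
  unfold sh
  rw [if_pos h]

/-- The law of the tree is invariant. -/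
lemma tl_sh {p : Ω → ℝ} (hp : ∀ ω, 0 ≤ p ω) (g : ℕ → Ω → γ)
    (hg : ∀ v, Det p (g (v + 1)) (g v)) (n : ℕ) :
    ∀ (D k a : ℕ) (s : Pa n D) (c : Pa n D → Ω), (∀ j : Fin D, (j : ℕ) < a → s j = 0) →
      tl p g n D k (fun x => c (sh a s x)) = tl p g n D k c := by
  intro D
  induction D with
  | zero =>
    intro k a s c _
    congr 1
    funext x
    rw [Subsingleton.elim (sh a s x) x]
  | succ D ih =>
    intro k a s c hs
    -- the label of the first node
    have hz : ∀ (a : ℕ) (s : Pa n D) (ω : Pa n D → Ω), 0 < tl p g n D (k + 1) ω →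
        g k (ω (sh a s 0)) = g k (ω 0) := by
      intro a s ω hω
      exact tl_fun hp g hg n D (k + 1) ω hω _ _ 0 (fun j hj => absurd hj (Nat.not_lt_zero _))
        (g k) (hg k)
    cases a with
    | zero =>
      have h1 : (fun i => sb (fun x => c (sh 0 s x)) i) =
          fun i => (fun x => sb c (Equiv.addRight (s 0) i) (sh 0 (Fin.tail s) x)) := by
        funext i x
        simp only [sb, sh_add]
        congr 1
        funext j
        refine Fin.cases ?_ (fun j => ?_) j
        · simp
        · simp [Fin.tail]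
      change Pool.K2S.cpn _ _ n (fun i => sb (fun x => c (sh 0 s x)) i) =
        Pool.K2S.cpn _ _ n (fun i => sb c i)
      rw [h1, ← cpn_perm (fun x => g k (x 0)) n (Equiv.addRight (s 0)) (fun i => sb c i)]
      exact cpn_map (tl_nonneg hp g n D (k + 1)) (fun x => g k (x 0)) n
        (fun _ ω => fun x => ω (sh 0 (Fin.tail s) x))
        (fun _ ω => ih (k + 1) 0 (Fin.tail s) ω (fun j hj => absurd hj (Nat.not_lt_zero _)))
        (fun _ ω hω => hz 0 _ ω hω) (fun i => sb c (Equiv.addRight (s 0) i))
    | succ a =>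
      have hs0 : s 0 = 0 := hs 0 (by simp)
      have hs1 : ∀ j : Fin D, (j : ℕ) < a → Fin.tail s j = 0 := fun j hj =>
        hs j.succ (by rw [Fin.val_succ]; omega)
      have h1 : (fun i => sb (fun x => c (sh (a + 1) s x)) i) =
          fun i => (fun (i : Fin (n + 1)) (ω : Pa n D → Ω) =>
            if i = 0 then (fun x => ω (sh a (Fin.tail s) x)) else ω) i (sb c i) := by
        funext i x
        simp only [sb]
        by_cases hi : i = 0
        · rw [if_pos hi]
          subst hi
          congr 1
          unfold sh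
          by_cases hx : ∀ j : Fin D, (j : ℕ) < a → x j = 0
          · rw [if_pos hx, if_pos]
            · funext j
              refine Fin.cases ?_ (fun j => ?_) j
              · simp [hs0]
              · simp [Fin.tail]
            · intro j
              refine Fin.cases ?_ (fun j => ?_) j
              · intro _; simp
              · intro hj
                rw [Fin.cons_succ]
                exact hx j (by rw [Fin.val_succ] at hj; omega)
          · rw [if_neg hx, if_neg]
            intro h
            refine hx fun j hj => ?_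
            have := h j.succ (by rw [Fin.val_succ]; omega)
            rwa [Fin.cons_succ] at this
        · rw [if_neg hi]
          congr 1
          unfold sh
          rw [if_neg]
          intro h
          have := h 0 (by simp)
          rw [Fin.cons_zero] at this
          exact hi this
      change Pool.K2S.cpn _ _ n (fun i => sb (fun x => c (sh (a + 1) s x)) i) =
        Pool.K2S.cpn _ _ n (fun i => sb c i)
      rw [h1]
      refine cpn_map (tl_nonneg hp g n D (k + 1)) (fun x => g k (x 0)) n
        (fun (i : Fin (n + 1)) (ω : Pa n D → Ω) =>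
            if i = 0 then (fun x => ω (sh a (Fin.tail s) x)) else ω) ?_ ?_
        (fun i => sb c i)
      · intro i ω
        by_cases hi : i = 0
        · simp only [hi, if_true]
          exact ih (k + 1) a (Fin.tail s) ω hs1
        · simp only [hi, if_false]
      · intro i ω hω
        by_cases hi : i = 0
        · simp only [hi, if_true]
          exact hz a _ ω hω
        · simp only [hi, if_false]

end Tree

end Pool.CLU
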