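import Pool.Agent.H5.K2.CLU0

/-!
# The price of the copies

The sample is a pair `(l, T)`, the labels are `g v = (l, τ v)`, where `τ v` is a function of the
time `T`. If the dependence of `l` and `T` given `τ v` is at most `M` for every level, then the
times of all leaves of a tree with `(n + 1) ^ D` leaves give at most `((n + 1) ^ D - 1) M` more
information about `l` than the time of one leaf.
-/

set_option autoImplicit false

namespace Pool.CLU

open Finset Real
open Pool.Agent.H49.Ent Pool.Agent.H32.Dense Pool.STK Pool.KAF Pool.KAL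

/-- PRICE. -/
def PRICEStmt : Prop :=
  ∀ (Ω Λ Θ κ : Type) [Fintype Ω] (p : Ω → ℝ) (l : Ω → Λ) (T : Ω → Θ) (τ : ℕ → Ω → κ) (n : ℕ)
    (M : ℝ), IsLaw p → Det p (fun ω => (l ω, T ω)) (fun ω => ω) → (∀ v, Det p T (τ v)) →
    (∀ v, Det p (τ (v + 1)) (τ v)) → (∀ v, Pool.KVA.MI p l T (τ v) ≤ M) →
    ∀ D k : ℕ, CH p l T - ((n + 1) ^ D - 1) * M ≤
      CH (tl p (fun v ω => (l ω, τ v ω)) n D k) (fun c => l (c 0)) (fun c x => T (c x))

section

variable {Ω Λ Θ κ : Type} [Fintype Ω]

/-- Subadditivity over a finite family. -/
lemma CH_pi_le {Ω' U W : Type} [Fintype Ω'] {q : Ω' → ℝ} (hq : ∀ ω, 0 ≤ q ω) (n : ℕ)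
    (X : Fin n → Ω' → U) (Z : Ω' → W) :
    CH q (fun ω => fun i => X i ω) Z ≤ ∑ i, CH q (X i) Z := by
  induction n with
  | zero =>
    rw [Finset.univ_eq_empty, Finset.sum_empty]
    refine (CH_eq_zero hq ?_).le
    intro ω ω' _ _ _
    funext i
    exact i.elim0
  | succ n ih =>
    rw [Fin.sum_univ_succ]
    have h1 := CH_subadd hq (X 0) (fun ω => fun i : Fin n => X i.succ ω) Z
    have h2 : CH q (fun ω => fun i => X i ω) Z ≤
        CH q (fun ω => (X 0 ω, fun i : Fin n => X i.succ ω)) Z := by
      refine CH_mono_left hq ?_
      intro ω ω' _ _ h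
      simp only [Prod.mk.injEq] at h
      funext i
      refine Fin.cases ?_ (fun j => ?_) i
      · exact h.1.1
      · exact congrFun h.1.2 j
    linarith [ih (fun i => X i.succ)]

end

theorem price_thm : PRICEStmt := by
  intro Ω Λ Θ κ _ p l T τ n M hp hid hT hτ hM D
  set g : ℕ → Ω → Λ × κ := fun v ω => (l ω, τ v ω) with hg
  have hgn : ∀ v, Det p (g (v + 1)) (g v) := by
    intro v ω ω' h1 h2 h3
    have h4 := Prod.ext_iff.mp h3
    exact Prod.ext h4.1 (hτ v ω ω' h1 h2 h4.2)
  have hM' : ∀ v, CH p l (τ v) ≤ CH p l T + M := by
    intro v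
    have h1 := hM v
    rw [MI_eq hp.nonneg] at h1
    have h2 : CH p l (fun ω => (T ω, τ v ω)) = CH p l T := by
      refine CH_congr hp.nonneg ?_ ?_ ?_ ?_
      · intro ω ω' _ _ h; exact (Prod.ext_iff.mp h).1
      · intro ω ω' _ _ h; exact (Prod.ext_iff.mp h).1
      · intro ω ω' _ _ h; exact (Prod.ext_iff.mp h).1
      · intro ω ω' a b h
        exact Prod.ext h (hT v ω ω' a b h)
    linarith
  -- the entropy of the tree minus the entropy of the times
  have key : ∀ D k : ℕ, CH p l T - ((n + 1) ^ D - 1) * M ≤
      H (tl p g n D k) (fun c => c) - H (tl p g n D k) (fun c x => T (c x)) := by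
    intro D
    induction D with
    | zero =>
      intro k
      rw [H_tl_zero hp.nonneg]
      have h1 : H (tl p g n 0 k) (fun c x => T (c x)) = H p T := by
        rw [← (tl_marg hp.nonneg g n 0 k 0).H T]
        refine H_congr (tl_nonneg hp.nonneg g n 0 k) ?_ ?_
        · intro c c' _ _ h
          have h' : T (c 0) = T (c' 0) := h
          change (fun x => T (c x)) = fun x => T (c' x)
          funext x
          rw [Subsingleton.elim x 0]
          exact h'
        · intro c c' _ _ h
          exact congrFun h 0
      have h2 : H p (fun ω => ω) = H p (fun ω => (l ω, T ω)) := by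
        refine H_congr hp.nonneg hid ?_
        intro ω ω' _ _ h
        have h' : ω = ω' := h
        rw [h']
      rw [h1, h2]
      unfold CH
      simp
    | succ D ih =>
      intro k
      have h1 := H_tl_succ hp.nonneg g n D k
      have hq := tl_nonneg hp.nonneg g n (D + 1) k
      -- the times
      have h2 : H (tl p g n (D + 1) k) (fun c x => T (c x)) ≤
          (n + 1) * H (tl p g n D (k + 1)) (fun c x => T (c x)) - n * H p (τ k) := by
        have m1 := marg_of_equiv (q := tl p g n (D + 1) k)
          (r := Pool.K2S.cpn (tl p g n D (k + 1)) (fun x => g k (x 0)) n) (spl Ω n D)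
          (fun c => rfl)
        have m2 : ∀ i : Fin (n + 1), Marg (tl p g n (D + 1) k) (tl p g n D (k + 1))
            (fun c => sb c i) := fun i =>
          m1.comp (cpn_marg (tl_nonneg hp.nonneg g n D (k + 1)) (fun x => g k (x 0)) n i)
        have m3 := tl_marg hp.nonneg g n (D + 1) k 0
        -- times determine the label `τ k`
        have e1 : H (tl p g n (D + 1) k) (fun c x => T (c x)) =
            H p (τ k) + CH (tl p g n (D + 1) k) (fun c x => T (c x)) (fun c => τ k (c 0)) := by
          unfold CH
          rw [m3.H (τ k)]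
          have e2 : H (tl p g n (D + 1) k) (fun c => ((fun x => T (c x)), τ k (c 0))) =
              H (tl p g n (D + 1) k) (fun c x => T (c x)) := by
            refine H_congr hq ?_ ?_
            · intro c c' a b h
              exact Prod.ext h (hT k _ _ (m3.pos hq a) (m3.pos hq b) (congrFun h 0))
            · intro c c' _ _ h
              exact (Prod.ext_iff.mp h).1
          rw [e2]
          ring
        have e3 : CH (tl p g n (D + 1) k) (fun c x => T (c x)) (fun c => τ k (c 0)) ≤
            ∑ i : Fin (n + 1), CH (tl p g n (D + 1) k) (fun c x => T (sb c i x))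
              (fun c => τ k (c 0)) := by
          refine le_trans ?_ (CH_pi_le hq (n + 1)
            (fun i c x => T (sb c i x)) (fun c => τ k (c 0)))
          refine CH_mono_left hq ?_
          intro c c' _ _ h
          have h3 := (Prod.ext_iff.mp h).1
          funext x
          have h4 := congrFun (congrFun h3 (x 0)) (Fin.tail x)
          simpa only [sb, Fin.cons_self_tail] using h4
        have e4 : ∀ i : Fin (n + 1), CH (tl p g n (D + 1) k) (fun c x => T (sb c i x))
            (fun c => τ k (c 0)) = H (tl p g n D (k + 1)) (fun c x => T (c x)) - H p (τ k) := by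
          intro i
          have hsh : ∀ c, 0 < tl p g n (D + 1) k c → τ k (c 0) = τ k (sb c i 0) := by
            intro c hc
            have h5 := tl_fun hp.nonneg g hgn n (D + 1) k c hc 0 (Fin.cons i 0) 0
              (fun j hj => absurd hj (Nat.not_lt_zero _)) (τ k)
              (fun ω ω' _ _ h => (Prod.ext_iff.mp h).2)
            exact h5
          have h6 : CH (tl p g n (D + 1) k) (fun c x => T (sb c i x)) (fun c => τ k (c 0)) =
              CH (tl p g n (D + 1) k) (fun c x => T (sb c i x)) (fun c => τ k (sb c i 0)) := by
            refine CH_congr hq ?_ ?_ ?_ ?_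
            · intro c c' _ _ h; exact (Prod.ext_iff.mp h).1
            · intro c c' _ _ h; exact (Prod.ext_iff.mp h).1
            · intro c c' a b h
              change τ k (sb c i 0) = τ k (sb c' i 0)
              rw [← hsh c a, ← hsh c' b]
              exact h
            · intro c c' a b h
              change τ k (c 0) = τ k (c' 0)
              rw [hsh c a, hsh c' b]
              exact h
          rw [h6]
          have h7 := (m2 i).CH (fun c' : Pa n D → Ω => fun x => T (c' x)) (fun c' => τ k (c' 0))
          rw [h7]
          unfold CH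
          have m4 := tl_marg hp.nonneg g n D (k + 1) 0
          have hq' := tl_nonneg hp.nonneg g n D (k + 1)
          have e5 : H (tl p g n D (k + 1)) (fun c => ((fun x => T (c x)), τ k (c 0))) =
              H (tl p g n D (k + 1)) (fun c x => T (c x)) := by
            refine H_congr hq' ?_ ?_
            · intro c c' a b h
              exact Prod.ext h (hT k _ _ (m4.pos hq' a) (m4.pos hq' b) (congrFun h 0))
            · intro c c' _ _ h
              exact (Prod.ext_iff.mp h).1
          rw [e5, m4.H (τ k)]
        rw [e1]
        have e6 := e3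
        rw [Finset.sum_congr rfl fun i _ => e4 i, Finset.sum_const, Finset.card_univ,
          Fintype.card_fin, nsmul_eq_mul] at e6
        push_cast at e6
        linarith
      have h3 : H p (g k) = H p (τ k) + CH p l (τ k) := by
        unfold CH
        rw [hg]
        ring
      have h4 := ih (k + 1)
      have h5 := hM' k
      have h6 := mul_le_mul_of_nonneg_left h5 (Nat.cast_nonneg (α := ℝ) n)
      have h7 := mul_le_mul_of_nonneg_left h4 (by positivity : (0 : ℝ) ≤ (n : ℝ) + 1)
      rw [h1, h3]
      have h8 : ((n : ℝ) + 1) ^ (D + 1) = (n + 1) * (n + 1) ^ D := by ring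
      rw [h8]
      nlinarith
  intro k
  have h1 := key D k
  have hq := tl_nonneg hp.nonneg g n D k
  have h2 : H (tl p g n D k) (fun c => c) =
      H (tl p g n D k) (fun c => (l (c 0), fun x => T (c x))) := by
    refine H_congr hq ?_ ?_
    · intro c c' a b h
      have h3 := Prod.ext_iff.mp h
      change c = c'
      funext x
      have e1 := tl_fun hp.nonneg g hgn n D k c a x 0 0
        (fun j hj => absurd hj (Nat.not_lt_zero _)) l (fun ω ω' _ _ h => (Prod.ext_iff.mp h).1)
      have e2 := tl_fun hp.nonneg g hgn n D k c' b x 0 0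
        (fun j hj => absurd hj (Nat.not_lt_zero _)) l (fun ω ω' _ _ h => (Prod.ext_iff.mp h).1)
      refine hid _ _ ((tl_marg hp.nonneg g n D k x).pos hq a)
        ((tl_marg hp.nonneg g n D k x).pos hq b) ?_
      exact Prod.ext (e1.trans (h3.1.trans e2.symm)) (congrFun h3.2 x)
    · intro c c' _ _ h
      have h' : c = c' := h
      rw [h']
  unfold CH
  rw [← h2]
  unfold CH at h1
  exact h1

end Pool.CLU
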