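import Pool.Agent.H5.K2.BoxZ

/-!
# The box label of a cell is visible from the label of the plank
-/

set_option autoImplicit false

namespace Pool.K2S

open Finset Real
open Pool.Agent.H49.Ent Pool.Agent.H32.Dense Pool.STK Pool.KA Pool.KA.Win Pool.KA.TRC Rows FF
open Pool.KSAT

namespace Cell

variable {J : ℕ}

theorem floor_eq_near {a b : ℝ} (h : ⌊a⌋ = ⌊b⌋) : |a - b| ≤ 1 :=
  (Int.abs_sub_lt_one_of_floor_eq_floor h).le

/-- The bound for the entropy of the box label. -/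
noncomputable def bxc (q : ℕ) (b : ℝ) : ℝ :=
  2 * Real.log (2 * (2 * q + 1) + 1) + 2 * Real.log (2 * (2 * q + 4) + 1) +
    2 * Real.log (2 * (5 * q + 2 * b + 10) + 1)

theorem bxf_plab (F : Fam 2 J) (i₀ : Fin 2) {w lam r : ℕ} (hr : w + lam ≤ r) (hrJ : r ≤ J)
    {z : F.Ω → Fin 2 → ℝ} {b : ℝ} (hb : 0 ≤ b) (hz : ∀ ω, 0 < F.p ω → ∀ i, |z ω i| ≤ b)
    {e n : (Fin 2 → ℤ) × (ℕ × F.ζ) → Fin 2 → ℝ} (hn1 : ∀ u, n u i₀ = 0)
    (hon : ∀ ω, 0 < F.p ω → ∀ j, |F.d ω j - e (cel F r ω) j * F.d ω i₀ - n (cel F r ω) j| ≤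
      1 / 2 ^ lam) {q : ℕ}
    (hq : ∀ ω, 0 < F.p ω → ∀ j, |e (cel F r ω) j - z ω j| ≤ q * (1 / 2 ^ lam)) :
    CH F.p (fun ω => bxf i₀ w lam r e n (cel F r ω)) (fun ω => (F.T ω, F.plab w lam i₀ z ω)) ≤
      bxc q b := by
  classical
  have h0 := F.isLaw.nonneg
  have hwJ : w ≤ J := by omega
  have hp2 : (0 : ℝ) < 2 ^ lam := by positivity
  have hl1 : (1 : ℝ) / 2 ^ lam ≤ 1 := by
    rw [div_le_one hp2]
    exact one_le_pow₀ (by norm_num)
  have hq0 : (0 : ℝ) ≤ q := Nat.cast_nonneg q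
  obtain ⟨Q, hQ⟩ : ∃ Q : F.Ω → _, Q = fun ω => (F.T ω, F.plab w lam i₀ z ω) := ⟨_, rfl⟩
  rw [← hQ]
  obtain ⟨E, hE⟩ : ∃ E : F.Ω → Fin 2 → ℤ, E = fun ω => fl lam (e (cel F r ω)) := ⟨_, rfl⟩
  obtain ⟨N, hN⟩ : ∃ N : F.Ω → Fin 2 → ℤ, N = fun ω => fl lam (n (cel F r ω)) := ⟨_, rfl⟩
  obtain ⟨P, hP⟩ : ∃ P : F.Ω → Fin 2 → ℤ, P = fun ω => (bxf i₀ w lam r e n (cel F r ω)).2 :=
    ⟨_, rfl⟩
  have hz3 : (fun ω => bxf i₀ w lam r e n (cel F r ω)) = fun ω => ((E ω, N ω), P ω) := by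
    rw [hE, hN, hP]
    rfl
  rw [hz3]
  -- what the label of the plank gives
  have hQd : ∀ ω ω', Q ω = Q ω' → F.T ω = F.T ω' ∧ z ω = z ω' ∧
      F.pcl w lam i₀ z ω = F.pcl w lam i₀ z ω' ∧ F.pvl lam i₀ z ω = F.pvl lam i₀ z ω' := by
    intro ω ω' h
    rw [hQ] at h
    have e1 := Prod.ext_iff.mp h
    have e2 : F.plab w lam i₀ z ω = F.plab w lam i₀ z ω' := e1.2
    have e3 := Prod.ext_iff.mp (Prod.ext_iff.mp e2).1
    exact ⟨e1.1, (Prod.ext_iff.mp e3.1).2, (Prod.ext_iff.mp e3.2).1, (Prod.ext_iff.mp e3.2).2⟩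
  have hvel : ∀ ω ω', Q ω = Q ω' → ∀ j, |pco lam i₀ (z ω) (F.d ω) j -
      pco lam i₀ (z ω) (F.d ω') j| ≤ 1 := by
    intro ω ω' h j
    obtain ⟨-, e2, -, e4⟩ := hQd ω ω' h
    have e5 : ⌊2 ^ 0 * pco lam i₀ (z ω) (F.d ω) j⌋ = ⌊2 ^ 0 * pco lam i₀ (z ω') (F.d ω') j⌋ :=
      congrFun e4 j
    rw [pow_zero, one_mul, one_mul, ← e2] at e5
    exact floor_eq_near e5
  -- the frame
  have a1 : CH F.p E Q ≤ 2 * Real.log (2 * (2 * q + 1) + 1) := by
    have key := Plk.CH_vec_const F.isLaw E Q (c := 2 * (q : ℝ) + 1) ?_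
    · exact_mod_cast key
    · intro ω ω' hω hω' h j
      obtain ⟨-, e2, -, -⟩ := hQd ω ω' h
      have k1 := hq ω hω j
      have k2 := hq ω' hω' j
      rw [← e2] at k2
      have e1 : E ω j = ⌊(2 : ℝ) ^ lam * e (cel F r ω) j⌋ := by rw [hE]; rfl
      have e3 : E ω' j = ⌊(2 : ℝ) ^ lam * e (cel F r ω') j⌋ := by rw [hE]; rfl
      rw [e1, e3]
      refine Plk.floor_sub_lt ?_
      rw [← mul_sub, abs_mul, abs_of_pos hp2]
      have k3 : |e (cel F r ω) j - e (cel F r ω') j| ≤ 2 * (q * (1 / 2 ^ lam)) := by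
        calc _ = |(e (cel F r ω) j - z ω j) - (e (cel F r ω') j - z ω j)| := by
              congr 1
              ring
          _ ≤ _ := (abs_sub _ _).trans (by linarith only [k1, k2])
      calc _ ≤ (2 : ℝ) ^ lam * (2 * (q * (1 / 2 ^ lam))) := mul_le_mul_of_nonneg_left k3 hp2.le
        _ = 2 * (q : ℝ) := by field_simp
  -- the offset
  have a2 : CH F.p N (fun ω => (E ω, Q ω)) ≤ 2 * Real.log (2 * (2 * q + 4) + 1) := by
    have key := Plk.CH_vec_const F.isLaw N (fun ω => (E ω, Q ω)) (c := 2 * (q : ℝ) + 4) ?_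
    · exact_mod_cast key
    · intro ω ω' hω hω' h j
      have h' : Q ω = Q ω' := (Prod.ext_iff.mp h).2
      obtain ⟨-, e2, -, -⟩ := hQd ω ω' h'
      have e1 : N ω j = ⌊(2 : ℝ) ^ lam * n (cel F r ω) j⌋ := by rw [hN]; rfl
      have e3 : N ω' j = ⌊(2 : ℝ) ^ lam * n (cel F r ω') j⌋ := by rw [hN]; rfl
      rw [e1, e3]
      have e4 : 2 * (q : ℝ) + 4 = (2 * q + 3) + 1 := by ring
      rw [e4]
      refine Plk.floor_sub_lt ?_
      by_cases hj : j = i₀
      · rw [hj, hn1, hn1, sub_self, abs_zero]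
        positivity
      · have k0 := hvel ω ω' h' j
        unfold pco at k0
        rw [if_neg hj, if_neg hj] at k0
        have k1 := hon ω hω j
        have k2 := hon ω' hω' j
        have k3 := hq ω hω j
        have k4 := hq ω' hω' j
        rw [← e2] at k4
        have k5 : |(e (cel F r ω) j - z ω j) * F.d ω i₀| ≤ q * (1 / 2 ^ lam) := by
          rw [abs_mul]
          calc _ ≤ (q : ℝ) * (1 / 2 ^ lam) * 1 :=
                mul_le_mul k3 (F.dir ω i₀) (abs_nonneg _) (by positivity)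
            _ = _ := mul_one _
        have k6 : |(e (cel F r ω') j - z ω j) * F.d ω' i₀| ≤ q * (1 / 2 ^ lam) := by
          rw [abs_mul]
          calc _ ≤ (q : ℝ) * (1 / 2 ^ lam) * 1 :=
                mul_le_mul k4 (F.dir ω' i₀) (abs_nonneg _) (by positivity)
            _ = _ := mul_one _
        have k7 : (2 : ℝ) ^ lam * n (cel F r ω) j - 2 ^ lam * n (cel F r ω') j =
            (2 ^ lam * (F.d ω j - z ω j * F.d ω i₀) - 2 ^ lam * (F.d ω' j - z ω j * F.d ω' i₀)) +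
            2 ^ lam * (((F.d ω' j - e (cel F r ω') j * F.d ω' i₀ - n (cel F r ω') j) -
              (F.d ω j - e (cel F r ω) j * F.d ω i₀ - n (cel F r ω) j)) +
              ((e (cel F r ω') j - z ω j) * F.d ω' i₀ -
                (e (cel F r ω) j - z ω j) * F.d ω i₀)) := by ring
        rw [k7]
        have k8 : |((F.d ω' j - e (cel F r ω') j * F.d ω' i₀ - n (cel F r ω') j) -
              (F.d ω j - e (cel F r ω) j * F.d ω i₀ - n (cel F r ω) j)) +
              ((e (cel F r ω') j - z ω j) * F.d ω' i₀ -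
                (e (cel F r ω) j - z ω j) * F.d ω i₀)| ≤ (2 + 2 * q) * (1 / 2 ^ lam) := by
          refine (abs_add_le _ _).trans ?_
          have := abs_sub (F.d ω' j - e (cel F r ω') j * F.d ω' i₀ - n (cel F r ω') j)
            (F.d ω j - e (cel F r ω) j * F.d ω i₀ - n (cel F r ω) j)
          have := abs_sub ((e (cel F r ω') j - z ω j) * F.d ω' i₀)
            ((e (cel F r ω) j - z ω j) * F.d ω i₀)
          linarith
        refine (abs_add_le _ _).trans ?_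
        rw [abs_mul (2 ^ lam : ℝ), abs_of_pos hp2]
        have k9 := mul_le_mul_of_nonneg_left k8 hp2.le
        have k10 : (2 : ℝ) ^ lam * ((2 + 2 * q) * (1 / 2 ^ lam)) = 2 + 2 * q := by
          field_simp
        rw [k10] at k9
        linarith only [k0, k9]
  -- the position
  have a3 : CH F.p P (fun ω => (N ω, (E ω, Q ω))) ≤
      2 * Real.log (2 * (5 * q + 2 * b + 10) + 1) := by
    have key := Plk.CH_vec_const F.isLaw P (fun ω => (N ω, (E ω, Q ω)))
      (c := 5 * (q : ℝ) + 2 * b + 10) ?_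
    · exact_mod_cast key
    · intro ω ω' hω hω' h j
      have hEE : E ω = E ω' := (Prod.ext_iff.mp (Prod.ext_iff.mp h).2).1
      have h' : Q ω = Q ω' := (Prod.ext_iff.mp (Prod.ext_iff.mp h).2).2
      obtain ⟨hT, hzz, hcl, -⟩ := hQd ω ω' h'
      have r1 : (2 : ℝ) ^ (w + lam) * (1 / 2 ^ r) ≤ 1 := by
        rw [mul_one_div, div_le_one (by positivity)]
        exact pow_le_pow_right₀ (by norm_num) hr
      have r2 : (2 : ℝ) ^ w * (1 / 2 ^ r) ≤ 1 := by
        rw [mul_one_div, div_le_one (by positivity)]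
        exact pow_le_pow_right₀ (by norm_num) (by omega)
      -- the chart coordinate
      have y1 : |(2 : ℝ) ^ w * F.x1 w ω i₀ - 2 ^ w * F.x1 w ω' i₀| ≤ 1 := by
        have e1 : ⌊(2 : ℝ) ^ w * pco lam i₀ (z ω) (F.x1 w ω) i₀⌋ =
          ⌊(2 : ℝ) ^ w * pco lam i₀ (z ω') (F.x1 w ω') i₀⌋ := congrFun hcl i₀
        unfold pco at e1
        rw [if_pos rfl, if_pos rfl] at e1
        exact floor_eq_near e1
      have y2 : |(2 : ℝ) ^ w * F.x ω i₀ - 2 ^ w * F.x ω' i₀| ≤ 3 := by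
        have k1 := x1_near F hwJ ω i₀
        have k2 := x1_near F hwJ ω' i₀
        have e1 : (2 : ℝ) ^ w * F.x ω i₀ - 2 ^ w * F.x ω' i₀ =
            ((2 : ℝ) ^ w * F.x1 w ω i₀ - 2 ^ w * F.x1 w ω' i₀) -
            ((2 ^ w * F.x1 w ω i₀ - 2 ^ w * F.x ω i₀) -
              (2 ^ w * F.x1 w ω' i₀ - 2 ^ w * F.x ω' i₀)) := by ring
        rw [e1]
        refine (abs_sub _ _).trans ?_
        have := abs_sub (2 ^ w * F.x1 w ω i₀ - 2 ^ w * F.x ω i₀)
          (2 ^ w * F.x1 w ω' i₀ - 2 ^ w * F.x ω' i₀)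
        linarith only [y1, k1, k2, this]
      have hPi : ∀ ω, P ω i₀ = ⌊(2 : ℝ) ^ w * ((F.X r ω i₀ : ℝ) / 2 ^ r)⌋ := by
        intro ω
        rw [hP]
        unfold bxf
        simp only [if_true]
        rfl
      by_cases hj : j = i₀
      · rw [hj, hPi, hPi]
        have e4 : 5 * (q : ℝ) + 2 * b + 10 = (5 * q + 2 * b + 9) + 1 := by ring
        rw [e4]
        refine Plk.floor_sub_lt ?_
        have k1 := X_near F r ω i₀
        have k2 := X_near F r ω' i₀
        have e1 : (2 : ℝ) ^ w * ((F.X r ω i₀ : ℝ) / 2 ^ r) - 2 ^ w * ((F.X r ω' i₀ : ℝ) / 2 ^ r) =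
            ((2 : ℝ) ^ w * F.x ω i₀ - 2 ^ w * F.x ω' i₀) -
            2 ^ w * ((F.x ω i₀ - (F.X r ω i₀ : ℝ) / 2 ^ r) -
              (F.x ω' i₀ - (F.X r ω' i₀ : ℝ) / 2 ^ r)) := by ring
        rw [e1]
        refine (abs_sub _ _).trans ?_
        rw [abs_mul, abs_of_pos (by positivity : (0 : ℝ) < 2 ^ w)]
        have k3 : |(F.x ω i₀ - (F.X r ω i₀ : ℝ) / 2 ^ r) -
              (F.x ω' i₀ - (F.X r ω' i₀ : ℝ) / 2 ^ r)| ≤ 2 * (1 / 2 ^ r) :=
          (abs_sub _ _).trans (by linarith only [k1, k2])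
        have k4 := mul_le_mul_of_nonneg_left k3 (by positivity : (0 : ℝ) ≤ 2 ^ w)
        linarith only [hb, r2, y2, k4]
      · -- the normal coordinate
        obtain ⟨f, hf⟩ : ∃ f : ℝ, f = (⌊(2 : ℝ) ^ lam * e (cel F r ω) j⌋ : ℝ) / 2 ^ lam :=
          ⟨_, rfl⟩
        have hf' : f = (⌊(2 : ℝ) ^ lam * e (cel F r ω') j⌋ : ℝ) / 2 ^ lam := by
          have e1 : E ω j = E ω' j := congrFun hEE j
          rw [hE] at e1
          have e2 : ⌊(2 : ℝ) ^ lam * e (cel F r ω) j⌋ = ⌊(2 : ℝ) ^ lam * e (cel F r ω') j⌋ := e1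
          rw [hf, e2]
        have hPj : ∀ ω'', f = (⌊(2 : ℝ) ^ lam * e (cel F r ω'') j⌋ : ℝ) / 2 ^ lam →
            P ω'' j = ⌊(2 : ℝ) ^ (w + lam) * ((F.X r ω'' j : ℝ) / 2 ^ r -
              f * ((F.X r ω'' i₀ : ℝ) / 2 ^ r))⌋ := by
          intro ω'' h
          rw [hP, h]
          unfold bxf
          simp only
          rw [if_neg hj]
          rfl
        rw [hPj ω hf, hPj ω' hf']
        have e4 : 5 * (q : ℝ) + 2 * b + 10 = (5 * q + 2 * b + 9) + 1 := by ring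
        rw [e4]
        refine Plk.floor_sub_lt ?_
        -- the slope
        have k1 := floor_div_near lam (e (cel F r ω) j)
        rw [← hf] at k1
        have k2 := hq ω hω j
        have k3 : |z ω j - f| ≤ (q + 1) * (1 / 2 ^ lam) := by
          calc |z ω j - f| = |(e (cel F r ω) j - f) - (e (cel F r ω) j - z ω j)| := by
                congr 1
                ring
            _ ≤ _ := (abs_sub _ _).trans (by linarith only [k1, k2])
        have k4 : |f| ≤ b + (q + 1) := by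
          have h1 := hz ω hω j
          have h2 := abs_sub_abs_le_abs_sub f (z ω j)
          rw [abs_sub_comm] at h2
          have h3 : ((q : ℝ) + 1) * (1 / 2 ^ lam) ≤ q + 1 := by
            have : 0 ≤ (q : ℝ) + 1 := by linarith only
            nlinarith only [hl1]
          linarith only [k3, h1, h2, h3]
        -- the plank coordinate
        have key : ∀ ω'', 2 ^ w * pco lam i₀ (z ω'') (F.x1 w ω'') j =
            2 ^ w * pco lam i₀ (z ω'') (F.x ω'') j -
              (F.plk w lam i₀ z).t ω'' * pco lam i₀ (z ω'') (F.d ω'') j := by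
          intro ω''
          have f1 := Plk.plk_x F hwJ lam i₀ z ω'' j
          have f2 := Plk.pcl_eq F w lam i₀ z ω'' j
          have f3 := Plk.pvl_eq F w lam i₀ z ω'' j
          have f4 : (F.plk w lam i₀ z).x ω'' j = (F.plk w lam i₀ z).u ω'' j +
            (F.plk w lam i₀ z).t ω'' * (F.plk w lam i₀ z).d ω'' j := rfl
          rw [f1, f2, f3, f4]
          ring
        have e2 : (F.plk w lam i₀ z).t ω = (F.plk w lam i₀ z).t ω' := by
          change ((F.T ω % 2 ^ (J - w) : ℕ) : ℝ) / 2 ^ (J - w) =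
            ((F.T ω' % 2 ^ (J - w) : ℕ) : ℝ) / 2 ^ (J - w)
          rw [hT]
        have ht := Plk.t_mem F w lam i₀ z ω'
        have e3 : ⌊(2 : ℝ) ^ w * pco lam i₀ (z ω) (F.x1 w ω) j⌋ =
          ⌊(2 : ℝ) ^ w * pco lam i₀ (z ω') (F.x1 w ω') j⌋ := congrFun hcl j
        have k5 := floor_eq_near e3
        rw [key ω, key ω', e2, ← hzz] at k5
        have k6 := hvel ω ω' h' j
        have k7 : |(2 : ℝ) ^ w * pco lam i₀ (z ω) (F.x ω) j -
            2 ^ w * pco lam i₀ (z ω) (F.x ω') j| ≤ 2 := by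
          have e5 : (2 : ℝ) ^ w * pco lam i₀ (z ω) (F.x ω) j -
              2 ^ w * pco lam i₀ (z ω) (F.x ω') j =
              (2 ^ w * pco lam i₀ (z ω) (F.x ω) j -
                (F.plk w lam i₀ z).t ω' * pco lam i₀ (z ω) (F.d ω) j -
                (2 ^ w * pco lam i₀ (z ω) (F.x ω') j -
                (F.plk w lam i₀ z).t ω' * pco lam i₀ (z ω) (F.d ω') j)) +
              (F.plk w lam i₀ z).t ω' * (pco lam i₀ (z ω) (F.d ω) j -
                pco lam i₀ (z ω) (F.d ω') j) := by ring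
          rw [e5]
          refine (abs_add_le _ _).trans ?_
          rw [abs_mul, abs_of_nonneg ht.1]
          have := abs_nonneg (pco lam i₀ (z ω) (F.d ω) j - pco lam i₀ (z ω) (F.d ω') j)
          nlinarith only [ht, k5, k6, ht.1, ht.2]
        unfold pco at k7
        rw [if_neg hj, if_neg hj] at k7
        -- the rounding of the positions
        have k8 := X_near F r ω j
        have k9 := X_near F r ω' j
        have k10 := X_near F r ω i₀
        have k11 := X_near F r ω' i₀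
        have k12 : |(F.x ω j - (F.X r ω j : ℝ) / 2 ^ r) - f * (F.x ω i₀ - (F.X r ω i₀ : ℝ) / 2 ^ r)|
            ≤ (b + q + 2) * (1 / 2 ^ r) := by
          refine (abs_sub _ _).trans ?_
          rw [abs_mul]
          have : |f| * |F.x ω i₀ - (F.X r ω i₀ : ℝ) / 2 ^ r| ≤ (b + (q + 1)) * (1 / 2 ^ r) :=
            mul_le_mul k4 k10 (abs_nonneg _) (by positivity)
          linarith only [k8, this]
        have k13 : |(F.x ω' j - (F.X r ω' j : ℝ) / 2 ^ r) -
            f * (F.x ω' i₀ - (F.X r ω' i₀ : ℝ) / 2 ^ r)| ≤ (b + q + 2) * (1 / 2 ^ r) := by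
          refine (abs_sub _ _).trans ?_
          rw [abs_mul]
          have : |f| * |F.x ω' i₀ - (F.X r ω' i₀ : ℝ) / 2 ^ r| ≤ (b + (q + 1)) * (1 / 2 ^ r) :=
            mul_le_mul k4 k11 (abs_nonneg _) (by positivity)
          linarith only [k9, this]
        have e6 : (2 : ℝ) ^ (w + lam) * ((F.X r ω j : ℝ) / 2 ^ r - f * ((F.X r ω i₀ : ℝ) / 2 ^ r)) -
            2 ^ (w + lam) * ((F.X r ω' j : ℝ) / 2 ^ r - f * ((F.X r ω' i₀ : ℝ) / 2 ^ r)) =
            (2 ^ w * (2 ^ lam * (F.x ω j - z ω j * F.x ω i₀)) -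
              2 ^ w * (2 ^ lam * (F.x ω' j - z ω j * F.x ω' i₀))) +
            (2 ^ lam * (z ω j - f)) * (2 ^ w * F.x ω i₀ - 2 ^ w * F.x ω' i₀) -
            2 ^ (w + lam) * (((F.x ω j - (F.X r ω j : ℝ) / 2 ^ r) -
              f * (F.x ω i₀ - (F.X r ω i₀ : ℝ) / 2 ^ r)) -
              ((F.x ω' j - (F.X r ω' j : ℝ) / 2 ^ r) -
            f * (F.x ω' i₀ - (F.X r ω' i₀ : ℝ) / 2 ^ r))) := by
          rw [pow_add]
          ring
        rw [e6]
        have m1 : |(2 ^ lam * (z ω j - f)) * (2 ^ w * F.x ω i₀ - 2 ^ w * F.x ω' i₀)| ≤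
            (q + 1) * 3 := by
          rw [abs_mul]
          refine mul_le_mul ?_ y2 (abs_nonneg _) (by linarith only)
          rw [abs_mul, abs_of_pos hp2]
          calc _ ≤ (2 : ℝ) ^ lam * ((q + 1) * (1 / 2 ^ lam)) :=
                mul_le_mul_of_nonneg_left k3 hp2.le
            _ = (q : ℝ) + 1 := by field_simp
        have m2 : |(2 : ℝ) ^ (w + lam) * (((F.x ω j - (F.X r ω j : ℝ) / 2 ^ r) -
              f * (F.x ω i₀ - (F.X r ω i₀ : ℝ) / 2 ^ r)) -
              ((F.x ω' j - (F.X r ω' j : ℝ) / 2 ^ r) -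
            f * (F.x ω' i₀ - (F.X r ω' i₀ : ℝ) / 2 ^ r)))| ≤ 2 * (b + q + 2) := by
          rw [abs_mul, abs_of_pos (by positivity : (0 : ℝ) < 2 ^ (w + lam))]
          have m3 := abs_sub ((F.x ω j - (F.X r ω j : ℝ) / 2 ^ r) -
              f * (F.x ω i₀ - (F.X r ω i₀ : ℝ) / 2 ^ r))
              ((F.x ω' j - (F.X r ω' j : ℝ) / 2 ^ r) -
            f * (F.x ω' i₀ - (F.X r ω' i₀ : ℝ) / 2 ^ r))
          have m4 := mul_le_mul_of_nonneg_left (m3.trans (add_le_add k12 k13))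
            (by positivity : (0 : ℝ) ≤ 2 ^ (w + lam))
          have m5 : (2 : ℝ) ^ (w + lam) * ((b + q + 2) * (1 / 2 ^ r) +
              (b + q + 2) * (1 / 2 ^ r)) = 2 * (b + q + 2) * (2 ^ (w + lam) * (1 / 2 ^ r)) := by
            ring
          rw [m5] at m4
          refine m4.trans ?_
          have : 0 ≤ 2 * (b + q + 2) := by positivity
          nlinarith only [r1, hb]
        refine (abs_sub _ _).trans ?_
        have m6 := abs_add_le (2 ^ w * (2 ^ lam * (F.x ω j - z ω j * F.x ω i₀)) -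
              2 ^ w * (2 ^ lam * (F.x ω' j - z ω j * F.x ω' i₀)))
            ((2 ^ lam * (z ω j - f)) * (2 ^ w * F.x ω i₀ - 2 ^ w * F.x ω' i₀))
        linarith only [k7, m1, m2, m6]
  -- assembly
  have b1 : CH F.p (fun ω => ((E ω, N ω), P ω)) Q ≤ CH F.p (fun ω => (E ω, N ω)) Q +
      CH F.p P (fun ω => (N ω, (E ω, Q ω))) := by
    have c1 := CH_le_add h0 (fun ω => ((E ω, N ω), P ω)) (fun ω => (E ω, N ω)) Q
    have c2 : CH F.p (fun ω => ((E ω, N ω), P ω)) (fun ω => ((E ω, N ω), Q ω)) ≤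
        CH F.p P (fun ω => (N ω, (E ω, Q ω))) := by
      refine le_trans (CH_mono_left h0 (X' := P) ?_) (CH_mono_cond h0 ?_)
      · intro ω ω' _ _ h
        have e1 := Prod.ext_iff.mp h
        exact Prod.ext (Prod.ext_iff.mp e1.2).1 e1.1
      · intro ω ω' _ _ h
        have e1 := Prod.ext_iff.mp h
        have e2 := Prod.ext_iff.mp e1.1
        exact Prod.ext e2.2 (Prod.ext e2.1 e1.2)
    linarith only [c1, c2]
  have b2 : CH F.p (fun ω => (E ω, N ω)) Q ≤ CH F.p E Q + CH F.p N (fun ω => (E ω, Q ω)) := by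
    have c1 := CH_le_add h0 (fun ω => (E ω, N ω)) E Q
    have c2 : CH F.p (fun ω => (E ω, N ω)) (fun ω => (E ω, Q ω)) ≤
        CH F.p N (fun ω => (E ω, Q ω)) := by
      refine CH_mono_left h0 (X' := N) ?_
      intro ω ω' _ _ h
      have e1 := Prod.ext_iff.mp h
      exact Prod.ext (Prod.ext_iff.mp e1.2).1 e1.1
    linarith only [c1, c2]
  unfold bxc
  linarith only [a1, a2, a3, b1, b2]

end Cell

end Pool.K2S
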