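import Pool.Agent.H5.K2.YRow
import Pool.Agent.H5.K3.BoxAB

/-!
# The box label of a cell

From a line of the directions in the cells `(F.X r, F.W)`: frame and offset rounded to precision
`lam`, and the position in the box of window `w`.
-/

set_option autoImplicit false

namespace Pool.K2S

open Finset Real
open Pool.Agent.H49.Ent Pool.Agent.H32.Dense Pool.STK Pool.KA Pool.KA.Win Pool.KA.TRC Rows FF
open Pool.KSAT

namespace Cell

/-- The box label as a function of the cell. -/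
noncomputable def bxf {V : Type} (i₀ : Fin 2) (w lam r : ℕ)
    (e n : (Fin 2 → ℤ) × V → Fin 2 → ℝ) (u : (Fin 2 → ℤ) × V) :
    ((Fin 2 → ℤ) × (Fin 2 → ℤ)) × (Fin 2 → ℤ) :=
  ((fl lam (e u), fl lam (n u)), fun j =>
    if j = i₀ then ⌊(2 : ℝ) ^ w * ((u.1 i₀ : ℝ) / 2 ^ r)⌋ else
      ⌊(2 : ℝ) ^ (w + lam) * ((u.1 j : ℝ) / 2 ^ r -
        ((⌊(2 : ℝ) ^ lam * e u j⌋ : ℝ) / 2 ^ lam) * ((u.1 i₀ : ℝ) / 2 ^ r))⌋)

/-- The order of the coordinates of the box. -/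
def sig (i₀ : Fin 2) : Fin 2 → Fin 2 := ![i₀, 1 - i₀]

theorem sig_surj (i₀ : Fin 2) : Function.Surjective (sig i₀) := by
  fin_cases i₀
  · intro j
    fin_cases j
    · exact ⟨0, rfl⟩
    · exact ⟨1, rfl⟩
  · intro j
    fin_cases j
    · exact ⟨1, rfl⟩
    · exact ⟨0, rfl⟩

theorem one_sub_ne (i₀ : Fin 2) : (1 : Fin 2) - i₀ ≠ i₀ := by
  fin_cases i₀ <;> decide

theorem fin2_cases' {i₀ : Fin 2} (j : Fin 2) (h : j ≠ i₀) : j = 1 - i₀ := by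
  fin_cases i₀ <;> fin_cases j <;> simp_all

/-- Rounding. -/
theorem floor_div_near (k : ℕ) (x : ℝ) : |x - (⌊(2 : ℝ) ^ k * x⌋ : ℝ) / 2 ^ k| ≤ 1 / 2 ^ k := by
  have := grid_near k x
  rwa [← one_div] at this

/-- The position and its cell. -/
theorem X_near {J : ℕ} (F : Fam 2 J) (r : ℕ) (ω : F.Ω) (j : Fin 2) :
    |F.x ω j - (F.X r ω j : ℝ) / 2 ^ r| ≤ 1 / 2 ^ r := floor_div_near r (F.x ω j)

variable {J : ℕ}

/-- **The box.** -/
theorem bxf_box (F : Fam 2 J) (i₀ : Fin 2) {w lam r : ℕ} (hr : w + lam ≤ r)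
    {A : F.Ω → Prop} {e n : (Fin 2 → ℤ) × (ℕ × F.ζ) → Fin 2 → ℝ} {b : ℝ} (hb : 0 ≤ b)
    (hon : OnL i₀ (1 / 2 ^ lam) (cel F r) F.d A e n)
    (hbd : ∀ ω, A ω → ∀ j, |e (cel F r ω) j| ≤ b) :
    Pool.K3.BoxL F.x F.d A (fun ω => bxf i₀ w lam r e n (cel F r ω)) (sig i₀)
      ![w, w + lam] w (b + 4) := by
  classical
  obtain ⟨M, hM⟩ : ∃ M : ((Fin 2 → ℤ) × (Fin 2 → ℤ)) × (Fin 2 → ℤ) → ℝ,
    M = fun s => if |(s.1.1 (1 - i₀) : ℝ) / 2 ^ lam| ≤ b + 1 then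
      -((s.1.1 (1 - i₀) : ℝ) / 2 ^ lam) else 0 := ⟨_, rfl⟩
  refine ⟨fun s _ _ => M s,
    fun s => ![(s.2 i₀ : ℝ) / 2 ^ w, (s.2 (1 - i₀) : ℝ) / 2 ^ (w + lam) -
      M s * ((s.2 i₀ : ℝ) / 2 ^ w)],
    fun s => ![0, (s.1.2 (1 - i₀) : ℝ) / 2 ^ lam], ?_, ?_⟩
  · intro s _ _
    rw [hM]
    simp only
    split_ifs with h
    · rw [abs_neg]
      linarith
    · rw [abs_zero]
      linarith
  · intro ω hω i
    obtain ⟨u, hu⟩ : ∃ u, u = cel F r ω := ⟨_, rfl⟩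
    have hu1 : u.1 = F.X r ω := by rw [hu]; rfl
    have h1 := X_near F r ω i₀
    have h2 := X_near F r ω (1 - i₀)
    have hbe := hbd ω hω (1 - i₀)
    have hon1 := hon ω hω (1 - i₀)
    rw [← hu] at hbe hon1
    obtain ⟨f, hf⟩ : ∃ f : ℝ, f = (⌊(2 : ℝ) ^ lam * e u (1 - i₀)⌋ : ℝ) / 2 ^ lam := ⟨_, rfl⟩
    have hef : |e u (1 - i₀) - f| ≤ 1 / 2 ^ lam := by
      rw [hf]
      exact floor_div_near lam _
    have hlam1 : (1 : ℝ) / 2 ^ lam ≤ 1 := by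
      rw [div_le_one (by positivity)]
      exact one_le_pow₀ (by norm_num)
    have hfb : |f| ≤ b + 1 := by
      have h3 := abs_sub_abs_le_abs_sub f (e u (1 - i₀))
      rw [abs_sub_comm] at h3
      linarith
    have hMf : M (bxf i₀ w lam r e n u) = -f := by
      rw [hM]
      have e1 : (((bxf i₀ w lam r e n u).1.1 (1 - i₀) : ℤ) : ℝ) / 2 ^ lam = f := by
        rw [hf]
        rfl
      simp only [e1]
      rw [if_pos hfb]
    have r1 : (1 : ℝ) / 2 ^ r ≤ 1 / 2 ^ (w + lam) :=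
      one_div_le_one_div_of_le (by positivity) (pow_le_pow_right₀ (by norm_num) hr)
    have r2 : (1 : ℝ) / 2 ^ r ≤ 1 / 2 ^ w :=
      one_div_le_one_div_of_le (by positivity) (pow_le_pow_right₀ (by norm_num) (by omega))
    have r3 : (0 : ℝ) < 1 / 2 ^ w := by positivity
    have r4 : (0 : ℝ) < 1 / 2 ^ (w + lam) := by positivity
    have r5 : (0 : ℝ) < 1 / 2 ^ lam := by positivity
    have hd := F.dir ω i₀
    -- the position in the direction `i₀`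
    have p0 : |F.x ω i₀ - ((bxf i₀ w lam r e n u).2 i₀ : ℝ) / 2 ^ w| ≤ 2 * (1 / 2 ^ w) := by
      have e1 : (bxf i₀ w lam r e n u).2 i₀ = ⌊(2 : ℝ) ^ w * ((u.1 i₀ : ℝ) / 2 ^ r)⌋ := by
        unfold bxf
        simp
      rw [e1, hu1]
      have h3 := floor_div_near w ((F.X r ω i₀ : ℝ) / 2 ^ r)
      calc |F.x ω i₀ - (⌊(2 : ℝ) ^ w * ((F.X r ω i₀ : ℝ) / 2 ^ r)⌋ : ℝ) / 2 ^ w| =
          |(F.x ω i₀ - (F.X r ω i₀ : ℝ) / 2 ^ r) + ((F.X r ω i₀ : ℝ) / 2 ^ r -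
            (⌊(2 : ℝ) ^ w * ((F.X r ω i₀ : ℝ) / 2 ^ r)⌋ : ℝ) / 2 ^ w)| := by
            congr 1
            ring
        _ ≤ _ := (abs_add_le _ _).trans (by linarith)
    -- the position in the normal direction
    have p1 : |F.x ω (1 - i₀) - f * F.x ω i₀ -
        ((bxf i₀ w lam r e n u).2 (1 - i₀) : ℝ) / 2 ^ (w + lam)| ≤
        (b + 3) * (1 / 2 ^ (w + lam)) := by
      have e1 : (bxf i₀ w lam r e n u).2 (1 - i₀) = ⌊(2 : ℝ) ^ (w + lam) *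
          ((u.1 (1 - i₀) : ℝ) / 2 ^ r - f * ((u.1 i₀ : ℝ) / 2 ^ r))⌋ := by
        rw [hf]
        unfold bxf
        simp only
        rw [if_neg (one_sub_ne i₀)]
      rw [e1, hu1]
      have h3 := floor_div_near (w + lam) ((F.X r ω (1 - i₀) : ℝ) / 2 ^ r -
        f * ((F.X r ω i₀ : ℝ) / 2 ^ r))
      have h4 : |f * (F.x ω i₀ - (F.X r ω i₀ : ℝ) / 2 ^ r)| ≤ (b + 1) * (1 / 2 ^ r) := by
        rw [abs_mul]
        exact mul_le_mul hfb h1 (abs_nonneg _) (by linarith)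
      have h5 : (b + 1) * (1 / 2 ^ r) ≤ (b + 1) * ((1 : ℝ) / 2 ^ (w + lam)) :=
        mul_le_mul_of_nonneg_left r1 (by linarith)
      calc |F.x ω (1 - i₀) - f * F.x ω i₀ - (⌊(2 : ℝ) ^ (w + lam) *
          ((F.X r ω (1 - i₀) : ℝ) / 2 ^ r - f * ((F.X r ω i₀ : ℝ) / 2 ^ r))⌋ : ℝ) /
            2 ^ (w + lam)| =
          |(F.x ω (1 - i₀) - (F.X r ω (1 - i₀) : ℝ) / 2 ^ r) -
            f * (F.x ω i₀ - (F.X r ω i₀ : ℝ) / 2 ^ r) +
            (((F.X r ω (1 - i₀) : ℝ) / 2 ^ r - f * ((F.X r ω i₀ : ℝ) / 2 ^ r)) -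
            (⌊(2 : ℝ) ^ (w + lam) * ((F.X r ω (1 - i₀) : ℝ) / 2 ^ r -
              f * ((F.X r ω i₀ : ℝ) / 2 ^ r))⌋ : ℝ) / 2 ^ (w + lam))| := by
            congr 1
            ring
        _ ≤ |(F.x ω (1 - i₀) - (F.X r ω (1 - i₀) : ℝ) / 2 ^ r) -
            f * (F.x ω i₀ - (F.X r ω i₀ : ℝ) / 2 ^ r)| + 1 / 2 ^ (w + lam) :=
            (abs_add_le _ _).trans (by linarith)
        _ ≤ _ := by
            have := abs_sub (F.x ω (1 - i₀) - (F.X r ω (1 - i₀) : ℝ) / 2 ^ r)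
              (f * (F.x ω i₀ - (F.X r ω i₀ : ℝ) / 2 ^ r))
            linarith
    -- the direction
    have p2 : |F.d ω (1 - i₀) - f * F.d ω i₀ - ((bxf i₀ w lam r e n u).1.2 (1 - i₀) : ℝ) /
        2 ^ lam| ≤ 3 * (1 / 2 ^ lam) := by
      have e1 : (bxf i₀ w lam r e n u).1.2 (1 - i₀) = ⌊(2 : ℝ) ^ lam * n u (1 - i₀)⌋ := rfl
      rw [e1]
      have h3 := floor_div_near lam (n u (1 - i₀))
      have h4 : |(e u (1 - i₀) - f) * F.d ω i₀| ≤ 1 / 2 ^ lam := by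
        rw [abs_mul]
        calc _ ≤ 1 / 2 ^ lam * 1 := mul_le_mul hef hd (abs_nonneg _) r5.le
          _ = _ := mul_one _
      calc |F.d ω (1 - i₀) - f * F.d ω i₀ - (⌊(2 : ℝ) ^ lam * n u (1 - i₀)⌋ : ℝ) / 2 ^ lam| =
          |(F.d ω (1 - i₀) - e u (1 - i₀) * F.d ω i₀ - n u (1 - i₀)) +
            (e u (1 - i₀) - f) * F.d ω i₀ +
            (n u (1 - i₀) - (⌊(2 : ℝ) ^ lam * n u (1 - i₀)⌋ : ℝ) / 2 ^ lam)| := by
            congr 1
            ring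
        _ ≤ |(F.d ω (1 - i₀) - e u (1 - i₀) * F.d ω i₀ - n u (1 - i₀)) +
            (e u (1 - i₀) - f) * F.d ω i₀| + 1 / 2 ^ lam :=
            (abs_add_le _ _).trans (by linarith)
        _ ≤ _ := by
            have := abs_add_le (F.d ω (1 - i₀) - e u (1 - i₀) * F.d ω i₀ - n u (1 - i₀))
              ((e u (1 - i₀) - f) * F.d ω i₀)
            linarith
    simp only
    rw [← hu]
    have q1 : (b + 3) * ((1 : ℝ) / 2 ^ (w + lam)) ≤ (b + 4) / 2 ^ (w + lam) := by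
      rw [mul_one_div]
      exact div_le_div_of_nonneg_right (by linarith) (by positivity)
    have q2 : 3 * ((1 : ℝ) / 2 ^ lam) ≤ (b + 4) * 2 ^ w / 2 ^ (w + lam) := by
      have e1 : (b + 4) * 2 ^ w / 2 ^ (w + lam) = (b + 4) * (1 / 2 ^ lam) := by
        rw [pow_add]
        field_simp
      rw [e1]
      exact mul_le_mul_of_nonneg_right (by linarith) r5.le
    have q3 : 2 * ((1 : ℝ) / 2 ^ w) ≤ (b + 4) / 2 ^ w := by
      rw [mul_one_div]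
      exact div_le_div_of_nonneg_right (by linarith) (by positivity)
    have q4 : (1 : ℝ) ≤ (b + 4) * 2 ^ w / 2 ^ w := by
      rw [mul_div_assoc, div_self (by positivity), mul_one]
      linarith
    fin_cases i
    · constructor
      · simp only [sig, Fin.zero_eta, Fin.isValue, Matrix.cons_val_zero, Fin.sum_univ_two,
          lt_irrefl, if_false, Fin.not_lt_zero, add_zero]
        exact p0.trans q3
      · simp only [sig, Fin.zero_eta, Fin.isValue, Matrix.cons_val_zero, Fin.sum_univ_two,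
          lt_irrefl, if_false, Fin.not_lt_zero, add_zero, sub_zero]
        exact hd.trans q4
    · constructor
      · simp only [sig, Fin.mk_one, Fin.isValue, Matrix.cons_val_zero, Matrix.cons_val_one,
          Fin.sum_univ_two, lt_irrefl, if_false, add_zero]
        rw [if_pos (by decide), hMf]
        refine le_trans (le_of_eq ?_) (p1.trans q1)
        congr 1
        ring
      · simp only [sig, Fin.mk_one, Fin.isValue, Matrix.cons_val_zero, Matrix.cons_val_one,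
          Fin.sum_univ_two, lt_irrefl, if_false, add_zero]
        rw [if_pos (by decide), hMf]
        refine le_trans (le_of_eq ?_) (p2.trans q2)
        congr 1
        ring

/-- The line of the box label. -/
theorem bxf_line (F : Fam 2 J) (i₀ : Fin 2) {w lam r p : ℕ} (hp : p + 2 ≤ lam)
    {A : F.Ω → Prop} {e n : (Fin 2 → ℤ) × (ℕ × F.ζ) → Fin 2 → ℝ}
    (hon : OnL i₀ (1 / 2 ^ lam) (cel F r) F.d A e n) :
    LineU i₀ (1 / 2 ^ p) (fun ω => bxf i₀ w lam r e n (cel F r ω)) F.d A := by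
  refine ⟨fun s j => (s.1.1 j : ℝ) / 2 ^ lam, fun s j => (s.1.2 j : ℝ) / 2 ^ lam, ?_⟩
  intro ω hω j
  obtain ⟨u, hu⟩ : ∃ u, u = cel F r ω := ⟨_, rfl⟩
  have hon1 := hon ω hω j
  rw [← hu] at hon1
  have hd := F.dir ω i₀
  have r5 : (0 : ℝ) < 1 / 2 ^ lam := by positivity
  have hef := floor_div_near lam (e u j)
  have h3 := floor_div_near lam (n u j)
  have h4 : |(e u j - (⌊(2 : ℝ) ^ lam * e u j⌋ : ℝ) / 2 ^ lam) * F.d ω i₀| ≤ 1 / 2 ^ lam := by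
    rw [abs_mul]
    calc _ ≤ 1 / 2 ^ lam * 1 := mul_le_mul hef hd (abs_nonneg _) r5.le
      _ = _ := mul_one _
  have h5 : 3 * ((1 : ℝ) / 2 ^ lam) ≤ 1 / 2 ^ p := by
    have e1 : (1 : ℝ) / 2 ^ lam ≤ 1 / 2 ^ (p + 2) :=
      one_div_le_one_div_of_le (by positivity) (pow_le_pow_right₀ (by norm_num) hp)
    have e2 : (1 : ℝ) / 2 ^ (p + 2) = 1 / 2 ^ p / 4 := by
      rw [pow_add, div_div]
      norm_num
    have e3 : (0 : ℝ) < 1 / 2 ^ p := by positivity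
    linarith
  simp only
  rw [← hu]
  change |F.d ω j - (⌊(2 : ℝ) ^ lam * e u j⌋ : ℝ) / 2 ^ lam * F.d ω i₀ -
    (⌊(2 : ℝ) ^ lam * n u j⌋ : ℝ) / 2 ^ lam| ≤ 1 / 2 ^ p
  refine le_trans ?_ h5
  calc |F.d ω j - (⌊(2 : ℝ) ^ lam * e u j⌋ : ℝ) / 2 ^ lam * F.d ω i₀ -
      (⌊(2 : ℝ) ^ lam * n u j⌋ : ℝ) / 2 ^ lam| =
      |(F.d ω j - e u j * F.d ω i₀ - n u j) +
        (e u j - (⌊(2 : ℝ) ^ lam * e u j⌋ : ℝ) / 2 ^ lam) * F.d ω i₀ +
        (n u j - (⌊(2 : ℝ) ^ lam * n u j⌋ : ℝ) / 2 ^ lam)| := by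
        congr 1
        ring
    _ ≤ |(F.d ω j - e u j * F.d ω i₀ - n u j) +
        (e u j - (⌊(2 : ℝ) ^ lam * e u j⌋ : ℝ) / 2 ^ lam) * F.d ω i₀| + 1 / 2 ^ lam :=
        (abs_add_le _ _).trans (by linarith)
    _ ≤ _ := by
        have := abs_add_le (F.d ω j - e u j * F.d ω i₀ - n u j)
          ((e u j - (⌊(2 : ℝ) ^ lam * e u j⌋ : ℝ) / 2 ^ lam) * F.d ω i₀)
        linarith

end Cell

end Pool.K2S
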