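import Pool.Agent.H5.K2.Tree

/-!
# CLU0: clusters in the tree of copies

The levels of the tree are labels `g v` (`g (v + 1)` determines `g v`), for instance
`g v = (l, T_v)`. The window number `i` consists of the levels `a i ≤ v < a (i + 1)`; the cluster
number `i` consists of the leaves whose path is zero outside these levels. `b i` is the context of
the root in the window number `i`, a function of `g (a i)`; `h i` is what is recorded of the members
of the cluster (their times), a function of `g (a (i + 1))`.
-/

set_option autoImplicit false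

namespace Pool.CLU

open Finset Real
open Pool.Agent.H49.Ent Pool.Agent.H32.Dense Pool.STK Pool.KAF Pool.KAL

/-- The cluster number `i`. -/
def Cl (n D : ℕ) (a : ℕ → ℕ) (i : ℕ) : Set (Pa n D) :=
  {x | ∀ j : Fin D, ¬ (a i ≤ j ∧ (j : ℕ) < a (i + 1)) → x j = 0}

open Classical in
/-- The data recorded of the cluster. -/
noncomputable def Cd {Ω η : Type} (n D : ℕ) (a : ℕ → ℕ) (h : ℕ → Ω → η) (i : ℕ)
    (c : Pa n D → Ω) (x : Pa n D) : Option η :=
  if x ∈ Cl n D a i then some (h i (c x)) else none

/-- The context: the contexts of the root and the earlier clusters. -/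
noncomputable def Cx {Ω β η : Type} (n D : ℕ) (a : ℕ → ℕ) (b : ℕ → Ω → β) (h : ℕ → Ω → η)
    (i : ℕ) (c : Pa n D → Ω) : (ℕ → Option β) × (ℕ → Option (Pa n D → Option η)) :=
  (fun j => if j ≤ i then some (b j (c 0)) else none,
    fun j => if j < i then some (Cd n D a h j c) else none)

/-- CLU0. -/
def CLU0Stmt : Prop :=
  ∀ (Ω γ β η S : Type) [Fintype Ω] (p : Ω → ℝ) (g : ℕ → Ω → γ) (n D N : ℕ) (a : ℕ → ℕ)
    (b : ℕ → Ω → β) (h : ℕ → Ω → η) (o : Ω → S) (e : ℝ), IsLaw p → 0 < e →
    (∀ v, Det p (g (v + 1)) (g v)) → Monotone a →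
    (∀ i < N, Det p (g (a i)) (b i)) → (∀ i, i + 1 < N → Det p (g (a (i + 1))) (h i)) →
    Det p (g (a 0)) o →
    IsLaw (tl p g n D 0) ∧ (∀ x, Marg (tl p g n D 0) p (fun c => c x)) ∧
    ∃ Bad : Finset ℕ, (Bad.card : ℝ) * e ≤ CH p o (b 0) ∧ ∀ i < N, i ∉ Bad →
      ∀ s ∈ Cl n D a i,
        Pool.KVA.MI (tl p g n D 0) (fun c => o (c 0)) (fun c => (b (i + 1) (c s), Cd n D a h i c))
          (Cx n D a b h i) ≤ e ∧
        Pool.KVA.MI (tl p g n D 0) (fun c => o (c 0)) (fun c => b (i + 1) (c s))
          (fun c => (Cd n D a h i c, Cx n D a b h i c)) ≤ e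

/-! ### Entropy of the tree -/

section

variable {Ω γ S T U : Type} [Fintype Ω]

lemma H_tl_zero {p : Ω → ℝ} (hp : ∀ ω, 0 ≤ p ω) (g : ℕ → Ω → γ) (n k : ℕ) :
    H (tl p g n 0 k) (fun c => c) = H p (fun ω => ω) := by
  rw [← (tl_marg hp g n 0 k 0).H (fun ω => ω)]
  refine H_congr (tl_nonneg hp g n 0 k) ?_ ?_
  · intro c c' _ _ h
    have h' : c 0 = c' 0 := h
    change c = c'
    funext x
    rw [Subsingleton.elim x 0]
    exact h'
  · intro c c' _ _ h
    have h' : c = c' := h
    change c 0 = c' 0
    rw [h']

/-- The entropy of the tree. -/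
lemma H_tl_succ {p : Ω → ℝ} (hp : ∀ ω, 0 ≤ p ω) (g : ℕ → Ω → γ) (n D k : ℕ) :
    H (tl p g n (D + 1) k) (fun c => c) =
      (n + 1) * H (tl p g n D (k + 1)) (fun c => c) - n * H p (g k) := by
  have h1 := marg_of_equiv (q := tl p g n (D + 1) k)
    (r := Pool.K2S.cpn (tl p g n D (k + 1)) (fun x => g k (x 0)) n) (spl Ω n D) (fun c => rfl)
  have h2 := h1.H (fun w => w)
  have h3 := H_cpn (tl_nonneg hp g n D (k + 1)) (fun x => g k (x 0)) n (fun c => c)
    (fun c c' _ _ h => by
      have h' : c = c' := h
      change g k (c 0) = g k (c' 0)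
      rw [h'])
  have h4 := (tl_marg hp g n D (k + 1) 0).H (g k)
  have h5 : H (tl p g n (D + 1) k) (fun c => spl Ω n D c) =
      H (tl p g n (D + 1) k) (fun c => c) :=
    H_comp_injective (tl_nonneg hp g n (D + 1) k) (fun c => c) (spl Ω n D).injective
  rw [h5] at h2
  rw [h2, ← h4]
  exact h3

/-- Invariance of laws under a bijection which preserves the measure. -/
lemma law_comp_equiv {q : Ω → ℝ} (e : Ω ≃ Ω) (h : ∀ w, q (e w) = q w) (F : Ω → S) (z : S) :
    law q (fun w => F (e w)) z = law q F z := by
  classical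
  unfold law
  rw [← Equiv.sum_comp e (fun w => if F w = z then q w else 0)]
  refine Finset.sum_congr rfl fun w _ => ?_
  simp only [h]

/-- Almost surely equal variables have the same law. -/
lemma law_ae {q : Ω → ℝ} (hq : ∀ w, 0 ≤ q w) (F F' : Ω → S) (h : ∀ w, 0 < q w → F w = F' w)
    (z : S) : law q F z = law q F' z := by
  classical
  unfold law
  refine Finset.sum_congr rfl fun w _ => ?_
  rcases (hq w).eq_or_lt with h0 | h0
  · simp [← h0]
  · rw [h w h0]

end

/-- The automorphism, as a bijection of the paths. -/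
def shE {n D : ℕ} (a : ℕ) (s : Pa n D) (hs : ∀ j : Fin D, (j : ℕ) < a → s j = 0) :
    Pa n D ≃ Pa n D where
  toFun := sh a s
  invFun := sh a (-s)
  left_inv x := by
    by_cases hx : ∀ j : Fin D, (j : ℕ) < a → x j = 0
    · have h1 : sh a s x = x + s := by unfold sh; rw [if_pos hx]
      have h2 : ∀ j : Fin D, (j : ℕ) < a → (x + s) j = 0 := fun j hj => by
        rw [Pi.add_apply, hx j hj, hs j hj, add_zero]
      rw [h1]
      unfold sh
      rw [if_pos h2, add_neg_cancel_right]
    · have h1 : sh a s x = x := by unfold sh; rw [if_neg hx]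
      rw [h1]
      unfold sh
      rw [if_neg hx]
  right_inv x := by
    by_cases hx : ∀ j : Fin D, (j : ℕ) < a → x j = 0
    · have h1 : sh a (-s) x = x + -s := by unfold sh; rw [if_pos hx]
      have h2 : ∀ j : Fin D, (j : ℕ) < a → (x + -s) j = 0 := fun j hj => by
        rw [Pi.add_apply, Pi.neg_apply, hx j hj, hs j hj, neg_zero, add_zero]
      rw [h1]
      unfold sh
      rw [if_pos h2, neg_add_cancel_right]
    · have h1 : sh a (-s) x = x := by unfold sh; rw [if_neg hx]
      rw [h1]
      unfold sh
      rw [if_neg hx]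

/-- The action on trees. -/
def acE {Ω : Type} {n D : ℕ} (e : Pa n D ≃ Pa n D) : (Pa n D → Ω) ≃ (Pa n D → Ω) where
  toFun c := fun x => c (e x)
  invFun c := fun x => c (e.symm x)
  left_inv c := by funext x; simp
  right_inv c := by funext x; simp

theorem clu0_thm : CLU0Stmt := by
  classical
  intro Ω γ β η S _ p g n D N a b h o e hp he hg ha hb hh ho
  have hq := tl_law hp g n D 0
  refine ⟨hq, tl_marg hp.nonneg g n D 0, ?_⟩
  have hdet : ∀ v w, v ≤ w → Det p (g w) (g v) := by
    intro v w hvw
    induction w, hvw using Nat.le_induction with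
    | base => exact fun _ _ _ _ h => h
    | succ w _ ih => exact fun ω ω' h1 h2 h3 => ih ω ω' h1 h2 (hg w ω ω' h1 h2 h3)
  have hmain := clu2_thm (Pa n D → Ω) S
    (fun _ => (ℕ → Option β) × (ℕ → Option (Pa n D → Option η)))
    (fun _ => Pa n D → Option η) (fun _ => β) (fun i => {x : Pa n D // x ∈ Cl n D a i})
    (tl p g n D 0) (fun c => o (c 0)) (Cx n D a b h) (Cd n D a h) (fun i c => b (i + 1) (c 0))
    (fun i s c => b (i + 1) (c s.1)) (fun i s f x => f (sh (a i) (-s.1) x)) N e hq he
    (by
      -- the next context determines everything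
      intro i _ c c' _ _ hcc
      have h1 := (Prod.ext_iff.mp hcc).1
      have h2 := (Prod.ext_iff.mp hcc).2
      simp only [Cx] at h1 h2
      have e1 : b (i + 1) (c 0) = b (i + 1) (c' 0) := by
        have := congrFun h1 (i + 1)
        simpa using this
      have e2 : Cd n D a h i c = Cd n D a h i c' := by
        have := congrFun h2 i
        simpa using this
      refine Prod.ext (Prod.ext e1 e2) (Prod.ext ?_ ?_)
      · funext j
        have := congrFun h1 j
        simp only [Cx]
        by_cases hj : j ≤ i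
        · rw [if_pos hj, if_pos hj]
          rwa [if_pos (by omega), if_pos (by omega)] at this
        · rw [if_neg hj, if_neg hj]
      · funext j
        have := congrFun h2 j
        simp only [Cx]
        by_cases hj : j < i
        · rw [if_pos hj, if_pos hj]
          rwa [if_pos (by omega), if_pos (by omega)] at this
        · rw [if_neg hj, if_neg hj])
    (by
      intro i _ s f f' hff
      have hs : ∀ j : Fin D, (j : ℕ) < a i → s.1 j = 0 := fun j hj => s.2 j (by omega)
      funext x
      have := congrFun hff ((shE (a i) s.1 hs) x)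
      have h2 := (shE (a i) s.1 hs).left_inv x
      have h3 : sh (a i) (-s.1) ((shE (a i) s.1 hs) x) = x := h2
      beta_reduce at this
      rw [h3] at this
      exact this)
    (by
      intro i hi s z
      have hs : ∀ j : Fin D, (j : ℕ) < a i → s.1 j = 0 := fun j hj => s.2 j (by omega)
      rw [← law_comp_equiv (acE (shE (a i) s.1 hs))
        (fun c => tl_sh hp.nonneg g hg n D 0 (a i) s.1 c hs)
        (fun c => (o (c 0), (b (i + 1) (c 0), fun x => Cd n D a h i c (sh (a i) (-s.1) x)),
          Cx n D a b h i c)) z]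
      refine law_ae hq.nonneg _ _ ?_ z
      intro c hc
      have hc' : ∀ x, (acE (shE (a i) s.1 hs)) c x = c (sh (a i) s.1 x) := fun x => rfl
      -- agreement of the paths
      have hag : ∀ x : Pa n D, ∀ j : Fin D, (j : ℕ) < a i → sh (a i) s.1 x j = x j := by
        intro x j hj
        unfold sh
        split_ifs
        · rw [Pi.add_apply, hs j hj, add_zero]
        · rfl
      have hfun : ∀ (U : Type) (f : Ω → U) (x : Pa n D), Det p (g (a i)) f →
          f (c x) = f (c (sh (a i) s.1 x)) := by
        intro U f x hf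
        refine tl_fun hp.nonneg g hg n D 0 c hc x _ (a i) (fun j hj => (hag x j hj).symm) f ?_
        rw [Nat.zero_add]
        exact hf
      refine Prod.ext ?_ (Prod.ext (Prod.ext ?_ ?_) (Prod.ext ?_ ?_))
      · -- `o`
        simp only [hc']
        exact hfun S o 0 (fun ω ω' h1 h2 h3 => ho ω ω' h1 h2 (hdet _ _ (ha (Nat.zero_le i)) ω ω' h1 h2 h3))
      · -- the member
        simp only [hc', sh_zero]
      · -- the cluster
        funext x
        simp only [Cd, hc']
        have h1 : sh (a i) s.1 (sh (a i) (-s.1) x) = x := (shE (a i) s.1 hs).right_inv x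
        have h2 : sh (a i) (-s.1) x ∈ Cl n D a i ↔ x ∈ Cl n D a i := by
          have key : ∀ (t : Pa n D), t ∈ Cl n D a i → ∀ y : Pa n D, y ∈ Cl n D a i →
              sh (a i) t y ∈ Cl n D a i := by
            intro t ht y hy j hj
            unfold sh
            rw [if_pos fun j hj => hy j (by omega), Pi.add_apply, hy j hj, ht j hj, add_zero]
          have hneg : -s.1 ∈ Cl n D a i := fun j hj => by
            rw [Pi.neg_apply, s.2 j hj, neg_zero]
          constructor
          · intro hx
            have := key s.1 s.2 _ hx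
            rwa [h1] at this
          · intro hx
            exact key _ hneg x hx
        by_cases hx : x ∈ Cl n D a i
        · rw [if_pos hx, if_pos (h2.mpr hx), h1]
        · rw [if_neg hx, if_neg fun hh => hx (h2.mp hh)]
      · -- the contexts of the root
        funext j
        simp only [Cx, hc']
        by_cases hj : j ≤ i
        · rw [if_pos hj, if_pos hj]
          congr 1
          exact hfun β (b j) 0 (fun ω ω' h1 h2 h3 => hb j (by omega) ω ω' h1 h2
            (hdet _ _ (ha hj) ω ω' h1 h2 h3))
        · rw [if_neg hj, if_neg hj]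
      · -- the earlier clusters
        funext j
        simp only [Cx]
        by_cases hj : j < i
        · rw [if_pos hj, if_pos hj]
          congr 1
          funext x
          simp only [Cd, hc']
          by_cases hx : x ∈ Cl n D a j
          · rw [if_pos hx, if_pos hx]
            congr 1
            exact hfun η (h j) x (fun ω ω' h1 h2 h3 => hh j (by omega) ω ω' h1 h2
              (hdet _ _ (ha (by omega : j + 1 ≤ i)) ω ω' h1 h2 h3))
          · rw [if_neg hx, if_neg hx]
        · rw [if_neg hj, if_neg hj])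
  obtain ⟨Bad, h1, h2⟩ := hmain
  refine ⟨Bad, ?_, fun i hi hbad s hs => h2 i hi hbad ⟨s, hs⟩⟩
  have h3 : CH (tl p g n D 0) (fun c => o (c 0)) (Cx n D a b h 0) =
      CH (tl p g n D 0) (fun c => o (c 0)) (fun c => b 0 (c 0)) := by
    refine CH_congr hq.nonneg ?_ ?_ ?_ ?_
    · intro c c' _ _ hh; exact (Prod.ext_iff.mp hh).1
    · intro c c' _ _ hh; exact (Prod.ext_iff.mp hh).1
    · intro c c' _ _ hh
      have := congrFun (Prod.ext_iff.mp hh).1 0
      simpa [Cx] using this
    · intro c c' _ _ hh
      simp only [Cx, Prod.mk.injEq]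
      refine ⟨?_, ?_⟩
      · funext j
        by_cases hj : j ≤ 0
        · have : j = 0 := by omega
          subst this
          simpa using hh
        · rw [if_neg hj, if_neg hj]
      · funext j
        rw [if_neg (Nat.not_lt_zero _), if_neg (Nat.not_lt_zero _)]
  rw [h3, (tl_marg hp.nonneg g n D 0 0).CH o (b 0)] at h1
  exact h1

end Pool.CLU
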