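import Pool.Agent.H5.K2.CellV
import Pool.Agent.H5.K2.Exh
import Pool.Agent.H45.K2.PLC

/-!
# Rows are full if the directions in the cells of the positions do not lie near lines

The line of the directions in the cells `(F.X r, F.W)`, `r = w + lam + x`, is known to precision
`lam`, and its frame is conserved in the windows `w`; if it is not known to precision `lam + hh`,
the rows `(w + lam, w + lam + x]` are full.
-/

set_option autoImplicit false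

namespace Pool.K2S

open Finset Real
open Pool.Agent.H49.Ent Pool.Agent.H32.Dense Pool.STK Pool.KA Pool.KA.Win Pool.KA.TRC Rows FF

namespace Cell

theorem pt_cel {m J : ℕ} (F : Fam m J) {r : ℕ} (hr : r ≤ J) {ω ω' : F.Ω}
    (h : Fam.pt F ω = Fam.pt F ω') : cel F r ω = cel F r ω' := by
  have h1 : F.X J ω = F.X J ω' ∧ F.W ω = F.W ω' := Prod.ext_iff.mp h
  exact Prod.ext (Pool.STK.B58.fl_fine hr h1.1) h1.2

/-- **Rows of cells.** -/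
theorem cell_rows {b : ℝ} (hb : 0 ≤ b) (q : ℕ) : ∃ C₀ : ℝ, 0 ≤ C₀ ∧
    ∀ (J : ℕ) (F : Fam 2 J) (A : F.Ω → Prop) (i₀ : Fin 2) (w lam x N hh x1 : ℕ)
    (κ e r r₀ : ℝ) (e₀ n₀ : (Fin 2 → ℤ) × (ℕ × F.ζ) → Fin 2 → ℝ)
    (e' n' : (Fin 2 → ℤ) × (ℕ × F.ζ) → Fin 2 → ℝ)
    (ζ : ((Fin 2 → ℝ) × (Fin 2 → ℝ)) × (ℕ × F.ζ) → Fin 2 → ℝ),
    w + lam + x ≤ J → 1 ≤ N → 0 ≤ e → 0 < Pe F.p A →
    (∀ B : F.Ω → Prop, Sub B A → Pe F.p A / 4 ≤ Pe F.p B →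
      ∀ hl : IsLaw (cond F.p B True), (F.res B True hl).Tm e) →
    Stb F.p κ A (Ball r (Fam.pt F) F.d) → ¬ Ball r (Fam.pt F) F.d A →
    IsFrame i₀ r₀ (Fam.pt F) F.d A e₀ n₀ → ((2 : ℝ) ^ x1)⁻¹ ≤ r - r₀ →
    Stb F.p κ A (LineU i₀ ((2 : ℝ) ^ (lam + hh))⁻¹ (cel F (w + lam + x)) F.d) →
    ¬ LineU i₀ ((2 : ℝ) ^ (lam + hh))⁻¹ (cel F (w + lam + x)) F.d A →
    OnL i₀ ((2 : ℝ) ^ lam)⁻¹ (cel F (w + lam + x)) F.d A e' n' →
    (∀ v j, ∃ k : ℤ, ζ v j = k / 2 ^ lam) → (∀ v j, |ζ v j| ≤ b) →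
    (∀ ω, A ω → ∀ j, |e' (cel F (w + lam + x) ω) j - ζ (wnd F w ω) j| ≤
      q * ((2 : ℝ) ^ lam)⁻¹) →
    4 * plcδ q b N (lam / (x / N)) + 6 * Real.log 2 ≤ κ →
    ∃ B : F.Ω → Prop, Sub B A ∧ Pe F.p A / 4 ≤ Pe F.p B ∧
      2 * (x * Real.log 2) - (C₀ * ((N + (lam / (x / N) : ℕ) + 1) *
        ((hh + x1 + 4 : ℕ) + e + 1)) + 9 * (x / N : ℕ) + 13 * (J * Real.exp (-(κ / 4)))) ≤
        CH (cond F.p B True) (F.X (w + lam + x)) (fun ω => (F.X (w + lam) ω, F.W ω)) := by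
  classical
  obtain ⟨C₀, hC₀, hrows⟩ := plk_rows hb
  refine ⟨C₀, hC₀, ?_⟩
  intro J F A i₀ w lam x N hh x1 κ e r r₀ e₀ n₀ e' n' ζ hJ hN he hA hTm hBs hBn
    h₀ hx1 hRs hRn hon hgrid hζb hclose hκ
  have hp := F.isLaw
  have hl2 : 0 < Real.log 2 := Real.log_pos one_lt_two
  obtain ⟨K, hK⟩ : ∃ K, K = x / N := ⟨_, rfl⟩
  obtain ⟨N₂, hN₂⟩ : ∃ N₂, N₂ = lam / K := ⟨_, rfl⟩
  rw [← hK, ← hN₂] at hκ
  obtain ⟨R, hR⟩ : ∃ R, R = w + lam + x := ⟨_, rfl⟩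
  have hRJ : R ≤ J := by omega
  rw [← hR] at hRs hRn hon hclose
  have hx1' : N * K ≤ x := by
    rw [hK]
    exact Nat.mul_div_le x N
  have hl1 : N₂ * K ≤ lam := by
    rw [hN₂]
    exact Nat.div_mul_le_self lam K
  -- the constants
  have g1 : 0 ≤ Real.log (4 * (q : ℝ) + 1) := Real.log_nonneg (by
    have : (0 : ℝ) ≤ q := Nat.cast_nonneg q
    linarith only)
  have g2 : 0 ≤ Real.log (4 * (q : ℝ) + 7) := Real.log_nonneg (by
    have : (0 : ℝ) ≤ q := Nat.cast_nonneg q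
    linarith only)
  have g3 : 0 ≤ Real.log (4 * (q : ℝ) + 2 * b + 9) := Real.log_nonneg (by
    have : (0 : ℝ) ≤ q := Nat.cast_nonneg q
    linarith only [hb])
  have g4 : 0 ≤ Real.log (2 * b + 5) := Real.log_nonneg (by linarith only [hb])
  have g5 : 0 ≤ Real.log 3 := Real.log_nonneg (by norm_num)
  have g6 := cc_nonneg 2
  have g7 := cc_nonneg 1
  obtain ⟨Cv, hCv⟩ : ∃ Cv : ℝ, Cv = 2 * Real.log (4 * q + 1) + 2 * Real.log (4 * q + 7) +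
    2 * Real.log (4 * q + 2 * b + 9) := ⟨_, rfl⟩
  have hCv0 : 0 ≤ Cv := by rw [hCv]; positivity
  obtain ⟨δ, hδ⟩ : ∃ δ, δ = plcδ q b N N₂ := ⟨_, rfl⟩
  have hδv : δ = (2 * N + 4) * Cv + (2 * Real.log (2 * b + 5) + 2 * Real.log 3) +
      cc 2 + (N₂ + 1) * cc 1 + 1 := by
    rw [hδ, plcδ, hCv]
  have hN0 : (0 : ℝ) ≤ N := Nat.cast_nonneg N
  have hN₂0 : (0 : ℝ) ≤ N₂ := Nat.cast_nonneg N₂
  have hδ0 : 0 < δ := by
    rw [hδv]
    positivity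
  rw [← hδ] at hκ
  -- the labels
  obtain ⟨z, hz⟩ : ∃ z : F.Ω → Fin 2 → ℝ, z = fun ω => ζ (wnd F w ω) := ⟨_, rfl⟩
  obtain ⟨L, hL⟩ : ∃ L, L = plC (F.plk w lam i₀ z) K N := ⟨_, rfl⟩
  obtain ⟨L₂, hL₂⟩ : ∃ L₂, L₂ = plC (F.pj i₀ (w + x) (F.plab (w + x) lam i₀ z)) K N₂ := ⟨_, rfl⟩
  have hLL : ∀ B : F.Ω → Prop, Sub B A → 0 < Pe F.p B →
      CH (cond F.p B True) (fun ω => (L ω, L₂ ω)) (cel F R) ≤ δ := by
    intro B hBA hB0
    have hlB := isLaw_cond hp hB0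
    have hBpos : ∀ ω, 0 < cond F.p B True ω → A ω := by
      intro ω hω
      have := ((cond_pos_iff hp.nonneg B True ω).1 hω).2
      exact hBA ω (by simpa using this)
    have a1 := CH_subadd hlB.nonneg L L₂ (cel F R)
    have a2 := plC_cel (F.res B True hlB) (w := w) (lam := lam) (K := K) (N := N) (r := R)
      (by omega) hRJ (i₀ := i₀) (z := z) hb (fun ω _ i => by rw [hz]; exact hζb _ i)
      (pt := cel F R) (fun _ _ _ _ h => h)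
      (e := e') (n := n') (fun ω hω => hon ω (hBpos ω hω)) (q := q)
      (fun ω hω => by rw [hz]; exact hclose ω (hBpos ω hω))
      (fun ω j => by rw [hz]; exact hgrid _ j)
    have a3 := pjC_cel (F.res B True hlB) (w₂ := w + x) (lam := lam) (K := K) (N := N₂) (r := R)
      (by omega) (by omega) hRJ (i₀ := i₀) (z := z) hb (fun ω _ i => by rw [hz]; exact hζb _ i)
      (pt := cel F R) (fun _ _ _ _ h => h)
      (e := e') (n := n') (fun ω hω => hon ω (hBpos ω hω)) (q := q)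
      (fun ω hω => by rw [hz]; exact hclose ω (hBpos ω hω))
      (fun ω j => by rw [hz]; exact hgrid _ j)
    push_cast at a2 a3
    rw [← hCv] at a2 a3
    have a2' : CH (cond F.p B True) L (cel F R) ≤ (2 * N + 3) * Cv +
        (2 * Real.log (2 * b + 5) + 2 * Real.log 3) := by
      rw [hL]
      exact a2
    have a4 : CH (cond F.p B True) L₂ (cel F R) ≤ Cv + cc 2 + (N₂ + 1) * cc 1 := by
      rw [hL₂]
      exact a3
    rw [hδv]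
    linarith only [a1, a2', a4]
  have hLLpt : ∀ B : F.Ω → Prop, Sub B A → 0 < Pe F.p B →
      CH (cond F.p B True) (fun ω => (L ω, L₂ ω)) (Fam.pt F) ≤ δ := by
    intro B hBA hB0
    refine le_trans (CH_mono_cond (isLaw_cond hp hB0).nonneg ?_) (hLL B hBA hB0)
    intro ω ω' _ _ h
    exact pt_cel F hRJ h
  -- first cleaning
  obtain ⟨s1, s2⟩ := Stb.refine hp hBs hBn hA hδ0 hLLpt (by linarith only [hl2, hκ, hδ0])
  obtain ⟨κ₁, hκ₁⟩ : ∃ κ₁, κ₁ = κ - (2 * δ + Real.log 2) := ⟨_, rfl⟩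
  rw [← hκ₁] at s1
  obtain ⟨c1, c2⟩ := Stb.clean hp (by rw [hκ₁]; linarith only [hl2, hκ, hδ0] : 2 * Real.log 2 ≤ κ₁) hA s1 s2 rfl
  obtain ⟨N₁, hN₁⟩ : ∃ N₁ : F.Ω → Prop, N₁ = Pop (cond F.p A True) F.d
    (fun ω => (Fam.pt F ω, (L ω, L₂ ω))) (fun D (v : Fin 2 → ℝ) => ∀ j, |D j - v j| ≤ r)
    (Real.exp (-(κ₁ / 2))) := ⟨_, rfl⟩
  rw [← hN₁] at c1 c2
  obtain ⟨A₁, hA₁⟩ : ∃ A₁ : F.Ω → Prop, A₁ = fun ω => A ω ∧ ¬ N₁ ω := ⟨_, rfl⟩
  rw [← hA₁] at c2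
  have hsub1 : Sub A₁ A := by
    rw [hA₁]
    exact fun ω h => h.1
  have hPA₁ : Real.exp (-Real.log 2) * Pe F.p A ≤ Pe F.p A₁ := by
    rw [hA₁]
    exact Pe_diff c1
  have hhalf : Real.exp (-Real.log 2) = 1 / 2 := by
    rw [Real.exp_neg, Real.exp_log (by norm_num)]
    norm_num
  have hA₁0 : 0 < Pe F.p A₁ := lt_of_lt_of_le (mul_pos (Real.exp_pos _) hA) hPA₁
  -- the chart coordinate
  have hchart : NonConc (cond F.p A₁ True) (fun ω => F.d ω i₀)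
      (fun ω => (Fam.pt F ω, (L ω, L₂ ω))) (fun D (v : ℝ) => |D - v| ≤ r - r₀)
      (Real.exp (-(κ₁ / 2))) := by
    refine NonConc.chart (isLaw_cond hp hA₁0) (A := A₁) ?_ (e := fun u => e₀ u.1)
      (n := fun u => n₀ u.1) ⟨fun ω hω => h₀.bound ω (hsub1 ω hω),
        fun ω hω => h₀.line ω (hsub1 ω hω)⟩ c2
    intro ω hω
    have := ((cond_pos_iff hp.nonneg A₁ True ω).1 hω).2
    simpa using this
  -- second cleaning
  have hkey : Real.exp (-κ) * Pe F.p A ≤ Real.exp (-(κ - Real.log 2)) * Pe F.p A₁ := by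
    calc Real.exp (-κ) * Pe F.p A = Real.exp (-(κ - Real.log 2)) *
            (Real.exp (-Real.log 2) * Pe F.p A) := by
            rw [← mul_assoc, ← Real.exp_add]
            congr 2
            ring
        _ ≤ _ := mul_le_mul_of_nonneg_left hPA₁ (Real.exp_pos _).le
  have hnotB : ∀ B : F.Ω → Prop, Sub B A → Real.exp (-κ) * Pe F.p A ≤ Pe F.p B →
      ¬ LineU i₀ ((2 : ℝ) ^ (lam + hh))⁻¹ (cel F R) F.d B :=
    fun B hB hP h => hRn (hRs.of_sub hB hP h)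
  have hLs : Stb F.p (κ - Real.log 2) A₁
      (LineU i₀ ((2 : ℝ) ^ (lam + hh))⁻¹ (cel F R) F.d) := by
    refine Or.inr fun B hB hPB hLC => ?_
    exact hnotB B (fun ω hω => hsub1 ω (hB ω hω)) (hkey.trans hPB) hLC
  have hLn : ¬ LineU i₀ ((2 : ℝ) ^ (lam + hh))⁻¹ (cel F R) F.d A₁ := by
    refine hnotB A₁ hsub1 (le_trans ?_ hPA₁)
    exact mul_le_mul_of_nonneg_right (Real.exp_le_exp.2 (by linarith only [hl2, hκ, hδ0])) hA.le
  have hLs' : Stb F.p (κ - Real.log 2) A₁ (Fn F.d (cel F R)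
      (fun D (s : (Fin 2 → ℝ) × (Fin 2 → ℝ)) =>
        ∀ j, |D j - s.1 j * D i₀ - s.2 j| ≤ ((2 : ℝ) ^ (lam + hh))⁻¹)) := by
    have e1 : LineU i₀ ((2 : ℝ) ^ (lam + hh))⁻¹ (cel F R) F.d = Fn F.d (cel F R)
      (fun D (s : (Fin 2 → ℝ) × (Fin 2 → ℝ)) =>
        ∀ j, |D j - s.1 j * D i₀ - s.2 j| ≤ ((2 : ℝ) ^ (lam + hh))⁻¹) := by
      funext B
      exact propext (lineU_iff _ _ _ _ _)
    rw [← e1]
    exact hLs
  have hLn' : ¬ Fn F.d (cel F R) (fun D (s : (Fin 2 → ℝ) × (Fin 2 → ℝ)) =>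
        ∀ j, |D j - s.1 j * D i₀ - s.2 j| ≤ ((2 : ℝ) ^ (lam + hh))⁻¹) A₁ :=
    fun h => hLn ((lineU_iff _ _ _ _ _).2 h)
  obtain ⟨s3, s4⟩ := Stb.refine hp hLs' hLn' hA₁0 hδ0
    (fun B hB hB0 => hLL B (fun ω hω => hsub1 ω (hB ω hω)) hB0) (by linarith only [hl2, hκ, hδ0])
  obtain ⟨c3, c4⟩ := Stb.clean hp
    (by linarith only [hl2, hκ, hδ0] : 2 * Real.log 2 ≤ κ - Real.log 2 - (2 * δ + Real.log 2)) hA₁0 s3 s4 rfl
  obtain ⟨N₃, hN₃⟩ : ∃ N₃ : F.Ω → Prop, N₃ = Pop (cond F.p A₁ True) F.d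
    (fun ω => (cel F R ω, (L ω, L₂ ω)))
    (fun D (s : (Fin 2 → ℝ) × (Fin 2 → ℝ)) =>
      ∀ j, |D j - s.1 j * D i₀ - s.2 j| ≤ ((2 : ℝ) ^ (lam + hh))⁻¹)
    (Real.exp (-((κ - Real.log 2 - (2 * δ + Real.log 2)) / 2))) := ⟨_, rfl⟩
  rw [← hN₃] at c3 c4
  have hPA₂ := Pe_diff c3
  have hA₂0 : 0 < Pe F.p (fun ω => A₁ ω ∧ ¬ N₃ ω) :=
    lt_of_lt_of_le (mul_pos (Real.exp_pos _) hA₁0) hPA₂
  have hchart2 := NonConc.cut hp hA₁0 hA₂0 (N := N₃) (by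
    intro ω ω' h
    have h1 : cel F R ω = cel F R ω' := pt_cel F hRJ (Prod.ext_iff.mp h).1
    have h2 : (L ω, L₂ ω) = (L ω', L₂ ω') := (Prod.ext_iff.mp h).2
    rw [hN₃]
    unfold Pop
    simp only
    rw [h1, h2]) hchart
  obtain ⟨A₂, hA₂⟩ : ∃ A₂ : F.Ω → Prop, A₂ = fun ω => A₁ ω ∧ ¬ N₃ ω := ⟨_, rfl⟩
  rw [← hA₂] at hPA₂ hA₂0 hchart2 c4
  have hsub2 : Sub A₂ A := by
    rw [hA₂]
    exact fun ω h => hsub1 ω h.1
  have hquart : Pe F.p A / 4 ≤ Pe F.p A₂ := by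
    rw [hhalf] at hPA₁ hPA₂
    linarith only [hPA₁, hPA₂]
  have hl := isLaw_cond hp hA₂0
  refine ⟨A₂, hsub2, hquart, ?_⟩
  have hρ0 : 0 ≤ Real.exp (-(κ / 4)) := (Real.exp_pos _).le
  have hpos2 : ∀ ω, 0 < cond F.p A₂ True ω → A ω := by
    intro ω hω
    have := ((cond_pos_iff hp.nonneg A₂ True ω).1 hω).2
    exact hsub2 ω (by simpa using this)
  have key := hrows J (F.res A₂ True hl) i₀ z w lam x N hh x1 e (Real.exp (-(κ / 4))) _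
    (fun ω => (Fam.pt F ω, (L ω, L₂ ω))) hJ hN he hρ0 (hTm A₂ hsub2 hquart hl)
    (by
      intro ω ω' _ _ h
      have h' : wnd F w ω = wnd F w ω' := h
      rw [hz]
      change ζ (wnd F w ω) = ζ (wnd F w ω')
      rw [h'])
    (fun ω _ i => by rw [hz]; exact hζb _ i)
    (by
      rw [← hK]
      have h1 := c4.mono_rho hl (ρ' := Real.exp (-(κ / 4))) (Real.exp_le_exp.2 (by linarith only [hl2, hκ]))
      refine h1.coarse hl ?_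
      intro ω ω' _ _ h
      have h2 : L ω = L ω' := (Prod.ext_iff.mp (Prod.ext_iff.mp h).2).1
      rw [hL] at h2
      exact h2)
    (by
      have h1 := hchart2.mono_rho hl (ρ' := Real.exp (-(κ / 4)))
        (Real.exp_le_exp.2 (by rw [hκ₁]; linarith only [hl2, hκ]))
      intro ω hω s
      refine le_trans (mas_mono hl fun ω' _ _ hr' => ?_) (h1 ω hω s)
      exact hr'.trans hx1)
    (by
      rw [← hK]
      intro ω ω' _ _ h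
      have h2 : L ω = L ω' := (Prod.ext_iff.mp (Prod.ext_iff.mp h).2).1
      rw [hL] at h2
      exact h2)
    (by
      rw [← hK, ← hN₂]
      intro ω ω' _ _ h
      have h2 : L₂ ω = L₂ ω' := (Prod.ext_iff.mp (Prod.ext_iff.mp h).2).2
      rw [hL₂] at h2
      exact h2)
  refine le_trans (sub_le_sub_left ?_ _) key
  have t1 : (0 : ℝ) ≤ ((lam / (x / N) : ℕ) : ℝ) + 1 := by positivity
  have t2 : ((x1 : ℝ) + 2 + e + 1) ≤ (((hh + x1 + 4 : ℕ) : ℝ) + e + 1) := by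
    push_cast
    linarith only [(Nat.cast_nonneg hh : (0 : ℝ) ≤ hh)]
  nlinarith only [t2, t1, hC₀, mul_le_mul_of_nonneg_left (mul_le_mul_of_nonneg_left t2 t1) hC₀]

end Cell

end Pool.K2S
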