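import Pool.Agent.H5.K2.CellR
import Pool.Agent.H13.K2S.Skel
import Pool.Agent.H35.K2S.FFRow

/-!
# One step of the flatness of the cells
-/

set_option autoImplicit false

namespace Pool.K2S

open Finset Real
open Pool.Agent.H49.Ent Pool.Agent.H32.Dense Pool.STK Pool.KA Pool.KA.Win Pool.KA.TRC Rows FF
open Pool.KSAT

namespace Cell

/-- The label bounds are monotone. -/
theorem plcδ_mono {q : ℕ} {b : ℝ} {N N₂ N₂' : ℕ} (h : N₂ ≤ N₂') :
    plcδ q b N N₂ ≤ plcδ q b N N₂' := by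
  have h1 := cc_nonneg 1
  have h2 : (N₂ : ℝ) ≤ N₂' := by exact_mod_cast h
  unfold plcδ
  nlinarith only [h1, h2]

/-- The spread part of an event. -/
theorem spread_part {J : ℕ} {F : Fam 2 J} {A : F.Ω → Prop} {i₀ : Fin 2} {κ : ℝ} {g hb : ℕ}
    (hg : 1 ≤ g) (hgb : g + 1 ≤ hb) (hA : 0 < Pe F.p A) (hκ : Real.log 2 ≤ κ)
    (hBs : Stb F.p κ A (Ball (1 / 2 ^ (g - 1)) (Fam.pt F) F.d))
    (hBn : ¬ Ball (1 / 2 ^ (g - 1)) (Fam.pt F) F.d A)
    {e₀ n₀ : (Fin 2 → ℤ) × (ℕ × F.ζ) → Fin 2 → ℝ}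
    (h₀ : IsFrame i₀ (1 / 2 ^ hb) (Fam.pt F) F.d A e₀ n₀) :
    ∃ A₁ : F.Ω → Prop, Sub A₁ A ∧ Real.exp (-Real.log 2) * Pe F.p A ≤ Pe F.p A₁ ∧
      SpreadI i₀ (1 / 2 ^ g) (Fam.pt F) F.d A₁ := by
  classical
  obtain ⟨A₁, hA₁⟩ : ∃ A₁ : F.Ω → Prop,
    A₁ = fun ω => A ω ∧ ¬ Thin (1 / 2 ^ (g - 1)) (K2S.Fam.pt F) F.d A ω := ⟨_, rfl⟩
  have hsub1 : Sub A₁ A := by rw [hA₁]; exact fun ω h => h.1
  have hP1 : Real.exp (-Real.log 2) * Pe F.p A ≤ Pe F.p A₁ := by
    rw [hA₁]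
    refine Pe_diff ?_
    have h1 := hBs.thin_lt hBn
    refine h1.le.trans ?_
    have h2 : Real.exp (-κ) ≤ 1 / 2 := by
      have : (1 : ℝ) / 2 = Real.exp (-Real.log 2) := by
        rw [Real.exp_neg, Real.exp_log (by norm_num)]
        norm_num
      rw [this]
      exact Real.exp_le_exp.2 (by linarith only [hκ])
    have := mul_le_mul_of_nonneg_right h2 hA.le
    linarith only [this]
  have hspr : Spread (1 / 2 ^ (g - 1)) (K2S.Fam.pt F) F.d A₁ := by
    rw [hA₁]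
    exact spread_of_not_thin _ _ _ _
  have hsI := (h₀.sub hsub1).spreadI hspr
  refine ⟨A₁, hsub1, hP1, ?_⟩
  have e1 : (1 : ℝ) / 2 ^ g ≤ 1 / 2 ^ (g - 1) - 2 * (1 / 2 ^ hb) := by
    obtain ⟨g', rfl⟩ : ∃ g', g = g' + 1 := ⟨g - 1, by omega⟩
    have e2 : (1 : ℝ) / 2 ^ (g' + 1 - 1) = 2 * (1 / 2 ^ (g' + 1)) := by
      rw [Nat.add_sub_cancel, pow_succ]
      field_simp
    have e3 : (1 : ℝ) / 2 ^ hb ≤ 1 / 2 ^ (g' + 1) / 2 := by
      rw [div_div]
      refine one_div_le_one_div_of_le (by positivity) ?_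
      rw [← pow_succ]
      exact pow_le_pow_right₀ (by norm_num) hgb
    rw [e2]
    linarith only [e3]
  intro ω hω
  obtain ⟨ω₁, ω₂, k1, k2, k3, k4, k5⟩ := hsI ω hω
  exact ⟨ω₁, ω₂, k1, k2, k3, k4, lt_of_le_of_lt e1 k5⟩

/-- **The step.** If the lines of the cells are known to precision `p ≤ l + 2 g` but not to
precision `p + g`, the rows are full. -/
theorem cell_step : ∃ C₀ : ℝ, 0 ≤ C₀ ∧
    ∀ (J : ℕ) (F : Fam 2 J) (A : F.Ω → Prop) (i₀ : Fin 2) (v l x p g N M hb : ℕ) (κ e : ℝ),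
    v + l + x ≤ J → p ≤ l + 2 * g → 1 ≤ g → g + 3 ≤ hb → 1 ≤ N → l / (x / N) ≤ M → 0 ≤ e →
    0 < Pe F.p A →
    (∀ B : F.Ω → Prop, Sub B A → Pe F.p A / 8 ≤ Pe F.p B →
      ∀ hl : IsLaw (cond F.p B True), (F.res B True hl).Tm e) →
    Stb F.p κ A (Ball (1 / 2 ^ (g - 1)) (Fam.pt F) F.d) →
    ¬ Ball (1 / 2 ^ (g - 1)) (Fam.pt F) F.d A →
    Stb F.p κ A (LineU i₀ (1 / 2 ^ (p + g)) (cel F (v + l + x)) F.d) →
    ¬ LineU i₀ (1 / 2 ^ (p + g)) (cel F (v + l + x)) F.d A →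
    LineU i₀ (1 / 2 ^ p) (cel F (v + l + x)) F.d A →
    Lb F i₀ hb A → Cn F i₀ l v A →
    4 * plcδ 3 4 N M + 7 * Real.log 2 ≤ κ →
    ∃ B : F.Ω → Prop, Sub B A ∧ 0 < Pe F.p B ∧
      2 * (x * Real.log 2) - (C₀ * ((N + M + 1) * ((5 * g + 6 : ℕ) + e + 1)) +
        9 * (x / N : ℕ) + 13 * (J * Real.exp (-((κ - Real.log 2) / 4)))) ≤
        CH (cond F.p B True) (F.X (v + l + x)) (fun ω => (F.X (v + l) ω, F.W ω)) := by
  classical
  obtain ⟨C₀, hC₀, hrows⟩ := cell_rows (b := 4) (by norm_num) 3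
  refine ⟨C₀, hC₀, ?_⟩
  intro J F A i₀ v l x p g N M hb κ e hJ hp hg hgb hN hM he hA hTm hBs hBn hRs hRn hS hLb hCn hκ
  have hF := F.isLaw
  have hl2 : 0 < Real.log 2 := Real.log_pos one_lt_two
  have hδ0 : 0 ≤ plcδ 3 4 N M := by
    have g1 : 0 ≤ Real.log (4 * ((3 : ℕ) : ℝ) + 1) := Real.log_nonneg (by norm_num)
    have g2 : 0 ≤ Real.log (4 * ((3 : ℕ) : ℝ) + 7) := Real.log_nonneg (by norm_num)
    have g3 : 0 ≤ Real.log (4 * ((3 : ℕ) : ℝ) + 2 * 4 + 9) := Real.log_nonneg (by norm_num)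
    have g4 : 0 ≤ Real.log (2 * (4 : ℝ) + 5) := Real.log_nonneg (by norm_num)
    have g5 : 0 ≤ Real.log (3 : ℝ) := Real.log_nonneg (by norm_num)
    have g6 := cc_nonneg 2
    have g7 := cc_nonneg 1
    unfold plcδ
    positivity
  have hhalf : Real.exp (-Real.log 2) = 1 / 2 := by
    rw [Real.exp_neg, Real.exp_log (by norm_num)]
    norm_num
  obtain ⟨e₀, n₀, hfr⟩ := hLb
  obtain ⟨e₁, n₁, ζ, hon, hcn⟩ := hCn
  obtain ⟨e', n', hS⟩ := hS
  have hN0 : (0 : ℝ) ≤ N := Nat.cast_nonneg N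
  have hM0 : (0 : ℝ) ≤ M := Nat.cast_nonneg M
  have hJ0 : (0 : ℝ) ≤ J := Nat.cast_nonneg J
  have hrad : ((2 : ℝ) ^ g)⁻¹ ≤ 1 / 2 ^ (g - 1) - 1 / 2 ^ hb := by
    obtain ⟨g', rfl⟩ : ∃ g', g = g' + 1 := ⟨g - 1, by omega⟩
    have e2 : (1 : ℝ) / 2 ^ (g' + 1 - 1) = 2 * ((2 : ℝ) ^ (g' + 1))⁻¹ := by
      rw [Nat.add_sub_cancel, pow_succ]
      field_simp
    have e3 : (1 : ℝ) / 2 ^ hb ≤ ((2 : ℝ) ^ (g' + 1))⁻¹ := by
      rw [← one_div]
      exact one_div_le_one_div_of_le (by positivity)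
        (pow_le_pow_right₀ (by norm_num) (by omega))
    rw [e2]
    linarith only [e3]
  exact by
   rcases Nat.lt_or_ge (min p l) (g + 3) with hcase | hcase
   · -- the precision `0`
     have hp3 : p ≤ 3 * g + 2 := by
       rcases Nat.le_total p l with h | h
       · rw [min_eq_left h] at hcase
         omega
       · rw [min_eq_right h] at hcase
         omega
     have e1 : ((2 : ℝ) ^ (0 + (p + g)))⁻¹ = 1 / 2 ^ (p + g) := by rw [Nat.zero_add, one_div]
     obtain ⟨B, hB, hPB, hrow⟩ := hrows J F A i₀ (v + l) 0 x N (p + g) g κ e (1 / 2 ^ (g - 1))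
       (1 / 2 ^ hb) e₀ n₀ (fun _ _ => 0) (fun _ _ => 0) (fun _ _ => 0) hJ hN he hA
       (fun B hB hPB hl => hTm B hB (by linarith only [hA, hPB, hPB, hA]) hl) hBs hBn hfr hrad
       (by rw [e1]; exact hRs) (by rw [e1]; exact hRn)
       (by
         intro ω hω j
         rw [zero_mul, sub_zero, sub_zero, pow_zero, inv_one]
         exact F.dir ω j)
       (fun _ _ => ⟨0, by simp⟩) (fun _ _ => by simp) (fun ω _ j => by simp)
       (by
         have := plcδ_mono (q := 3) (b := 4) (N := N) (N₂ := 0 / (x / N)) (N₂' := M)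
           (by rw [Nat.zero_div]; exact Nat.zero_le _)
         linarith only [hκ, hl2, this])
     refine ⟨B, hB, lt_of_lt_of_le (by linarith only [hA]) hPB, le_trans ?_ hrow⟩
     have k1 : Real.exp (-(κ / 4)) ≤ Real.exp (-((κ - Real.log 2) / 4)) :=
       Real.exp_le_exp.2 (by linarith only [hl2])
     have k2 : (J : ℝ) * Real.exp (-(κ / 4)) ≤ J * Real.exp (-((κ - Real.log 2) / 4)) :=
       mul_le_mul_of_nonneg_left k1 hJ0
     have k3 : ((0 / (x / N) : ℕ) : ℝ) = 0 := by rw [Nat.zero_div]; exact Nat.cast_zero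
     have k4 : ((p + g + g + 4 : ℕ) : ℝ) ≤ ((5 * g + 6 : ℕ) : ℝ) := by
       exact_mod_cast (by omega : p + g + g + 4 ≤ 5 * g + 6)
     have k5 : ((N : ℝ) + ((0 / (x / N) : ℕ) : ℝ) + 1) * (((p + g + g + 4 : ℕ) : ℝ) + e + 1) ≤
         (N + M + 1) * (((5 * g + 6 : ℕ) : ℝ) + e + 1) := by
       rw [k3]
       refine mul_le_mul (by linarith only) (by linarith only [k4]) ?_ (by linarith only)
       positivity
     have k6 := mul_le_mul_of_nonneg_left k5 hC₀
     linarith only [k2, k6]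
   · -- the main case
     obtain ⟨lam, hlam⟩ : ∃ lam, lam + (g + 2) = min p l := ⟨min p l - (g + 2), by omega⟩
     have hlp : lam + (g + 2) ≤ p := hlam ▸ min_le_left _ _
     have hll : lam + (g + 2) ≤ l := hlam ▸ min_le_right _ _
     have hpm : p ≤ lam + (g + 2) + 2 * g := by
       rw [hlam]
       rcases Nat.le_total p l with h | h
       · rw [min_eq_left h]
         omega
       · rw [min_eq_right h]
         exact hp
     obtain ⟨w, hw⟩ : ∃ w, w + lam = v + l := ⟨v + l - lam, by omega⟩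
     have hvw : v ≤ w := by omega
     have hwJ : w ≤ J := by omega
     obtain ⟨hh, hhh⟩ : ∃ hh, lam + hh = p + g := ⟨p + g - lam, by omega⟩
     obtain ⟨A₁, hsub, hPA, hsI⟩ := spread_part (i₀ := i₀) hg (by omega : g + 1 ≤ hb) hA
       (by linarith only [hκ, hl2, hδ0]) hBs hBn hfr
     have hA₁ : 0 < Pe F.p A₁ := lt_of_lt_of_le (mul_pos (Real.exp_pos _) hA) hPA
     have hPA' : Pe F.p A / 2 ≤ Pe F.p A₁ := by
       rw [hhalf] at hPA
       linarith only [hPA]
     have hexp : Real.exp (-κ) * Pe F.p A ≤ Pe F.p A₁ := by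
       refine le_trans ?_ hPA
       exact mul_le_mul_of_nonneg_right (Real.exp_le_exp.2 (by linarith only [hκ, hl2, hδ0])) hA.le
     -- the frames of the cells and of the exact points
     obtain ⟨φ, hφ⟩ : ∃ φ : ((Fin 2 → ℤ) × (ℕ × F.ζ)) → ((Fin 2 → ℤ) × (ℕ × F.ζ)),
         ∀ ω, φ (Fam.pt F ω) = cel F (v + l + x) ω := by
       refine ⟨fun u => if h : ∃ ω, Fam.pt F ω = u then cel F (v + l + x) h.choose else u,
         fun ω => ?_⟩
       have h : ∃ ω', Fam.pt F ω' = Fam.pt F ω := ⟨ω, rfl⟩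
       simp only
       rw [dif_pos h]
       exact pt_cel F hJ h.choose_spec
     have hpg : (0 : ℝ) < 1 / 2 ^ g := by positivity
     have hon' : OnL i₀ (1 / 2 ^ p) (Fam.pt F) F.d A₁ (fun u => e' (φ u)) (fun u => n' (φ u)) := by
       intro ω hω j
       have := hS ω (hsub ω hω) j
       simp only [hφ]
       exact this
     have hl1 : (1 : ℝ) / 2 ^ l ≤ 1 / 2 ^ g / 4 := by
       rw [div_div]
       refine one_div_le_one_div_of_le (by positivity) ?_
       calc (2 : ℝ) ^ g * 4 = 2 ^ (g + 2) := by rw [pow_add]; norm_num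
         _ ≤ _ := pow_le_pow_right₀ (by norm_num) (by omega)
     have hb1 : (1 : ℝ) / 2 ^ hb ≤ 1 / 2 ^ g / 8 := by
       rw [div_div]
       refine one_div_le_one_div_of_le (by positivity) ?_
       calc (2 : ℝ) ^ g * 8 = 2 ^ (g + 3) := by rw [pow_add]; norm_num
         _ ≤ _ := pow_le_pow_right₀ (by norm_num) hgb
     have hbd : ∀ ω, A₁ ω → ∀ j, |e₁ (Fam.pt F ω) j| ≤ 2 := fun ω hω j =>
       OnL.bound (hfr.sub hsub) (hon.sub hsub) hsI hpg (by linarith only [hpg, hl1, hb1]) ω hω j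
     have hun : ∀ ω, A₁ ω → ∀ j, |e' (cel F (v + l + x) ω) j - e₁ (Fam.pt F ω) j| ≤
         ((2 : ℝ) ^ lam)⁻¹ := by
       intro ω hω j
       have h1 := hon'.unique (hon.sub hsub) hsI hpg ω hω j
       simp only [hφ] at h1
       refine h1.trans ?_
       rw [div_le_iff₀ hpg]
       have q1 : (1 : ℝ) / 2 ^ p ≤ 1 / 2 ^ (lam + (g + 2)) :=
         one_div_le_one_div_of_le (by positivity) (pow_le_pow_right₀ (by norm_num) hlp)
       have q2 : (1 : ℝ) / 2 ^ l ≤ 1 / 2 ^ (lam + (g + 2)) :=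
         one_div_le_one_div_of_le (by positivity) (pow_le_pow_right₀ (by norm_num) hll)
       have q3 : ((2 : ℝ) ^ lam)⁻¹ * (1 / 2 ^ g) = 4 * (1 / 2 ^ (lam + (g + 2))) := by
         rw [pow_add, pow_add]
         field_simp
         norm_num
       rw [q3]
       linarith only [q1, q2]
     -- the frames of the windows
     obtain ⟨G, hG⟩ : ∃ G : ((Fin 2 → ℝ) × (Fin 2 → ℝ)) × (ℕ × F.ζ) → Fin 2 → ℝ,
         G = fun u j => (⌊(2 : ℝ) ^ lam * ζ (u.1, (u.2.2, u.2.1 / 2 ^ (w - v))) j⌋ : ℝ) /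
           2 ^ lam := ⟨_, rfl⟩
     have hGw : ∀ ω j, |ζ (slam F v ω) j - G (wnd F w ω) j| ≤ ((2 : ℝ) ^ lam)⁻¹ := by
       intro ω j
       have h1 : (F.T1 v ω) = F.T1 w ω / 2 ^ (w - v) := by
         have := T1_div F (w := v) (K := w - v) (by omega) ω
         rwa [show v + (w - v) = w by omega] at this
       have h2 : slam F v ω = ((wnd F w ω).1, ((wnd F w ω).2.2, (wnd F w ω).2.1 / 2 ^ (w - v))) := by
         unfold slam wnd
         rw [h1]
       rw [hG]
       simp only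
       rw [← h2]
       exact grid_near lam _
     obtain ⟨ζ', hζ'⟩ : ∃ ζ' : ((Fin 2 → ℝ) × (Fin 2 → ℝ)) × (ℕ × F.ζ) → Fin 2 → ℝ,
         ζ' = fun u j => if |G u j| ≤ 4 then G u j else 0 := ⟨_, rfl⟩
     have hlam1 : ((2 : ℝ) ^ lam)⁻¹ ≤ 1 := by
       rw [inv_le_one_iff₀]
       right
       exact one_le_pow₀ (by norm_num)
     have hl0 : (1 : ℝ) / 2 ^ l ≤ ((2 : ℝ) ^ lam)⁻¹ := by
       rw [← one_div]
       exact one_div_le_one_div_of_le (by positivity)
         (pow_le_pow_right₀ (by norm_num) (by omega))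
     have hclose : ∀ ω, A₁ ω → ∀ j, |e₁ (Fam.pt F ω) j - G (wnd F w ω) j| ≤
         2 * ((2 : ℝ) ^ lam)⁻¹ := by
       intro ω hω j
       have h1 := hcn ω (hsub ω hω) j
       have h2 := hGw ω j
       calc |e₁ (Fam.pt F ω) j - G (wnd F w ω) j| =
             |(e₁ (Fam.pt F ω) j - ζ (slam F v ω) j) + (ζ (slam F v ω) j - G (wnd F w ω) j)| := by
               congr 1
               ring
         _ ≤ _ := (abs_add_le _ _).trans (by linarith only [hl0, h1, h2])
     have hG4 : ∀ ω, A₁ ω → ∀ j, |G (wnd F w ω) j| ≤ 4 := by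
       intro ω hω j
       have h1 := hclose ω hω j
       have h2 := hbd ω hω j
       have h3 := abs_sub_abs_le_abs_sub (G (wnd F w ω) j) (e₁ (Fam.pt F ω) j)
       rw [abs_sub_comm] at h3
       linarith only [hlam1, h1, h2, h3]
     have e1 : ((2 : ℝ) ^ (lam + hh))⁻¹ = 1 / 2 ^ (p + g) := by rw [hhh, one_div]
     have e2 : w + lam + x = v + l + x := by omega
     have hs1 := hBs.sub (Ball.hered _ _ _) hsub hPA
     have hs2 := hRs.sub (LineU.hered _ _ _ _) hsub hPA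
     have key := hrows J F A₁ i₀ w lam x N hh g (κ - Real.log 2) e (1 / 2 ^ (g - 1))
       (1 / 2 ^ hb) e₀ n₀ e' n' ζ'
     rw [e2, hw, e1] at key
     obtain ⟨B, hB, hPB, hrow⟩ := key hJ hN he hA₁
       (fun B hB hPB hl => hTm B (fun ω hω => hsub ω (hB ω hω)) (by linarith only [hPA', hPB]) hl) hs1
       (fun h => hBn (hBs.of_sub hsub hexp h)) (hfr.sub hsub) hrad hs2
       (fun h => hRn (hRs.of_sub hsub hexp h))
       (by
         intro ω hω j
         refine (hS ω (hsub ω hω) j).trans ?_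
         rw [← one_div]
         exact one_div_le_one_div_of_le (by positivity)
           (pow_le_pow_right₀ (by norm_num) (by omega)))
       (by
         intro u j
         rw [hζ', hG]
         simp only
         split_ifs
         · exact ⟨_, rfl⟩
         · exact ⟨0, by simp⟩)
       (by
         intro u j
         rw [hζ']
         simp only
         split_ifs with h
         · exact h
         · simp)
       (by
         intro ω hω j
         have h1 : ζ' (wnd F w ω) j = G (wnd F w ω) j := by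
           rw [hζ']
           simp only
           rw [if_pos (hG4 ω hω j)]
         have h2 := hun ω hω j
         have h3 := hclose ω hω j
         rw [h1]
         push_cast
         calc |e' (cel F (v + l + x) ω) j - G (wnd F w ω) j| =
             |(e' (cel F (v + l + x) ω) j - e₁ (Fam.pt F ω) j) +
               (e₁ (Fam.pt F ω) j - G (wnd F w ω) j)| := by
               congr 1
               ring
           _ ≤ _ := (abs_add_le _ _).trans (by linarith only [h2, h3]))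
       (by
         have := plcδ_mono (q := 3) (b := 4) (N := N) (N₂ := lam / (x / N)) (N₂' := M)
           ((Nat.div_le_div_right (by omega : lam ≤ l)).trans hM)
         linarith only [hκ, this])
     refine ⟨B, fun ω hω => hsub ω (hB ω hω), lt_of_lt_of_le (by linarith only [hA₁]) hPB,
       le_trans ?_ hrow⟩
     have k3 : ((lam / (x / N) : ℕ) : ℝ) ≤ M := by
       exact_mod_cast (Nat.div_le_div_right (by omega : lam ≤ l)).trans hM
     have k4 : ((hh + g + 4 : ℕ) : ℝ) ≤ ((5 * g + 6 : ℕ) : ℝ) := by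
       exact_mod_cast (by omega : hh + g + 4 ≤ 5 * g + 6)
     have k5 : ((N : ℝ) + ((lam / (x / N) : ℕ) : ℝ) + 1) * (((hh + g + 4 : ℕ) : ℝ) + e + 1) ≤
         (N + M + 1) * (((5 * g + 6 : ℕ) : ℝ) + e + 1) := by
       refine mul_le_mul (by linarith only [k3]) (by linarith only [k4]) ?_ (by linarith only)
       positivity
     have k6 := mul_le_mul_of_nonneg_left k5 hC₀
     linarith only [k6]

end Cell

end Pool.K2S
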