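import Mathlib.Analysis.SpecialFunctions.Log.Basic
import Mathlib.Analysis.SpecialFunctions.Pow.Real
import Mathlib.Tactic

/-!
# Numbers for the no jump lemma
-/

set_option autoImplicit false

namespace Pool.K2S

open Real

/-- The numbers. -/
theorem mnj_num (N : ℕ) (hN : 1 ≤ N) (C₀ C₁ : ℝ) (hC₀ : 0 ≤ C₀) (hC₁ : 0 ≤ C₁) (n₂ : ℕ)
    (hn₂ : 128 * N * (48 * N) ≤ n₂) :
    ∃ J₀ : ℕ, ∀ J ≥ J₀, ∀ l : ℕ, l + 1 ≤ N → ∀ ρ e : ℝ, 0 ≤ ρ → ρ ≤ 1 / (256 * N) → 0 ≤ e →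
      e ≤ Real.log 2 / (192 * N * (48 * N)) * J →
      2 * (J / n₂) + 7 ≤ J / (48 * N) ∧ J / n₂ + 4 ≤ J / N ∧ (J : ℝ) ≤ 2 * N * (J / N : ℕ) ∧
      (l + 1) * (J / N) / (J / (48 * N)) ≤ 2 * (48 * N) ∧
      0 ≤ (((l + 1) * (J / N) / (J / (48 * N)) : ℕ) : ℝ) *
        (((J / (48 * N) - (2 * (J / n₂) + 7) : ℕ) : ℝ) * Real.log 2 -
          4 * (((J / (48 * N) - (2 * (J / n₂) + 7) : ℕ) : ℝ) * Real.log 2) * ρ - 3 * e - C₀) -
        2 * ((J / (48 * N) : ℕ) * Real.log 2 + C₀) - C₁ ∧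
      ((l + 2 : ℝ) * (J / N : ℕ) + (J / n₂ : ℕ) + 2) * Real.log 2 - (1 - 1 / (16 * N)) *
      ((((l + 1) * (J / N) / (J / (48 * N)) : ℕ) : ℝ) *
        (((J / (48 * N) - (2 * (J / n₂) + 7) : ℕ) : ℝ) * Real.log 2 -
          4 * (((J / (48 * N) - (2 * (J / n₂) + 7) : ℕ) : ℝ) * Real.log 2) * ρ - 3 * e - C₀) -
        2 * ((J / (48 * N) : ℕ) * Real.log 2 + C₀) - C₁) ≤
        2 * ((J / N : ℕ) * Real.log 2) := by
  have hl2 : 0 < Real.log 2 := Real.log_pos (by norm_num)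
  have hNr : (1 : ℝ) ≤ N := by exact_mod_cast hN
  obtain ⟨Cc, hCc⟩ : ∃ Cc, Cc = 96 * N * C₀ + 2 * C₀ + 672 * N * Real.log 2 + C₁ +
    2 * Real.log 2 := ⟨_, rfl⟩
  have hCc0 : 0 ≤ Cc := by rw [hCc]; positivity
  obtain ⟨J₀, hJ₀⟩ := exists_nat_gt (2 * N * (2 * Cc / Real.log 2) + 12 * (48 * N) * 100)
  refine ⟨J₀, fun J hJ l hl ρ e hρ hρ1 he he1 => ?_⟩
  have hJr : (J₀ : ℝ) ≤ J := by exact_mod_cast hJ
  have b1 : (0 : ℝ) ≤ 2 * N * (2 * Cc / Real.log 2) := by positivity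
  have hJN : 12 * (48 * N) * 100 ≤ J := by
    have : (12 * (48 * (N : ℝ)) * 100) ≤ J := by linarith only [hJ₀, hJr, b1]
    exact_mod_cast this
  obtain ⟨u, hu⟩ : ∃ u, u = J / N := ⟨_, rfl⟩
  obtain ⟨K, hK⟩ : ∃ K, K = J / (48 * N) := ⟨_, rfl⟩
  obtain ⟨g, hg⟩ : ∃ g, g = J / n₂ := ⟨_, rfl⟩
  obtain ⟨N₂, hN₂⟩ : ∃ N₂, N₂ = (l + 1) * u / K := ⟨_, rfl⟩
  rw [← hu, ← hK, ← hg, ← hN₂]
  have hN0 : 0 < N := hN
  have h48 : 0 < 48 * N := by omega
  have hn0 : 0 < n₂ := lt_of_lt_of_le (by positivity) hn₂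
  have u1 : N * u ≤ J := by rw [hu]; exact Nat.mul_div_le J N
  have u2 : J < N * (u + 1) := by rw [hu]; exact Nat.lt_mul_div_succ J hN0
  have K1 : 48 * N * K ≤ J := by rw [hK]; exact Nat.mul_div_le J _
  have K2 : J < 48 * N * (K + 1) := by rw [hK]; exact Nat.lt_mul_div_succ J h48
  have g1 : n₂ * g ≤ J := by rw [hg]; exact Nat.mul_div_le J _
  have g2 : 128 * N * (48 * N) * g ≤ J := le_trans (Nat.mul_le_mul_right g hn₂) g1
  have hKbig : 1000 ≤ K := by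
    by_contra hcon
    push Not at hcon
    have h1 : 48 * N * (K + 1) ≤ 48 * N * 1000 := Nat.mul_le_mul_left _ (by omega)
    omega
  have hKpos : 0 < K := by omega
  have u2' : J ≤ 2 * N * u := by
    have hu1 : 1 ≤ u := by
      rw [hu, Nat.le_div_iff_mul_le hN0]
      omega
    have h1 : N * (u + 1) ≤ 2 * N * u := by
      have : N ≤ N * u := Nat.le_mul_of_pos_right N (by omega)
      have e1 : 2 * N * u = N * u + N * u := by ring
      rw [Nat.mul_add, mul_one]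
      omega
    omega
  have gK : 2 * g + 7 ≤ K := by
    by_contra hcon
    push Not at hcon
    -- 48 N * K ≤ ..., g ≥ (K - 7) / 2
    have h1 : K ≤ 2 * g + 6 := by omega
    have h2 : K ≤ 4 * g := by omega
    have h3 : 128 * g ≤ K + 1 := by
      by_contra hc2
      push Not at hc2
      have h4 : 48 * N * (K + 1) ≤ 48 * N * (128 * g) := Nat.mul_le_mul_left _ hc2.le
      have h5 : 48 * N * (128 * g) ≤ 128 * N * (48 * N) * g := by
        calc 48 * N * (128 * g) = 1 * (48 * N * 128 * g) := by ring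
          _ ≤ N * (48 * N * 128 * g) := Nat.mul_le_mul_right _ hN
          _ = _ := by ring
      omega
    omega
  have gu : g + 4 ≤ u := by
    have h1 : K ≤ u := by
      rw [hK, hu]
      exact Nat.div_le_div_left (by omega) hN0
    omega
  -- real versions
  have u1r : (N : ℝ) * u ≤ J := by exact_mod_cast u1
  have u2r : (J : ℝ) ≤ 2 * N * u := by exact_mod_cast u2'
  have K1r : 48 * (N : ℝ) * K ≤ J := by exact_mod_cast K1
  have K2r : (J : ℝ) < 48 * N * ((K : ℝ) + 1) := by exact_mod_cast K2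
  have g2r : 128 * (N : ℝ) * (48 * N) * g ≤ J := by exact_mod_cast g2
  have hKr : (1000 : ℝ) ≤ K := by exact_mod_cast hKbig
  have hNp : (0 : ℝ) < N := by linarith only [hNr]
  have hur : (0 : ℝ) ≤ u := Nat.cast_nonneg u
  have hg0 : (0 : ℝ) ≤ g := Nat.cast_nonneg g
  have Ku : (K : ℝ) ≤ u / 24 := by
    have h1 : 48 * (N : ℝ) * K ≤ 2 * N * u := K1r.trans u2r
    rw [le_div_iff₀ (by norm_num)]
    have h2 : (2 * (N : ℝ)) * (K * 24) ≤ (2 * N) * u := by linarith only [u2r, K1r]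
    exact le_of_mul_le_mul_left h2 (by positivity)
  have gu2 : (g : ℝ) ≤ u / 3072 := by
    have h1 : 128 * (N : ℝ) * (48 * N) * g ≤ 2 * N * u := g2r.trans u2r
    have h2 : (2 * (N : ℝ)) * (N * (3072 * g)) ≤ 2 * N * u := by linarith only [u2r, g2r]
    have h3 : (N : ℝ) * (3072 * g) ≤ u := le_of_mul_le_mul_left h2 (by positivity)
    have h4 : 1 * (3072 * (g : ℝ)) ≤ N * (3072 * g) :=
      mul_le_mul_of_nonneg_right hNr (by positivity)
    rw [le_div_iff₀ (by norm_num)]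
    linarith only [h3, h4]
  have hl1 : ((l : ℝ) + 1) ≤ N := by exact_mod_cast hl
  have hNN : N₂ * K ≤ (l + 1) * u := by rw [hN₂]; exact Nat.div_mul_le_self _ _
  have hNN2 : (l + 1) * u < N₂ * K + K := by
    have := Nat.lt_div_mul_add (a := (l + 1) * u) hKpos
    rw [hN₂]
    exact this
  have hNNr : (N₂ : ℝ) * K ≤ (l + 1) * u := by exact_mod_cast hNN
  have hNN2r : ((l : ℝ) + 1) * u ≤ N₂ * K + K := by exact_mod_cast hNN2.le
  have hN20 : (0 : ℝ) ≤ N₂ := Nat.cast_nonneg _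
  have hN2b : N₂ ≤ 2 * (48 * N) := by
    by_contra hcon
    push Not at hcon
    have h1 : (2 * (48 * N) + 1) * K ≤ N₂ * K := Nat.mul_le_mul_right K hcon
    have h2 : (l + 1) * u ≤ N * u := Nat.mul_le_mul_right u hl
    have h3 : 48 * N * (K + 1) ≤ 2 * (48 * N) * K := by
      have : 48 * N ≤ 48 * N * K := Nat.le_mul_of_pos_right _ hKpos
      have e1 : 2 * (48 * N) * K = 48 * N * K + 48 * N * K := by ring
      rw [Nat.mul_add, mul_one]
      omega
    have e2 : (2 * (48 * N) + 1) * K = 2 * (48 * N) * K + K := by ring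
    omega
  have hN2r : (N₂ : ℝ) ≤ 96 * N := by
    have : (N₂ : ℝ) ≤ 2 * (48 * N) := by exact_mod_cast hN2b
    linarith only [this]
  have hluN : ((l : ℝ) + 1) * u ≤ N * u := mul_le_mul_of_nonneg_right hl1 hur
  refine ⟨gK, gu, u2r, hN2b, ?_⟩
  -- the error terms
  have hKsub : ((K - (2 * g + 7) : ℕ) : ℝ) = K - (2 * g + 7) := by
    rw [Nat.cast_sub gK]
    push_cast
    ring
  rw [hKsub]
  obtain ⟨Y, hY⟩ : ∃ Y, Y = (N₂ : ℝ) * (((K : ℝ) - (2 * g + 7)) * Real.log 2 -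
    4 * (((K : ℝ) - (2 * g + 7)) * Real.log 2) * ρ - 3 * e - C₀) -
    2 * (K * Real.log 2 + C₀) - C₁ := ⟨_, rfl⟩
  rw [← hY]
  have t1 : (N₂ : ℝ) * (2 * g + 7) ≤ u / 16 + 672 * N := by
    have h1 : (N₂ : ℝ) * (2 * g + 7) ≤ 96 * N * (2 * g + 7) :=
      mul_le_mul_of_nonneg_right hN2r (by positivity)
    have h2 : 128 * (N : ℝ) * (48 * N) * g ≤ 2 * N * u := g2r.trans u2r
    have h3 : (2 * (N : ℝ)) * (3072 * N * g) ≤ 2 * N * u := by linarith only [u2r, g2r]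
    have h4 : 3072 * (N : ℝ) * g ≤ u := le_of_mul_le_mul_left h3 (by positivity)
    have h5 : 96 * (N : ℝ) * (2 * g + 7) = 3072 * N * g / 16 + 672 * N := by ring
    rw [h5] at h1
    linarith only [h1, h4]
  have t2 : (N₂ : ℝ) * ((K : ℝ) - (2 * g + 7)) * ρ ≤ u / 256 := by
    have h1 : (N₂ : ℝ) * ((K : ℝ) - (2 * g + 7)) ≤ N * u := by
      have : (N₂ : ℝ) * ((K : ℝ) - (2 * g + 7)) = N₂ * K - N₂ * (2 * g + 7) := by ring
      rw [this]
      have : 0 ≤ (N₂ : ℝ) * (2 * g + 7) := by positivity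
      linarith only [hNNr, hluN, this]
    have h2 : (N₂ : ℝ) * ((K : ℝ) - (2 * g + 7)) * ρ ≤ N * u * ρ :=
      mul_le_mul_of_nonneg_right h1 hρ
    have h3 : (N : ℝ) * u * ρ ≤ N * u * (1 / (256 * N)) :=
      mul_le_mul_of_nonneg_left hρ1 (by positivity)
    have h4 : (N : ℝ) * u * (1 / (256 * N)) = u / 256 := by
      have : (N : ℝ) ≠ 0 := hNp.ne'
      field_simp
    linarith only [h2, h3, h4]
  have t3 : 3 * ((N₂ : ℝ) * e) ≤ u / 16 * Real.log 2 := by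
    have h1 : (N₂ : ℝ) * e ≤ 96 * N * e := mul_le_mul_of_nonneg_right hN2r he
    have h2 : 96 * (N : ℝ) * e ≤ 96 * N * (Real.log 2 / (192 * N * (48 * N)) * J) :=
      mul_le_mul_of_nonneg_left he1 (by positivity)
    have h3 : 96 * (N : ℝ) * (Real.log 2 / (192 * N * (48 * N)) * J) =
        Real.log 2 / (96 * N) * J := by
      field_simp
      norm_num
    have h4 : Real.log 2 / (96 * N) * (J : ℝ) ≤ Real.log 2 / (96 * N) * (2 * N * u) :=
      mul_le_mul_of_nonneg_left u2r (by positivity)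
    have h5 : Real.log 2 / (96 * N) * (2 * N * u) = u / 48 * Real.log 2 := by
      field_simp
      ring
    rw [h3] at h2
    rw [h5] at h4
    linarith only [h1, h2, h4]
  have t4 : (N₂ : ℝ) * C₀ ≤ 96 * N * C₀ := mul_le_mul_of_nonneg_right hN2r hC₀
  have t5 : Cc ≤ u / 2 * Real.log 2 := by
    have h1 : 2 * N * (2 * Cc / Real.log 2) < 2 * N * u := by
      have : (0 : ℝ) ≤ 12 * (48 * N) * 100 := by positivity
      linarith only [hNr, hJ₀, hJr, u2r]
    have h2 : 2 * Cc / Real.log 2 < u := lt_of_mul_lt_mul_left h1 (by positivity)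
    rw [div_lt_iff₀ hl2] at h2
    linarith only [h2]
  have hYe : Y = (N₂ * K - N₂ * (2 * g + 7)) * Real.log 2 -
      4 * ((N₂ : ℝ) * ((K : ℝ) - (2 * g + 7)) * ρ * Real.log 2) - 3 * (N₂ * e) - N₂ * C₀ -
      2 * (K * Real.log 2) - 2 * C₀ - C₁ := by
    rw [hY]
    ring
  have t1' := mul_le_mul_of_nonneg_right t1 hl2.le
  have t2' := mul_le_mul_of_nonneg_right t2 hl2.le
  have t6 := mul_le_mul_of_nonneg_right Ku hl2.le
  have t7 := mul_le_mul_of_nonneg_right hNN2r hl2.le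
  have t8 := mul_le_mul_of_nonneg_right gu2 hl2.le
  have huL : 0 ≤ (u : ℝ) * Real.log 2 := by positivity
  have hmain : ((l : ℝ) + 1) * u * Real.log 2 - 15 / 16 * (u * Real.log 2) +
      (g + 2) * Real.log 2 ≤ Y := by
    rw [hYe]
    rw [hCc] at t5
    nlinarith only [hCc, hCc0, t3, t4, t5, t1', t2', t6, t7, t8]
  have hlu0 : 0 ≤ (l : ℝ) * (u * Real.log 2) := by positivity
  have hg2L : (0 : ℝ) ≤ (g + 2) * Real.log 2 := by positivity
  have hY0 : 0 ≤ Y := by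
    nlinarith only [hl2, hCc, hCc0, hY, t3, t4, t5, t1', t2', t6, t7, hlu0]
  refine ⟨hY0, ?_⟩
  have hε : 0 ≤ 1 - 1 / (16 * (N : ℝ)) := by
    rw [sub_nonneg, div_le_one (by positivity)]
    linarith only [hNr]
  have h1 := mul_le_mul_of_nonneg_left hmain hε
  have hg3 : (g + 2) * Real.log 2 ≤ 15 / 16 * (u * Real.log 2) := by
    rw [hCc] at t5
    have : 0 ≤ 96 * N * C₀ + 2 * C₀ + 672 * N * Real.log 2 + C₁ := by positivity
    nlinarith only [hl2, t5, t8, this]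
  have h2 : 1 / (16 * (N : ℝ)) * (((l : ℝ) + 1) * u * Real.log 2 -
      15 / 16 * (u * Real.log 2) + (g + 2) * Real.log 2) ≤ 1 / 16 * (u * Real.log 2) := by
    have h3 : 1 / (16 * (N : ℝ)) * (((l : ℝ) + 1) * u * Real.log 2 -
        15 / 16 * (u * Real.log 2) + (g + 2) * Real.log 2) ≤
        1 / (16 * (N : ℝ)) * (N * u * Real.log 2) := by
      refine mul_le_mul_of_nonneg_left ?_ (by positivity)
      have := mul_le_mul_of_nonneg_right hluN hl2.le
      linarith only [hg3, this]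
    have h4 : 1 / (16 * (N : ℝ)) * (N * u * Real.log 2) = 1 / 16 * (u * Real.log 2) := by
      have : (N : ℝ) ≠ 0 := hNp.ne'
      field_simp
    linarith only [h3, h4]
  have h5 : (1 - 1 / (16 * (N : ℝ))) * (((l : ℝ) + 1) * u * Real.log 2 -
      15 / 16 * (u * Real.log 2) + (g + 2) * Real.log 2) =
      (((l : ℝ) + 1) * u * Real.log 2 - 15 / 16 * (u * Real.log 2) + (g + 2) * Real.log 2) -
      1 / (16 * (N : ℝ)) * (((l : ℝ) + 1) * u * Real.log 2 -
      15 / 16 * (u * Real.log 2) + (g + 2) * Real.log 2) := by ring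
  rw [h5] at h1
  have h6 : ((l : ℝ) + 2) * u * Real.log 2 = (l + 1) * u * Real.log 2 + u * Real.log 2 := by ring
  have h7 : (((l : ℝ) + 2) * u + g + 2) * Real.log 2 =
      (l + 2) * u * Real.log 2 + (g + 2) * Real.log 2 := by ring
  rw [h7, h6]
  linarith only [h1, h2]

end Pool.K2S
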