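import Pool.Agent.H5.K2.WinF
import Pool.Agent.H5.K2.MnjNum

/-!
# The cells are nearly full in their boxes
-/

set_option autoImplicit false

namespace Pool.K2S

open Finset Real
open Pool.Agent.H49.Ent Pool.Agent.H32.Dense Pool.STK Pool.KA Pool.KA.Win Pool.KA.TRC Rows FF
open Pool.KSAT

namespace Cell

/-- **The positions are nearly full in the boxes of the cells.** -/
theorem full_cell : ∃ C₀ : ℝ, 0 ≤ C₀ ∧
    ∀ (J : ℕ) (F : Fam 2 J) (A : F.Ω → Prop) (i₀ : Fin 2) (w lam r K N₂ x1 : ℕ)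
    (κ ε e rb r₀ : ℝ) (e₀ n₀ : (Fin 2 → ℤ) × (ℕ × F.ζ) → Fin 2 → ℝ)
    (e' n' : (Fin 2 → ℤ) × (ℕ × F.ζ) → Fin 2 → ℝ)
    (ζ : ((Fin 2 → ℝ) × (Fin 2 → ℝ)) × (ℕ × F.ζ) → Fin 2 → ℝ),
    r ≤ J → w + N₂ * K ≤ r → w + lam ≤ r → 2 * x1 + 7 ≤ K → 0 < Pe F.p A → 0 < ε →
    Real.exp (-(κ / 2)) ≤ ε → 0 ≤ κ →
    (∀ B : F.Ω → Prop, Sub B A → ε * Pe F.p A / 2 ≤ Pe F.p B →
      ∀ hl : IsLaw (cond F.p B True), (F.res B True hl).Tm e) →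
    Stb F.p κ A (Ball rb (Fam.pt F) F.d) → ¬ Ball rb (Fam.pt F) F.d A →
    IsFrame i₀ r₀ (Fam.pt F) F.d A e₀ n₀ → ((2 : ℝ) ^ x1)⁻¹ ≤ rb - r₀ →
    (∀ u, n' u i₀ = 0) → OnL i₀ (1 / 2 ^ lam) (cel F r) F.d A e' n' →
    (∀ v j, ∃ k : ℤ, ζ v j = k / 2 ^ lam) → (∀ v j, |ζ v j| ≤ 4) →
    (∀ ω, A ω → ∀ j, |e' (cel F r ω) j - ζ (wnd F w ω) j| ≤
      ((3 : ℕ) : ℝ) * ((2 : ℝ) ^ lam)⁻¹) →
    4 * plcδ 3 4 0 N₂ + 6 * Real.log 2 ≤ κ / 2 →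
    0 ≤ N₂ * (((K - (2 * x1 + 7) : ℕ) : ℝ) * Real.log 2 -
        4 * (((K - (2 * x1 + 7) : ℕ) : ℝ) * Real.log 2) * Real.exp (-(κ / 8)) - 3 * e - C₀) -
        2 * (K * Real.log 2 + C₀) - bxc 3 4 →
    (1 - ε) * (N₂ * (((K - (2 * x1 + 7) : ℕ) : ℝ) * Real.log 2 -
        4 * (((K - (2 * x1 + 7) : ℕ) : ℝ) * Real.log 2) * Real.exp (-(κ / 8)) - 3 * e - C₀) -
        2 * (K * Real.log 2 + C₀) - bxc 3 4) ≤
      CH (cond F.p A True) (F.X r) (fun ω => (bxf i₀ w lam r e' n' (cel F r ω), F.W ω)) := by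
  classical
  obtain ⟨C₀, hC₀, hy⟩ := y_rows (b := 4) (by norm_num) 3
  refine ⟨C₀, hC₀, ?_⟩
  intro J F A i₀ w lam r K N₂ x1 κ ε e rb r₀ e₀ n₀ e' n' ζ hr hJ hwl hK hA hε hεκ hκ0 hTm hBs
    hBn h₀ hx1 hn' hon hgrid hζb hclose hκ hY0
  have hp := F.isLaw
  refine exhaust hp hA _ _ hε hY0 ?_
  intro A' hA' hPA'
  have hexp : Real.exp (-(κ / 2)) * Pe F.p A ≤ Pe F.p A' :=
    le_trans (mul_le_mul_of_nonneg_right hεκ hA.le) hPA'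
  have hexp2 : Real.exp (-κ) * Pe F.p A ≤ Pe F.p A' := by
    refine le_trans (mul_le_mul_of_nonneg_right ?_ hA.le) hexp
    exact Real.exp_le_exp.2 (by linarith)
  have hA'0 : 0 < Pe F.p A' := lt_of_lt_of_le (mul_pos (Real.exp_pos _) hA) hexp
  have r1 := hBs.sub (Ball.hered _ _ _) hA' hexp
  have eκ : κ - κ / 2 = κ / 2 := by ring
  rw [eκ] at r1
  have hinv : (1 : ℝ) / 2 ^ lam = ((2 : ℝ) ^ lam)⁻¹ := one_div _
  obtain ⟨B, hB, hPB, hBrow⟩ := hy J F A' i₀ w lam r K N₂ x1 (κ / 2) e rb r₀ e₀ n₀ e' n' ζ hr hJ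
    hwl hK hA'0
    (fun B hB hPB hl => hTm B (fun ω h => hA' ω (hB ω h)) (by linarith) hl) r1
    (fun h => hBn (hBs.of_sub hA' hexp2 h)) (h₀.sub hA') hx1
    (by rw [← hinv]; exact hon.sub hA') hgrid hζb (fun ω hω => hclose ω (hA' ω hω)) hκ
  have hB0 : 0 < Pe F.p B := by linarith
  refine ⟨B, hB, hB0, ?_⟩
  have hlB := isLaw_cond hp hB0
  have hBA : ∀ ω, 0 < cond F.p B True ω → A ω := by
    intro ω hω
    have := ((cond_pos_iff hp.nonneg B True ω).1 hω).2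
    exact hA' ω (hB ω (by simpa using this))
  have a1 := bxf_plab (F.res B True hlB) i₀ hwl hr (z := fun ω => ζ (wnd F w ω)) (b := 4)
    (by norm_num) (fun ω _ i => hζb _ i) (e := e') (n := n') hn'
    (fun ω hω => hon ω (hBA ω hω)) (q := 3)
    (fun ω hω => by rw [hinv]; exact hclose ω (hBA ω hω))
  have a1' : CH (cond F.p B True) (fun ω => bxf i₀ w lam r e' n' (cel F r ω))
      (fun ω => (F.T ω, F.plab w lam i₀ (fun ω => ζ (wnd F w ω)) ω)) ≤ bxc 3 4 := a1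
  have a2 := CH_le_add hlB.nonneg (fun ω => ⌊(2 : ℝ) ^ r * F.x ω i₀⌋)
    (fun ω => bxf i₀ w lam r e' n' (cel F r ω))
    (fun ω => (F.T ω, F.plab w lam i₀ (fun ω => ζ (wnd F w ω)) ω))
  have a3 : CH (cond F.p B True) (fun ω => ⌊(2 : ℝ) ^ r * F.x ω i₀⌋)
      (fun ω => (bxf i₀ w lam r e' n' (cel F r ω),
        (F.T ω, F.plab w lam i₀ (fun ω => ζ (wnd F w ω)) ω))) ≤
      CH (cond F.p B True) (F.X r) (fun ω => (bxf i₀ w lam r e' n' (cel F r ω), F.W ω)) := by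
    refine (CH_mono_cond hlB.nonneg (W := fun ω => (bxf i₀ w lam r e' n' (cel F r ω), F.W ω))
      fun ω ω' _ _ h => ?_).trans
      (CH_mono_left hlB.nonneg (X' := F.X r) fun ω ω' _ _ h => ?_)
    · have e1 := Prod.ext_iff.mp h
      have e2 := Prod.ext_iff.mp e1.2
      have e3 := Prod.ext_iff.mp e2.2
      exact Prod.ext e1.1 (Prod.ext e2.1 e3.2)
    · exact congrFun (Prod.ext_iff.mp h).1 i₀
  have e4 : κ / 2 / 4 = κ / 8 := by ring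
  rw [e4] at hBrow
  linarith

end Cell

end Pool.K2S
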