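import Pool.Agent.H5.K2.UTL2C

/-!
# All rows of one window at once

A member `s` of a cluster fails if, for some scale `ρ s > 0`, a proportion at least `1 / P` of the
members `t` has `ρ s ≤ |cdc τ Th t s| ≤ 2 ^ L₀ ρ s`, and the rows of `n_s` before this scale are not
full. The failing members are contained in fewer than `2 P` intervals of length `2 ^ (1 - v)`,
whatever the scales `ρ s` are.
-/

set_option autoImplicit false

namespace Pool.KX

open Finset Real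
open Pool.Agent.H49.Ent Pool.Agent.H32.Dense Pool.STK Pool.KAL

/-- A linear function which is small at two separated points, no order of the base points. -/
lemma lin_small2 (s s' a a' ε g x y : ℝ) (hg : 0 < g) (hε : 0 ≤ ε)
    (hxy : x + g ≤ y) (hx0 : |s - x| ≤ 1)
    (h1 : |(s - x) * a' - (s' - x) * a| ≤ ε) (h2 : |(s - y) * a' - (s' - y) * a| ≤ ε) :
    |a| * |s' - s| ≤ ε * (1 + 2 / g) := by
  have hd : |a - a'| * g ≤ 2 * ε := by
    have e : ((s - y) * a' - (s' - y) * a) - ((s - x) * a' - (s' - x) * a) =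
        (a - a') * (y - x) := by ring
    have h3 : |(a - a') * (y - x)| ≤ 2 * ε := by
      rw [← e]
      refine (abs_sub _ _).trans ?_
      linarith
    rw [abs_mul, abs_of_pos (by linarith : 0 < y - x)] at h3
    refine le_trans ?_ h3
    exact mul_le_mul_of_nonneg_left (by linarith) (abs_nonneg _)
  have hd' : |a - a'| ≤ 2 * ε / g := by rwa [le_div_iff₀ hg]
  have e : a * (s' - s) = -((s - x) * a' - (s' - x) * a) + (a' - a) * (s - x) := by ring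
  rw [← abs_mul, e]
  refine (abs_add_le _ _).trans ?_
  rw [abs_neg, abs_mul, abs_sub_comm a' a]
  have h6 := mul_le_mul hd' hx0 (abs_nonneg _) (by positivity)
  have e2 : ε * (1 + 2 / g) = ε + 2 * ε / g * 1 := by ring
  rw [e2]
  linarith

section

variable {ι : Type} [Fintype ι]

/-- Two separated base times with few displacements of different sizes have few common partners. -/
theorem sjp_pair (τ Th : ι → ℝ) (K K₂ L₀ v r m : ℕ) (hτ : ∀ i, 0 ≤ τ i ∧ τ i ≤ 1)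
    (hsep : ∀ a : ℝ, (univ.filter fun i => a ≤ τ i ∧ τ i < a + 1 / 2 ^ r).card ≤ m)
    (hK : 3 * r + v + 6 ≤ K₂) (s s' : ι) (ρ ρ' : ℝ) (hρ' : 0 < ρ') (hρρ : ρ' ≤ ρ)
    (hss : 1 / 2 ^ v ≤ |τ s' - τ s|) (G : Finset ι)
    (hG1 : ∀ t ∈ G, ρ ≤ |cdc τ Th t s|) (hG2 : ∀ t ∈ G, |cdc τ Th t s| ≤ 2 ^ L₀ * ρ)
    (hG3 : ∀ t ∈ G, |cdc τ Th t s'| ≤ 2 ^ L₀ * ρ')
    (h : ∀ t₁ ∈ G, ∀ t₂ ∈ G, ¬ (1 / 2 ^ K₂ ≤ |cdc τ Th t₁ s / ρ - cdc τ Th t₂ s / ρ| ∧
        |cdc τ Th t₁ s / ρ - cdc τ Th t₂ s / ρ| ≤ 1 / 2 ^ K))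
    (h' : ∀ t₁ ∈ G, ∀ t₂ ∈ G, ¬ (1 / 2 ^ K₂ ≤ |cdc τ Th t₁ s' / ρ' - cdc τ Th t₂ s' / ρ'| ∧
        |cdc τ Th t₁ s' / ρ' - cdc τ Th t₂ s' / ρ'| ≤ 1 / 2 ^ K)) :
    G.card ≤ 2 ^ (2 * (K + L₀) + 7) * m := by
  classical
  have hρ : 0 < ρ := lt_of_lt_of_le hρ' hρρ
  set n : ℕ := 2 ^ (K + L₀ + 2) + 1 with hn
  have hdiff : ∀ i j : ι, |τ i - τ j| ≤ 1 := by
    intro i j
    rw [abs_le]
    constructor <;> linarith [(hτ i).1, (hτ i).2, (hτ j).1, (hτ j).2]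
  set δ₂ : ℝ := 1 / 2 ^ K₂ with hδ₂
  have hδ₂0 : 0 < δ₂ := by positivity
  have hP0 : (0 : ℝ) < 2 ^ L₀ := by positivity
  have hnδ : (4 : ℝ) < n * (1 / 2 ^ (K + L₀)) := by
    rw [mul_one_div, lt_div_iff₀ (by positivity)]
    rw [hn]
    push_cast
    have : (2 : ℝ) ^ (K + L₀ + 2) = 2 ^ (K + L₀) * 4 := by rw [pow_add _ (K + L₀)]; norm_num
    rw [this]
    linarith
  -- classes
  have hcl : ∀ (s : ι) (ρ : ℝ), 0 < ρ → (∀ t ∈ G, |cdc τ Th t s| ≤ 2 ^ L₀ * ρ) →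
      (∀ t₁ ∈ G, ∀ t₂ ∈ G, ¬ (1 / 2 ^ K₂ ≤ |cdc τ Th t₁ s / ρ - cdc τ Th t₂ s / ρ| ∧
        |cdc τ Th t₁ s / ρ - cdc τ Th t₂ s / ρ| ≤ 1 / 2 ^ K)) →
      ∃ j : ι → ℕ, (∀ t ∈ G, j t ≤ n) ∧ ∀ t ∈ G, ∀ x ∈ G, j t = j x →
        |cdc τ Th t s - cdc τ Th x s| ≤ δ₂ * ρ := by
    intro s ρ hρ hb hno
    obtain ⟨j, hj1, hj2⟩ := classes' G (fun t => cdc τ Th t s / ρ / 2 ^ L₀) (1 / 2 ^ (K + L₀))
      (1 / 2 ^ (K₂ + L₀)) n (by positivity) hnδ
      (by
        intro t ht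
        have h1 := hb t ht
        rw [abs_div, abs_div, abs_of_pos hρ, abs_of_pos hP0, div_le_iff₀ hP0, div_le_iff₀ hρ]
        have : 0 ≤ 2 ^ L₀ * ρ := by positivity
        linarith)
      (by
        intro t ht x hx hh
        refine hno t ht x hx ?_
        have e : cdc τ Th t s / ρ / 2 ^ L₀ - cdc τ Th x s / ρ / 2 ^ L₀ =
            (cdc τ Th t s / ρ - cdc τ Th x s / ρ) / 2 ^ L₀ := by ring
        rw [e, abs_div, abs_of_pos hP0] at hh
        constructor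
        · have h1 := hh.1
          rw [le_div_iff₀ hP0, pow_add] at h1
          refine le_trans (le_of_eq ?_) h1
          field_simp
        · have h1 := hh.2
          rw [div_le_iff₀ hP0, pow_add] at h1
          refine h1.trans (le_of_eq ?_)
          field_simp)
    refine ⟨j, hj1, fun t ht x hx hjj => ?_⟩
    have h1 := hj2 t ht x hx hjj
    have e : cdc τ Th t s / ρ / 2 ^ L₀ - cdc τ Th x s / ρ / 2 ^ L₀ =
        (cdc τ Th t s - cdc τ Th x s) / (ρ * 2 ^ L₀) := by field_simp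
    rw [e, abs_div, abs_of_pos (by positivity : 0 < ρ * 2 ^ L₀), div_lt_iff₀ (by positivity),
      pow_add] at h1
    refine h1.le.trans (le_of_eq ?_)
    rw [hδ₂]
    field_simp
  obtain ⟨j, hj1, hj2⟩ := hcl s ρ hρ hG2 h
  obtain ⟨j', hj1', hj2'⟩ := hcl s' ρ' hρ' hG3 h'
  set Ez : ℕ × ℕ → Finset ι := fun z => G.filter fun t => (j t, j' t) = z with hEz
  set R : ℝ := 2 ^ r with hR
  have hR1 : 1 ≤ R := one_le_pow₀ (by norm_num)
  have hg0 : (0 : ℝ) < 1 / 2 ^ r := by positivity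
  have hRg : 1 / 2 ^ r * R = 1 := by rw [hR]; field_simp
  -- all classes are small
  have key : ∀ z, (Ez z).card ≤ 2 * m := by
    intro z
    by_contra hcon
    push Not at hcon
    set E := Ez z with hE
    obtain ⟨a, ha, b, hb, c, hc, hab, hbc⟩ := three' τ (1 / 2 ^ r) m hsep E (by omega)
    have hmem : ∀ x ∈ E, x ∈ G ∧ j x = j a ∧ j' x = j' a := by
      intro x hx
      have h1 := Finset.mem_filter.mp hx
      have h2 := Finset.mem_filter.mp ha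
      have h4 := h1.2.trans h2.2.symm
      rw [Prod.mk.injEq] at h4
      exact ⟨h1.1, h4.1, h4.2⟩
    have haG : a ∈ G := (hmem a ha).1
    set A := cdc τ Th a s with hA
    set A' := cdc τ Th a s' with hA'
    set D := (Th s - Th s') with hD
    have hid : ∀ x : ι, D * (τ x) ^ 2 + (-D * (τ s + τ s') + A - A') * τ x +
        (D * τ s * τ s' - A * τ s' + A' * τ s) =
        (τ s' - τ x) * (cdc τ Th x s - A) - (τ s - τ x) * (cdc τ Th x s' - A') := by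
      intro x
      rw [hD]
      unfold cdc
      ring
    have hpol : ∀ x ∈ E, |D * (τ x) ^ 2 + (-D * (τ s + τ s') + A - A') * τ x +
        (D * τ s * τ s' - A * τ s' + A' * τ s)| ≤ 2 * (δ₂ * ρ) := by
      intro x hx
      obtain ⟨h1, h3, h4⟩ := hmem x hx
      have h5 := hj2 x h1 a haG h3
      have h6 := (hj2' x h1 a haG h4).trans (mul_le_mul_of_nonneg_left hρρ hδ₂0.le)
      rw [hid]
      refine (abs_sub _ _).trans ?_
      rw [abs_mul, abs_mul]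
      have h8 := mul_le_mul (hdiff s' x) h5 (abs_nonneg _) zero_le_one
      have h9 := mul_le_mul (hdiff s x) h6 (abs_nonneg _) zero_le_one
      linarith
    have hlead := lead D (-D * (τ s + τ s') + A - A')
      (D * τ s * τ s' - A * τ s' + A' * τ s) (2 * (δ₂ * ρ)) (1 / 2 ^ r) (τ a) (τ b) (τ c) hg0
      hab hbc (hpol a ha) (hpol b hb) (hpol c hc)
    have hD0 : 0 ≤ |D| := abs_nonneg _
    have hδρ : 0 < δ₂ * ρ := by positivity
    have hΔb : |D| ≤ 4 * (δ₂ * ρ) * R ^ 2 := by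
      have h2 : |D| * (1 / 2 ^ r) ^ 2 * R ^ 2 ≤ 2 * (2 * (δ₂ * ρ)) * R ^ 2 :=
        mul_le_mul_of_nonneg_right hlead (by positivity)
      have h3 : |D| * (1 / 2 ^ r) ^ 2 * R ^ 2 = |D| * (1 / 2 ^ r * R) ^ 2 := by ring
      rw [h3, hRg, one_pow, mul_one] at h2
      linarith
    have hlin : ∀ x ∈ E, |(τ s - τ x) * A' - (τ s' - τ x) * A| ≤ 2 * (δ₂ * ρ) + |D| := by
      intro x hx
      have h1 := hpol x hx
      have h2 : (τ s - τ x) * A' - (τ s' - τ x) * A =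
          (D * (τ x) ^ 2 + (-D * (τ s + τ s') + A - A') * τ x +
            (D * τ s * τ s' - A * τ s' + A' * τ s)) -
          D * ((τ s' - τ x) * (τ s - τ x)) := by
        ring
      rw [h2]
      refine (abs_sub _ _).trans ?_
      rw [abs_mul, abs_mul]
      have h3 := mul_le_mul (hdiff s' x) (hdiff s x) (abs_nonneg _) zero_le_one
      have h4 := mul_le_mul_of_nonneg_left h3 hD0
      linarith
    have hA1 := lin_small2 (τ s) (τ s') A A' (2 * (δ₂ * ρ) + |D|) (1 / 2 ^ r) (τ a) (τ b) hg0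
      (by positivity) hab (hdiff s a) (hlin a ha) (hlin b hb)
    have h2δ : 2 * (δ₂ * ρ) + |D| ≤ 8 * (δ₂ * ρ) * R ^ 2 := by
      have h1 : (1 : ℝ) ≤ R ^ 2 := one_le_pow₀ hR1
      nlinarith
    have hMg : 1 + 2 / (1 / 2 ^ r) ≤ 4 * R := by
      have h1 : 2 / (1 / 2 ^ r) = 2 * R := by rw [hR]; field_simp
      rw [h1]
      linarith
    have hA2 : |A| * |τ s' - τ s| ≤ 8 * (δ₂ * ρ) * R ^ 2 * (4 * R) := by
      refine hA1.trans (mul_le_mul h2δ hMg ?_ (by positivity))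
      positivity
    have hA3 : |A| ≤ 2 ^ v * (8 * (δ₂ * ρ) * R ^ 2 * (4 * R)) := by
      have h1 : |A| * (1 / 2 ^ v) ≤ 8 * (δ₂ * ρ) * R ^ 2 * (4 * R) :=
        (mul_le_mul_of_nonneg_left hss (abs_nonneg _)).trans hA2
      rw [mul_one_div, div_le_iff₀ (by positivity)] at h1
      linarith
    have h1 := hG1 a haG
    have e : 2 ^ v * (8 * (δ₂ * ρ) * R ^ 2 * (4 * R)) = 2 ^ (3 * r + v + 5) / 2 ^ K₂ * ρ := by
      rw [hδ₂, hR]
      have e1 : (2 : ℝ) ^ (3 * r + v + 5) = (2 ^ r) ^ 3 * 2 ^ v * 32 := by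
        rw [pow_add, pow_add, ← pow_mul, show 3 * r = r * 3 by ring]
        norm_num
      rw [e1]
      ring
    rw [e] at hA3
    have h2 : (2 : ℝ) ^ (3 * r + v + 5) / 2 ^ K₂ ≤ 1 / 2 := by
      rw [div_le_div_iff₀ (by positivity) (by norm_num), one_mul, ← pow_succ]
      exact pow_le_pow_right₀ (by norm_num) (by omega)
    have h3 := mul_le_mul_of_nonneg_right h2 hρ.le
    linarith
  -- counting
  have hmaps : ∀ t ∈ G, (j t, j' t) ∈ (range (n + 1)) ×ˢ (range (n + 1)) := by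
    intro t ht
    rw [Finset.mem_product, Finset.mem_range, Finset.mem_range]
    exact ⟨Nat.lt_succ_of_le (hj1 t ht), Nat.lt_succ_of_le (hj1' t ht)⟩
  have h1 := Finset.card_eq_sum_card_fiberwise hmaps
  have hn8 : (n + 1) ^ 2 ≤ 2 ^ (2 * (K + L₀) + 6) := by
    have h1 : n + 1 ≤ 2 ^ (K + L₀ + 3) := by
      rw [hn, pow_add 2 (K + L₀) 3, pow_add 2 (K + L₀) 2]
      have := Nat.one_le_two_pow (n := K + L₀)
      omega
    calc (n + 1) ^ 2 ≤ (2 ^ (K + L₀ + 3)) ^ 2 := Nat.pow_le_pow_left h1 2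
      _ = 2 ^ (2 * (K + L₀) + 6) := by rw [← pow_mul]; congr 1; ring
  calc G.card = ∑ z ∈ (range (n + 1)) ×ˢ (range (n + 1)), (Ez z).card := h1
    _ ≤ ((range (n + 1)) ×ˢ (range (n + 1))).card • (2 * m) :=
        Finset.sum_le_card_nsmul _ _ _ fun z _ => key z
    _ = (n + 1) ^ 2 * (2 * m) := by
        rw [Finset.card_product, Finset.card_range, smul_eq_mul, sq]
    _ ≤ 2 ^ (2 * (K + L₀) + 6) * (2 * m) := Nat.mul_le_mul_right _ hn8
    _ = 2 ^ (2 * (K + L₀) + 7) * m := by ring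

open Classical in
/-- Large sets with small intersections are few. -/
lemma few_sets {α : Type} (F : Finset α) (G : α → Finset ι) (P X : ℕ) (hP : 0 < P)
    (h1 : ∀ s ∈ F, Fintype.card ι ≤ P * (G s).card)
    (h2 : ∀ s ∈ F, ∀ s' ∈ F, s ≠ s' → (G s ∩ G s').card ≤ X)
    (hX : 4 * P ^ 2 * X < Fintype.card ι) : F.card < 2 * P := by
  classical
  by_contra hcon
  push Not at hcon
  obtain ⟨F', hF', hc⟩ := Finset.exists_subset_card_eq hcon
  set M := Fintype.card ι with hM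
  set a : α → ι → ℕ := fun s t => if t ∈ G s then 1 else 0 with ha
  have e1 : ∀ s, ∑ t, a s t = (G s).card := by
    intro s
    simp [ha]
  have e2 : ∀ s s', ∑ t, a s t * a s' t = (G s ∩ G s').card := by
    intro s s'
    have : ∀ t, a s t * a s' t = if t ∈ G s ∩ G s' then 1 else 0 := by
      intro t
      simp only [ha, Finset.mem_inter]
      by_cases h1 : t ∈ G s <;> by_cases h2 : t ∈ G s' <;> simp [h1, h2]
    rw [Finset.sum_congr rfl fun t _ => this t, Finset.sum_boole, Finset.filter_mem_eq_inter,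
      Finset.univ_inter]
    simp
  set k : ι → ℕ := fun t => ∑ s ∈ F', a s t with hk
  have e3 : ∑ t, k t = ∑ s ∈ F', (G s).card := by
    rw [hk, Finset.sum_comm]
    exact Finset.sum_congr rfl fun s _ => e1 s
  have e4 : ∑ t, k t * k t = ∑ s ∈ F', ∑ s' ∈ F', (G s ∩ G s').card := by
    have : ∀ t, k t * k t = ∑ s ∈ F', ∑ s' ∈ F', a s t * a s' t := by
      intro t
      rw [hk]
      exact Finset.sum_mul_sum _ _ _ _
    rw [Finset.sum_congr rfl fun t _ => this t, Finset.sum_comm]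
    refine Finset.sum_congr rfl fun s _ => ?_
    rw [Finset.sum_comm]
    exact Finset.sum_congr rfl fun s' _ => e2 s s'
  have e5 : ∑ t, 2 * k t ≤ ∑ t : ι, (1 + k t * k t) := by
    refine Finset.sum_le_sum fun t _ => ?_
    rcases Nat.lt_or_ge (k t) 1 with h | h
    · have : k t = 0 := by omega
      rw [this]; omega
    · obtain ⟨q, hq⟩ := Nat.exists_eq_add_of_le h
      rw [hq]
      nlinarith
  rw [← Finset.mul_sum, Finset.sum_add_distrib, e3, e4, Finset.sum_const, Finset.card_univ,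
    smul_eq_mul, mul_one] at e5
  have e6 : ∑ s ∈ F', ∑ s' ∈ F', (G s ∩ G s').card ≤
      ∑ s ∈ F', ((G s).card + F'.card * X) := by
    refine Finset.sum_le_sum fun s hs => ?_
    rw [← Finset.add_sum_erase F' _ hs, Finset.inter_self]
    refine Nat.add_le_add_left ?_ _
    refine (Finset.sum_le_card_nsmul _ _ X fun s' hs' => ?_).trans ?_
    · exact h2 s (hF' hs) s' (hF' (Finset.mem_of_mem_erase hs'))
        (Finset.ne_of_mem_erase hs').symm
    · rw [smul_eq_mul]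
      exact Nat.mul_le_mul_right _ (Finset.card_le_card (Finset.erase_subset _ _))
  rw [Finset.sum_add_distrib, Finset.sum_const, smul_eq_mul, hc] at e6
  have e7 : 2 * P * M ≤ P * ∑ s ∈ F', (G s).card := by
    rw [Finset.mul_sum]
    have := Finset.card_nsmul_le_sum F' (fun s => P * (G s).card) M
      (fun s hs => h1 s (hF' hs))
    rw [smul_eq_mul, hc] at this
    exact this
  have e8 : 2 * M ≤ ∑ s ∈ F', (G s).card := by
    have : P * (2 * M) ≤ P * ∑ s ∈ F', (G s).card := by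
      calc P * (2 * M) = 2 * P * M := by ring
        _ ≤ _ := e7
    exact Nat.le_of_mul_le_mul_left this hP
  have e9 : 2 * P * (2 * P * X) = 4 * P ^ 2 * X := by ring
  omega

/-- Maximal separated subsets. -/
lemma exists_net (τ : ι → ℝ) (F : Finset ι) (δ : ℝ) (hδ : 0 < δ) :
    ∃ F' ⊆ F, (∀ s ∈ F', ∀ s' ∈ F', s ≠ s' → δ ≤ |τ s' - τ s|) ∧
      ∀ s ∈ F, ∃ s' ∈ F', |τ s - τ s'| < δ := by
  classical
  set 𝒜 := F.powerset.filter fun F' => ∀ s ∈ F', ∀ s' ∈ F', s ≠ s' → δ ≤ |τ s' - τ s| with h𝒜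
  have hne : 𝒜.Nonempty := ⟨∅, by simp [h𝒜]⟩
  obtain ⟨F', hF', hmax⟩ := Finset.exists_max_image 𝒜 Finset.card hne
  rw [h𝒜, Finset.mem_filter, Finset.mem_powerset] at hF'
  refine ⟨F', hF'.1, hF'.2, fun s hs => ?_⟩
  by_contra hcon
  push Not at hcon
  have hsF : s ∉ F' := by
    intro h
    have := hcon s h
    rw [sub_self, abs_zero] at this
    linarith
  have h1 : insert s F' ∈ 𝒜 := by
    rw [h𝒜, Finset.mem_filter, Finset.mem_powerset]
    refine ⟨Finset.insert_subset hs hF'.1, ?_⟩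
    intro x hx y hy hxy
    rcases Finset.mem_insert.mp hx with hx' | hx'
    · rcases Finset.mem_insert.mp hy with hy' | hy'
      · exact absurd (hx'.trans hy'.symm) hxy
      · rw [abs_sub_comm, hx']
        exact hcon y hy'
    · rcases Finset.mem_insert.mp hy with hy' | hy'
      · rw [hy']
        exact hcon x hx'
      · exact hF'.2 x hx' y hy' hxy
  have h2 := hmax _ h1
  rw [Finset.card_insert_of_notMem hsF] at h2
  omega

end

/-- **SJP**: the failing members of a cluster are contained in few short intervals, whatever the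
rows at which they fail. -/
theorem sjp_thm (ι : Type) [Fintype ι] (Ω U : Type) [Fintype Ω] (p : Ω → ℝ) (hp : IsLaw p)
    (Nh : ι → Ω → ℤ) (V : ι → Ω → U) (τ Th : ι → ℝ) (ρ d : ι → ℝ)
    (K K₂ L₀ P v u₀ L r m : ℕ) (e : ℝ)
    (x : ι → ι → ℤ) (hτ : ∀ i, 0 ≤ τ i ∧ τ i ≤ 1)
    (hsep : ∀ a : ℝ, (univ.filter fun i => a ≤ τ i ∧ τ i < a + 1 / 2 ^ r).card ≤ m)
    (hP : 0 < P) (hm : 4 * P ^ 2 * (2 ^ (2 * (K + L₀) + 9) * m) < Fintype.card ι)
    (hK : 3 * r + v + 6 ≤ K₂) (hKK : K ≤ K₂) (hL : K₂ + u₀ + 2 ≤ L)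
    (he : 0 ≤ e) (he2 : 18 * 4 ^ (K₂ + u₀ + 1) * e ≤ 1)
    (T : Finset ι) (G : ι → Finset ι)
    (hρ : ∀ s ∈ T, 0 < ρ s) (hd : ∀ s ∈ T, 1 / 2 ^ u₀ ≤ |d s|) (hd1 : ∀ s ∈ T, |d s| ≤ 1)
    (hcard : ∀ s ∈ T, Fintype.card ι ≤ P * (G s).card)
    (hG1 : ∀ s ∈ T, ∀ t ∈ G s, ρ s ≤ |cdc τ Th t s|)
    (hG2 : ∀ s ∈ T, ∀ t ∈ G s, |cdc τ Th t s| ≤ 2 ^ L₀ * ρ s)
    (hx : ∀ s ∈ T, ∀ t ∈ G s, |(x t s : ℝ) - 2 ^ L * (cdc τ Th t s / ρ s) * d s| ≤ 1)
    (hinv : ∀ s ∈ T, ∀ t ∈ G s, TIV p (Nh s) (V s) (x t s) e) :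
    ∃ F' ⊆ T, F'.card < 2 * P ∧ ∀ s ∈ T, ¬ Full p (Nh s) (V s) K L →
      ∃ s' ∈ F', |τ s - τ s'| < 1 / 2 ^ v := by
  classical
  set F := T.filter fun s => ¬ Full p (Nh s) (V s) K L with hF
  obtain ⟨F', hF', hsp, hcov⟩ := exists_net τ F (1 / 2 ^ v) (by positivity)
  have hFT : ∀ s ∈ F', s ∈ T ∧ ¬ Full p (Nh s) (V s) K L := fun s hs =>
    Finset.mem_filter.mp (hF' hs)
  refine ⟨F', fun s hs => (hFT s hs).1, ?_, fun s hs hf =>
    hcov s (Finset.mem_filter.mpr ⟨hs, hf⟩)⟩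
  have hno : ∀ s ∈ F', ∀ t₁ ∈ G s, ∀ t₂ ∈ G s,
      ¬ (1 / 2 ^ K₂ ≤ |cdc τ Th t₁ s / ρ s - cdc τ Th t₂ s / ρ s| ∧
        |cdc τ Th t₁ s / ρ s - cdc τ Th t₂ s / ρ s| ≤ 1 / 2 ^ (K + 1)) := by
    intro s hs t₁ h₁ t₂ h₂ hh
    obtain ⟨hsT, hf⟩ := hFT s hs
    exact hf (full_of_pair hp (Nh s) (V s) K K₂ u₀ L _ _ (d s) e (x t₁ s) (x t₂ s) hKK
      hL (hd s hsT) (hd1 s hsT) he he2 (hx s hsT t₁ h₁) (hx s hsT t₂ h₂) (hinv s hsT t₁ h₁)
      (hinv s hsT t₂ h₂) hh.1 hh.2)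
  have hpair : ∀ s ∈ F', ∀ s' ∈ F', s ≠ s' → ρ s' ≤ ρ s →
      (G s ∩ G s').card ≤ 2 ^ (2 * (K + L₀) + 9) * m := by
    intro s hs s' hs' hne hρρ
    have hsT := (hFT s hs).1
    have hsT' := (hFT s' hs').1
    have h1 := sjp_pair τ Th (K + 1) K₂ L₀ v r m hτ hsep hK s s' (ρ s) (ρ s') (hρ s' hsT') hρρ
      (hsp s hs s' hs' hne) (G s ∩ G s')
      (fun t ht => hG1 s hsT t (Finset.mem_inter.mp ht).1)
      (fun t ht => hG2 s hsT t (Finset.mem_inter.mp ht).1)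
      (fun t ht => hG2 s' hsT' t (Finset.mem_inter.mp ht).2)
      (fun t₁ h₁ t₂ h₂ => hno s hs t₁ (Finset.mem_inter.mp h₁).1 t₂ (Finset.mem_inter.mp h₂).1)
      (fun t₁ h₁ t₂ h₂ => hno s' hs' t₁ (Finset.mem_inter.mp h₁).2 t₂
        (Finset.mem_inter.mp h₂).2)
    rwa [show 2 * (K + 1 + L₀) + 7 = 2 * (K + L₀) + 9 by ring] at h1
  refine few_sets F' G P (2 ^ (2 * (K + L₀) + 9) * m) hP
    (fun s hs => hcard s (hFT s hs).1) ?_ hm
  intro s hs s' hs' hne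
  rcases le_total (ρ s') (ρ s) with h | h
  · exact hpair s hs s' hs' hne h
  · rw [Finset.inter_comm]
    exact hpair s' hs' s hs hne.symm h

end Pool.KX
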