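import Pool.Agent.H87.KX.UTL

/-!
# The unified translation lemma for finitely many sampled times

The times are the times `τ i ∈ [0, 1]` of the members `i` of a cluster; every interval of length
`2 ^ (-r)` contains at most `m` of them. `Th i` is the frame at the time `τ i`, `cdc τ Th t s` the
displacement. The law of `(Nh s, V s)` is nearly invariant under the translations
`2 ^ L (cdc τ Th t s) d` for three quarters of the members `t`. Then either the frame is constant on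
the members `s ∈ T` up to `2 ^ (-u)`, or the first `K` rows of the block are full at some `s ∈ T`.
-/

set_option autoImplicit false

namespace Pool.KX

open Finset Real
open Pool.Agent.H49.Ent Pool.Agent.H32.Dense Pool.STK Pool.KAL

section

variable {ι : Type} [Fintype ι]

/-- The displacement. -/
noncomputable def cdc (τ Th : ι → ℝ) (t s : ι) : ℝ := (τ s - τ t) * (Th s - Th t)

omit [Fintype ι] in
/-- Classes of values. -/
lemma classes' (S : Finset ι) (v : ι → ℝ) (δ δ₂ : ℝ) (n : ℕ) (hδ : 0 < δ)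
    (hn : 4 < n * δ) (hv : ∀ t ∈ S, |v t| ≤ 2)
    (h : ∀ t ∈ S, ∀ s ∈ S, ¬ (δ₂ ≤ |v t - v s| ∧ |v t - v s| ≤ δ)) :
    ∃ j : ι → ℕ, (∀ t ∈ S, j t ≤ n) ∧ ∀ t ∈ S, ∀ s ∈ S, j t = j s → |v t - v s| < δ₂ := by
  classical
  refine ⟨fun t => ⌊(v t + 2) / δ⌋₊, ?_, ?_⟩
  · intro t ht
    have h1 := abs_le.mp (hv t ht)
    have h3 : (v t + 2) / δ < n + 1 := by
      rw [div_lt_iff₀ hδ]
      nlinarith
    have h4 : ⌊(v t + 2) / δ⌋₊ < n + 1 := by
      rw [Nat.floor_lt (by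
        have : 0 ≤ v t + 2 := by linarith
        positivity)]
      push_cast
      exact h3
    exact Nat.lt_succ_iff.mp h4
  · intro t ht s hs hj
    by_contra hlt
    push Not at hlt
    refine h t ht s hs ⟨hlt, ?_⟩
    have p1 : 0 ≤ (v t + 2) / δ := div_nonneg (by linarith [(abs_le.mp (hv t ht)).1]) hδ.le
    have p2 : 0 ≤ (v s + 2) / δ := div_nonneg (by linarith [(abs_le.mp (hv s hs)).1]) hδ.le
    have a1 := Nat.floor_le p1
    have a2 := Nat.lt_floor_add_one ((v t + 2) / δ)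
    have b1 := Nat.floor_le p2
    have b2 := Nat.lt_floor_add_one ((v s + 2) / δ)
    have hj' : (⌊(v t + 2) / δ⌋₊ : ℝ) = (⌊(v s + 2) / δ⌋₊ : ℝ) := by exact_mod_cast hj
    rw [hj'] at a1 a2
    have e : (v t + 2) / δ - (v s + 2) / δ = (v t - v s) / δ := by
      field_simp
      ring
    have h5 : |(v t - v s) / δ| ≤ 1 := by
      rw [← e, abs_le]
      constructor <;> linarith
    rwa [abs_div, abs_of_pos hδ, div_le_one hδ] at h5

/-- Three separated times. -/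
lemma three' (τ : ι → ℝ) (ρ : ℝ) (m : ℕ)
    (hsep : ∀ a : ℝ, (univ.filter fun i => a ≤ τ i ∧ τ i < a + ρ).card ≤ m)
    (E : Finset ι) (hE : 2 * m + 1 ≤ E.card) :
    ∃ a ∈ E, ∃ b ∈ E, ∃ c ∈ E, τ a + ρ ≤ τ b ∧ τ b + ρ ≤ τ c := by
  classical
  have hne : E.Nonempty := Finset.card_pos.mp (by omega)
  obtain ⟨a, ha, hamin⟩ := Finset.exists_min_image E τ hne
  set E₁ := E.filter fun i => τ a + ρ ≤ τ i with hE₁
  have h1 : m + 1 ≤ E₁.card := by
    have h2 : (E.filter fun i => ¬ τ a + ρ ≤ τ i).card ≤ m := by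
      refine (Finset.card_le_card ?_).trans (hsep (τ a))
      intro i hi
      rw [Finset.mem_filter] at hi ⊢
      exact ⟨Finset.mem_univ i, hamin i hi.1, not_le.mp hi.2⟩
    have h3 := Finset.card_filter_add_card_filter_not (s := E) (fun i => τ a + ρ ≤ τ i)
    have h4 : E₁.card = (E.filter fun i => τ a + ρ ≤ τ i).card := rfl
    omega
  obtain ⟨b, hb, hbmin⟩ := Finset.exists_min_image E₁ τ (Finset.card_pos.mp (by omega))
  have h4 : ∃ c ∈ E₁, τ b + ρ ≤ τ c := by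
    by_contra hcon
    push Not at hcon
    have h5 : E₁.card ≤ m := by
      refine (Finset.card_le_card ?_).trans (hsep (τ b))
      intro i hi
      rw [Finset.mem_filter]
      exact ⟨Finset.mem_univ i, hbmin i hi, hcon i hi⟩
    omega
  obtain ⟨c, hc, hbc⟩ := h4
  exact ⟨a, ha, b, (Finset.mem_filter.mp hb).1, c, (Finset.mem_filter.mp hc).1,
    (Finset.mem_filter.mp hb).2, hbc⟩

/-- Either the frame is constant, or the displacements take two values at a small distance. -/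
theorem dicc_thm (τ Th : ι → ℝ) (K K₂ u r m : ℕ) (hτ : ∀ i, 0 ≤ τ i ∧ τ i ≤ 1)
    (hTh : ∀ i, |Th i| ≤ 1)
    (hsep : ∀ a : ℝ, (univ.filter fun i => a ≤ τ i ∧ τ i < a + 1 / 2 ^ r).card ≤ m)
    (hm : (2 * m + 1) * 2 ^ (2 * K + 7) ≤ Fintype.card ι) (hK : 2 * r + u + 2 ≤ K₂)
    (T : Finset ι) (G : ι → Finset ι) (hcard : ∀ s ∈ T, 3 * Fintype.card ι ≤ 4 * (G s).card)
    (h : ∀ s ∈ T, ∀ t₁ ∈ G s, ∀ t₂ ∈ G s,
      ¬ (1 / 2 ^ K₂ ≤ |cdc τ Th t₁ s - cdc τ Th t₂ s| ∧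
        |cdc τ Th t₁ s - cdc τ Th t₂ s| ≤ 1 / 2 ^ K)) :
    ∀ s ∈ T, ∀ s' ∈ T, |Th s - Th s'| ≤ 1 / 2 ^ u := by
  classical
  intro s hs s' hs'
  set n : ℕ := 2 ^ (K + 2) + 1 with hn
  have hδ : (0 : ℝ) < 1 / 2 ^ K := by positivity
  have hnδ : (4 : ℝ) < n * (1 / 2 ^ K) := by
    rw [mul_one_div, lt_div_iff₀ (by positivity)]
    rw [hn]
    push_cast
    rw [pow_add]
    linarith
  have hdiff : ∀ i j : ι, |τ i - τ j| ≤ 1 := by
    intro i j
    rw [abs_le]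
    constructor <;> linarith [(hτ i).1, (hτ i).2, (hτ j).1, (hτ j).2]
  have hcd : ∀ s t : ι, |cdc τ Th t s| ≤ 2 := by
    intro s t
    have h4 : |Th s - Th t| ≤ 2 := by
      refine (abs_sub _ _).trans ?_
      linarith [hTh s, hTh t]
    unfold cdc
    rw [abs_mul]
    calc _ ≤ 1 * 2 := mul_le_mul (hdiff s t) h4 (abs_nonneg _) zero_le_one
      _ = 2 := by norm_num
  obtain ⟨j, hj1, hj2⟩ := classes' (G s) (fun t => cdc τ Th t s) (1 / 2 ^ K) (1 / 2 ^ K₂) n hδ hnδ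
    (fun t _ => hcd s t) (h s hs)
  obtain ⟨j', hj1', hj2'⟩ := classes' (G s') (fun t => cdc τ Th t s') (1 / 2 ^ K) (1 / 2 ^ K₂) n hδ
    hnδ (fun t _ => hcd s' t) (h s' hs')
  -- a common class
  have hE0 : Fintype.card ι ≤ 2 * (G s ∩ G s').card := by
    have h1 := Finset.card_union_add_card_inter (G s) (G s')
    have h2 : (G s ∪ G s').card ≤ Fintype.card ι := Finset.card_le_univ _
    have h3 := hcard s hs
    have h4 := hcard s' hs'
    omega
  have hpig : ∃ z ∈ (range (n + 1)) ×ˢ (range (n + 1)),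
      (G s ∩ G s').card ≤ (n + 1) ^ 2 * ((G s ∩ G s').filter fun t => (j t, j' t) = z).card := by
    by_contra hcon
    push Not at hcon
    have hmaps : ∀ t ∈ G s ∩ G s', (j t, j' t) ∈ (range (n + 1)) ×ˢ (range (n + 1)) := by
      intro t ht
      rw [Finset.mem_inter] at ht
      rw [Finset.mem_product, Finset.mem_range, Finset.mem_range]
      exact ⟨Nat.lt_succ_of_le (hj1 t ht.1), Nat.lt_succ_of_le (hj1' t ht.2)⟩
    have h1 := Finset.card_eq_sum_card_fiberwise hmaps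
    have h2 : (n + 1) ^ 2 * (G s ∩ G s').card < (n + 1) ^ 2 * (G s ∩ G s').card := by
      calc (n + 1) ^ 2 * (G s ∩ G s').card
          = ∑ z ∈ (range (n + 1)) ×ˢ (range (n + 1)),
            (n + 1) ^ 2 * ((G s ∩ G s').filter fun t => (j t, j' t) = z).card := by
            rw [← Finset.mul_sum, ← h1]
        _ < ∑ _z ∈ (range (n + 1)) ×ˢ (range (n + 1)), (G s ∩ G s').card := by
            refine Finset.sum_lt_sum_of_nonempty ?_ hcon
            exact ⟨(0, 0), by simp⟩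
        _ = (n + 1) ^ 2 * (G s ∩ G s').card := by
            rw [Finset.sum_const, Finset.card_product, Finset.card_range, smul_eq_mul, sq]
    exact lt_irrefl _ h2
  obtain ⟨z, _, hz⟩ := hpig
  set E := (G s ∩ G s').filter fun t => (j t, j' t) = z with hE
  have hn8 : (n + 1) ^ 2 ≤ 2 ^ (2 * K + 6) := by
    have h1 : n + 1 ≤ 2 ^ (K + 3) := by
      rw [hn, pow_add 2 K 3, pow_add 2 K 2]
      have := Nat.one_le_two_pow (n := K)
      omega
    calc (n + 1) ^ 2 ≤ (2 ^ (K + 3)) ^ 2 := Nat.pow_le_pow_left h1 2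
      _ = 2 ^ (2 * K + 6) := by rw [← pow_mul]; congr 1; ring
  have hEM : Fintype.card ι ≤ 2 ^ (2 * K + 7) * E.card := by
    calc Fintype.card ι ≤ 2 * (G s ∩ G s').card := hE0
      _ ≤ 2 * ((n + 1) ^ 2 * E.card) := Nat.mul_le_mul_left 2 hz
      _ ≤ 2 * (2 ^ (2 * K + 6) * E.card) :=
        Nat.mul_le_mul_left 2 (Nat.mul_le_mul_right _ hn8)
      _ = 2 ^ (2 * K + 7) * E.card := by ring
  have hE3 : 2 * m + 1 ≤ E.card := by
    have h1 : (2 * m + 1) * 2 ^ (2 * K + 7) ≤ 2 ^ (2 * K + 7) * E.card := hm.trans hEM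
    rw [Nat.mul_comm] at h1
    exact Nat.le_of_mul_le_mul_left h1 (by positivity)
  obtain ⟨a, ha, b, hb, c, hc, hab, hbc⟩ := three' τ (1 / 2 ^ r) m hsep E hE3
  -- the polynomial
  have hmem : ∀ t ∈ E, t ∈ G s ∧ t ∈ G s' ∧ j t = j a ∧ j' t = j' a := by
    intro t ht
    have h1 := (Finset.mem_filter.mp ht)
    have h2 := (Finset.mem_filter.mp ha)
    have h3 := Finset.mem_inter.mp h1.1
    have h4 := h1.2.trans h2.2.symm
    rw [Prod.mk.injEq] at h4
    exact ⟨h3.1, h3.2, h4.1, h4.2⟩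
  set A := cdc τ Th a s with hA
  set A' := cdc τ Th a s' with hA'
  set D := (Th s - Th s') with hD
  have hpol : ∀ t ∈ E, |D * (τ t) ^ 2 + (-D * (τ s + τ s') + A - A') * τ t +
      (D * τ s * τ s' - A * τ s' + A' * τ s)| ≤ 2 * (1 / 2 ^ K₂) := by
    intro t ht
    obtain ⟨h1, h2, h3, h4⟩ := hmem t ht
    obtain ⟨a1, a2, _, _⟩ := hmem a ha
    have h5 := hj2 t h1 a a1 h3
    have h6 := hj2' t h2 a a2 h4
    have e : D * (τ t) ^ 2 + (-D * (τ s + τ s') + A - A') * τ t +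
        (D * τ s * τ s' - A * τ s' + A' * τ s) =
        (τ s' - τ t) * (cdc τ Th t s - A) - (τ s - τ t) * (cdc τ Th t s' - A') := by
      rw [hD]
      unfold cdc
      ring
    rw [e]
    refine (abs_sub _ _).trans ?_
    rw [abs_mul, abs_mul]
    have h8 := mul_le_mul (hdiff s' t) h5.le (abs_nonneg _) zero_le_one
    have h9 := mul_le_mul (hdiff s t) h6.le (abs_nonneg _) zero_le_one
    linarith
  have hlead := lead D (-D * (τ s + τ s') + A - A') (D * τ s * τ s' - A * τ s' + A' * τ s)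
    (2 * (1 / 2 ^ K₂)) (1 / 2 ^ r) (τ a) (τ b) (τ c) (by positivity) hab hbc
    (hpol a ha) (hpol b hb) (hpol c hc)
  have h1 : |D| ≤ 4 * (1 / 2 ^ K₂) * (2 ^ r) ^ 2 := by
    have h2 : |D| * (1 / 2 ^ r) ^ 2 * (2 ^ r) ^ 2 ≤ 2 * (2 * (1 / 2 ^ K₂)) * (2 ^ r) ^ 2 :=
      mul_le_mul_of_nonneg_right hlead (by positivity)
    have h3 : |D| * (1 / 2 ^ r) ^ 2 * (2 ^ r) ^ 2 = |D| := by
      field_simp
    rw [h3] at h2
    linarith
  refine h1.trans ?_
  have h5 : (4 : ℝ) * (1 / 2 ^ K₂) * (2 ^ r) ^ 2 = 2 ^ (2 * r + 2) / 2 ^ K₂ := by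
    rw [← pow_mul, show 2 * r + 2 = r * 2 + 2 by ring, pow_add]
    ring
  rw [h5, div_le_div_iff₀ (by positivity) (by positivity), one_mul, ← pow_add]
  exact pow_le_pow_right₀ (by norm_num) (by omega)

end

/-- **UTLC**: the unified translation lemma at one context, for the members of a cluster. -/
theorem utlc_thm (ι : Type) [Fintype ι] (Ω U : Type) [Fintype Ω] (p : Ω → ℝ) (hp : IsLaw p)
    (Nh : ι → Ω → ℤ) (V : ι → Ω → U) (τ Th : ι → ℝ) (K K₂ u u₀ L r m : ℕ) (d e : ℝ)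
    (x : ι → ι → ℤ) (hτ : ∀ i, 0 ≤ τ i ∧ τ i ≤ 1) (hTh : ∀ i, |Th i| ≤ 1)
    (hsep : ∀ a : ℝ, (univ.filter fun i => a ≤ τ i ∧ τ i < a + 1 / 2 ^ r).card ≤ m)
    (hm : (2 * m + 1) * 2 ^ (2 * K + 9) ≤ Fintype.card ι)
    (hK : 2 * r + u + 2 ≤ K₂) (hL : K₂ + u₀ + 2 ≤ L)
    (hd : 1 / 2 ^ u₀ ≤ |d|) (hd1 : |d| ≤ 1) (he : 0 ≤ e)
    (he2 : 18 * 4 ^ (K₂ + u₀ + 1) * e ≤ 1)
    (T : Finset ι) (G : ι → Finset ι) (hcard : ∀ s ∈ T, 3 * Fintype.card ι ≤ 4 * (G s).card)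
    (hx : ∀ s ∈ T, ∀ t ∈ G s, |(x t s : ℝ) - 2 ^ L * cdc τ Th t s * d| ≤ 1)
    (hinv : ∀ s ∈ T, ∀ t ∈ G s, TIV p (Nh s) (V s) (x t s) e) :
    (∀ s ∈ T, ∀ s' ∈ T, |Th s - Th s'| ≤ 1 / 2 ^ u) ∨
    ∃ s ∈ T, K * Real.log 2 - 5 ≤ CH p (fun ω => Nh s ω / ((2 ^ (L - K) : ℕ) : ℤ))
      (fun ω => (Nh s ω / ((2 ^ L : ℕ) : ℤ), V s ω)) := by
  classical
  by_cases hex : ∃ s ∈ T, ∃ t₁ ∈ G s, ∃ t₂ ∈ G s,
      1 / 2 ^ K₂ ≤ |cdc τ Th t₁ s - cdc τ Th t₂ s| ∧
        |cdc τ Th t₁ s - cdc τ Th t₂ s| ≤ 1 / 2 ^ (K + 1)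
  · right
    obtain ⟨s, hs, t₁, ht₁, t₂, ht₂, hlow, hupp⟩ := hex
    refine ⟨s, hs, ?_⟩
    have hKK : K ≤ K₂ := by
      by_contra hlt
      push Not at hlt
      have h1 : (1 : ℝ) / 2 ^ (K + 1) < 1 / 2 ^ K₂ := by
        refine one_div_lt_one_div_of_lt (by positivity) ?_
        exact pow_lt_pow_right₀ (by norm_num) (by omega)
      linarith
    set y : ℤ := x t₁ s - x t₂ s with hy
    set c : ℝ := cdc τ Th t₁ s - cdc τ Th t₂ s with hc
    have hyc : |(y : ℝ) - 2 ^ L * c * d| ≤ 2 := by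
      have h1 := hx s hs t₁ ht₁
      have h2 := hx s hs t₂ ht₂
      have e1 : (y : ℝ) - 2 ^ L * c * d = ((x t₁ s : ℝ) - 2 ^ L * cdc τ Th t₁ s * d) -
          ((x t₂ s : ℝ) - 2 ^ L * cdc τ Th t₂ s * d) := by
        rw [hy, hc]
        push_cast
        ring
      rw [e1]
      refine (abs_sub _ _).trans ?_
      linarith
    have hTy : TIV p (Nh s) (V s) y (2 * e) := by
      have h1 := hinv s hs t₁ ht₁
      have h2 := (ti2_thm Ω U ℤ p (Nh s) (V s) (x t₂ s) (x t₂ s) e e (hinv s hs t₂ ht₂)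
        (hinv s hs t₂ ht₂)).2.1
      have h3 := (ti2_thm Ω U ℤ p (Nh s) (V s) (x t₁ s) (-(x t₂ s)) e e h1 h2).1
      rw [← sub_eq_add_neg] at h3
      rw [two_mul]
      exact h3
    have hcd : |2 ^ L * c * d| = 2 ^ L * |c| * |d| := by
      rw [abs_mul, abs_mul, abs_of_pos (by positivity : (0 : ℝ) < 2 ^ L)]
    have hylow : (2 : ℤ) ^ (L - K₂ - u₀ - 1) ≤ |y| := by
      have h1 : (2 : ℝ) ^ (L - K₂ - u₀) ≤ 2 ^ L * |c| * |d| := by
        have h2 : (1 : ℝ) / 2 ^ K₂ * (1 / 2 ^ u₀) ≤ |c| * |d| :=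
          mul_le_mul hlow hd (by positivity) (abs_nonneg _)
        have h3 : (2 : ℝ) ^ (L - K₂ - u₀) = 2 ^ L * (1 / 2 ^ K₂ * (1 / 2 ^ u₀)) := by
          have h4 : (2 : ℝ) ^ L = 2 ^ (L - K₂ - u₀) * (2 ^ K₂ * 2 ^ u₀) := by
            rw [← pow_add, ← pow_add]
            congr 1
            omega
          rw [h4]
          field_simp
        rw [h3, mul_assoc]
        exact mul_le_mul_of_nonneg_left h2 (by positivity)
      have h5 : (2 : ℝ) ^ (L - K₂ - u₀) - 2 ≤ |(y : ℝ)| := by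
        have h6 := abs_sub_abs_le_abs_sub (2 ^ L * c * d) (y : ℝ)
        rw [abs_sub_comm (2 ^ L * c * d) (y : ℝ)] at h6
        rw [hcd] at h6
        linarith
      have h7 : (2 : ℝ) ^ (L - K₂ - u₀ - 1) ≤ |(y : ℝ)| := by
        have h8 : (2 : ℝ) ^ (L - K₂ - u₀) = 2 * 2 ^ (L - K₂ - u₀ - 1) := by
          rw [← pow_succ']
          congr 1
          omega
        have h9 : (2 : ℝ) ≤ 2 ^ (L - K₂ - u₀ - 1) := by
          calc (2 : ℝ) = 2 ^ 1 := by norm_num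
            _ ≤ 2 ^ (L - K₂ - u₀ - 1) := pow_le_pow_right₀ (by norm_num) (by omega)
        linarith
      have h10 : (((2 : ℤ) ^ (L - K₂ - u₀ - 1) : ℤ) : ℝ) ≤ ((|y| : ℤ) : ℝ) := by
        push_cast
        exact h7
      exact_mod_cast h10
    have hyupp : |y| ≤ (2 : ℤ) ^ (L - K) := by
      have h1 : 2 ^ L * |c| * |d| ≤ 2 ^ (L - K - 1) := by
        have h2 : |c| * |d| ≤ 1 / 2 ^ (K + 1) := by
          calc |c| * |d| ≤ 1 / 2 ^ (K + 1) * 1 :=
                mul_le_mul hupp hd1 (abs_nonneg _) (by positivity)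
            _ = 1 / 2 ^ (K + 1) := mul_one _
        have h3 : (2 : ℝ) ^ (L - K - 1) = 2 ^ L * (1 / 2 ^ (K + 1)) := by
          have h4 : (2 : ℝ) ^ L = 2 ^ (L - K - 1) * 2 ^ (K + 1) := by
            rw [← pow_add]
            congr 1
            omega
          rw [h4]
          field_simp
        rw [h3, mul_assoc]
        exact mul_le_mul_of_nonneg_left h2 (by positivity)
      have h5 : |(y : ℝ)| ≤ 2 ^ (L - K - 1) + 2 := by
        have h6 := abs_sub_abs_le_abs_sub (y : ℝ) (2 ^ L * c * d)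
        rw [hcd] at h6
        linarith
      have h8 : (2 : ℝ) ^ (L - K) = 2 * 2 ^ (L - K - 1) := by
        rw [← pow_succ']
        congr 1
        omega
      have h9 : (2 : ℝ) ≤ 2 ^ (L - K - 1) := by
        calc (2 : ℝ) = 2 ^ 1 := by norm_num
          _ ≤ 2 ^ (L - K - 1) := pow_le_pow_right₀ (by norm_num) (by omega)
      have h10 : ((|y| : ℤ) : ℝ) ≤ (((2 : ℤ) ^ (L - K) : ℤ) : ℝ) := by
        push_cast
        linarith
      exact_mod_cast h10
    have h1 := full_of_tiv hp (Nh s) (V s) (L - K) L (L - K₂ - u₀ - 1) y (2 * e) (Nat.sub_le L K)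
      hylow hyupp (by positivity) (by
        rw [show L - (L - K₂ - u₀ - 1) = K₂ + u₀ + 1 by omega]
        linarith) hTy
    rw [Nat.cast_sub (by omega : K ≤ L)] at h1
    have e1 : ((L : ℝ) - (L - K)) * Real.log 2 - 5 = K * Real.log 2 - 5 := by ring
    rw [e1] at h1
    exact h1
  · left
    push Not at hex
    refine dicc_thm τ Th (K + 1) K₂ u r m hτ hTh hsep
      (by rw [show 2 * (K + 1) + 7 = 2 * K + 9 by ring]; exact hm) hK T G hcard ?_
    intro s hs t₁ h₁ t₂ h₂ hh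
    exact absurd hh.2 (not_le.mpr (hex s hs t₁ h₁ t₂ h₂ hh.1))

end Pool.KX
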