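import Pool.Agent.H87.KX.UTL2
import Pool.Agent.H5.K2.UTLC

/-!
# The unified translation lemma for all base times, for finitely many sampled times

Either the frame is constant up to `2 ^ (-u)` outside a proportion `2 ^ (1 - w)` of the members, or
the first `K` rows of the block are full at all members outside an interval of length `2 ^ (-v)`.
-/

set_option autoImplicit false

namespace Pool.KX

open Finset Real
open Pool.Agent.H49.Ent Pool.Agent.H32.Dense Pool.STK Pool.KAL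

section

variable {ι : Type} [Fintype ι]

/-- Two base times with few displacements. -/
theorem dic2c_thm (τ Th : ι → ℝ) (K K₂ u v r m : ℕ) (hτ : ∀ i, 0 ≤ τ i ∧ τ i ≤ 1)
    (hTh : ∀ i, |Th i| ≤ 1)
    (hsep : ∀ a : ℝ, (univ.filter fun i => a ≤ τ i ∧ τ i < a + 1 / 2 ^ r).card ≤ m)
    (hK : 4 * r + v + u + 7 ≤ K₂) (s s' : ι) (hss : 1 / 2 ^ v ≤ τ s' - τ s) (G : Finset ι)
    (h : ∀ t₁ ∈ G, ∀ t₂ ∈ G, ¬ (1 / 2 ^ K₂ ≤ |cdc τ Th t₁ s - cdc τ Th t₂ s| ∧
        |cdc τ Th t₁ s - cdc τ Th t₂ s| ≤ 1 / 2 ^ K))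
    (h' : ∀ t₁ ∈ G, ∀ t₂ ∈ G, ¬ (1 / 2 ^ K₂ ≤ |cdc τ Th t₁ s' - cdc τ Th t₂ s'| ∧
        |cdc τ Th t₁ s' - cdc τ Th t₂ s'| ≤ 1 / 2 ^ K)) :
    (G.filter fun t => 1 / 2 ^ u < |Th t - Th s|).card ≤ 2 ^ (2 * K + 8) * m := by
  classical
  set n : ℕ := 2 ^ (K + 2) + 1 with hn
  have hlt : τ s < τ s' := by
    have : (0 : ℝ) < 1 / 2 ^ v := by positivity
    linarith
  have hδ : (0 : ℝ) < 1 / 2 ^ K := by positivity
  set δ₂ : ℝ := 1 / 2 ^ K₂ with hδ₂
  have hδ₂0 : 0 < δ₂ := by positivity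
  have hnδ : (4 : ℝ) < n * (1 / 2 ^ K) := by
    rw [mul_one_div, lt_div_iff₀ (by positivity)]
    rw [hn]
    push_cast
    rw [pow_add]
    linarith
  have hdiff : ∀ i j : ι, |τ i - τ j| ≤ 1 := by
    intro i j
    rw [abs_le]
    constructor <;> linarith [(hτ i).1, (hτ i).2, (hτ j).1, (hτ j).2]
  have hcd : ∀ s t : ι, |cdc τ Th t s| ≤ 2 := by
    intro s t
    have h4 : |Th s - Th t| ≤ 2 := by
      refine (abs_sub _ _).trans ?_
      linarith [hTh s, hTh t]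
    unfold cdc
    rw [abs_mul]
    calc _ ≤ 1 * 2 := mul_le_mul (hdiff s t) h4 (abs_nonneg _) zero_le_one
      _ = 2 := by norm_num
  obtain ⟨j, hj1, hj2⟩ := classes' G (fun t => cdc τ Th t s) (1 / 2 ^ K) δ₂ n hδ hnδ
    (fun t _ => hcd s t) h
  obtain ⟨j', hj1', hj2'⟩ := classes' G (fun t => cdc τ Th t s') (1 / 2 ^ K) δ₂ n hδ hnδ
    (fun t _ => hcd s' t) h'
  set Ez : ℕ × ℕ → Finset ι := fun z => G.filter fun t => (j t, j' t) = z with hEz
  set ρ : ℝ := 1 / 2 ^ r with hρ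
  have hρ0 : 0 < ρ := by positivity
  set R : ℝ := 2 ^ r with hR
  have hR1 : 1 ≤ R := one_le_pow₀ (by norm_num)
  have hRρ : ρ * R = 1 := by rw [hρ, hR]; field_simp
  -- points of large classes which are not near `s` are not bad
  have key : ∀ z, 2 * m + 1 ≤ (Ez z).card → ∀ t ∈ Ez z, ρ ≤ |τ s - τ t| →
      |Th t - Th s| ≤ 1 / 2 ^ u := by
    intro z hz t ht hts
    set E := Ez z with hE
    obtain ⟨a, ha, b, hb, c, hc, hab, hbc⟩ := three' τ ρ m hsep E hz
    have hmem : ∀ x ∈ E, x ∈ G ∧ j x = j t ∧ j' x = j' t := by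
      intro x hx
      have h1 := Finset.mem_filter.mp hx
      have h2 := Finset.mem_filter.mp ht
      have h4 := h1.2.trans h2.2.symm
      rw [Prod.mk.injEq] at h4
      exact ⟨h1.1, h4.1, h4.2⟩
    have htG : t ∈ G := (hmem t ht).1
    set A := cdc τ Th t s with hA
    set A' := cdc τ Th t s' with hA'
    set D := (Th s - Th s') with hD
    have hid : ∀ x : ι, D * (τ x) ^ 2 + (-D * (τ s + τ s') + A - A') * τ x +
        (D * τ s * τ s' - A * τ s' + A' * τ s) =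
        (τ s' - τ x) * (cdc τ Th x s - A) - (τ s - τ x) * (cdc τ Th x s' - A') := by
      intro x
      rw [hD]
      unfold cdc
      ring
    have hpol : ∀ x ∈ E, |D * (τ x) ^ 2 + (-D * (τ s + τ s') + A - A') * τ x +
        (D * τ s * τ s' - A * τ s' + A' * τ s)| ≤ 2 * δ₂ := by
      intro x hx
      obtain ⟨h1, h3, h4⟩ := hmem x hx
      have h5 := hj2 x h1 t htG h3
      have h6 := hj2' x h1 t htG h4
      rw [hid]
      refine (abs_sub _ _).trans ?_
      rw [abs_mul, abs_mul]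
      have h8 := mul_le_mul (hdiff s' x) h5.le (abs_nonneg _) zero_le_one
      have h9 := mul_le_mul (hdiff s x) h6.le (abs_nonneg _) zero_le_one
      linarith
    have hlead := lead D (-D * (τ s + τ s') + A - A')
      (D * τ s * τ s' - A * τ s' + A' * τ s) (2 * δ₂) ρ (τ a) (τ b) (τ c) hρ0 hab
      hbc (hpol a ha) (hpol b hb) (hpol c hc)
    have hD0 : 0 ≤ |D| := abs_nonneg _
    have hΔb : |D| ≤ 4 * δ₂ * R ^ 2 := by
      have h2 : |D| * ρ ^ 2 * R ^ 2 ≤ 2 * (2 * δ₂) * R ^ 2 :=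
        mul_le_mul_of_nonneg_right hlead (by positivity)
      have h3 : |D| * ρ ^ 2 * R ^ 2 = |D| * (ρ * R) ^ 2 := by ring
      rw [h3, hRρ, one_pow, mul_one] at h2
      linarith
    -- the linear part
    have hlin : ∀ x ∈ E, |((τ s - τ x) * A' - (τ s' - τ x) * A) / 1| ≤ 2 * δ₂ + |D| := by
      intro x hx
      have h1 := hpol x hx
      have h2 : ((τ s - τ x) * A' - (τ s' - τ x) * A) / 1 =
          (D * (τ x) ^ 2 + (-D * (τ s + τ s') + A - A') * τ x +
            (D * τ s * τ s' - A * τ s' + A' * τ s)) -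
          D * ((τ s' - τ x) * (τ s - τ x)) := by
        ring
      rw [h2]
      refine (abs_sub _ _).trans ?_
      rw [abs_mul, abs_mul]
      have h3 := mul_le_mul (hdiff s' x) (hdiff s x) (abs_nonneg _) zero_le_one
      have h4 := mul_le_mul_of_nonneg_left h3 hD0
      linarith
    have hA1 := lin_small 1 (τ s) (τ s') A A' (2 * δ₂ + |D|) ρ (τ a) (τ b) one_pos hρ0
      (by positivity) hab hlt (hdiff s a) (hlin a ha) (hlin b hb)
    rw [div_one] at hA1
    have hA2 : |A| ≤ 2 ^ v * ((2 * δ₂ + |D|) * (1 + 2 * 1 / ρ)) := by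
      have h1 : 1 ≤ 2 ^ v * (τ s' - τ s) := by
        rw [div_le_iff₀ (by positivity)] at hss
        linarith
      calc |A| = |A| * 1 := (mul_one _).symm
        _ ≤ |A| * (2 ^ v * (τ s' - τ s)) :=
          mul_le_mul_of_nonneg_left h1 (abs_nonneg _)
        _ = 2 ^ v * (|A| * (τ s' - τ s)) := by ring
        _ ≤ _ := mul_le_mul_of_nonneg_left hA1 (by positivity)
    have hMg : 1 + 2 * 1 / ρ ≤ 4 * R := by
      have h1 : 1 / ρ = R := by rw [hρ, hR, one_div_one_div]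
      have h2 : 2 * 1 / ρ = 2 * (1 / ρ) := by ring
      rw [h2, h1]
      linarith
    have h2δ : 2 * δ₂ + |D| ≤ 8 * δ₂ * R ^ 2 := by
      have h1 : (1 : ℝ) ≤ R ^ 2 := one_le_pow₀ hR1
      nlinarith
    have hA3 : |A| ≤ 2 ^ v * (8 * δ₂ * R ^ 2 * (4 * R)) := by
      refine hA2.trans (mul_le_mul_of_nonneg_left ?_ (by positivity))
      refine mul_le_mul h2δ hMg ?_ (by positivity)
      have : 0 < 2 * 1 / ρ := by positivity
      linarith
    -- the frame
    have hfr : |Th t - Th s| * ρ ≤ |A| := by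
      rw [hA]
      unfold cdc
      rw [abs_mul, abs_sub_comm (Th s) (Th t), mul_comm |Th t - Th s|]
      exact mul_le_mul_of_nonneg_right hts (abs_nonneg _)
    have hfr2 : |Th t - Th s| ≤ R * (2 ^ v * (8 * δ₂ * R ^ 2 * (4 * R))) := by
      have h1 : |Th t - Th s| * ρ * R ≤ |A| * R := mul_le_mul_of_nonneg_right hfr (by positivity)
      rw [mul_assoc, hRρ, mul_one] at h1
      refine h1.trans ?_
      rw [mul_comm |A| R]
      exact mul_le_mul_of_nonneg_left hA3 (by positivity)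
    refine hfr2.trans ?_
    have e : R * (2 ^ v * (8 * δ₂ * R ^ 2 * (4 * R))) = 2 ^ (4 * r + v + 5) / 2 ^ K₂ := by
      rw [hδ₂, hR]
      have e1 : (2 : ℝ) ^ (4 * r + v + 5) = (2 ^ r) ^ 4 * 2 ^ v * 32 := by
        rw [pow_add, pow_add, ← pow_mul, show 4 * r = r * 4 by ring]
        norm_num
      rw [e1]
      ring
    rw [e, div_le_div_iff₀ (by positivity) (by positivity), one_mul, ← pow_add]
    exact pow_le_pow_right₀ (by norm_num) (by omega)
  -- counting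
  set Fz : ℕ × ℕ → Finset ι := fun z => if (Ez z).card ≤ 2 * m then Ez z else ∅ with hFz
  have hsub : (G.filter fun t => 1 / 2 ^ u < |Th t - Th s|) ⊆
      ((univ.filter fun i => τ s - ρ ≤ τ i ∧ τ i < τ s - ρ + ρ) ∪
        (univ.filter fun i => τ s ≤ τ i ∧ τ i < τ s + ρ)) ∪
      ((range (n + 1)) ×ˢ (range (n + 1))).biUnion Fz := by
    intro t ht
    have h1 := Finset.mem_filter.mp ht
    rw [Finset.mem_union, Finset.mem_union, Finset.mem_filter, Finset.mem_filter]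
    by_cases hnear : ρ ≤ |τ s - τ t|
    · right
      rw [Finset.mem_biUnion]
      refine ⟨(j t, j' t), ?_, ?_⟩
      · rw [Finset.mem_product, Finset.mem_range, Finset.mem_range]
        exact ⟨Nat.lt_succ_of_le (hj1 t h1.1), Nat.lt_succ_of_le (hj1' t h1.1)⟩
      · have htE : t ∈ Ez (j t, j' t) := Finset.mem_filter.mpr ⟨h1.1, rfl⟩
        have h2 : (Ez (j t, j' t)).card ≤ 2 * m := by
          by_contra hcon
          exact absurd h1.2 (not_lt.mpr (key _ (by omega) t htE hnear))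
        simp only [hFz]
        rw [if_pos h2]
        exact htE
    · left
      have h3 := abs_lt.mp (not_le.mp hnear)
      by_cases h4 : τ s ≤ τ t
      · exact Or.inr ⟨Finset.mem_univ t, h4, by linarith [h3.1]⟩
      · refine Or.inl ⟨Finset.mem_univ t, by linarith [h3.2], ?_⟩
        linarith [not_le.mp h4]
  have h1 := Finset.card_le_card hsub
  have h2 := Finset.card_union_le
    ((univ.filter fun i => τ s - ρ ≤ τ i ∧ τ i < τ s - ρ + ρ) ∪
        (univ.filter fun i => τ s ≤ τ i ∧ τ i < τ s + ρ))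
    (((range (n + 1)) ×ˢ (range (n + 1))).biUnion Fz)
  have h3 := Finset.card_union_le
    (univ.filter fun i => τ s - ρ ≤ τ i ∧ τ i < τ s - ρ + ρ)
    (univ.filter fun i => τ s ≤ τ i ∧ τ i < τ s + ρ)
  have h4 := hsep (τ s - ρ)
  have h5 := hsep (τ s)
  have h6 : (((range (n + 1)) ×ˢ (range (n + 1))).biUnion Fz).card ≤ (n + 1) ^ 2 * (2 * m) := by
    refine Finset.card_biUnion_le.trans ?_
    refine (Finset.sum_le_card_nsmul _ _ (2 * m) fun z _ => ?_).trans ?_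
    · simp only [hFz]
      split_ifs with hz
      · exact hz
      · simp
    · rw [Finset.card_product, Finset.card_range, smul_eq_mul, sq]
  have hn8 : (n + 1) ^ 2 + 1 ≤ 2 ^ (2 * K + 7) := by
    have h1 : n + 1 ≤ 2 ^ (K + 3) := by
      rw [hn, pow_add 2 K 3, pow_add 2 K 2]
      have := Nat.one_le_two_pow (n := K)
      omega
    have h2 : (n + 1) ^ 2 ≤ 2 ^ (2 * K + 6) := by
      calc (n + 1) ^ 2 ≤ (2 ^ (K + 3)) ^ 2 := Nat.pow_le_pow_left h1 2
        _ = 2 ^ (2 * K + 6) := by rw [← pow_mul]; congr 1; ring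
    have h3 : 1 ≤ 2 ^ (2 * K + 6) := Nat.one_le_two_pow
    have h4 : 2 ^ (2 * K + 7) = 2 * 2 ^ (2 * K + 6) := by ring
    omega
  calc (G.filter fun t => 1 / 2 ^ u < |Th t - Th s|).card
      ≤ 2 * m + (n + 1) ^ 2 * (2 * m) := by omega
    _ = ((n + 1) ^ 2 + 1) * (2 * m) := by ring
    _ ≤ 2 ^ (2 * K + 7) * (2 * m) := Nat.mul_le_mul_right _ hn8
    _ = 2 ^ (2 * K + 8) * m := by ring

end

open Classical in
/-- **UTL2C**: the unified translation lemma at one context, for all base members of a cluster. -/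
theorem utl2c_thm (ι : Type) [Fintype ι] (Ω U : Type) [Fintype Ω] (p : Ω → ℝ) (hp : IsLaw p)
    (Nh : ι → Ω → ℤ) (V : ι → Ω → U) (τ Th : ι → ℝ) (K K₂ u v w u₀ L r m : ℕ) (d e : ℝ)
    (x : ι → ι → ℤ) (hτ : ∀ i, 0 ≤ τ i ∧ τ i ≤ 1) (hTh : ∀ i, |Th i| ≤ 1)
    (hsep : ∀ a : ℝ, (univ.filter fun i => a ≤ τ i ∧ τ i < a + 1 / 2 ^ r).card ≤ m)
    (hm : 2 ^ (2 * K + w + 10) * m ≤ Fintype.card ι)
    (hK : 4 * r + v + u + 7 ≤ K₂) (hKK : K ≤ K₂) (hL : K₂ + u₀ + 2 ≤ L)
    (hd : 1 / 2 ^ u₀ ≤ |d|) (hd1 : |d| ≤ 1) (he : 0 ≤ e)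
    (he2 : 18 * 4 ^ (K₂ + u₀ + 1) * e ≤ 1)
    (T : Finset ι) (G : ι → Finset ι)
    (hcard : ∀ s ∈ T, 2 ^ (w + 1) * (Fintype.card ι - (G s).card) ≤ Fintype.card ι)
    (hx : ∀ s ∈ T, ∀ t ∈ G s, |(x t s : ℝ) - 2 ^ L * cdc τ Th t s * d| ≤ 1)
    (hinv : ∀ s ∈ T, ∀ t ∈ G s, TIV p (Nh s) (V s) (x t s) e) :
    (∃ s ∈ T, 2 ^ w * (univ.filter fun t => 1 / 2 ^ u < |Th t - Th s|).card ≤
      2 * Fintype.card ι) ∨
    ∀ s ∈ T, ∀ s' ∈ T, ¬ Full p (Nh s) (V s) K L → ¬ Full p (Nh s') (V s') K L →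
      |τ s' - τ s| < 1 / 2 ^ v := by
  by_cases hex : ∃ s ∈ T, ∃ s' ∈ T, ¬ Full p (Nh s) (V s) K L ∧ ¬ Full p (Nh s') (V s') K L ∧
      1 / 2 ^ v ≤ τ s' - τ s
  · left
    obtain ⟨s, hs, s', hs', hf, hf', hss⟩ := hex
    refine ⟨s, hs, ?_⟩
    have hno : ∀ s ∈ T, ¬ Full p (Nh s) (V s) K L → ∀ t₁ ∈ G s, ∀ t₂ ∈ G s,
        ¬ (1 / 2 ^ K₂ ≤ |cdc τ Th t₁ s - cdc τ Th t₂ s| ∧
          |cdc τ Th t₁ s - cdc τ Th t₂ s| ≤ 1 / 2 ^ (K + 1)) := by
      intro s hs hf t₁ h₁ t₂ h₂ hh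
      exact hf (full_of_pair hp (Nh s) (V s) K K₂ u₀ L _ _ d e (x t₁ s) (x t₂ s) hKK
        hL hd hd1 he he2 (hx s hs t₁ h₁) (hx s hs t₂ h₂) (hinv s hs t₁ h₁) (hinv s hs t₂ h₂)
        hh.1 hh.2)
    have h1 := dic2c_thm τ Th (K + 1) K₂ u v r m hτ hTh hsep hK s s' hss (G s ∩ G s')
      (fun t₁ h₁ t₂ h₂ => hno s hs hf t₁ (Finset.mem_inter.mp h₁).1 t₂ (Finset.mem_inter.mp h₂).1)
      (fun t₁ h₁ t₂ h₂ => hno s' hs' hf' t₁ (Finset.mem_inter.mp h₁).2 t₂
        (Finset.mem_inter.mp h₂).2)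
    have h2 : (univ.filter fun t => 1 / 2 ^ u < |Th t - Th s|) ⊆
        ((G s ∩ G s').filter fun t => 1 / 2 ^ u < |Th t - Th s|) ∪
          ((univ \ G s) ∪ (univ \ G s')) := by
      intro t ht
      have h3 := Finset.mem_filter.mp ht
      rw [Finset.mem_union, Finset.mem_union, Finset.mem_filter, Finset.mem_inter,
        Finset.mem_sdiff, Finset.mem_sdiff]
      by_cases h4 : t ∈ G s
      · by_cases h5 : t ∈ G s'
        · exact Or.inl ⟨⟨h4, h5⟩, h3.2⟩
        · exact Or.inr (Or.inr ⟨h3.1, h5⟩)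
      · exact Or.inr (Or.inl ⟨h3.1, h4⟩)
    have h3 := Finset.card_le_card h2
    have h4 := Finset.card_union_le
      ((G s ∩ G s').filter fun t => 1 / 2 ^ u < |Th t - Th s|)
      ((univ \ G s) ∪ (univ \ G s'))
    have h5 := Finset.card_union_le (univ \ G s) (univ \ G s')
    have h6 : (univ \ G s).card = Fintype.card ι - (G s).card := by
      rw [Finset.card_sdiff_of_subset (Finset.subset_univ _), Finset.card_univ]
    have h7 : (univ \ G s').card = Fintype.card ι - (G s').card := by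
      rw [Finset.card_sdiff_of_subset (Finset.subset_univ _), Finset.card_univ]
    rw [h6, h7] at h5
    have h8 := hcard s hs
    have h9 := hcard s' hs'
    have h10 : (univ.filter fun t => 1 / 2 ^ u < |Th t - Th s|).card ≤
        2 ^ (2 * (K + 1) + 8) * m +
          ((Fintype.card ι - (G s).card) + (Fintype.card ι - (G s').card)) := by omega
    have h11 : 2 ^ w * (univ.filter fun t => 1 / 2 ^ u < |Th t - Th s|).card ≤
        2 ^ w * (2 ^ (2 * (K + 1) + 8) * m) +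
          (2 ^ w * (Fintype.card ι - (G s).card) + 2 ^ w * (Fintype.card ι - (G s').card)) := by
      rw [← Nat.mul_add, ← Nat.mul_add]
      exact Nat.mul_le_mul_left _ h10
    have h12 : 2 ^ (w + 1) = 2 * 2 ^ w := by ring
    rw [h12, Nat.mul_assoc] at h8 h9
    have h13 : 2 ^ w * (2 ^ (2 * (K + 1) + 8) * m) = 2 ^ (2 * K + w + 10) * m := by
      rw [← Nat.mul_assoc, ← pow_add]
      congr 2
      ring
    rw [h13] at h11
    omega
  · right
    intro s hs s' hs' hf hf'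
    push Not at hex
    rw [abs_lt]
    constructor
    · have := hex s' hs' s hs hf' hf
      linarith
    · exact hex s hs s' hs' hf hf'

end Pool.KX
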