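import Pool.Agent.H5.K2.BoxE

/-!
# The frames of the cells and of the windows
-/

set_option autoImplicit false

namespace Pool.K2S

open Finset Real
open Pool.Agent.H49.Ent Pool.Agent.H32.Dense Pool.STK Pool.KA Pool.KA.Win Pool.KA.TRC Rows FF
open Pool.KSAT

namespace Cell

variable {J : ℕ}

/-- The cell is a function of the exact point. -/
theorem exists_cel (F : Fam 2 J) {r : ℕ} (hr : r ≤ J) :
    ∃ φ : ((Fin 2 → ℤ) × (ℕ × F.ζ)) → ((Fin 2 → ℤ) × (ℕ × F.ζ)),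
      ∀ ω, φ (Fam.pt F ω) = cel F r ω := by
  classical
  refine ⟨fun u => if h : ∃ ω, Fam.pt F ω = u then cel F r h.choose else u, fun ω => ?_⟩
  have h : ∃ ω', Fam.pt F ω' = Fam.pt F ω := ⟨ω, rfl⟩
  simp only
  rw [dif_pos h]
  exact pt_cel F hr h.choose_spec

/-- A line of the cells may be normalised. -/
theorem norm_line {F : Fam 2 J} {i₀ : Fin 2} {r : ℕ} {ρ : ℝ} (hρ : 0 ≤ ρ) {A : F.Ω → Prop}
    (h : LineU i₀ ρ (cel F r) F.d A) :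
    ∃ e n : (Fin 2 → ℤ) × (ℕ × F.ζ) → Fin 2 → ℝ, (∀ u, n u i₀ = 0) ∧
      OnL i₀ ρ (cel F r) F.d A e n := by
  obtain ⟨e, n, h⟩ := h
  refine ⟨fun u j => if j = i₀ then 1 else e u j, fun u j => if j = i₀ then 0 else n u j,
    fun u => by simp, fun ω hω j => ?_⟩
  by_cases hj : j = i₀
  · simp only [hj, if_true]
    simpa using hρ
  · simp only [hj, if_false]
    exact h ω hω j

/-- **The frames of the cells and of the windows.** -/
theorem win_frame (F : Fam 2 J) {A : F.Ω → Prop} {i₀ : Fin 2} {w l lam g r hb : ℕ}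
    (hr : r ≤ J) (hlam : lam + (g + 2) ≤ l) (hgb : g + 3 ≤ hb)
    {e₀ n₀ e₁ n₁ e n : (Fin 2 → ℤ) × (ℕ × F.ζ) → Fin 2 → ℝ}
    {ζ : ((Fin 2 → ℝ) × (Fin 2 → ℝ)) × F.ζ × ℕ → Fin 2 → ℝ}
    (hfr : IsFrame i₀ (1 / 2 ^ hb) (Fam.pt F) F.d A e₀ n₀)
    (hsI : SpreadI i₀ (1 / 2 ^ g) (Fam.pt F) F.d A)
    (hon : OnL i₀ (1 / 2 ^ l) (Fam.pt F) F.d A e₁ n₁)
    (hcn : ∀ ω, A ω → ∀ j, |e₁ (Fam.pt F ω) j - ζ (slam F w ω) j| ≤ 1 / 2 ^ l)
    (hS : OnL i₀ (1 / 2 ^ l) (cel F r) F.d A e n) :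
    (∀ ω, A ω → ∀ j, |e (cel F r ω) j| ≤ 3) ∧
    ∃ ζ' : ((Fin 2 → ℝ) × (Fin 2 → ℝ)) × (ℕ × F.ζ) → Fin 2 → ℝ,
      (∀ v j, ∃ k : ℤ, ζ' v j = k / 2 ^ lam) ∧ (∀ v j, |ζ' v j| ≤ 4) ∧
      ∀ ω, A ω → ∀ j, |e (cel F r ω) j - ζ' (wnd F w ω) j| ≤
        ((3 : ℕ) : ℝ) * ((2 : ℝ) ^ lam)⁻¹ := by
  classical
  obtain ⟨φ, hφ⟩ := exists_cel F hr
  have hpg : (0 : ℝ) < 1 / 2 ^ g := by positivity
  have hon' : OnL i₀ (1 / 2 ^ l) (Fam.pt F) F.d A (fun u => e (φ u)) (fun u => n (φ u)) := by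
    intro ω hω j
    have := hS ω hω j
    simp only [hφ]
    exact this
  have hl1 : (1 : ℝ) / 2 ^ l ≤ 1 / 2 ^ g / 4 := by
    rw [div_div]
    refine one_div_le_one_div_of_le (by positivity) ?_
    calc (2 : ℝ) ^ g * 4 = 2 ^ (g + 2) := by rw [pow_add]; norm_num
      _ ≤ _ := pow_le_pow_right₀ (by norm_num) (by omega)
  have hb1 : (1 : ℝ) / 2 ^ hb ≤ 1 / 2 ^ g / 8 := by
    rw [div_div]
    refine one_div_le_one_div_of_le (by positivity) ?_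
    calc (2 : ℝ) ^ g * 8 = 2 ^ (g + 3) := by rw [pow_add]; norm_num
      _ ≤ _ := pow_le_pow_right₀ (by norm_num) hgb
  have hbd : ∀ ω, A ω → ∀ j, |e₁ (Fam.pt F ω) j| ≤ 2 := fun ω hω j =>
    OnL.bound hfr hon hsI hpg (by linarith) ω hω j
  have hlam1 : ((2 : ℝ) ^ lam)⁻¹ ≤ 1 := by
    rw [inv_le_one_iff₀]
    right
    exact one_le_pow₀ (by norm_num)
  have hun : ∀ ω, A ω → ∀ j, |e (cel F r ω) j - e₁ (Fam.pt F ω) j| ≤
      ((2 : ℝ) ^ lam)⁻¹ := by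
    intro ω hω j
    have h1 := hon'.unique hon hsI hpg ω hω j
    simp only [hφ] at h1
    refine h1.trans ?_
    rw [div_le_iff₀ hpg]
    have q2 : (1 : ℝ) / 2 ^ l ≤ 1 / 2 ^ (lam + (g + 2)) :=
      one_div_le_one_div_of_le (by positivity) (pow_le_pow_right₀ (by norm_num) hlam)
    have q3 : ((2 : ℝ) ^ lam)⁻¹ * (1 / 2 ^ g) = 4 * (1 / 2 ^ (lam + (g + 2))) := by
      rw [pow_add, pow_add]
      field_simp
      norm_num
    rw [q3]
    linarith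
  have he3 : ∀ ω, A ω → ∀ j, |e (cel F r ω) j| ≤ 3 := by
    intro ω hω j
    have h1 := hun ω hω j
    have h2 := hbd ω hω j
    have h3 := abs_sub_abs_le_abs_sub (e (cel F r ω) j) (e₁ (Fam.pt F ω) j)
    linarith
  refine ⟨he3, ?_⟩
  -- the frames of the windows
  obtain ⟨G, hG⟩ : ∃ G : ((Fin 2 → ℝ) × (Fin 2 → ℝ)) × (ℕ × F.ζ) → Fin 2 → ℝ,
      G = fun u j => (⌊(2 : ℝ) ^ lam * ζ (u.1, (u.2.2, u.2.1)) j⌋ : ℝ) / 2 ^ lam := ⟨_, rfl⟩
  have hGw : ∀ ω j, |ζ (slam F w ω) j - G (wnd F w ω) j| ≤ ((2 : ℝ) ^ lam)⁻¹ := by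
    intro ω j
    have h2 : slam F w ω = ((wnd F w ω).1, ((wnd F w ω).2.2, (wnd F w ω).2.1)) := rfl
    rw [hG]
    simp only
    rw [← h2]
    exact grid_near lam _
  have hl0 : (1 : ℝ) / 2 ^ l ≤ ((2 : ℝ) ^ lam)⁻¹ := by
    rw [← one_div]
    exact one_div_le_one_div_of_le (by positivity)
      (pow_le_pow_right₀ (by norm_num) (by omega))
  have hclose : ∀ ω, A ω → ∀ j, |e₁ (Fam.pt F ω) j - G (wnd F w ω) j| ≤
      2 * ((2 : ℝ) ^ lam)⁻¹ := by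
    intro ω hω j
    have h1 := hcn ω hω j
    have h2 := hGw ω j
    calc |e₁ (Fam.pt F ω) j - G (wnd F w ω) j| =
          |(e₁ (Fam.pt F ω) j - ζ (slam F w ω) j) + (ζ (slam F w ω) j - G (wnd F w ω) j)| := by
            congr 1
            ring
      _ ≤ _ := (abs_add_le _ _).trans (by linarith)
  have hG4 : ∀ ω, A ω → ∀ j, |G (wnd F w ω) j| ≤ 4 := by
    intro ω hω j
    have h1 := hclose ω hω j
    have h2 := hbd ω hω j
    have h3 := abs_sub_abs_le_abs_sub (G (wnd F w ω) j) (e₁ (Fam.pt F ω) j)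
    rw [abs_sub_comm] at h3
    linarith
  refine ⟨fun u j => if |G u j| ≤ 4 then G u j else 0, ?_, ?_, ?_⟩
  · intro u j
    simp only
    split_ifs
    · rw [hG]
      exact ⟨_, rfl⟩
    · exact ⟨0, by simp⟩
  · intro u j
    simp only
    split_ifs with h
    · exact h
    · simp
  · intro ω hω j
    simp only
    rw [if_pos (hG4 ω hω j)]
    have h2 := hun ω hω j
    have h3 := hclose ω hω j
    push_cast
    calc |e (cel F r ω) j - G (wnd F w ω) j| =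
        |(e (cel F r ω) j - e₁ (Fam.pt F ω) j) +
          (e₁ (Fam.pt F ω) j - G (wnd F w ω) j)| := by
          congr 1
          ring
      _ ≤ _ := (abs_add_le _ _).trans (by linarith)

end Cell

end Pool.K2S
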