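import Pool.Agent.H5.K2.CellS

/-!
# The rows of the chart coordinate are full, given the label of the plank
-/

set_option autoImplicit false

namespace Pool.K2S

open Finset Real
open Pool.Agent.H49.Ent Pool.Agent.H32.Dense Pool.STK Pool.KA Pool.KA.Win Pool.KA.TRC Rows FF
open Pool.KSAT

namespace Cell

/-- **Rows of the chart coordinate in a window, given a label of the window.** -/
theorem pj_rows_core : ∃ C₀ : ℝ, 0 ≤ C₀ ∧ ∀ (J : ℕ) (F : Fam 2 J) (i₀ : Fin 2)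
    (w K N₂ x1 r : ℕ) (e ρ : ℝ) (κ ε : Type) (S : F.Ω → κ) (E : F.Ω → ε),
    r ≤ J → w + N₂ * K ≤ r → F.Tm e → Det F.p (fun ω => (F.l ω, (F.T1 w ω, F.Z ω))) S →
    2 * x1 + 7 ≤ K →
    NonConc F.p (fun ω => F.d ω i₀) E (fun D (v : ℝ) => |D - v| ≤ ((2 : ℝ) ^ x1)⁻¹) ρ →
    Det F.p E (plC (F.pj i₀ w S) K N₂) →
    N₂ * (((K - (2 * x1 + 7) : ℕ) : ℝ) * Real.log 2 -
      4 * (((K - (2 * x1 + 7) : ℕ) : ℝ) * Real.log 2) * ρ - 3 * e - C₀) -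
      2 * (K * Real.log 2 + C₀) ≤
    CH F.p (fun ω => ⌊(2 : ℝ) ^ r * F.x ω i₀⌋)
      (fun ω => (F.T ω, (⌊(2 : ℝ) ^ w * F.x1 w ω i₀⌋, (S ω, F.Z ω)))) := by
  obtain ⟨C₂, hC₂, h2⟩ := rows_thm 0
  refine ⟨C₂, hC₂, ?_⟩
  intro J F i₀ w K N₂ x1 r e ρ κ ε S E hr hJ he hS hK hch hE
  have hp := F.isLaw.nonneg
  have hw : w ≤ J := by omega
  have p2 : (F.pj i₀ w S).Tm e := Pj.pj_Tm F i₀ hw S hS he
  have hc₂ : ∀ i < N₂, Spn 0 (x1 + 2) F.p (F.pj i₀ w S).d (rlab (F.pj i₀ w S) K i) ρ := by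
    intro i hi ω hω v B
    have hic := Plk.interval_conc F (w := w) (Sd := S) (x1 := x1)
        (h := x1 + 2) le_rfl (hch.coarse F.isLaw hE)
        (L := rlab (F.pj i₀ w S) K i)
        (fun ω ω' _ _ e' => plC_rlab (F.pj i₀ w S) K N₂ hi e') ω hω v B
    refine le_trans (le_of_eq (Finset.sum_congr rfl fun ω' _ => ?_)) hic
    by_cases hst : ∃ c : Fin 0 → ℝ, ∀ j, |(F.pj i₀ w S).d ω' j -
          v j - ∑ i, c i * B i j| ≤ 4 / 2 ^ (x1 + 2)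
    · exact (if_pos hst).trans (if_pos hst).symm
    · exact (if_neg hst).trans (if_neg hst).symm
  have q2 := h2 (J - w) (F.pj i₀ w S) K (K - (2 * x1 + 7)) (x1 + 2) N₂ 0 e ρ (by omega) p2
    (by omega) (by omega) hc₂
  have r2 : CH (F.pj i₀ w S).p ((F.pj i₀ w S).X (N₂ * K))
      (fun ω => ((F.pj i₀ w S).X 0 ω, (F.pj i₀ w S).W ω)) ≤
      CH F.p (fun ω => ⌊(2 : ℝ) ^ r * F.x ω i₀⌋)
        (fun ω => (F.T ω, (⌊(2 : ℝ) ^ w * F.x1 w ω i₀⌋, (S ω, F.Z ω)))) := by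
    refine (Pj.pj_row F i₀ hw S (N₂ * K)).trans ?_
    refine CH_mono_left hp (X' := fun ω => ⌊(2 : ℝ) ^ r * F.x ω i₀⌋) ?_
    intro ω ω' _ _ e'
    have e1 : ⌊(2 : ℝ) ^ r * F.x ω i₀⌋ = ⌊(2 : ℝ) ^ r * F.x ω' i₀⌋ := (Prod.ext_iff.mp e').1
    obtain ⟨k, hk⟩ := Nat.exists_eq_add_of_le (show N₂ * K + w ≤ r by omega)
    have e2 : (2 : ℝ) ^ r = 2 ^ (N₂ * K + w + k) := by rw [← hk]
    rw [e2] at e1
    exact Pool.STK.B58.floor_fine (N₂ * K + w) k e1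
  push_cast at q2 ⊢
  have k4 : (0 : ℝ) + 2 = 2 := by norm_num
  have k5 : (0 : ℝ) + 1 = 1 := by norm_num
  have k6 : (0 : ℝ) + 3 = 3 := by norm_num
  rw [k4, k5, k6] at q2
  norm_num at q2
  linarith

/-- **The rows of the chart coordinate, given the plank.** -/
theorem y_rows {b : ℝ} (hb : 0 ≤ b) (q : ℕ) : ∃ C₀ : ℝ, 0 ≤ C₀ ∧
    ∀ (J : ℕ) (F : Fam 2 J) (A : F.Ω → Prop) (i₀ : Fin 2) (w lam r K N₂ x1 : ℕ)
    (κ e rb r₀ : ℝ) (e₀ n₀ : (Fin 2 → ℤ) × (ℕ × F.ζ) → Fin 2 → ℝ)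
    (e' n' : (Fin 2 → ℤ) × (ℕ × F.ζ) → Fin 2 → ℝ)
    (ζ : ((Fin 2 → ℝ) × (Fin 2 → ℝ)) × (ℕ × F.ζ) → Fin 2 → ℝ),
    r ≤ J → w + N₂ * K ≤ r → w + lam ≤ r → 2 * x1 + 7 ≤ K → 0 < Pe F.p A →
    (∀ B : F.Ω → Prop, Sub B A → Pe F.p A / 2 ≤ Pe F.p B →
      ∀ hl : IsLaw (cond F.p B True), (F.res B True hl).Tm e) →
    Stb F.p κ A (Ball rb (Fam.pt F) F.d) → ¬ Ball rb (Fam.pt F) F.d A →
    IsFrame i₀ r₀ (Fam.pt F) F.d A e₀ n₀ → ((2 : ℝ) ^ x1)⁻¹ ≤ rb - r₀ →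
    OnL i₀ ((2 : ℝ) ^ lam)⁻¹ (cel F r) F.d A e' n' →
    (∀ v j, ∃ k : ℤ, ζ v j = k / 2 ^ lam) → (∀ v j, |ζ v j| ≤ b) →
    (∀ ω, A ω → ∀ j, |e' (cel F r ω) j - ζ (wnd F w ω) j| ≤ q * ((2 : ℝ) ^ lam)⁻¹) →
    4 * plcδ q b 0 N₂ + 6 * Real.log 2 ≤ κ →
    ∃ B : F.Ω → Prop, Sub B A ∧ Pe F.p A / 2 ≤ Pe F.p B ∧
      N₂ * (((K - (2 * x1 + 7) : ℕ) : ℝ) * Real.log 2 -
        4 * (((K - (2 * x1 + 7) : ℕ) : ℝ) * Real.log 2) * Real.exp (-(κ / 4)) - 3 * e - C₀) -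
        2 * (K * Real.log 2 + C₀) ≤
      CH (cond F.p B True) (fun ω => ⌊(2 : ℝ) ^ r * F.x ω i₀⌋)
        (fun ω => (F.T ω, F.plab w lam i₀ (fun ω => ζ (wnd F w ω)) ω)) := by
  classical
  obtain ⟨C₀, hC₀, hrows⟩ := pj_rows_core
  refine ⟨C₀, hC₀, ?_⟩
  intro J F A i₀ w lam r K N₂ x1 κ e rb r₀ e₀ n₀ e' n' ζ hr hJ hwl hK hA hTm hBs hBn
    h₀ hx1 hon hgrid hζb hclose hκ
  have hp := F.isLaw
  have hl2 : 0 < Real.log 2 := Real.log_pos one_lt_two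
  -- the constants
  have g1 : 0 ≤ Real.log (4 * (q : ℝ) + 1) := Real.log_nonneg (by
    have : (0 : ℝ) ≤ q := Nat.cast_nonneg q
    linarith)
  have g2 : 0 ≤ Real.log (4 * (q : ℝ) + 7) := Real.log_nonneg (by
    have : (0 : ℝ) ≤ q := Nat.cast_nonneg q
    linarith)
  have g3 : 0 ≤ Real.log (4 * (q : ℝ) + 2 * b + 9) := Real.log_nonneg (by
    have : (0 : ℝ) ≤ q := Nat.cast_nonneg q
    linarith)
  have g4 : 0 ≤ Real.log (2 * b + 5) := Real.log_nonneg (by linarith)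
  have g5 : 0 ≤ Real.log 3 := Real.log_nonneg (by norm_num)
  have g6 := cc_nonneg 2
  have g7 := cc_nonneg 1
  have hN₂0 : (0 : ℝ) ≤ N₂ := Nat.cast_nonneg N₂
  obtain ⟨δ, hδ⟩ : ∃ δ, δ = plcδ q b 0 N₂ := ⟨_, rfl⟩
  have hδv : δ = (2 * 0 + 4) * (2 * Real.log (4 * q + 1) + 2 * Real.log (4 * q + 7) +
      2 * Real.log (4 * q + 2 * b + 9)) + (2 * Real.log (2 * b + 5) + 2 * Real.log 3) +
      cc 2 + (N₂ + 1) * cc 1 + 1 := by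
    rw [hδ, plcδ]
    push_cast
    ring
  have hδ0 : 0 < δ := by
    rw [hδv]
    positivity
  rw [← hδ] at hκ
  obtain ⟨z, hz⟩ : ∃ z : F.Ω → Fin 2 → ℝ, z = fun ω => ζ (wnd F w ω) := ⟨_, rfl⟩
  rw [← hz]
  obtain ⟨L₂, hL₂⟩ : ∃ L₂, L₂ = plC (F.pj i₀ w (F.plab w lam i₀ z)) K N₂ := ⟨_, rfl⟩
  have hLL : ∀ B : F.Ω → Prop, Sub B A → 0 < Pe F.p B →
      CH (cond F.p B True) L₂ (Fam.pt F) ≤ δ := by
    intro B hBA hB0
    have hlB := isLaw_cond hp hB0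
    have hBpos : ∀ ω, 0 < cond F.p B True ω → A ω := by
      intro ω hω
      have := ((cond_pos_iff hp.nonneg B True ω).1 hω).2
      exact hBA ω (by simpa using this)
    have a3 := pjC_cel (F.res B True hlB) (w₂ := w) (lam := lam) (K := K) (N := N₂) (r := r)
      hJ hwl hr (i₀ := i₀) (z := z) hb (fun ω _ i => by rw [hz]; exact hζb _ i)
      (pt := cel F r) (fun _ _ _ _ h => h)
      (e := e') (n := n') (fun ω hω => hon ω (hBpos ω hω)) (q := q)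
      (fun ω hω => by rw [hz]; exact hclose ω (hBpos ω hω))
      (fun ω j => by rw [hz]; exact hgrid _ j)
    push_cast at a3
    have a4 : CH (cond F.p B True) L₂ (cel F r) ≤ 2 * Real.log (4 * q + 1) +
        2 * Real.log (4 * q + 7) + 2 * Real.log (4 * q + 2 * b + 9) + cc 2 +
        (N₂ + 1) * cc 1 := by
      rw [hL₂]
      exact a3
    have a5 : CH (cond F.p B True) L₂ (Fam.pt F) ≤ CH (cond F.p B True) L₂ (cel F r) :=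
      CH_mono_cond hlB.nonneg fun ω ω' _ _ h => pt_cel F hr h
    rw [hδv]
    linarith
  obtain ⟨s1, s2⟩ := Stb.refine hp hBs hBn hA hδ0 hLL (by linarith)
  obtain ⟨κ₁, hκ₁⟩ : ∃ κ₁, κ₁ = κ - (2 * δ + Real.log 2) := ⟨_, rfl⟩
  rw [← hκ₁] at s1
  obtain ⟨c1, c2⟩ := Stb.clean hp (by rw [hκ₁]; linarith : 2 * Real.log 2 ≤ κ₁) hA s1 s2 rfl
  obtain ⟨N₁, hN₁⟩ : ∃ N₁ : F.Ω → Prop, N₁ = Pop (cond F.p A True) F.d
    (fun ω => (Fam.pt F ω, L₂ ω)) (fun D (v : Fin 2 → ℝ) => ∀ j, |D j - v j| ≤ rb)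
    (Real.exp (-(κ₁ / 2))) := ⟨_, rfl⟩
  rw [← hN₁] at c1 c2
  obtain ⟨A₁, hA₁⟩ : ∃ A₁ : F.Ω → Prop, A₁ = fun ω => A ω ∧ ¬ N₁ ω := ⟨_, rfl⟩
  rw [← hA₁] at c2
  have hsub1 : Sub A₁ A := by
    rw [hA₁]
    exact fun ω h => h.1
  have hPA₁ : Real.exp (-Real.log 2) * Pe F.p A ≤ Pe F.p A₁ := by
    rw [hA₁]
    exact Pe_diff c1
  have hhalf : Real.exp (-Real.log 2) = 1 / 2 := by
    rw [Real.exp_neg, Real.exp_log (by norm_num)]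
    norm_num
  have hA₁0 : 0 < Pe F.p A₁ := lt_of_lt_of_le (mul_pos (Real.exp_pos _) hA) hPA₁
  have hPA₁' : Pe F.p A / 2 ≤ Pe F.p A₁ := by
    rw [hhalf] at hPA₁
    linarith
  have hl := isLaw_cond hp hA₁0
  have hchart : NonConc (cond F.p A₁ True) (fun ω => F.d ω i₀)
      (fun ω => (Fam.pt F ω, L₂ ω)) (fun D (v : ℝ) => |D - v| ≤ rb - r₀)
      (Real.exp (-(κ₁ / 2))) := by
    refine NonConc.chart hl (A := A₁) ?_ (e := fun u => e₀ u.1)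
      (n := fun u => n₀ u.1) ⟨fun ω hω => h₀.bound ω (hsub1 ω hω),
        fun ω hω => h₀.line ω (hsub1 ω hω)⟩ c2
    intro ω hω
    have := ((cond_pos_iff hp.nonneg A₁ True ω).1 hω).2
    simpa using this
  refine ⟨A₁, hsub1, hPA₁', ?_⟩
  have hdet : Det F.p (fun ω => (F.l ω, (F.T1 w ω, F.Z ω))) (F.plab w lam i₀ z) := by
    refine plab_Det F le_rfl (by omega) ?_
    intro ω ω' _ _ h
    have h' : wnd F w ω = wnd F w ω' := h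
    rw [hz]
    simp only
    rw [h']
  have key := hrows J (F.res A₁ True hl) i₀ w K N₂ x1 r e (Real.exp (-(κ / 4))) _ _
    (F.plab w lam i₀ z) (fun ω => (Fam.pt F ω, L₂ ω)) hr hJ (hTm A₁ hsub1 hPA₁' hl)
    (fun ω ω' a b h => hdet ω ω' ((cond_pos_iff hp.nonneg A₁ True ω).1 a).1
      ((cond_pos_iff hp.nonneg A₁ True ω').1 b).1 h) hK
    (by
      have h1 := hchart.mono_rho hl (ρ' := Real.exp (-(κ / 4)))
        (Real.exp_le_exp.2 (by rw [hκ₁]; linarith))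
      intro ω hω s
      refine le_trans (mas_mono hl fun ω' _ _ hr' => ?_) (h1 ω hω s)
      exact hr'.trans hx1)
    (by
      intro ω ω' _ _ h
      have h2 : L₂ ω = L₂ ω' := (Prod.ext_iff.mp h).2
      rw [hL₂] at h2
      exact h2)
  refine key.trans ?_
  refine CH_mono_cond hl.nonneg fun ω ω' _ _ h => ?_
  have e1 := Prod.ext_iff.mp h
  have e2 := Prod.ext_iff.mp e1.2
  exact Prod.ext e1.1 (Prod.ext_iff.mp e2.2).1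

end Cell

end Pool.K2S
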